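import Pool.Agent.FSP.Targets

set_option autoImplicit false

/-!
# FSP, job SPC: `InE` is a closed subspace stable under clipping
-/

open MeasureTheory Filter Topology Finset

namespace Pool.Agent.FSP

universe u

namespace SPC_

lemma pow_sub_one (z : ℂ) (hz : ‖z‖ = 1) (k : ℕ) : ‖z ^ k - 1‖ ≤ k * ‖z - 1‖ := by
  induction k with
  | zero => simp
  | succ k ih =>
    have h1 : z ^ (k + 1) - 1 = z ^ k * (z - 1) + (z ^ k - 1) := by ring
    rw [h1]
    refine (norm_add_le _ _).trans ?_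
    rw [norm_mul, norm_pow, hz, one_pow, one_mul]
    push_cast
    linarith

lemma clip_lip (s t : ℝ) : |max 0 (min s 1) - max 0 (min t 1)| ≤ |s - t| := by
  have h1 : |max 0 (min s 1) - max 0 (min t 1)| ≤ |min s 1 - min t 1| := by
    rw [max_comm 0, max_comm 0]
    exact abs_max_sub_max_le_abs _ _ _
  refine h1.trans ?_
  have h2 := abs_min_sub_min_le_max s 1 t 1
  rw [sub_self, abs_zero, max_eq_left (abs_nonneg _)] at h2
  exact h2

variable {Ω : Type u} [MeasurableSpace Ω]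

lemma ap_add {μ : Measure Ω} {T : Ω → Ω} {F : Set (Ω → Circle)} {ε₁ ε₂ : ℝ} {p₁ p₂ : Ω → ℝ}
    (h₁ : AP μ T F ε₁ p₁) (h₂ : AP μ T F ε₂ p₂) : AP μ T F (ε₁ + ε₂) (p₁ + p₂) := by
  obtain ⟨q₁, hq₁, ρ₁, hρ₁, d₁, τ₁, hτ₁, h₁⟩ := h₁
  obtain ⟨q₂, hq₂, ρ₂, hρ₂, d₂, τ₂, hτ₂, h₂⟩ := h₂
  have hq₁' : (0 : ℝ) < q₁ := by exact_mod_cast hq₁
  have hq₂' : (0 : ℝ) < q₂ := by exact_mod_cast hq₂
  refine ⟨q₁ * q₂, Nat.mul_pos hq₁ hq₂, min (ρ₁ / q₂) (ρ₂ / q₁), by positivity, d₁ + d₂,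
    Fin.append τ₁ τ₂, ?_, fun n => ?_⟩
  · intro l
    refine Fin.addCases (fun i => ?_) (fun i => ?_) l
    · rw [Fin.append_left]
      exact hτ₁ i
    · rw [Fin.append_right]
      exact hτ₂ i
  · filter_upwards [h₁ (q₂ * n), h₂ (q₁ * n)] with x hx₁ hx₂ hx
    have e₁ : x ∈ bohr τ₁ ρ₁ (q₂ * n) := by
      intro l
      have h3 := hx (Fin.castAdd d₂ l)
      rw [Fin.append_left] at h3
      have h4 := pow_sub_one (((τ₁ l x : Circle) : ℂ) ^ n)
        (by rw [norm_pow, Circle.norm_coe, one_pow]) q₂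
      rw [← pow_mul, mul_comm n q₂] at h4
      refine h4.trans ?_
      have h5 := h3.trans (min_le_left _ _)
      rw [le_div_iff₀ hq₂'] at h5
      linarith
    have e₂ : x ∈ bohr τ₂ ρ₂ (q₁ * n) := by
      intro l
      have h3 := hx (Fin.natAdd d₁ l)
      rw [Fin.append_right] at h3
      have h4 := pow_sub_one (((τ₂ l x : Circle) : ℂ) ^ n)
        (by rw [norm_pow, Circle.norm_coe, one_pow]) q₁
      rw [← pow_mul, mul_comm n q₁] at h4
      refine h4.trans ?_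
      have h5 := h3.trans (min_le_right _ _)
      rw [le_div_iff₀ hq₁'] at h5
      linarith
    have f₁ := hx₁ e₁
    have f₂ := hx₂ e₂
    have g₁ : q₁ * (q₂ * n) = q₁ * q₂ * n := by ring
    have g₂ : q₂ * (q₁ * n) = q₁ * q₂ * n := by ring
    rw [g₁] at f₁
    rw [g₂] at f₂
    have e : (p₁ + p₂) (T^[q₁ * q₂ * n] x) - (p₁ + p₂) x =
        (p₁ (T^[q₁ * q₂ * n] x) - p₁ x) + (p₂ (T^[q₁ * q₂ * n] x) - p₂ x) := by
      simp only [Pi.add_apply]
      ring
    rw [e]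
    exact (abs_add_le _ _).trans (add_le_add f₁ f₂)

end SPC_

theorem p_SPC : T_SPC.{u} := by
  intro Ω _ μ _ T F Z
  refine ⟨?_, ?_, ?_, ?_, ?_⟩
  · intro h h' H H' ε hε
    obtain ⟨p₁, hm₁, hz₁, ha₁, hp₁, hn₁⟩ := H (ε / 2) (by positivity)
    obtain ⟨p₂, hm₂, hz₂, ha₂, hp₂, hn₂⟩ := H' (ε / 2) (by positivity)
    refine ⟨p₁ + p₂, hm₁.add hm₂, ?_, ?_, hp₁.add hp₂, ?_⟩
    · intro x hx
      simp [hz₁ x hx, hz₂ x hx]
    · have := SPC_.ap_add ha₁ ha₂
      rwa [add_halves] at this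
    · rw [MemLp.toLp_add hp₁ hp₂]
      have e : h + h' - (hp₁.toLp p₁ + hp₂.toLp p₂) =
          (h - hp₁.toLp p₁) + (h' - hp₂.toLp p₂) := by abel
      rw [e]
      refine (norm_add_le _ _).trans ?_
      linarith
  · intro c h H ε hε
    obtain ⟨p, hm, hz, ⟨q, hq, ρ, hρ, d, τ, hτ, ha⟩, hp, hn⟩ :=
      H (ε / (|c| + 1)) (by positivity)
    have hc : |c| * (ε / (|c| + 1)) ≤ ε := by
      have h1 : 0 < |c| + 1 := by positivity
      rw [mul_div_assoc', div_le_iff₀ h1]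
      nlinarith [abs_nonneg c]
    refine ⟨c • p, hm.const_smul c, ?_, ⟨q, hq, ρ, hρ, d, τ, hτ, fun n => ?_⟩,
      hp.const_smul c, ?_⟩
    · intro x hx
      simp [hz x hx]
    · filter_upwards [ha n] with x hx hb
      have h1 := hx hb
      have e : (c • p) (T^[q * n] x) - (c • p) x = c * (p (T^[q * n] x) - p x) := by
        simp only [Pi.smul_apply, smul_eq_mul]
        ring
      rw [e, abs_mul]
      exact (mul_le_mul_of_nonneg_left h1 (abs_nonneg c)).trans hc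
    · rw [MemLp.toLp_const_smul, ← smul_sub, norm_smul, Real.norm_eq_abs]
      exact (mul_le_mul_of_nonneg_left hn (abs_nonneg c)).trans hc
  · intro ε hε
    refine ⟨0, measurable_zero, fun x _ => rfl, ⟨1, le_rfl, 1, one_pos, 0, Fin.elim0,
      fun l => l.elim0, fun n => ?_⟩, MemLp.zero, ?_⟩
    · filter_upwards with x hx
      simp [hε.le]
    · have : (MemLp.zero (μ := μ) (p := 2) (ε := ℝ)).toLp (0 : Ω → ℝ) = 0 := MemLp.toLp_zero _
      rw [this, sub_zero, norm_zero]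
      exact hε.le
  · intro h H ε hε
    obtain ⟨h', H', hn⟩ := H (ε / 2) (by positivity)
    obtain ⟨p, hm, hz, ⟨q, hq, ρ, hρ, d, τ, hτ, ha⟩, hp, hn'⟩ := H' (ε / 2) (by positivity)
    refine ⟨p, hm, hz, ⟨q, hq, ρ, hρ, d, τ, hτ, fun n => ?_⟩, hp, ?_⟩
    · filter_upwards [ha n] with x hx hb
      have := hx hb
      linarith
    · have e : h - hp.toLp p = (h - h') + (h' - hp.toLp p) := by abel
      rw [e]
      refine (norm_add_le _ _).trans ?_
      linarith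
  · intro h h' H hcl ε hε
    obtain ⟨p, hm, hz, ⟨q, hq, ρ, hρ, d, τ, hτ, ha⟩, hp, hn⟩ := H ε hε
    have hm' : Measurable fun x => max 0 (min (p x) 1) :=
      measurable_const.max (hm.min measurable_const)
    have hp' : MemLp (fun x => max 0 (min (p x) 1)) 2 μ := by
      refine hp.mono hm'.aestronglyMeasurable (Eventually.of_forall fun x => ?_)
      have := SPC_.clip_lip (p x) 0
      simpa using this
    refine ⟨fun x => max 0 (min (p x) 1), hm', ?_, ⟨q, hq, ρ, hρ, d, τ, hτ, fun n => ?_⟩,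
      hp', ?_⟩
    · intro x hx
      simp [hz x hx]
    · filter_upwards [ha n] with x hx hb
      exact (SPC_.clip_lip _ _).trans (hx hb)
    · refine (Lp.norm_le_norm_of_ae_le ?_).trans hn
      filter_upwards [hcl, Lp.coeFn_sub h' (hp'.toLp _), Lp.coeFn_sub h (hp.toLp p),
        hp'.coeFn_toLp, hp.coeFn_toLp] with x h1 h2 h3 h4 h5
      rw [h2, h3]
      simp only [Pi.sub_apply]
      rw [h1, h4, h5]
      exact SPC_.clip_lip _ _

end Pool.Agent.FSP
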