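import Pool.Agent.FSP.Targets

set_option autoImplicit false

/-!
# FSP: averages are rarely small (target ASL)
-/

open MeasureTheory Filter Topology Finset

namespace Pool.Agent.FSP

universe u

namespace ASL_

section

variable {Ω : Type u}

theorem one_nonneg (X : Set Ω) (x : Ω) : 0 ≤ one X x :=
  Set.indicator_nonneg (fun _ _ => zero_le_one) x

theorem one_le (X : Set Ω) (x : Ω) : one X x ≤ 1 :=
  Set.indicator_le_self' (fun _ _ => zero_le_one) x

theorem one_mono {X Y : Set Ω} (h : Y ⊆ X) (x : Ω) : one Y x ≤ one X x :=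
  Set.indicator_le_indicator_of_subset h (fun _ => zero_le_one) x

theorem one_of_mem {X : Set Ω} {x : Ω} (h : x ∈ X) : one X x = 1 :=
  Set.indicator_of_mem h _

theorem one_of_not_mem {X : Set Ω} {x : Ω} (h : x ∉ X) : one X x = 0 :=
  Set.indicator_of_notMem h _

theorem abs_one (X : Set Ω) (x : Ω) : |one X x| ≤ 1 := by
  rw [abs_of_nonneg (one_nonneg X x)]
  exact one_le X x

end

section

variable {Ω : Type u} [MeasurableSpace Ω]

theorem meas_one {X : Set Ω} (hX : MeasurableSet X) : Measurable (one X) :=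
  measurable_const.indicator hX

theorem meas_tu {ι : Type} [Fintype ι] (a : ι → ℝ) (χ : ι → Ω → Circle)
    (hχ : ∀ i, Measurable (χ i)) : Measurable (tu a χ) := by
  unfold tu
  refine Finset.measurable_sum _ fun i _ => ?_
  exact (meas_one (hχ i (measurableSet_singleton (1 : Circle)))).const_mul (a i)

theorem meas_tw {ι : Type} [Fintype ι] (a : ι → ℝ) (χ : ι → Ω → Circle)
    (hχ : ∀ i, Measurable (χ i)) (n : ℕ) : Measurable fun x => tw a χ x n := by
  unfold tw
  refine Finset.measurable_sum _ fun i _ => ?_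
  have h1 : Measurable fun z : Circle => ((z : ℂ) ^ n).re :=
    (by fun_prop : Continuous fun z : Circle => ((z : ℂ) ^ n).re).measurable
  exact (h1.comp (hχ i)).const_mul (a i)

omit [MeasurableSpace Ω] in
theorem abs_tw {ι : Type} [Fintype ι] (a : ι → ℝ) (χ : ι → Ω → Circle) (x : Ω) (n : ℕ) :
    |tw a χ x n| ≤ ∑ i, |a i| := by
  unfold tw
  refine (Finset.abs_sum_le_sum_abs _ _).trans (Finset.sum_le_sum fun i _ => ?_)
  rw [abs_mul]
  refine mul_le_of_le_one_right (abs_nonneg _) ?_
  refine (Complex.abs_re_le_norm _).trans ?_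
  rw [norm_pow, Circle.norm_coe, one_pow]

theorem meas_wav {S : Ω → Ω} (hS : Measurable S) {ι : Type} [Fintype ι] (a : ι → ℝ)
    (χ : ι → Ω → Circle) (hχ : ∀ i, Measurable (χ i)) {X : Set Ω} (hX : MeasurableSet X)
    (N s : ℕ) : Measurable fun x => wav S (tw a χ) (one X) N s x := by
  unfold wav
  refine (Finset.measurable_sum _ fun n _ => ?_).const_mul _
  exact (meas_tw a χ hχ (s + n)).mul ((meas_one hX).comp (hS.iterate (s + n)))

omit [MeasurableSpace Ω] in
theorem abs_wav (S : Ω → Ω) {ι : Type} [Fintype ι] (a : ι → ℝ)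
    (χ : ι → Ω → Circle) (X : Set Ω) (N s : ℕ) (x : Ω) :
    |wav S (tw a χ) (one X) N s x| ≤ ∑ i, |a i| := by
  have hC : 0 ≤ ∑ i, |a i| := Finset.sum_nonneg fun i _ => abs_nonneg _
  unfold wav
  rw [abs_mul, abs_of_nonneg (inv_nonneg.2 (Nat.cast_nonneg N))]
  have h1 : |∑ n ∈ range N, tw a χ x (s + n) * one X (S^[s + n] x)| ≤ N * ∑ i, |a i| := by
    refine (Finset.abs_sum_le_sum_abs _ _).trans ?_
    have : ∑ n ∈ range N, |tw a χ x (s + n) * one X (S^[s + n] x)| ≤
        ∑ n ∈ range N, ∑ i, |a i| := by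
      refine Finset.sum_le_sum fun n _ => ?_
      rw [abs_mul]
      calc |tw a χ x (s + n)| * |one X (S^[s + n] x)| ≤ (∑ i, |a i|) * 1 :=
            mul_le_mul (abs_tw a χ x (s + n)) (abs_one X _) (abs_nonneg _) hC
        _ = _ := mul_one _
    refine this.trans ?_
    rw [Finset.sum_const, card_range, nsmul_eq_mul]
  rcases Nat.eq_zero_or_pos N with h0 | h0
  · subst h0
    simpa using hC
  · have hN : (0 : ℝ) < N := by exact_mod_cast h0
    calc (N : ℝ)⁻¹ * |∑ n ∈ range N, tw a χ x (s + n) * one X (S^[s + n] x)|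
        ≤ (N : ℝ)⁻¹ * (N * ∑ i, |a i|) := mul_le_mul_of_nonneg_left h1 (inv_nonneg.2 hN.le)
      _ = _ := by rw [← mul_assoc, inv_mul_cancel₀ hN.ne', one_mul]

omit [MeasurableSpace Ω] in
theorem wav_mono (S : Ω → Ω) {ι : Type} [Fintype ι] (a : ι → ℝ)
    (χ : ι → Ω → Circle) (hw : ∀ x n, 0 ≤ tw a χ x n) {X Y : Set Ω} (h : Y ⊆ X) (N s : ℕ)
    (x : Ω) : wav S (tw a χ) (one Y) N s x ≤ wav S (tw a χ) (one X) N s x := by
  unfold wav
  refine mul_le_mul_of_nonneg_left ?_ (inv_nonneg.2 (Nat.cast_nonneg N))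
  exact Finset.sum_le_sum fun n _ => mul_le_mul_of_nonneg_left (one_mono h _) (hw _ _)

end

end ASL_

open ASL_ in
theorem p_ASL (h_SLA : T_SLA.{u}) (h_SLB : T_SLB.{u}) : T_ASL.{u} := by
  intro Ω _ μ _ S hS ι _ a χ X ha hχ hX hC hw hu δ hδ
  obtain ⟨M, hM, hMi, hlim⟩ := h_SLA Ω μ S hS ι a χ X hχ hX hC (one X) (meas_one hX) (abs_one X)
  have htu := meas_tu a χ hχ
  obtain ⟨Y, hYd⟩ : ∃ Y, Y = X ∩ {x | M x < 2 * δ * tu a χ x} := ⟨_, rfl⟩
  have hYm : MeasurableSet Y := by
    rw [hYd]
    exact hX.inter (measurableSet_lt hM (htu.const_mul _))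
  have hYX : Y ⊆ X := by rw [hYd]; exact Set.inter_subset_left
  have hint : ∀ (Z : Set Ω), MeasurableSet Z → ∀ N s : ℕ,
      Integrable (fun x => wav S (tw a χ) (one Z) N s x) μ := fun Z hZ N s =>
    Integrable.of_bound (meas_wav hS.measurable a χ hχ hZ N s).aestronglyMeasurable
      (∑ i, |a i|) (Eventually.of_forall fun x => by
        rw [Real.norm_eq_abs]; exact abs_wav S a χ Z N s x)
  have hone : ∀ (Z : Set Ω), MeasurableSet Z → ∀ g : Ω → ℝ,
      ∫ x, one Z x * g x ∂μ = ∫ x in Z, g x ∂μ := by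
    intro Z hZ g
    rw [← integral_indicator hZ]
    refine integral_congr_ae (Eventually.of_forall fun x => ?_)
    by_cases h : x ∈ Z
    · simp [one_of_mem h, Set.indicator_of_mem h]
    · simp [one_of_not_mem h, Set.indicator_of_notMem h]
  -- the set `Y` is small
  have hY : μ.real Y ≤ 2 * δ := by
    have key : ∀ ε : ℝ, 0 < ε → (μ.real Y) ^ 2 ≤ 2 * δ * μ.real Y + 2 * ε := by
      intro ε hε
      obtain ⟨N₁, hN₁⟩ := hlim ε hε
      obtain ⟨N₂, hN₂⟩ := h_SLB Ω μ S hS ι a χ X ha hχ hX hC hu Y hYm hYX ε hε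
      have g1 := hN₁ (max N₁ N₂) (le_max_left _ _) 0
      have g2 := hN₂ (max N₁ N₂) (le_max_right _ _)
      obtain ⟨N, hN⟩ : ∃ N, N = max N₁ N₂ := ⟨_, rfl⟩
      rw [← hN] at g1 g2
      have g3 : ∫ x, one Y x * ((tu a χ x)⁻¹ * wav S (tw a χ) (one Y) N 0 x) ∂μ ≤
          ∫ x, (one Y x * (2 * δ) +
            one X x * |wav S (tw a χ) (one X) N 0 x - M x|) ∂μ := by
        refine integral_mono ?_ ?_ fun x => ?_
        · refine Integrable.of_bound (((meas_one hYm).mul ((htu.inv).mul
            (meas_wav hS.measurable a χ hχ hYm N 0))).aestronglyMeasurable)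
            (∑ i, |a i|) (Eventually.of_forall fun x => ?_)
          rw [Real.norm_eq_abs, abs_mul, abs_mul]
          have e1 : |(tu a χ x)⁻¹| ≤ 1 := by
            rw [abs_of_nonneg (inv_nonneg.2 (zero_le_one.trans (hu x)))]
            exact inv_le_one_of_one_le₀ (hu x)
          have e2 := abs_wav S a χ Y N 0 x
          have e3 := abs_one Y x
          calc |one Y x| * (|(tu a χ x)⁻¹| * |wav S (tw a χ) (one Y) N 0 x|)
              ≤ 1 * (1 * ∑ i, |a i|) := by
                refine mul_le_mul e3 (mul_le_mul e1 e2 (abs_nonneg _) zero_le_one)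
                  (by positivity) zero_le_one
            _ = _ := by rw [one_mul, one_mul]
        · refine Integrable.add ?_ ?_
          · exact Integrable.of_bound ((meas_one hYm).mul_const _).aestronglyMeasurable
              (2 * δ) (Eventually.of_forall fun x => by
                rw [Real.norm_eq_abs, abs_mul, abs_of_nonneg (by positivity : 0 ≤ 2 * δ)]
                exact mul_le_of_le_one_left (by positivity) (abs_one Y x))
          · refine Integrable.bdd_mul (c := 1) ((hint X hX N 0).sub hMi).abs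
              (meas_one hX).aestronglyMeasurable (Eventually.of_forall fun x => ?_)
            rw [Real.norm_eq_abs]
            exact abs_one X x
        · by_cases hx : x ∈ Y
          · have hxX : x ∈ X := hYX hx
            have hxM : M x < 2 * δ * tu a χ x := by
              rw [hYd] at hx
              exact hx.2
            simp only [one_of_mem hx, one_of_mem hxX, one_mul]
            have t0 : 0 < tu a χ x := zero_lt_one.trans_le (hu x)
            have t1 : (tu a χ x)⁻¹ ≤ 1 := inv_le_one_of_one_le₀ (hu x)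
            have t2 : 0 ≤ (tu a χ x)⁻¹ := inv_nonneg.2 t0.le
            have t3 := wav_mono S a χ hw hYX N 0 x
            have t4 : wav S (tw a χ) (one X) N 0 x ≤
                2 * δ * tu a χ x + |wav S (tw a χ) (one X) N 0 x - M x| := by
              have := le_abs_self (wav S (tw a χ) (one X) N 0 x - M x)
              linarith
            calc (tu a χ x)⁻¹ * wav S (tw a χ) (one Y) N 0 x
                ≤ (tu a χ x)⁻¹ * (2 * δ * tu a χ x +
                  |wav S (tw a χ) (one X) N 0 x - M x|) :=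
                  mul_le_mul_of_nonneg_left (t3.trans t4) t2
              _ = 2 * δ + (tu a χ x)⁻¹ * |wav S (tw a χ) (one X) N 0 x - M x| := by
                  field_simp
              _ ≤ 2 * δ + |wav S (tw a χ) (one X) N 0 x - M x| := by
                  have := mul_le_of_le_one_left
                    (abs_nonneg (wav S (tw a χ) (one X) N 0 x - M x)) t1
                  linarith
          · simp only [one_of_not_mem hx, zero_mul, zero_add]
            exact mul_nonneg (one_nonneg X x) (abs_nonneg _)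
      have g4 : ∫ x, (one Y x * (2 * δ) +
            one X x * |wav S (tw a χ) (one X) N 0 x - M x|) ∂μ =
          2 * δ * μ.real Y + ∫ x in X, |wav S (tw a χ) (one X) N 0 x - M x| ∂μ := by
        rw [integral_add]
        · rw [hone Y hYm, hone X hX, setIntegral_const, smul_eq_mul, mul_comm]
        · exact Integrable.of_bound ((meas_one hYm).mul_const _).aestronglyMeasurable
            (2 * δ) (Eventually.of_forall fun x => by
              rw [Real.norm_eq_abs, abs_mul, abs_of_nonneg (by positivity : 0 ≤ 2 * δ)]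
              exact mul_le_of_le_one_left (by positivity) (abs_one Y x))
        · refine Integrable.bdd_mul (c := 1) ((hint X hX N 0).sub hMi).abs
            (meas_one hX).aestronglyMeasurable (Eventually.of_forall fun x => ?_)
          rw [Real.norm_eq_abs]
          exact abs_one X x
      linarith
    by_contra hcon
    push Not at hcon
    have h1 : 0 < μ.real Y := lt_trans (by positivity) hcon
    have h2 : 0 < μ.real Y * (μ.real Y - 2 * δ) := mul_pos h1 (by linarith)
    have h3 := key (μ.real Y * (μ.real Y - 2 * δ) / 4) (by positivity)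
    nlinarith
  obtain ⟨N₀, hN₀⟩ := hlim (δ ^ 2) (by positivity)
  refine ⟨N₀, fun N hN s => ?_⟩
  have g1 := hN₀ N hN s
  obtain ⟨B, hB⟩ : ∃ B, B = {x | δ ≤ |wav S (tw a χ) (one X) N s x - M x|} := ⟨_, rfl⟩
  have hBm : MeasurableSet B := by
    rw [hB]
    exact measurableSet_le measurable_const
      (((meas_wav hS.measurable a χ hχ hX N s).sub hM).abs)
  have hsub : {x | x ∈ X ∧ wav S (tw a χ) (one X) N s x < δ * tu a χ x} ⊆ Y ∪ (B ∩ X) := by
    intro x hx
    obtain ⟨hxX, hxw⟩ := hx
    by_cases hxY : x ∈ Y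
    · exact Or.inl hxY
    · refine Or.inr ⟨?_, hxX⟩
      have h1 : 2 * δ * tu a χ x ≤ M x := by
        by_contra hcon
        push Not at hcon
        apply hxY
        rw [hYd]
        exact ⟨hxX, hcon⟩
      rw [hB]
      change δ ≤ _
      have h2 : δ ≤ δ * tu a χ x := le_mul_of_one_le_right hδ.le (hu x)
      rw [abs_sub_comm]
      refine le_trans ?_ (le_abs_self _)
      linarith
  have hBX : μ.real (B ∩ X) ≤ δ := by
    have h1 := mul_meas_ge_le_integral_of_nonneg (μ := μ.restrict X)
      (f := fun x => |wav S (tw a χ) (one X) N s x - M x|)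
      (Eventually.of_forall fun x => abs_nonneg _)
      (((hint X hX N s).sub hMi).abs.restrict) δ
    rw [← hB, measureReal_restrict_apply hBm] at h1
    have h2 : δ * μ.real (B ∩ X) ≤ δ * δ := by
      calc δ * μ.real (B ∩ X) ≤ δ ^ 2 := h1.trans g1
        _ = δ * δ := sq δ
    exact le_of_mul_le_mul_left h2 hδ
  calc μ.real {x | x ∈ X ∧ wav S (tw a χ) (one X) N s x < δ * tu a χ x}
      ≤ μ.real (Y ∪ (B ∩ X)) := measureReal_mono hsub
    _ ≤ μ.real Y + μ.real (B ∩ X) := measureReal_union_le _ _
    _ ≤ 3 * δ := by linarith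

end Pool.Agent.FSP
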