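import Pool.Agent.FSP.Targets

set_option autoImplicit false

/-!
# FSP: BFN, a function constant along orbits agrees with an invariant function
-/

open MeasureTheory Filter Topology Finset

universe u

namespace Pool.Agent.FSP

namespace BFN_

variable {Ω : Type u} [MeasurableSpace Ω]

/-- the conditions: no hit at all, or a hit at time `n - 1` -/
def pp (S : Ω → Ω) (X : Set Ω) : ℕ → Ω → Prop
  | 0, x => ∀ h : ℕ, S^[h] x ∉ X
  | n + 1, x => S^[n] x ∈ X

/-- the values -/
noncomputable def ff (S : Ω → Ω) (χ : Ω → Circle) : ℕ → Ω → Circle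
  | 0, _ => 1
  | n + 1, x => χ (S^[n] x)

omit [MeasurableSpace Ω] in
theorem ex (S : Ω → Ω) (X : Set Ω) (x : Ω) : ∃ n, pp S X n x := by
  by_cases h : ∃ n, S^[n] x ∈ X
  · obtain ⟨n, hn⟩ := h
    exact ⟨n + 1, hn⟩
  · push Not at h
    exact ⟨0, h⟩

open Classical in
/-- the value at the first hit -/
noncomputable def bb (S : Ω → Ω) (χ : Ω → Circle) (X : Set Ω) (x : Ω) : Circle :=
  ff S χ (Nat.find (ex S X x)) x

theorem bb_meas {S : Ω → Ω} (hS : Measurable S) {χ : Ω → Circle} (hχ : Measurable χ) {X : Set Ω}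
    (hX : MeasurableSet X) : Measurable (bb S χ X) := by
  classical
  have h1 : ∀ n, Measurable (ff S χ n) := by
    intro n
    cases n with
    | zero => exact measurable_const
    | succ n => exact hχ.comp (hS.iterate n)
  have h2 : ∀ n, MeasurableSet {x | pp S X n x} := by
    intro n
    cases n with
    | zero =>
      have : {x | pp S X 0 x} = ⋂ h : ℕ, (S^[h] ⁻¹' X)ᶜ := by
        ext x
        simp [pp]
      rw [this]
      exact MeasurableSet.iInter fun h => ((hS.iterate h) hX).compl
    | succ n => exact (hS.iterate n) hX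
  have := Measurable.find h1 h2 (ex S X)
  convert this with x
  unfold bb
  congr!

omit [MeasurableSpace Ω] in
theorem bb_hit (S : Ω → Ω) (χ : Ω → Circle) (X : Set Ω) (x : Ω) (h : ℕ) (hx : S^[h] x ∈ X)
    (hl : ∀ m < h, S^[m] x ∉ X) : bb S χ X x = χ (S^[h] x) := by
  classical
  have h1 : Nat.find (ex S X x) = h + 1 := by
    rw [Nat.find_eq_iff]
    refine ⟨hx, fun n hn hp => ?_⟩
    cases n with
    | zero => exact hp h hx
    | succ n => exact hl n (by omega) hp
  have h2 : bb S χ X x = ff S χ (Nat.find (ex S X x)) x := by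
    unfold bb
    congr!
  rw [h2, h1]
  rfl

omit [MeasurableSpace Ω] in
theorem bb_no (S : Ω → Ω) (χ : Ω → Circle) (X : Set Ω) (x : Ω) (hx : ∀ h : ℕ, S^[h] x ∉ X) :
    bb S χ X x = 1 := by
  classical
  have h1 : Nat.find (ex S X x) = 0 := by
    rw [Nat.find_eq_iff]
    exact ⟨hx, fun n hn => absurd hn (by omega)⟩
  have h2 : bb S χ X x = ff S χ (Nat.find (ex S X x)) x := by
    unfold bb
    congr!
  rw [h2, h1]
  rfl

end BFN_

open BFN_ in
theorem p_BFN : T_BFN.{u} := by
  classical
  intro Ω _ μ _ S hS χ X hχ hX hO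
  refine ⟨bb S χ X, bb_meas hS.measurable hχ hX, ?_, ?_⟩
  · have hrec := hS.conservative.ae_mem_imp_frequently_image_mem hX.nullMeasurableSet
    have hO' : ∀ᵐ x ∂μ, ∀ h : ℕ, x ∈ X → S^[h] x ∈ X → χ (S^[h] x) = χ x := ae_all_iff.2 hO
    filter_upwards [hrec, hO'] with y h1 h2
    by_cases hy : ∃ h, S^[h] y ∈ X
    · have hm := Nat.find_spec hy
      have hl : ∀ m < Nat.find hy, S^[m] y ∉ X := fun m hm => Nat.find_min hy hm
      rcases Nat.eq_zero_or_pos (Nat.find hy) with h0 | h0
      · rw [h0] at hm
        have hyX : y ∈ X := hm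
        have hb : bb S χ X y = χ y := bb_hit S χ X y 0 hm (fun m hm => absurd hm (by omega))
        have hf := (h1 hyX).forall_exists_of_atTop 1
        have hex : ∃ h, S^[h] (S y) ∈ X := by
          obtain ⟨n, hn1, hn⟩ := hf
          refine ⟨n - 1, ?_⟩
          rw [← Function.iterate_succ_apply]
          have : (n - 1).succ = n := by omega
          rw [this]
          exact hn
        have hm2 := Nat.find_spec hex
        have hl2 : ∀ m < Nat.find hex, S^[m] (S y) ∉ X := fun m hm => Nat.find_min hex hm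
        rw [hb, bb_hit S χ X (S y) _ hm2 hl2, ← Function.iterate_succ_apply]
        refine h2 _ hyX ?_
        rw [Function.iterate_succ_apply]
        exact hm2
      · obtain ⟨k, hk⟩ : ∃ k, Nat.find hy = k + 1 := ⟨Nat.find hy - 1, by omega⟩
        rw [hk] at hm hl
        rw [bb_hit S χ X y _ hm hl]
        rw [bb_hit S χ X (S y) k hm]
        · rfl
        · intro m hmk h
          exact hl (m + 1) (by omega) h
    · push Not at hy
      rw [bb_no S χ X y hy, bb_no S χ X (S y) fun h => hy (h + 1)]
  · refine Eventually.of_forall fun x hx => ?_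
    exact bb_hit S χ X x 0 hx (fun m hm => absurd hm (by omega))

end Pool.Agent.FSP
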