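import Pool.Agent.FSP.Targets

set_option autoImplicit false

/-!
# FSP-CEX: conditional expectations of shifted functions
-/

open MeasureTheory Filter Topology Finset

namespace Pool.Agent.FSP

universe u

namespace CEX_

variable {Ω : Type u} [MeasurableSpace Ω] {μ : Measure Ω} [IsProbabilityMeasure μ] {T : Ω → Ω}

theorem shift_one (hT : MeasurePreserving T μ μ) {F : Ω → ℝ} (hF : Integrable F μ) :
    μ[fun x => F (T x) | MeasurableSpace.invariants T] =ᵐ[μ]
      μ[F | MeasurableSpace.invariants T] := by
  have hm := MeasurableSpace.invariants_le T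
  have hFT : Integrable (fun x => F (T x)) μ := hT.integrable_comp_of_integrable hF
  refine ae_eq_condExp_of_forall_setIntegral_eq hm hF
    (fun s _ _ => integrable_condExp.integrableOn) ?_
    stronglyMeasurable_condExp.aestronglyMeasurable
  intro s hs _
  rw [setIntegral_condExp hm hFT hs]
  have hs1 : MeasurableSet s := hs.1
  have hs2 : T ⁻¹' s = s := hs.2
  have h1 : ∫ y in s, F y ∂(Measure.map T μ) = ∫ x in T ⁻¹' s, F (T x) ∂μ :=
    setIntegral_map hs1 (by rw [hT.map_eq]; exact hF.aestronglyMeasurable)
      hT.measurable.aemeasurable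
  rw [hT.map_eq, hs2] at h1
  exact h1.symm

omit [IsProbabilityMeasure μ] in
theorem integrable_iterate (hT : MeasurePreserving T μ μ) {F : Ω → ℝ} (hF : Integrable F μ)
    (m : ℕ) : Integrable (fun x => F (T^[m] x)) μ :=
  (hT.iterate m).integrable_comp_of_integrable hF

theorem shift_iterate (hT : MeasurePreserving T μ μ) {F : Ω → ℝ} (hF : Integrable F μ) (m : ℕ) :
    μ[fun x => F (T^[m] x) | MeasurableSpace.invariants T] =ᵐ[μ]
      μ[F | MeasurableSpace.invariants T] := by
  induction m with
  | zero => exact Filter.EventuallyEq.rfl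
  | succ m ih =>
    have h1 := shift_one hT (integrable_iterate hT hF m)
    have h2 : (fun x => F (T^[m + 1] x)) = fun x => (fun y => F (T^[m] y)) (T x) := by
      funext x
      rw [Function.iterate_succ_apply]
    rw [h2]
    exact h1.trans ih

end CEX_

open CEX_ in
theorem p_CEX : T_CEX.{u} := by
  intro Ω _ μ _ T hT
  refine ⟨fun F hF => shift_one hT hF, fun g hg hg1 => ?_⟩
  have hint : ∀ h : ℕ, Integrable (fun x => g (T^[h] x) * g x) μ := by
    intro h
    have h1 : Measurable fun x => g (T^[h] x) * g x :=
      (hg.comp (hT.measurable.iterate h)).mul hg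
    refine Integrable.of_bound h1.aestronglyMeasurable 1 (Filter.Eventually.of_forall fun x => ?_)
    rw [Real.norm_eq_abs, abs_mul]
    exact mul_le_one₀ (hg1 _) (abs_nonneg _) (hg1 _)
  have hbd : ∀ h : ℕ, ∀ᵐ x ∂μ, |gam μ T g h x| ≤ 1 := by
    intro h
    have h1 : ∀ᵐ x ∂μ, |g (T^[h] x) * g x| ≤ (1 : ℝ) := by
      refine Filter.Eventually.of_forall fun x => ?_
      rw [abs_mul]
      exact mul_le_one₀ (hg1 _) (abs_nonneg _) (hg1 _)
    exact ae_bdd_abs_condExp_of_ae_bdd_abs (m := MeasurableSpace.invariants T) h1
  refine ⟨?_, hbd, ?_⟩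
  · -- the ordered case
    have key : ∀ n k : ℕ,
        μ[fun x => g (T^[n + k] x) * g (T^[n] x) | MeasurableSpace.invariants T]
          =ᵐ[μ] gam μ T g k := by
      intro n k
      have h1 := shift_iterate hT (hint k) n
      have h2 : (fun x => g (T^[n + k] x) * g (T^[n] x)) =
          fun x => g (T^[k] (T^[n] x)) * g (T^[n] x) := by
        funext x
        rw [add_comm n k, Function.iterate_add_apply]
      rw [h2]
      exact h1
    intro n n'
    rcases le_total n n' with h | h
    · obtain ⟨k, rfl⟩ := Nat.exists_eq_add_of_le h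
      have h1 : MRec.hd n (n + k) = k := by
        unfold MRec.hd
        omega
      have h2 : (fun x => g (T^[n] x) * g (T^[n + k] x)) =
          fun x => g (T^[n + k] x) * g (T^[n] x) := by
        funext x
        rw [mul_comm]
      rw [h1, h2]
      exact key n k
    · obtain ⟨k, rfl⟩ := Nat.exists_eq_add_of_le h
      have h1 : MRec.hd (n' + k) n' = k := by
        unfold MRec.hd
        omega
      rw [h1]
      exact key n' k
  · intro h
    have h1 : Measurable[MeasurableSpace.invariants T] (gam μ T g h) :=
      stronglyMeasurable_condExp.measurable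
    exact ⟨h1, fun x => congrFun (MeasurableSpace.comp_eq_of_measurable_invariants h1) x⟩

end Pool.Agent.FSP
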