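import Pool.Agent.FSP.Targets

/-!
# FSP-CHR: characters with frequencies from `freq`
-/

set_option autoImplicit false

open MeasureTheory Filter Topology Finset

namespace Pool.Agent.FSP

universe u

namespace CHR_

variable {Ω : Type u} {k : ℕ}

/-- A constant times a monomial in the `θ j`. -/
def Mon (θ : Fin k → Ω → Circle) (φ : Ω → Circle) : Prop :=
  ∃ (ζ : Circle) (α : Fin k → ℤ), ∀ x, φ x = ζ * ∏ j, θ j x ^ α j

lemma Mon.mul {θ : Fin k → Ω → Circle} {φ ψ : Ω → Circle} (h1 : Mon θ φ) (h2 : Mon θ ψ) :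
    Mon θ (fun x => φ x * ψ x) := by
  obtain ⟨ζ, α, h1⟩ := h1
  obtain ⟨ζ', α', h2⟩ := h2
  refine ⟨ζ * ζ', fun j => α j + α' j, fun x => ?_⟩
  have : ∏ j, θ j x ^ (α j + α' j) = (∏ j, θ j x ^ α j) * ∏ j, θ j x ^ α' j := by
    rw [← Finset.prod_mul_distrib]
    exact Finset.prod_congr rfl fun j _ => zpow_add _ _ _
  show φ x * ψ x = _
  rw [this, h1 x, h2 x]
  exact mul_mul_mul_comm _ _ _ _

lemma Mon.inv {θ : Fin k → Ω → Circle} {φ : Ω → Circle} (h1 : Mon θ φ) :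
    Mon θ (fun x => (φ x)⁻¹) := by
  obtain ⟨ζ, α, h1⟩ := h1
  refine ⟨ζ⁻¹, fun j => -α j, fun x => ?_⟩
  have : ∏ j, θ j x ^ (-α j) = (∏ j, θ j x ^ α j)⁻¹ := by
    rw [← Finset.prod_inv_distrib]
    exact Finset.prod_congr rfl fun j _ => zpow_neg _ _
  show (φ x)⁻¹ = _
  rw [this, h1 x, mul_inv]

lemma Mon.one {θ : Fin k → Ω → Circle} : Mon θ (fun _ => 1) :=
  ⟨1, fun _ => 0, fun x => by simp⟩

lemma Mon.pow {θ : Fin k → Ω → Circle} {φ : Ω → Circle} (h1 : Mon θ φ) (n : ℕ) :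
    Mon θ (fun x => φ x ^ n) := by
  induction n with
  | zero => simpa using Mon.one (θ := θ)
  | succ n ih =>
    have := ih.mul h1
    simpa [pow_succ] using this

lemma Mon.prod {θ : Fin k → Ω → Circle} {ι : Type} (s : Finset ι) (φ : ι → Ω → Circle)
    (h : ∀ i, Mon θ (φ i)) : Mon θ (fun x => ∏ i ∈ s, φ i x) := by
  classical
  induction s using Finset.induction_on with
  | empty => simpa using Mon.one (θ := θ)
  | insert i s hi ih =>
    have := (h i).mul ih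
    simpa [Finset.prod_insert hi] using this

lemma mon_freq {θ : Fin k → Ω → Circle} {Λ : Set Circle} {φ : Ω → Circle}
    (h : φ ∈ freq θ Λ) : Mon θ φ := by
  rcases h with ⟨j, rfl⟩ | ⟨ζ, -, rfl⟩
  · refine ⟨1, Pi.single j 1, fun x => ?_⟩
    rw [one_mul, Finset.prod_eq_single j]
    · simp
    · intro i _ hi
      simp [Pi.single_eq_of_ne hi]
    · intro hj
      exact absurd (Finset.mem_univ j) hj
  · exact ⟨ζ, fun _ => 0, fun x => by simp⟩

lemma mon_chr {θ : Fin k → Ω → Circle} {Λ : Set Circle} {m d : ℕ} {τ : Fin d → Ω → Circle}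
    (h : ∀ l, τ l ∈ freq θ Λ) (p : Fin d → Fin m × Fin m) : Mon θ (chr τ p) := by
  have h1 : Mon θ (fun x => ∏ l, (τ l x ^ ((p l).1 : ℕ) * (τ l x ^ ((p l).2 : ℕ))⁻¹)) :=
    Mon.prod Finset.univ (fun l x => τ l x ^ ((p l).1 : ℕ) * (τ l x ^ ((p l).2 : ℕ))⁻¹)
      fun l => ((mon_freq (h l)).pow _).mul ((mon_freq (h l)).pow _).inv
  exact h1

lemma orbC_iff [MeasurableSpace Ω] {μ : Measure Ω} {S : Ω → Ω} {φ ψ : Ω → Circle} {ζ : Circle}
    (h : ∀ x, φ x = ζ * ψ x) (X : Set Ω) : OrbC μ S φ X ↔ OrbC μ S ψ X := by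
  unfold OrbC
  simp only [h, mul_right_inj]

lemma noC_iff [MeasurableSpace Ω] {μ : Measure Ω} {S : Ω → Ω} {φ ψ : Ω → Circle} {ζ : Circle}
    (h : ∀ x, φ x = ζ * ψ x) (X : Set Ω) : NoC μ S φ X ↔ NoC μ S ψ X := by
  unfold NoC
  simp only [orbC_iff h]

end CHR_

open CHR_

theorem p_CHR : T_CHR.{u} := by
  intro Ω _ μ S k θ Λ X m d τ hτ hα p
  obtain ⟨ζ, α, h⟩ := mon_chr hτ p
  rw [orbC_iff h, noC_iff h]
  exact hα α

end Pool.Agent.FSP
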