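import Pool.Agent.FSP.Targets

set_option autoImplicit false

/-!
# FSP: CLM, means of powers (helper21)
-/

open MeasureTheory Filter Topology Finset

namespace Pool.Agent.FSP

universe u

namespace CLM_

/-- the averages of the powers tend to zero away from one -/
theorem avg_tendsto (z : Circle) (hz : z ≠ 1) :
    Tendsto (fun N : ℕ => ‖(N : ℂ)⁻¹ * ∑ n ∈ range N, (z : ℂ) ^ n‖) atTop (𝓝 0) := by
  have hz' : (z : ℂ) - 1 ≠ 0 := by
    intro h
    apply hz
    apply Circle.ext
    rw [Circle.coe_one]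
    linear_combination h
  have h1 : Tendsto (fun N : ℕ => (N : ℝ)⁻¹ * (2 / ‖(z : ℂ) - 1‖)) atTop (𝓝 0) := by
    have h2 := (tendsto_inv_atTop_nhds_zero_nat (𝕜 := ℝ)).mul_const (2 / ‖(z : ℂ) - 1‖)
    rwa [zero_mul] at h2
  refine squeeze_zero (fun N => norm_nonneg _) (fun N => ?_) h1
  rw [geom_sum_eq (by
    intro h
    exact hz' (by rw [h, sub_self])), norm_mul, norm_inv, Complex.norm_natCast, norm_div]
  refine mul_le_mul_of_nonneg_left ?_ (by positivity)
  refine div_le_div_of_nonneg_right ?_ (norm_nonneg _)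
  refine (norm_sub_le _ _).trans ?_
  rw [norm_pow, Circle.norm_coe, one_pow, norm_one]
  norm_num

theorem avg_le (z : Circle) (N : ℕ) : ‖(N : ℂ)⁻¹ * ∑ n ∈ range N, (z : ℂ) ^ n‖ ≤ 1 := by
  rcases Nat.eq_zero_or_pos N with rfl | hN
  · simp
  · have hN' : (0 : ℝ) < N := Nat.cast_pos.2 hN
    rw [norm_mul, norm_inv, Complex.norm_natCast]
    have h : ‖∑ n ∈ range N, (z : ℂ) ^ n‖ ≤ N := by
      refine (norm_sum_le _ _).trans ?_
      simp
    calc (N : ℝ)⁻¹ * ‖∑ n ∈ range N, (z : ℂ) ^ n‖ ≤ (N : ℝ)⁻¹ * N :=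
          mul_le_mul_of_nonneg_left h (by positivity)
      _ = 1 := by field_simp

end CLM_

open CLM_ in
theorem p_CLM : T_CLM.{u} := by
  intro Ω _ μ _ φ Y hφ hY ε hε
  have hcont : Continuous (fun z : Circle => (z : ℂ)) := continuous_subtype_val
  have hcoe : Measurable fun x => (φ x : ℂ) := hcont.measurable.comp hφ
  have hset : MeasurableSet {x | φ x = 1} := by
    have h1 : {x | φ x = 1} = {x | (φ x : ℂ) = 1} := by
      ext x
      constructor
      · intro h
        show (φ x : ℂ) = 1
        have h2 : φ x = 1 := h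
        rw [h2, Circle.coe_one]
      · intro h
        apply Circle.ext
        rw [Circle.coe_one]
        exact h
    rw [h1]
    exact measurableSet_eq_fun hcoe measurable_const
  have hlim : Tendsto (fun N : ℕ => ∫ x in Y, ‖(N : ℂ)⁻¹ * ∑ n ∈ range N, (φ x : ℂ) ^ n‖ ∂μ)
      atTop (𝓝 (∫ x in Y, {x | φ x = 1}.indicator (fun _ => (1 : ℝ)) x ∂μ)) := by
    refine tendsto_integral_of_dominated_convergence (fun _ => (1 : ℝ)) ?_ ?_ ?_ ?_
    · intro N
      refine Measurable.aestronglyMeasurable ?_
      refine Measurable.norm ?_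
      refine Measurable.const_mul ?_ _
      exact Finset.measurable_fun_sum _ fun n _ => hcoe.pow_const n
    · exact integrable_const _
    · intro N
      refine Filter.Eventually.of_forall fun x => ?_
      rw [norm_norm]
      exact avg_le (φ x) N
    · refine Filter.Eventually.of_forall fun x => ?_
      by_cases hx : φ x = 1
      · have h1 : {x | φ x = 1}.indicator (fun _ => (1 : ℝ)) x = 1 :=
          Set.indicator_of_mem (s := {x | φ x = 1}) hx _
        rw [h1]
        refine tendsto_const_nhds.congr' ?_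
        filter_upwards [eventually_gt_atTop 0] with N hN
        have hN' : (N : ℂ) ≠ 0 := Nat.cast_ne_zero.2 (by omega)
        rw [hx, Circle.coe_one]
        simp [hN']
      · have h1 : {x | φ x = 1}.indicator (fun _ => (1 : ℝ)) x = 0 :=
          Set.indicator_of_notMem (s := {x | φ x = 1}) hx _
        rw [h1]
        exact avg_tendsto (φ x) hx
  have hval : ∫ x in Y, {x | φ x = 1}.indicator (fun _ => (1 : ℝ)) x ∂μ =
      μ.real (Y ∩ {x | φ x = 1}) := by
    rw [integral_indicator hset, Measure.restrict_restrict hset, Set.inter_comm]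
    simp
  rw [hval] at hlim
  have hev := hlim.eventually (eventually_le_nhds (by linarith :
    μ.real (Y ∩ {x | φ x = 1}) < μ.real (Y ∩ {x | φ x = 1}) + ε))
  obtain ⟨N₀, hN₀⟩ := eventually_atTop.1 hev
  exact ⟨N₀, hN₀⟩

end Pool.Agent.FSP
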