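import Pool.Agent.FSP.Targets

set_option autoImplicit false

/-!
# FSP, target COR: correlations along `P`
-/

open MeasureTheory Filter Topology Finset

namespace Pool.Agent.FSP

universe u

namespace COR_

variable {Ω : Type u} [MeasurableSpace Ω]

theorem invariants_le {Q Q' : Ω → Ω} (h : ∀ x, Q (Q' x) = x) (s : Set Ω)
    (hs : MeasurableSet[MeasurableSpace.invariants Q] s) :
    MeasurableSet[MeasurableSpace.invariants Q'] s := by
  rw [MeasurableSpace.measurableSet_invariants] at hs ⊢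
  refine ⟨hs.1, ?_⟩
  have h1 : Q' ⁻¹' (Q ⁻¹' s) = s := by
    ext x
    simp only [Set.mem_preimage, h]
  rw [hs.2] at h1
  exact h1

theorem invariants_eq {Q Q' : Ω → Ω} (h : ∀ x, Q (Q' x) = x) (h' : ∀ x, Q' (Q x) = x) :
    MeasurableSpace.invariants Q' = MeasurableSpace.invariants Q :=
  MeasurableSpace.ext fun s => ⟨fun hs => invariants_le h' s hs, fun hs => invariants_le h s hs⟩

end COR_

theorem p_COR (h_ERG : T_ERG.{u}) : T_COR.{u} := by
  intro Ω _ μ _ Q Q' B P hQ hQ' hQQ' hQ'Q hBP g hgm hg1 hR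
  rcases hBP with ⟨rfl, rfl⟩ | ⟨rfl, rfl⟩
  · refine ⟨fun h => gam μ P g h, fun h => integrable_condExp, hR, fun h ε hε => ?_⟩
    have hFm : Measurable fun x => g (P^[h] x) * g x :=
      (hgm.comp (hQ.measurable.iterate h)).mul hgm
    exact h_ERG Ω μ P hQ (fun x => g (P^[h] x) * g x) 1 hFm (fun x => by
      rw [abs_mul]; exact mul_le_one₀ (hg1 _) (abs_nonneg _) (hg1 _)) ε hε
  · refine ⟨fun h => gam μ Q g (2 * h), fun h => integrable_condExp, ?_, fun h ε hε => ?_⟩
    · have h3 : Tendsto (fun H : ℕ => 2 * (((2 * H : ℕ) : ℝ)⁻¹ * ∑ n ∈ range (2 * H),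
          ∫ x, |gam μ Q g n x| ∂μ)) atTop (𝓝 (2 * 0)) := by
        apply Tendsto.const_mul
        have h4 : Tendsto (fun H : ℕ => 2 * H) atTop atTop :=
          tendsto_id.const_mul_atTop' (by norm_num)
        exact hR.comp h4
      rw [mul_zero] at h3
      have h0 : ∀ n, 0 ≤ ∫ x, |gam μ Q g n x| ∂μ := fun n =>
        integral_nonneg fun x => abs_nonneg _
      refine squeeze_zero (fun H => ?_) (fun H => ?_) h3
      · exact mul_nonneg (by positivity) (Finset.sum_nonneg fun h _ => h0 _)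
      have h5 := MRec.sum_even_le (fun n => ∫ x, |gam μ Q g n x| ∂μ) h0 H
      calc (H : ℝ)⁻¹ * ∑ h ∈ range H, ∫ x, |gam μ Q g (2 * h) x| ∂μ
          ≤ (H : ℝ)⁻¹ * ∑ n ∈ range (2 * H), ∫ x, |gam μ Q g n x| ∂μ := by
            gcongr
        _ = 2 * (((2 * H : ℕ) : ℝ)⁻¹ * ∑ n ∈ range (2 * H), ∫ x, |gam μ Q g n x| ∂μ) := by
            rw [Nat.cast_mul, mul_inv]
            push_cast
            ring
    · have hFm : Measurable fun x => g (Q^[2 * h] x) * g x :=
        (hgm.comp (hQ.measurable.iterate _)).mul hgm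
      have h6 := h_ERG Ω μ P hQ' (fun x => g (Q^[2 * h] x) * g x) 1 hFm (fun x => by
        rw [abs_mul]; exact mul_le_one₀ (hg1 _) (abs_nonneg _) (hg1 _)) ε hε
      rw [COR_.invariants_eq hQ'Q hQQ'] at h6
      simp only [MRec.corr, MRec.iterate_two]
      exact h6

end Pool.Agent.FSP
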