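import Pool.Agent.FSP.Targets

set_option autoImplicit false

/-!
# FSP, CTH: the contribution of `c`
-/

open MeasureTheory Filter Topology Finset

namespace Pool.Agent.FSP

universe u

namespace CTH_

variable {Ω : Type u} [MeasurableSpace Ω] {μ : Measure Ω} [IsProbabilityMeasure μ]

lemma iter_inv {T : Ω → Ω} {v : Ω → ℝ} (h : ∀ x, v (T x) = v x) (n : ℕ) (x : Ω) :
    v (T^[n] x) = v x := by
  induction n with
  | zero => rfl
  | succ n ih => rw [Function.iterate_succ_apply', h, ih]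

lemma iter_mem {T : Ω → Ω} {E : Set Ω} (h : ∀ x, T x ∈ E ↔ x ∈ E) (n : ℕ) (x : Ω) :
    T^[n] x ∈ E ↔ x ∈ E := by
  induction n with
  | zero => rfl
  | succ n ih => rw [Function.iterate_succ_apply', h, ih]

lemma one_nonneg (X : Set Ω) (x : Ω) : 0 ≤ one X x := by
  unfold one
  by_cases h : x ∈ X
  · rw [Set.indicator_of_mem h]
    norm_num
  · rw [Set.indicator_of_notMem h]

lemma one_le (X : Set Ω) (x : Ω) : one X x ≤ 1 := by
  unfold one
  by_cases h : x ∈ X
  · rw [Set.indicator_of_mem h]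
  · rw [Set.indicator_of_notMem h]
    norm_num

lemma one_meas {X : Set Ω} (h : MeasurableSet X) : Measurable (one X) :=
  measurable_const.indicator h

lemma avg2_int (F : ℕ → ℕ → Ω → ℝ) (hF : ∀ i j, Integrable (F i j) μ) (N : ℕ) :
    ∫ x, (N : ℝ)⁻¹ * ∑ j ∈ range N, (N : ℝ)⁻¹ * ∑ i ∈ range N, F i j x ∂μ =
      (N : ℝ)⁻¹ * ∑ j ∈ range N, (N : ℝ)⁻¹ * ∑ i ∈ range N, ∫ x, F i j x ∂μ := by
  rw [integral_const_mul, integral_finsetSum _ (fun j _ =>
    (integrable_finsetSum _ fun i _ => hF i j).const_mul _)]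
  congr 1
  refine Finset.sum_congr rfl fun j _ => ?_
  rw [integral_const_mul, integral_finsetSum _ (fun i _ => hF i j)]

lemma avg2_eq (u v e f : ℕ → ℝ) (A : ℝ) (N : ℕ) :
    (N : ℝ)⁻¹ * ∑ j ∈ range N, (N : ℝ)⁻¹ * ∑ i ∈ range N, (u i * v j) * (A + e i + f j) =
      A * (((N : ℝ)⁻¹ * ∑ i ∈ range N, u i) * ((N : ℝ)⁻¹ * ∑ j ∈ range N, v j)) +
      ((N : ℝ)⁻¹ * ∑ i ∈ range N, u i * e i) * ((N : ℝ)⁻¹ * ∑ j ∈ range N, v j) +
      ((N : ℝ)⁻¹ * ∑ i ∈ range N, u i) * ((N : ℝ)⁻¹ * ∑ j ∈ range N, v j * f j) := by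
  have h1 : ∀ j, ∑ i ∈ range N, (u i * v j) * (A + e i + f j) =
      v j * (A * ∑ i ∈ range N, u i + ∑ i ∈ range N, u i * e i) +
        (v j * f j) * ∑ i ∈ range N, u i := by
    intro j
    simp only [Finset.mul_sum, ← Finset.sum_add_distrib]
    exact Finset.sum_congr rfl fun i _ => by ring
  simp only [h1]
  set U := ∑ i ∈ range N, u i
  set UE := ∑ i ∈ range N, u i * e i
  have h2 : ∑ j ∈ range N, (N : ℝ)⁻¹ * (v j * (A * U + UE) + v j * f j * U) =
      (N : ℝ)⁻¹ * ((∑ j ∈ range N, v j) * (A * U + UE) + (∑ j ∈ range N, v j * f j) * U) := by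
    rw [← Finset.mul_sum, Finset.sum_add_distrib, Finset.sum_mul, Finset.sum_mul]
  rw [h2]
  ring

lemma avg_mono (u v : ℕ → ℝ) (N : ℕ) (h : ∀ i, u i ≤ v i) :
    (N : ℝ)⁻¹ * ∑ i ∈ range N, u i ≤ (N : ℝ)⁻¹ * ∑ i ∈ range N, v i :=
  mul_le_mul_of_nonneg_left (Finset.sum_le_sum fun i _ => h i) (by positivity)

/-- The contribution of one pair of times. -/
lemma term (B P : Ω → Ω) (hB : MeasurePreserving B μ μ) (hP : MeasurePreserving P μ μ)
    (c p : Ω → ℝ) (hc : Measurable c) (hc0 : ∀ x, 0 ≤ c x) (hc1 : ∀ x, c x ≤ 1)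
    (hp : Measurable p) (hp0 : ∀ x, 0 ≤ p x) (hp1 : ∀ x, p x ≤ 1) (w : Ω → ℕ → ℝ) (W : ℝ)
    (hW : 0 ≤ W) (hwm : ∀ n, Measurable fun x => w x n) (hw0 : ∀ x n, 0 ≤ w x n)
    (hw1 : ∀ x n, w x n ≤ W)
    (hwB : ∀ x n, w (B x) n = w x n) (hwP : ∀ x n, w (P x) n = w x n) (E : ℕ → Set Ω)
    (hE : ∀ n, MeasurableSet (E n)) (hEP : ∀ n x, P x ∈ E n ↔ x ∈ E n) (ε : ℝ) (hε : 0 < ε)
    (hpE : ∀ n, ∀ᵐ x ∂μ, x ∈ E n → |p (B^[n] x) - p x| ≤ 2 * ε ∧ |p (P^[n] x) - p x| ≤ 2 * ε)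
    (i j : ℕ) :
    Integrable (fun x => (w x i * w x j) * |c (B^[i] (P^[j] x)) - c x|) μ ∧
    Integrable (fun x => (w x i * w x j) *
      ((2 * |c x - p x| + 4 * ε) + one (E i)ᶜ x + one (E j)ᶜ x)) μ ∧
    ∫ x, (w x i * w x j) * |c (B^[i] (P^[j] x)) - c x| ∂μ ≤
      ∫ x, (w x i * w x j) * ((2 * |c x - p x| + 4 * ε) + one (E i)ᶜ x + one (E j)ᶜ x) ∂μ := by
  have hT : MeasurePreserving (fun x => B^[i] (P^[j] x)) μ μ := (hB.iterate i).comp (hP.iterate j)
  have hTm := hT.measurable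
  have hwi := hwm i
  have hwj := hwm j
  have hww : ∀ x, 0 ≤ w x i * w x j := fun x => mul_nonneg (hw0 x i) (hw0 x j)
  have hww1 : ∀ x, w x i * w x j ≤ W * W := fun x => mul_le_mul (hw1 x i) (hw1 x j) (hw0 x j) hW
  have hD1 : ∀ x, |c x - p x| ≤ 1 := fun x => by
    rw [abs_le]
    constructor <;> linarith [hc0 x, hc1 x, hp0 x, hp1 x]
  -- integrability
  have i1 : Integrable (fun x => (w x i * w x j) * |c (B^[i] (P^[j] x)) - c x|) μ := by
    apply Pool.Agent.MRec.int_of_bdd ((hwi.mul hwj).mul ((hc.comp hTm).sub hc).abs) (W * W)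
    intro x
    have h1 : |c (B^[i] (P^[j] x)) - c x| ≤ 1 := by
      rw [abs_le]
      constructor <;> linarith [hc0 x, hc1 x, hc0 (B^[i] (P^[j] x)), hc1 (B^[i] (P^[j] x))]
    show |(w x i * w x j) * (|c (B^[i] (P^[j] x)) - c x|)| ≤ W * W
    rw [abs_mul, abs_abs, abs_of_nonneg (hww x)]
    calc w x i * w x j * |c (B^[i] (P^[j] x)) - c x| ≤ w x i * w x j * 1 :=
          mul_le_mul_of_nonneg_left h1 (hww x)
      _ ≤ W * W := by rw [mul_one]; exact hww1 x
  have iG : Integrable (fun x => (w x i * w x j) * |c x - p x|) μ := by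
    apply Pool.Agent.MRec.int_of_bdd ((hwi.mul hwj).mul (hc.sub hp).abs) (W * W)
    intro x
    show |(w x i * w x j) * (|c x - p x|)| ≤ W * W
    rw [abs_mul, abs_abs, abs_of_nonneg (hww x)]
    calc w x i * w x j * |c x - p x| ≤ w x i * w x j * 1 :=
          mul_le_mul_of_nonneg_left (hD1 x) (hww x)
      _ ≤ W * W := by rw [mul_one]; exact hww1 x
  have iR : Integrable (fun x => (w x i * w x j) * (4 * ε + one (E i)ᶜ x + one (E j)ᶜ x)) μ := by
    apply Pool.Agent.MRec.int_of_bdd ((hwi.mul hwj).mul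
      ((measurable_const.add (one_meas (hE i).compl)).add (one_meas (hE j).compl)))
      (W * W * (4 * ε + 2))
    intro x
    have h1 := one_nonneg (E i)ᶜ x
    have h2 := one_nonneg (E j)ᶜ x
    have h3 := one_le (E i)ᶜ x
    have h4 := one_le (E j)ᶜ x
    have h5 : 0 ≤ 4 * ε + one (E i)ᶜ x + one (E j)ᶜ x := by positivity
    show |w x i * w x j * (4 * ε + one (E i)ᶜ x + one (E j)ᶜ x)| ≤ _
    rw [abs_of_nonneg (mul_nonneg (hww x) h5)]
    exact mul_le_mul (hww1 x) (by linarith) h5 (by positivity)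
  have i2 : Integrable (fun x => (w x i * w x j) *
      ((2 * |c x - p x| + 4 * ε) + one (E i)ᶜ x + one (E j)ᶜ x)) μ := by
    refine ((iG.const_mul 2).add iR).congr (ae_of_all _ fun x => ?_)
    simp only [Pi.add_apply]
    ring
  refine ⟨i1, i2, ?_⟩
  have iGT : Integrable (fun x => (w (B^[i] (P^[j] x)) i * w (B^[i] (P^[j] x)) j) *
      |c (B^[i] (P^[j] x)) - p (B^[i] (P^[j] x))|) μ := hT.integrable_comp_of_integrable iG
  have hGT : ∫ x, (w (B^[i] (P^[j] x)) i * w (B^[i] (P^[j] x)) j) *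
      |c (B^[i] (P^[j] x)) - p (B^[i] (P^[j] x))| ∂μ = ∫ x, (w x i * w x j) * |c x - p x| ∂μ :=
    Pool.Agent.MRec.integral_comp_mp hT ((hwi.mul hwj).mul (hc.sub hp).abs)
  have hwT : ∀ n x, w (B^[i] (P^[j] x)) n = w x n := by
    intro n x
    rw [iter_inv (v := fun x => w x n) (fun x => hwB x n), iter_inv (v := fun x => w x n)
      (fun x => hwP x n)]
  have e1 : ∀ᵐ x ∂μ, P^[j] x ∈ E i → |p (B^[i] (P^[j] x)) - p (P^[j] x)| ≤ 2 * ε := by
    have := (hP.iterate j).quasiMeasurePreserving.ae (hpE i)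
    filter_upwards [this] with x hx h
    exact (hx h).1
  have e2 := hpE j
  have hle : ∀ᵐ x ∂μ, (w x i * w x j) * |c (B^[i] (P^[j] x)) - c x| ≤
      (w (B^[i] (P^[j] x)) i * w (B^[i] (P^[j] x)) j) *
        |c (B^[i] (P^[j] x)) - p (B^[i] (P^[j] x))| +
      ((w x i * w x j) * |c x - p x| +
        (w x i * w x j) * (4 * ε + one (E i)ᶜ x + one (E j)ᶜ x)) := by
    filter_upwards [e1, e2] with x h1 h2
    rw [hwT, hwT]
    set y := B^[i] (P^[j] x) with hy
    have h3 : |p y - p x| ≤ 4 * ε + one (E i)ᶜ x + one (E j)ᶜ x := by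
      have hpb : |p y - p x| ≤ 1 := by
        rw [abs_le]
        constructor <;> linarith [hp0 x, hp1 x, hp0 y, hp1 y]
      have n1 := one_nonneg (E i)ᶜ x
      have n2 := one_nonneg (E j)ᶜ x
      by_cases hi : x ∈ E i
      · by_cases hj : x ∈ E j
        · have h4 := h1 ((iter_mem (hEP i) j x).2 hi)
          have h5 := (h2 hj).2
          have h6 : |p y - p x| ≤ |p y - p (P^[j] x)| + |p (P^[j] x) - p x| := abs_sub_le _ _ _
          linarith
        · have : one (E j)ᶜ x = 1 := by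
            unfold one
            rw [Set.indicator_of_mem (by exact hj)]
          linarith
      · have : one (E i)ᶜ x = 1 := by
          unfold one
          rw [Set.indicator_of_mem (by exact hi)]
        linarith
    have h7 : |c y - c x| ≤ |c y - p y| + (|c x - p x| + |p y - p x|) := by
      have h8 : |c y - c x| ≤ |c y - p y| + |p y - c x| := abs_sub_le _ _ _
      have h9 : |p y - c x| ≤ |p y - p x| + |p x - c x| := abs_sub_le _ _ _
      rw [abs_sub_comm (p x) (c x)] at h9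
      linarith
    have h10 : |c y - c x| ≤ |c y - p y| + (|c x - p x| +
        (4 * ε + one (E i)ᶜ x + one (E j)ᶜ x)) := by linarith
    have h11 := mul_le_mul_of_nonneg_left h10 (hww x)
    linarith
  have hfin := integral_mono_ae i1 (iGT.add (iG.add iR)) hle
  rw [integral_add' iGT (iG.add iR), integral_add' iG iR, hGT] at hfin
  refine hfin.trans (le_of_eq ?_)
  have i3 : ∫ x, (w x i * w x j) * |c x - p x| ∂μ +
      (∫ x, (w x i * w x j) * |c x - p x| ∂μ +
        ∫ x, (w x i * w x j) * (4 * ε + one (E i)ᶜ x + one (E j)ᶜ x) ∂μ) =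
      ∫ x, 2 * ((w x i * w x j) * |c x - p x|) +
        (w x i * w x j) * (4 * ε + one (E i)ᶜ x + one (E j)ᶜ x) ∂μ := by
    rw [integral_add (iG.const_mul 2) iR, integral_const_mul]
    ring
  rw [i3]
  refine integral_congr_ae (ae_of_all _ fun x => ?_)
  simp only
  ring

end CTH_

open CTH_ in
theorem p_CTH : T_CTH.{u} := by
  intro Ω _ μ _ B P hB hP hBP c p hc hc0 hc1 hp hp0 hp1 w W hwm hw0 hw1 hwB hwP E hE hEP q ε hq hε
    hcp hpE hwa hwE
  obtain ⟨x₀⟩ : Nonempty Ω := nonempty_of_isProbabilityMeasure μ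
  have hW : 0 ≤ W := (hw0 x₀ 0).trans (hw1 x₀ 0)
  set C₁ : ℝ := (2 + 4 * ε) * W + W with hC₁
  set C₂ : ℝ := (2 + 4 * ε) + W with hC₂
  have hC₁0 : 0 ≤ C₁ := by positivity
  have hC₂0 : 0 ≤ C₂ := by positivity
  set ε' : ℝ := ε / (C₁ + C₂ + 1) with hε'
  have hε'0 : 0 < ε' := by positivity
  obtain ⟨N₁, hN₁⟩ := hwa ε' hε'0
  obtain ⟨N₂, hN₂⟩ := hwE
  refine ⟨max (max N₁ N₂) 1, fun N hN hqN s s' => ?_⟩
  have hN1 : N₁ ≤ N := (le_max_left _ _).trans ((le_max_left _ _).trans hN)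
  have hN2 : N₂ ≤ N := (le_max_right _ _).trans ((le_max_left _ _).trans hN)
  have hterm := term B P hB hP c p hc hc0 hc1 hp hp0 hp1 w W hW hwm hw0 hw1 hwB hwP E hE hEP ε hε
    hpE
  -- the functions
  set a : Ω → ℝ := wm w N s with ha
  set a' : Ω → ℝ := wm w N s' with ha'
  set r : Ω → ℝ := wm (fun x n => w x n * one (E n)ᶜ x) N s with hr
  set r' : Ω → ℝ := wm (fun x n => w x n * one (E n)ᶜ x) N s' with hr'
  have hwmm : ∀ (v : Ω → ℕ → ℝ), (∀ n, Measurable fun x => v x n) → ∀ s, Measurable (wm v N s) := by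
    intro v hv s
    exact measurable_const.mul (Finset.measurable_sum _ fun n _ => hv (s + n))
  have hwEm : ∀ n, Measurable fun x => w x n * one (E n)ᶜ x := fun n =>
    (hwm n).mul (one_meas (hE n).compl)
  have ma : Measurable a := hwmm w hwm s
  have ma' : Measurable a' := hwmm w hwm s'
  have mr : Measurable r := hwmm _ hwEm s
  have mr' : Measurable r' := hwmm _ hwEm s'
  have hbd : ∀ (v : Ω → ℕ → ℝ), (∀ x n, 0 ≤ v x n) → (∀ x n, v x n ≤ W) →
      ∀ s x, 0 ≤ wm v N s x ∧ wm v N s x ≤ W := by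
    intro v hv0 hv1 s x
    have h1 : 0 ≤ wm v N s x := mul_nonneg (by positivity) (Finset.sum_nonneg fun n _ => hv0 _ _)
    have h2 := Pool.Agent.MRec.abs_avg_le N (fun n => v x (s + n)) W hW (fun n => by
      rw [abs_of_nonneg (hv0 _ _)]
      exact hv1 _ _)
    exact ⟨h1, (le_abs_self _).trans h2⟩
  have hwE0 : ∀ x n, 0 ≤ w x n * one (E n)ᶜ x := fun x n => mul_nonneg (hw0 x n) (one_nonneg _ _)
  have hwE1 : ∀ x n, w x n * one (E n)ᶜ x ≤ W := fun x n =>
    (mul_le_of_le_one_right (hw0 x n) (one_le _ _)).trans (hw1 x n)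
  have ba := hbd w hw0 hw1 s
  have ba' := hbd w hw0 hw1 s'
  have br := hbd _ hwE0 hwE1 s
  have br' := hbd _ hwE0 hwE1 s'
  -- sum of the terms
  have h1 : ∫ x, (N : ℝ)⁻¹ * ∑ j ∈ range N, (N : ℝ)⁻¹ * ∑ i ∈ range N,
      (w x (s + i) * w x (s' + j)) * |c (B^[s + i] (P^[s' + j] x)) - c x| ∂μ ≤
      ∫ x, (N : ℝ)⁻¹ * ∑ j ∈ range N, (N : ℝ)⁻¹ * ∑ i ∈ range N,
        (w x (s + i) * w x (s' + j)) *
          ((2 * |c x - p x| + 4 * ε) + one (E (s + i))ᶜ x + one (E (s' + j))ᶜ x) ∂μ := by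
    rw [avg2_int (fun i j x => (w x (s + i) * w x (s' + j)) *
        |c (B^[s + i] (P^[s' + j] x)) - c x|) (fun i j => (hterm (s + i) (s' + j)).1),
      avg2_int (fun i j x => (w x (s + i) * w x (s' + j)) *
        ((2 * |c x - p x| + 4 * ε) + one (E (s + i))ᶜ x + one (E (s' + j))ᶜ x))
        (fun i j => (hterm (s + i) (s' + j)).2.1)]
    exact avg_mono _ _ N fun j => avg_mono _ _ N fun i => (hterm (s + i) (s' + j)).2.2
  refine h1.trans ?_
  have h2 : ∀ x, (N : ℝ)⁻¹ * ∑ j ∈ range N, (N : ℝ)⁻¹ * ∑ i ∈ range N,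
      (w x (s + i) * w x (s' + j)) *
        ((2 * |c x - p x| + 4 * ε) + one (E (s + i))ᶜ x + one (E (s' + j))ᶜ x) =
      (2 * |c x - p x| + 4 * ε) * (a x * a' x) + r x * a' x + a x * r' x := fun x =>
    avg2_eq (fun i => w x (s + i)) (fun j => w x (s' + j)) (fun i => one (E (s + i))ᶜ x)
      (fun j => one (E (s' + j))ᶜ x) (2 * |c x - p x| + 4 * ε) N
  simp only [h2]
  -- pointwise bound
  have hD1 : ∀ x, |c x - p x| ≤ 1 := fun x => by
    rw [abs_le]
    constructor <;> linarith [hc0 x, hc1 x, hp0 x, hp1 x]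
  have h3 : ∀ x, (2 * |c x - p x| + 4 * ε) * (a x * a' x) + r x * a' x + a x * r' x ≤
      2 * |c x - p x| + 4 * ε + r x + r' x + C₁ * |a x - 1| + C₂ * |a' x - 1| := by
    intro x
    have q1 := ba x
    have q2 := ba' x
    have q3 := br x
    have q4 := br' x
    have hD := hD1 x
    have hD0 := abs_nonneg (c x - p x)
    have t1 : a x * a' x - 1 ≤ W * |a x - 1| + |a' x - 1| := by
      have e1 : a x * a' x - 1 = a' x * (a x - 1) + (a' x - 1) := by ring
      rw [e1]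
      have e2 : a' x * (a x - 1) ≤ W * |a x - 1| :=
        (mul_le_mul_of_nonneg_left (le_abs_self _) q2.1).trans
          (mul_le_mul_of_nonneg_right q2.2 (abs_nonneg _))
      linarith [le_abs_self (a' x - 1)]
    have t2 : (2 * |c x - p x| + 4 * ε) * (a x * a' x) ≤ (2 * |c x - p x| + 4 * ε) +
        (2 + 4 * ε) * (W * |a x - 1| + |a' x - 1|) := by
      have e1 : (2 * |c x - p x| + 4 * ε) * (a x * a' x - 1) ≤
          (2 * |c x - p x| + 4 * ε) * (W * |a x - 1| + |a' x - 1|) :=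
        mul_le_mul_of_nonneg_left t1 (by positivity)
      have e2 : (2 * |c x - p x| + 4 * ε) * (W * |a x - 1| + |a' x - 1|) ≤
          (2 + 4 * ε) * (W * |a x - 1| + |a' x - 1|) :=
        mul_le_mul_of_nonneg_right (by linarith) (by positivity)
      linarith
    have t3 : r x * a' x ≤ r x + W * |a' x - 1| := by
      have e1 : r x * (a' x - 1) ≤ W * |a' x - 1| :=
        (mul_le_mul_of_nonneg_left (le_abs_self _) q3.1).trans
          (mul_le_mul_of_nonneg_right q3.2 (abs_nonneg _))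
      linarith
    have t4 : a x * r' x ≤ r' x + W * |a x - 1| := by
      have e1 : r' x * (a x - 1) ≤ W * |a x - 1| :=
        (mul_le_mul_of_nonneg_left (le_abs_self _) q4.1).trans
          (mul_le_mul_of_nonneg_right q4.2 (abs_nonneg _))
      linarith
    rw [hC₁, hC₂]
    linarith
  -- integrability
  have ia : Integrable (fun x => |a x - 1|) μ := by
    apply Pool.Agent.MRec.int_of_bdd (ma.sub_const 1).abs (W + 1)
    intro x
    show |(|a x - 1|)| ≤ W + 1
    rw [abs_abs, abs_le]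
    constructor <;> linarith [(ba x).1, (ba x).2]
  have ia' : Integrable (fun x => |a' x - 1|) μ := by
    apply Pool.Agent.MRec.int_of_bdd (ma'.sub_const 1).abs (W + 1)
    intro x
    show |(|a' x - 1|)| ≤ W + 1
    rw [abs_abs, abs_le]
    constructor <;> linarith [(ba' x).1, (ba' x).2]
  have ir : Integrable r μ := Pool.Agent.MRec.int_of_bdd mr W fun x => by
    rw [abs_of_nonneg (br x).1]
    exact (br x).2
  have ir' : Integrable r' μ := Pool.Agent.MRec.int_of_bdd mr' W fun x => by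
    rw [abs_of_nonneg (br' x).1]
    exact (br' x).2
  have iD : Integrable (fun x => |c x - p x|) μ :=
    Pool.Agent.MRec.int_of_bdd (hc.sub hp).abs 1 fun x => by
      show |(|c x - p x|)| ≤ 1
      rw [abs_abs]
      exact hD1 x
  have iaa : Integrable (fun x => (2 * |c x - p x| + 4 * ε) * (a x * a' x) + r x * a' x +
      a x * r' x) μ := by
    apply Pool.Agent.MRec.int_of_bdd ((((((hc.sub hp).abs.const_mul 2).add_const (4 * ε)).mul
      (ma.mul ma')).add (mr.mul ma')).add (ma.mul mr')) ((2 + 4 * ε) * (W * W) + W * W + W * W)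
    intro x
    have q1 := ba x
    have q2 := ba' x
    have q3 := br x
    have q4 := br' x
    have hD := hD1 x
    have hD0 := abs_nonneg (c x - p x)
    have u1 : 0 ≤ (2 * |c x - p x| + 4 * ε) * (a x * a' x) :=
      mul_nonneg (by positivity) (mul_nonneg q1.1 q2.1)
    have u2 : 0 ≤ r x * a' x := mul_nonneg q3.1 q2.1
    have u3 : 0 ≤ a x * r' x := mul_nonneg q1.1 q4.1
    have v1 : (2 * |c x - p x| + 4 * ε) * (a x * a' x) ≤ (2 + 4 * ε) * (W * W) :=
      mul_le_mul (by linarith) (mul_le_mul q1.2 q2.2 q2.1 hW) (mul_nonneg q1.1 q2.1)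
        (by positivity)
    have v2 : r x * a' x ≤ W * W := mul_le_mul q3.2 q2.2 q2.1 hW
    have v3 : a x * r' x ≤ W * W := mul_le_mul q1.2 q4.2 q4.1 hW
    show |(2 * |c x - p x| + 4 * ε) * (a x * a' x) + r x * a' x + a x * r' x| ≤ _
    rw [abs_of_nonneg (by linarith)]
    linarith
  have j1 : Integrable (fun x => 2 * |c x - p x|) μ := iD.const_mul 2
  have j2 : Integrable (fun x => 2 * |c x - p x| + 4 * ε) μ := j1.add (integrable_const _)
  have j3 : Integrable (fun x => 2 * |c x - p x| + 4 * ε + r x) μ := j2.add ir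
  have j4 : Integrable (fun x => 2 * |c x - p x| + 4 * ε + r x + r' x) μ := j3.add ir'
  have j5 : Integrable (fun x => C₁ * |a x - 1|) μ := ia.const_mul C₁
  have j6 : Integrable (fun x => C₂ * |a' x - 1|) μ := ia'.const_mul C₂
  have j7 : Integrable (fun x => 2 * |c x - p x| + 4 * ε + r x + r' x + C₁ * |a x - 1|) μ :=
    j4.add j5
  have j8 : Integrable (fun x => 2 * |c x - p x| + 4 * ε + r x + r' x + C₁ * |a x - 1| +
    C₂ * |a' x - 1|) μ := j7.add j6
  refine (integral_mono iaa j8 h3).trans ?_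
  rw [integral_add j7 j6, integral_add j4 j5, integral_add j3 ir', integral_add j2 ir,
    integral_add j1 (integrable_const _)]
  simp only [integral_const_mul, integral_const, probReal_univ, one_smul]
  have k1 := hN₁ N hN1 hqN s
  have k2 := hN₁ N hN1 hqN s'
  have k3 := hN₂ N hN2 hqN s
  have k4 := hN₂ N hN2 hqN s'
  have k5 : C₁ * ∫ x, |a x - 1| ∂μ ≤ C₁ * ε' := mul_le_mul_of_nonneg_left k1 hC₁0
  have k6 : C₂ * ∫ x, |a' x - 1| ∂μ ≤ C₂ * ε' := mul_le_mul_of_nonneg_left k2 hC₂0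
  have k7 : C₁ * ε' + C₂ * ε' ≤ ε := by
    rw [hε', ← add_mul, ← mul_div_assoc, div_le_iff₀ (by positivity)]
    nlinarith
  have k8 : ∫ x, r x ∂μ ≤ 2 * ε := k3
  have k9 : ∫ x, r' x ∂μ ≤ 2 * ε := k4
  linarith

end Pool.Agent.FSP
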