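import Pool.Agent.FSP.Targets

/-!
# FSP: target CTL (control of `p` at the times `n`)
-/

set_option autoImplicit false

open MeasureTheory Filter Topology Finset

namespace Pool.Agent.FSP

universe u

namespace CTL_

lemma pow_sub_one (w : Circle) (a : ℕ) : ‖(w : ℂ) ^ a - 1‖ ≤ a * ‖(w : ℂ) - 1‖ := by
  induction a with
  | zero => simp
  | succ a ih =>
    have h1 : (w : ℂ) ^ (a + 1) - 1 = (w : ℂ) ^ a * ((w : ℂ) - 1) + ((w : ℂ) ^ a - 1) := by ring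
    rw [h1]
    refine (norm_add_le _ _).trans ?_
    rw [norm_mul, norm_pow, Circle.norm_coe, one_pow, one_mul]
    push_cast
    linarith

lemma bohr_sub {Ω : Type u} {d : ℕ} (τ : Fin d → Ω → Circle) {ρ : ℝ} {q i : ℕ} (hq : 1 ≤ q)
    {x : Ω} (hx : x ∈ bohr τ (ρ / q) i) : x ∈ bohr τ ρ (q * i) := by
  intro l
  have h1 : ‖(τ l x : ℂ) ^ i - 1‖ ≤ ρ / q := hx l
  have h2 := pow_sub_one (τ l x ^ i) q
  rw [Circle.coe_pow, ← pow_mul, mul_comm i q] at h2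
  have hq0 : (0 : ℝ) < q := by exact_mod_cast hq
  calc ‖(τ l x : ℂ) ^ (q * i) - 1‖ ≤ q * ‖(τ l x : ℂ) ^ i - 1‖ := h2
    _ ≤ q * (ρ / q) := mul_le_mul_of_nonneg_left h1 hq0.le
    _ = ρ := by field_simp

lemma iter_inv {Ω : Type u} {d : ℕ} (τ : Fin d → Ω → Circle) {R : Ω → Ω}
    (h : ∀ l x, τ l (R x) = τ l x) (n : ℕ) (l : Fin d) (x : Ω) : τ l (R^[n] x) = τ l x := by
  induction n with
  | zero => rfl
  | succ n ih => rw [Function.iterate_succ_apply', h, ih]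

lemma iter_bohr {Ω : Type u} {d : ℕ} (τ : Fin d → Ω → Circle) {R : Ω → Ω}
    (h : ∀ l x, τ l (R x) = τ l x) (n : ℕ) {ρ : ℝ} {i : ℕ} {x : Ω} (hx : x ∈ bohr τ ρ i) :
    R^[n] x ∈ bohr τ ρ i := by
  intro l
  rw [iter_inv τ h n l x]
  exact hx l

end CTL_

open CTL_ in
/-- CTL. -/
theorem p_CTL : T_CTL.{u} := by
  intro Ω _ μ _ Q Q' B P hQ hQ' hQQ' hQ'Q hBP d τ hτ p _ ε ρ q₀ q₁ hε _ hq0 hq1 hp n
  by_cases hd : q₀ * q₁ ∣ n
  swap
  · exact Eventually.of_forall fun x hx => absurd hx.1 hd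
  obtain ⟨i, hi⟩ := hd
  have hpos : 0 < q₀ * q₁ := Nat.mul_pos hq0 hq1
  have hdiv : n / (q₀ * q₁) = i := by rw [hi, Nat.mul_div_cancel_left _ hpos]
  rw [hdiv]
  have hn : n = q₁ * (q₀ * i) := by rw [hi]; ring
  have hτ' : ∀ l x, τ l (Q' x) = τ l x := by
    intro l x
    rw [← hτ l (Q' x), hQ'Q]
  have H1 : ∀ᵐ x ∂μ, x ∈ bohr τ (ρ / q₀) i → |p (Q^[n] x) - p x| ≤ ε := by
    filter_upwards [hp (q₀ * i)] with x hx hxE
    rw [hn]
    exact hx (bohr_sub τ hq0 hxE)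
  rcases hBP with ⟨rfl, rfl⟩ | ⟨rfl, rfl⟩
  · filter_upwards [H1] with x hx hxE
    have h1 := hx hxE.2
    exact ⟨by linarith, by linarith⟩
  · have H2 := (hQ.iterate n).quasiMeasurePreserving.ae H1
    have H3 := (hQ'.iterate n).quasiMeasurePreserving.ae H1
    filter_upwards [H1, H2, H3] with x h1 h2 h3 hxE
    have e1 := h1 hxE.2
    have e2 := h2 (iter_bohr τ hτ n hxE.2)
    have e3 := h3 (iter_bohr τ hτ' n hxE.2)
    have hinv : Q^[n] (P^[n] x) = x := (Function.LeftInverse.iterate hQ'Q n) x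
    rw [hinv] at e3
    refine ⟨?_, ?_⟩
    · rw [Pool.Agent.MRec.iterate_two, two_mul, Function.iterate_add_apply]
      calc |p (Q^[n] (Q^[n] x)) - p x| ≤ |p (Q^[n] (Q^[n] x)) - p (Q^[n] x)| +
            |p (Q^[n] x) - p x| := abs_sub_le _ _ _
        _ ≤ 2 * ε := by linarith
    · rw [abs_sub_comm]
      linarith

end Pool.Agent.FSP
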