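import Pool.Agent.FSP.Targets

set_option autoImplicit false

/-!
# FSP: the decomposition of an indicator function (T_DEC)
-/

open MeasureTheory Filter Topology Finset

namespace Pool.Agent.FSP

universe u

namespace DEC_

/-- Clipping to the unit interval. -/
noncomputable def clip (t : ℝ) : ℝ := max 0 (min t 1)

lemma clip_nonneg (t : ℝ) : 0 ≤ clip t := le_max_left _ _

lemma clip_le_one (t : ℝ) : clip t ≤ 1 := max_le zero_le_one (min_le_right _ _)

lemma clip_of_mem {t : ℝ} (h0 : 0 ≤ t) (h1 : t ≤ 1) : clip t = t := by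
  unfold clip
  rw [min_eq_left h1, max_eq_right h0]

lemma abs_clip_sub (s t : ℝ) : |clip s - clip t| ≤ |s - t| := by
  have h1 : s - t ≤ |s - t| := le_abs_self _
  have h2 : -(s - t) ≤ |s - t| := neg_le_abs _
  have h3 := abs_nonneg (s - t)
  unfold clip
  simp only [max_def, min_def]
  split_ifs <;> rw [abs_le] <;> constructor <;> linarith

lemma measurable_clip : Measurable clip :=
  measurable_const.max (measurable_id.min measurable_const)

variable {Ω : Type u}

lemma one_of_mem {X : Set Ω} {x : Ω} (hx : x ∈ X) : one X x = 1 := Set.indicator_of_mem hx _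

lemma one_of_not_mem {X : Set Ω} {x : Ω} (hx : x ∉ X) : one X x = 0 :=
  Set.indicator_of_notMem hx _

lemma iterate_mem {T : Ω → Ω} {Z : Set Ω} (hZ : ∀ x, T x ∈ Z ↔ x ∈ Z) (n : ℕ) (x : Ω) :
    T^[n] x ∈ Z ↔ x ∈ Z := by
  induction n with
  | zero => exact Iff.rfl
  | succ n ih => rw [Function.iterate_succ_apply', hZ, ih]

variable [MeasurableSpace Ω] {μ : Measure Ω}

lemma measurable_one {X : Set Ω} (hX : MeasurableSet X) : Measurable (one X) :=
  measurable_const.indicator hX

lemma one_nonneg (X : Set Ω) (x : Ω) : 0 ≤ one X x := by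
  by_cases hx : x ∈ X
  · rw [one_of_mem hx]; exact zero_le_one
  · rw [one_of_not_mem hx]

lemma one_le_one (X : Set Ω) (x : Ω) : one X x ≤ 1 := by
  by_cases hx : x ∈ X
  · rw [one_of_mem hx]
  · rw [one_of_not_mem hx]; exact zero_le_one

variable [IsProbabilityMeasure μ]

lemma memLp_bdd {v : Ω → ℝ} (hv : Measurable v) (C : ℝ) (hC : ∀ x, |v x| ≤ C) : MemLp v 2 μ :=
  MemLp.of_bound hv.aestronglyMeasurable C (Eventually.of_forall hC)

lemma integrable_bdd {v : Ω → ℝ} (hv : Measurable v) (C : ℝ) (hC : ∀ x, |v x| ≤ C) :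
    Integrable v μ :=
  (memLp_bdd hv C hC).integrable one_le_two

lemma inner_eq {a b : Lp ℝ 2 μ} {u v : Ω → ℝ} (ha : a =ᵐ[μ] u) (hb : b =ᵐ[μ] v) :
    inner ℝ a b = ∫ x, u x * v x ∂μ := by
  rw [L2.inner_def]
  apply integral_congr_ae
  filter_upwards [ha, hb] with x h1 h2
  rw [h1, h2]
  simp [mul_comm]

/-- A function of the class vanishes off `Z`. -/
lemma InE.off {T : Ω → Ω} {F : Set (Ω → Circle)} {Z : Set Ω} (hZ : MeasurableSet Z)
    {h : Lp ℝ 2 μ} (hh : InE μ T F Z h) : ∀ᵐ x ∂μ, x ∉ Z → h x = 0 := by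
  have hint : Integrable (fun x => |h x|) μ := ((Lp.memLp h).integrable one_le_two).abs
  have hle : ∀ ε : ℝ, 0 < ε → ∫ x in Zᶜ, |h x| ∂μ ≤ ε := by
    intro ε hε
    obtain ⟨p, hpm, hpZ, -, hp, hn⟩ := hh ε hε
    have e : (h - hp.toLp p : Lp ℝ 2 μ) =ᵐ[μ] fun x => h x - p x := by
      filter_upwards [Lp.coeFn_sub h (hp.toLp p), hp.coeFn_toLp] with x h1 h2
      rw [h1, Pi.sub_apply, h2]
    have h1 := MRec.integral_abs_le_norm (h - hp.toLp p) e
    have hpi : Integrable p μ := hp.integrable one_le_two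
    have hhi : Integrable (fun x => h x) μ := (Lp.memLp h).integrable one_le_two
    have h2 : ∫ x in Zᶜ, |h x| ∂μ = ∫ x in Zᶜ, |h x - p x| ∂μ := by
      apply setIntegral_congr_fun hZ.compl
      intro x hx
      show |h x| = |h x - p x|
      rw [hpZ x hx, sub_zero]
    have h3 : ∫ x in Zᶜ, |h x - p x| ∂μ ≤ ∫ x, |h x - p x| ∂μ :=
      setIntegral_le_integral (hhi.sub hpi).abs (Eventually.of_forall fun x => abs_nonneg _)
    linarith
  have h0 : ∫ x in Zᶜ, |h x| ∂μ = 0 := by
    apply le_antisymm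
    · exact le_of_forall_pos_le_add fun ε hε => by simpa using hle ε hε
    · exact integral_nonneg fun x => abs_nonneg _
  have h1 := (integral_eq_zero_iff_of_nonneg (fun x => abs_nonneg _) hint.integrableOn).1 h0
  have h2 := (ae_restrict_iff' hZ.compl).1 h1
  filter_upwards [h2] with x hx hxZ
  exact abs_eq_zero.1 (hx hxZ)

/-- Membership of bounded almost periodic functions. -/
lemma mem_of_AP {T : Ω → Ω} {F : Set (Ω → Circle)} {Z : Set Ω} {v : Ω → ℝ} (hv : Measurable v)
    (hp : MemLp v 2 μ) (hZ : ∀ x, x ∉ Z → v x = 0) (hA : ∀ ε : ℝ, 0 < ε → AP μ T F ε v) :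
    InE μ T F Z (hp.toLp v) := by
  intro ε hε
  exact ⟨v, hv, hZ, hA ε hε, hp, by rw [sub_self, norm_zero]; exact hε.le⟩

end DEC_

open DEC_ in
/-- The decomposition. -/
theorem p_DEC (h_PRO : T_PRO.{u}) (h_SPC : T_SPC.{u}) : T_DEC.{u} := by
  intro Ω _ μ _ T hT Z F hZ hTZ hF A hA hAZ
  obtain ⟨s1, s2, s3, s4, s5⟩ := h_SPC Ω μ T F Z
  let K : Submodule ℝ (Lp ℝ 2 μ) :=
    { carrier := {h | InE μ T F Z h}
      add_mem' := fun {a b} ha hb => s1 a b ha hb
      zero_mem' := s3
      smul_mem' := fun c h hh => s2 c h hh }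
  have hKc : IsClosed (K : Set (Lp ℝ 2 μ)) := by
    apply isClosed_of_closure_subset
    intro h hh
    apply s4
    intro ε hε
    obtain ⟨h', h'K, hd⟩ := Metric.mem_closure_iff.1 hh ε hε
    exact ⟨h', h'K, by rw [← dist_eq_norm]; exact hd.le⟩
  have hAZm : MeasurableSet (A ∩ Z) := hA.inter hZ
  have hfm : Measurable (one (A ∩ Z)) := measurable_one hAZm
  have hfb : ∀ x, |one (A ∩ Z) x| ≤ 1 := fun x => by
    rw [abs_of_nonneg (one_nonneg _ _)]
    exact one_le_one _ _
  have hfL : MemLp (one (A ∩ Z)) 2 μ := memLp_bdd hfm 1 hfb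
  obtain ⟨c₀, hc₀K, hc₀b, hc₀o⟩ := h_PRO Ω μ K hKc (fun h hh h' h'e => s5 h h' hh h'e)
    (hfL.toLp _) (by
      filter_upwards [hfL.coeFn_toLp] with x hx
      rw [hx]
      exact ⟨one_nonneg _ _, one_le_one _ _⟩)
  have hc₀K' : InE μ T F Z c₀ := hc₀K
  have hc₀off := InE.off hZ hc₀K'
  have hc₀m : Measurable (fun x => c₀ x) := (Lp.stronglyMeasurable c₀).measurable
  let c : Ω → ℝ := Z.indicator fun x => clip (c₀ x)
  have hcZ : ∀ x ∈ Z, c x = clip (c₀ x) := fun x hx => Set.indicator_of_mem hx _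
  have hcZ' : ∀ x, x ∉ Z → c x = 0 := fun x hx => Set.indicator_of_notMem hx _
  have hcm : Measurable c := (measurable_clip.comp hc₀m).indicator hZ
  have hc0 : ∀ x, 0 ≤ c x := fun x => by
    by_cases hx : x ∈ Z
    · rw [hcZ x hx]; exact clip_nonneg _
    · rw [hcZ' x hx]
  have hc1 : ∀ x, c x ≤ 1 := fun x => by
    by_cases hx : x ∈ Z
    · rw [hcZ x hx]; exact clip_le_one _
    · rw [hcZ' x hx]; exact zero_le_one
  have hcc : c₀ =ᵐ[μ] c := by
    filter_upwards [hc₀b, hc₀off] with x h1 h2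
    by_cases hx : x ∈ Z
    · rw [hcZ x hx, clip_of_mem h1.1 h1.2]
    · rw [hcZ' x hx, h2 hx]
  have hcclip : ∀ᵐ x ∂μ, c x = clip (c₀ x) := by
    filter_upwards [hcc, hc₀b] with x h1 h2
    rw [clip_of_mem h2.1 h2.2, h1]
  have hcb : ∀ x, |c x| ≤ 1 := fun x => by
    rw [abs_of_nonneg (hc0 x)]
    exact hc1 x
  let g : Ω → ℝ := fun x => one (A ∩ Z) x - c x
  have hgm : Measurable g := hfm.sub hcm
  have hg1 : ∀ x, |g x| ≤ 1 := by
    intro x
    have h1 := one_nonneg (A ∩ Z) x
    have h2 := one_le_one (A ∩ Z) x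
    have h3 := hc0 x
    have h4 := hc1 x
    show |one (A ∩ Z) x - c x| ≤ 1
    rw [abs_le]
    constructor <;> linarith
  have hfc : ((hfL.toLp _ - c₀ : Lp ℝ 2 μ)) =ᵐ[μ] g := by
    filter_upwards [Lp.coeFn_sub (hfL.toLp _) c₀, hfL.coeFn_toLp, hcc] with x h1 h2 h3
    rw [h1, Pi.sub_apply, h2, h3]
  -- orthogonality
  have hort : ∀ (v : Ω → ℝ) (h : Lp ℝ 2 μ), InE μ T F Z h → h =ᵐ[μ] v →
      ∫ x, g x * v x ∂μ = 0 := by
    intro v h hh hv
    rw [← inner_eq hfc hv]
    exact hc₀o h hh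
  refine ⟨c, g, hcm, hgm, hc0, hc1, hg1, fun x => ?_, fun x hx => ?_, ?_, ?_, ?_⟩
  · show one (A ∩ Z) x = c x + (one (A ∩ Z) x - c x)
    ring
  · show one (A ∩ Z) x - c x = 0
    rw [one_of_not_mem fun h => hx h.2, hcZ' x hx, sub_zero]
  · intro ε hε
    obtain ⟨p, hpm, hpZ, hAP, hp, hn⟩ := hc₀K' ε hε
    refine ⟨fun x => clip (p x), measurable_clip.comp hpm, fun x => clip_nonneg _,
      fun x => clip_le_one _, ?_, ?_⟩
    · have e : (c₀ - hp.toLp p : Lp ℝ 2 μ) =ᵐ[μ] fun x => c₀ x - p x := by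
        filter_upwards [Lp.coeFn_sub c₀ (hp.toLp p), hp.coeFn_toLp] with x h1 h2
        rw [h1, Pi.sub_apply, h2]
      have h1 := MRec.integral_abs_le_norm (c₀ - hp.toLp p) e
      have hpi : Integrable p μ := hp.integrable one_le_two
      have hci : Integrable (fun x => c₀ x) μ := (Lp.memLp c₀).integrable one_le_two
      have hm : Measurable fun x => |c x - clip (p x)| :=
        (hcm.sub (measurable_clip.comp hpm)).abs
      have hb : ∀ x, |(|c x - clip (p x)|)| ≤ 1 := by
        intro x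
        rw [abs_abs, abs_le]
        have h1 := hc0 x
        have h2 := hc1 x
        have h3 := clip_nonneg (p x)
        have h4 := clip_le_one (p x)
        constructor <;> linarith
      have h2 : ∫ x, |c x - clip (p x)| ∂μ ≤ ∫ x, |c₀ x - p x| ∂μ := by
        apply integral_mono_ae (integrable_bdd hm 1 hb) (hci.sub hpi).abs
        filter_upwards [hcclip] with x hx
        show |c x - clip (p x)| ≤ |c₀ x - p x|
        rw [hx]
        exact abs_clip_sub _ _
      exact h2.trans (h1.trans hn)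
    · obtain ⟨q, hq, ρ, hρ, d, τ, hτ, hall⟩ := hAP
      refine ⟨q, hq, ρ, hρ, d, τ, hτ, fun n => ?_⟩
      filter_upwards [hall n] with x hx hxb
      exact (abs_clip_sub _ _).trans (hx hxb)
  · intro v hv hvb hvZ hvA
    obtain ⟨C, hC⟩ := hvb
    have hvL : MemLp v 2 μ := memLp_bdd hv C hC
    exact hort v (hvL.toLp v) (mem_of_AP hv hvL hvZ hvA) hvL.coeFn_toLp
  · -- positivity
    have hZm : Measurable (one Z) := measurable_one hZ
    have hZL : MemLp (one Z) 2 μ := memLp_bdd hZm 1 fun x => by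
      rw [abs_of_nonneg (one_nonneg _ _)]
      exact one_le_one _ _
    have hZA : ∀ ε : ℝ, 0 < ε → AP μ T F ε (one Z) := by
      intro ε hε
      refine ⟨1, le_rfl, 1, one_pos, 0, Fin.elim0, fun l => l.elim0, fun n => ?_⟩
      refine Eventually.of_forall fun x _ => ?_
      have : one Z (T^[1 * n] x) = one Z x := by
        by_cases hx : x ∈ Z
        · rw [one_of_mem hx, one_of_mem ((iterate_mem hTZ _ x).2 hx)]
        · rw [one_of_not_mem hx, one_of_not_mem fun h => hx ((iterate_mem hTZ _ x).1 h)]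
      rw [this, sub_self, abs_zero]
      exact hε.le
    have hZE : InE μ T F Z (hZL.toLp _) :=
      mem_of_AP hZm hZL (fun x hx => one_of_not_mem hx) hZA
    have i1 : ∫ x, g x * one Z x ∂μ = 0 := hort _ _ hZE hZL.coeFn_toLp
    have i2 : ∫ x, g x * c x ∂μ = 0 := hort _ _ hc₀K' hcc
    have hfi : Integrable (one (A ∩ Z)) μ := integrable_bdd hfm 1 hfb
    have hci : Integrable c μ := integrable_bdd hcm 1 hcb
    have hmul : ∀ x, g x * one Z x = one (A ∩ Z) x - c x := by
      intro x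
      show (one (A ∩ Z) x - c x) * one Z x = one (A ∩ Z) x - c x
      by_cases hx : x ∈ Z
      · rw [one_of_mem (X := Z) hx, mul_one]
      · rw [one_of_not_mem (X := Z) hx, mul_zero, one_of_not_mem fun h => hx h.2, hcZ' x hx,
          sub_zero]
    have i3 : ∫ x, c x ∂μ = μ.real (A ∩ Z) := by
      rw [integral_congr_ae (Eventually.of_forall hmul), integral_sub hfi hci] at i1
      have i4 : ∫ x, one (A ∩ Z) x ∂μ = μ.real (A ∩ Z) := by
        unfold one
        rw [integral_indicator_const _ hAZm, smul_eq_mul, mul_one]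
      linarith
    have hpos : 0 < μ.real (A ∩ Z) := by
      rw [measureReal_def]
      exact ENNReal.toReal_pos hAZ (measure_ne_top _ _)
    have hcc2 : Integrable (fun x => c x * c x) μ := by
      apply integrable_bdd (hcm.mul hcm) 1
      intro x
      show |c x * c x| ≤ 1
      rw [abs_mul]
      have h1 := hcb x
      have h2 := abs_nonneg (c x)
      nlinarith
    have hfc2 : Integrable (fun x => one (A ∩ Z) x * c x) μ := by
      apply integrable_bdd (hfm.mul hcm) 1
      intro x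
      show |one (A ∩ Z) x * c x| ≤ 1
      rw [abs_mul]
      have h1 := hcb x
      have h2 := abs_nonneg (c x)
      have h3 := hfb x
      have h4 := abs_nonneg (one (A ∩ Z) x)
      nlinarith
    have i5 : ∫ x, one (A ∩ Z) x * c x ∂μ = ∫ x, c x * c x ∂μ := by
      have h1 : ∀ x, g x * c x = one (A ∩ Z) x * c x - c x * c x := fun x => by
        show (one (A ∩ Z) x - c x) * c x = _
        ring
      rw [integral_congr_ae (Eventually.of_forall h1), integral_sub hfc2 hcc2] at i2
      linarith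
    have i6 : 0 < ∫ x, c x * c x ∂μ := by
      have h1 : 0 ≤ ∫ x, c x * c x ∂μ := integral_nonneg fun x => mul_self_nonneg _
      rcases h1.eq_or_lt with h2 | h2
      · exfalso
        have h3 := (integral_eq_zero_iff_of_nonneg (fun x => mul_self_nonneg (c x)) hcc2).1 h2.symm
        have h4 : c =ᵐ[μ] fun _ => (0 : ℝ) := by
          filter_upwards [h3] with x hx
          exact mul_self_eq_zero.1 hx
        rw [integral_congr_ae h4, integral_zero] at i3
        linarith
      · exact h2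
    set s : ℝ := ∫ x, c x * c x ∂μ with hs
    refine ⟨s / 2, by linarith, fun hzero => ?_⟩
    have hle : ∀ᵐ x ∂μ, one (A ∩ Z) x * c x ≤ s / 2 := by
      have h1 : ∀ᵐ x ∂μ, x ∉ {x | x ∈ A ∩ Z ∧ s / 2 ≤ c x} := measure_eq_zero_iff_ae_notMem.1 hzero
      filter_upwards [h1] with x hx
      by_cases hxA : x ∈ A ∩ Z
      · rw [one_of_mem hxA, one_mul]
        by_contra hcon
        exact hx ⟨hxA, (not_le.1 hcon).le⟩
      · rw [one_of_not_mem hxA, zero_mul]
        linarith
    have h2 : ∫ x, one (A ∩ Z) x * c x ∂μ ≤ ∫ _x : Ω, s / 2 ∂μ :=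
      integral_mono_ae hfc2 (integrable_const _) hle
    rw [integral_const, smul_eq_mul, probReal_univ, one_mul, i5] at h2
    linarith

end Pool.Agent.FSP
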