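import Pool.Agent.FSP.Targets

set_option autoImplicit false

/-!
# FSP, DEN: returns with the same value are rare
-/

open MeasureTheory Filter Topology Finset

namespace Pool.Agent.FSP

universe u

namespace DEN_

open Classical in
/-- The pattern of `z` with respect to the first `n` sets. -/
noncomputable def kap (U : ℕ → Set Circle) (n : ℕ) (z : Circle) : Finset ℕ :=
  (range n).filter fun i => z ∈ U i

theorem mem_kap {U : ℕ → Set Circle} {n : ℕ} {z : Circle} {i : ℕ} :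
    i ∈ kap U n z ↔ i < n ∧ z ∈ U i := by
  classical
  unfold kap
  rw [mem_filter, mem_range]

theorem kap_mono {U : ℕ → Set Circle} {n n' : ℕ} (h : n ≤ n') {z w : Circle}
    (e : kap U n' z = kap U n' w) : kap U n z = kap U n w := by
  ext i
  rw [mem_kap, mem_kap]
  refine and_congr_right fun hi => ?_
  have h1 : i ∈ kap U n' z ↔ i ∈ kap U n' w := by rw [e]
  rw [mem_kap, mem_kap] at h1
  have h2 : i < n' := lt_of_lt_of_le hi h
  tauto

theorem kap_sub (U : ℕ → Set Circle) (n : ℕ) (z : Circle) :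
    kap U n z ∈ (range n).powerset := by
  rw [mem_powerset]
  intro i hi
  exact mem_range.2 (mem_kap.1 hi).1

section

variable {Ω : Type u} [MeasurableSpace Ω]

/-- The part of `X` with the pattern `c`. -/
def AA (U : ℕ → Set Circle) (χ : Ω → Circle) (X : Set Ω) (n : ℕ) (c : Finset ℕ) : Set Ω :=
  {x | x ∈ X ∧ kap U n (χ x) = c}

theorem meas_AA {U : ℕ → Set Circle} (hU : ∀ i, MeasurableSet (U i)) {χ : Ω → Circle}
    (hχ : Measurable χ) {X : Set Ω} (hX : MeasurableSet X) (n : ℕ) (c : Finset ℕ) :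
    MeasurableSet (AA U χ X n c) := by
  classical
  have h1 : AA U χ X n c = X ∩ ({_x : Ω | c ⊆ range n} ∩
      ⋂ i ∈ range n, {x | χ x ∈ U i ↔ i ∈ c}) := by
    ext x
    simp only [AA, Set.mem_setOf_eq, Set.mem_inter_iff, Set.mem_iInter]
    refine and_congr_right fun _ => ?_
    constructor
    · rintro rfl
      refine ⟨fun i hi => mem_range.2 (mem_kap.1 hi).1, fun i hi => ?_⟩
      rw [mem_kap, mem_range] at *
      exact ⟨fun h => ⟨hi, h⟩, fun h => h.2⟩
    · rintro ⟨h2, h3⟩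
      ext i
      rw [mem_kap]
      constructor
      · rintro ⟨hi, hi'⟩
        exact (h3 i (mem_range.2 hi)).1 hi'
      · intro hi
        exact ⟨mem_range.1 (h2 hi), (h3 i (h2 hi)).2 hi⟩
  rw [h1]
  refine hX.inter ((MeasurableSet.const _).inter ?_)
  refine Finset.measurableSet_biInter _ fun i _ => ?_
  by_cases hi : i ∈ c
  · simp only [hi, iff_true]
    exact hχ (hU i)
  · simp only [hi, iff_false]
    exact (hχ (hU i)).compl

theorem one_apply_mem {A : Set Ω} {x : Ω} (h : x ∈ A) : one A x = 1 := by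
  unfold one
  rw [Set.indicator_of_mem h]

theorem one_apply_not {A : Set Ω} {x : Ω} (h : x ∉ A) : one A x = 0 := by
  unfold one
  rw [Set.indicator_of_notMem h]

theorem one_nonneg (A : Set Ω) (x : Ω) : 0 ≤ one A x := by
  by_cases h : x ∈ A
  · rw [one_apply_mem h]
    norm_num
  · rw [one_apply_not h]

theorem one_le (A : Set Ω) (x : Ω) : one A x ≤ 1 := by
  by_cases h : x ∈ A
  · rw [one_apply_mem h]
  · rw [one_apply_not h]
    norm_num

theorem meas_one {A : Set Ω} (hA : MeasurableSet A) : Measurable (one A) :=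
  measurable_const.indicator hA

theorem int_one {μ : Measure Ω} [IsProbabilityMeasure μ] {A : Set Ω} (hA : MeasurableSet A) :
    Integrable (one A) μ :=
  (integrable_const (1 : ℝ)).indicator hA

theorem integral_one {μ : Measure Ω} [IsProbabilityMeasure μ] {A : Set Ω}
    (hA : MeasurableSet A) : ∫ x, one A x ∂μ = μ.real A := by
  unfold one
  rw [integral_indicator hA, setIntegral_const, smul_eq_mul, mul_one]

/-- The conditional probability. -/
noncomputable def ee (μ : Measure Ω) (S : Ω → Ω) (A : Set Ω) : Ω → ℝ :=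
  μ[one A | MeasurableSpace.invariants S]

variable {μ : Measure Ω} [IsProbabilityMeasure μ] {S : Ω → Ω}

theorem ee_meas (A : Set Ω) : Measurable (ee μ S A) :=
  (stronglyMeasurable_condExp.mono (MeasurableSpace.invariants_le S)).measurable

theorem ee_inv (A : Set Ω) (h : ℕ) (x : Ω) : ee μ S A (S^[h] x) = ee μ S A x := by
  have h1 : ee μ S A ∘ S = ee μ S A :=
    MeasurableSpace.comp_eq_of_measurable_invariants stronglyMeasurable_condExp.measurable
  induction h with
  | zero => rfl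
  | succ h ih =>
    rw [Function.iterate_succ_apply']
    have h2 := congrFun h1 (S^[h] x)
    rw [← ih]
    exact h2

theorem ee_nonneg (A : Set Ω) : ∀ᵐ x ∂μ, 0 ≤ ee μ S A x := by
  have h1 : 0 ≤ᵐ[μ] μ[one A | MeasurableSpace.invariants S] :=
    condExp_nonneg (Filter.Eventually.of_forall (one_nonneg A))
  exact h1

theorem ee_mono {A B : Set Ω} (hA : MeasurableSet A) (hB : MeasurableSet B) (h : A ⊆ B) :
    ∀ᵐ x ∂μ, ee μ S A x ≤ ee μ S B x := by
  have h1 : μ[one A | MeasurableSpace.invariants S] ≤ᵐ[μ]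
      μ[one B | MeasurableSpace.invariants S] := by
    refine condExp_mono (int_one hA) (int_one hB) (Filter.Eventually.of_forall fun x => ?_)
    by_cases hx : x ∈ A
    · rw [one_apply_mem hx, one_apply_mem (h hx)]
    · rw [one_apply_not hx]
      exact one_nonneg B x
  exact h1

theorem ee_le_one (A : Set Ω) (hA : MeasurableSet A) : ∀ᵐ x ∂μ, ee μ S A x ≤ 1 := by
  have h1 : μ[one A | MeasurableSpace.invariants S] ≤ᵐ[μ]
      μ[fun _ => (1 : ℝ) | MeasurableSpace.invariants S] :=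
    condExp_mono (int_one hA) (integrable_const _)
      (Filter.Eventually.of_forall fun x => one_le A x)
  rw [condExp_const (MeasurableSpace.invariants_le S)] at h1
  exact h1

theorem ee_add {A B C : Set Ω} (hA : MeasurableSet A) (hB : MeasurableSet B)
    (hC : MeasurableSet C) (hAC : A ⊆ C) (hBC : B ⊆ C) (hAB : Disjoint A B) :
    ∀ᵐ x ∂μ, ee μ S A x + ee μ S B x ≤ ee μ S C x := by
  have h1 : μ[one A + one B | MeasurableSpace.invariants S] ≤ᵐ[μ]
      μ[one C | MeasurableSpace.invariants S] := by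
    refine condExp_mono ((int_one hA).add (int_one hB)) (int_one hC)
      (Filter.Eventually.of_forall fun x => ?_)
    rw [Pi.add_apply]
    by_cases hx : x ∈ A
    · rw [one_apply_mem hx, one_apply_mem (hAC hx),
        one_apply_not (Set.disjoint_left.1 hAB hx), add_zero]
    · rw [one_apply_not hx, zero_add]
      by_cases hx' : x ∈ B
      · rw [one_apply_mem hx', one_apply_mem (hBC hx')]
      · rw [one_apply_not hx']
        exact one_nonneg C x
  have h2 := condExp_add (int_one (μ := μ) hA) (int_one hB) (MeasurableSpace.invariants S)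
  filter_upwards [h1, h2] with x hx1 hx2
  rw [hx2, Pi.add_apply] at hx1
  exact hx1

/-- The sum over the cells. -/
noncomputable def dd (μ : Measure Ω) (S : Ω → Ω) (U : ℕ → Set Circle) (χ : Ω → Circle)
    (X : Set Ω) (m : ℕ) (x : Ω) : ℝ :=
  ∑ c ∈ (range m).powerset, one (AA U χ X m c) x * ee μ S (AA U χ X m c) x

theorem dd_eq {U : ℕ → Set Circle} {χ : Ω → Circle} {X : Set Ω} (m : ℕ) {x : Ω} (hx : x ∈ X) :
    dd μ S U χ X m x = ee μ S (AA U χ X m (kap U m (χ x))) x := by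
  unfold dd
  rw [Finset.sum_eq_single (kap U m (χ x))]
  · rw [one_apply_mem (show x ∈ AA U χ X m (kap U m (χ x)) from ⟨hx, rfl⟩), one_mul]
  · intro c _ hc
    rw [one_apply_not (fun h => hc h.2.symm), zero_mul]
  · intro h
    exact absurd (kap_sub U m (χ x)) h

theorem dd_out {U : ℕ → Set Circle} {χ : Ω → Circle} {X : Set Ω} (m : ℕ) {x : Ω} (hx : x ∉ X) :
    dd μ S U χ X m x = 0 := by
  unfold dd
  refine Finset.sum_eq_zero fun c _ => ?_
  rw [one_apply_not (fun h => hx h.1), zero_mul]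

theorem dd_meas {U : ℕ → Set Circle} (hU : ∀ i, MeasurableSet (U i)) {χ : Ω → Circle}
    (hχ : Measurable χ) {X : Set Ω} (hX : MeasurableSet X) (m : ℕ) :
    Measurable (dd μ S U χ X m) := by
  unfold dd
  refine Finset.measurable_sum _ fun c _ => ?_
  exact (meas_one (meas_AA hU hχ hX m c)).mul (ee_meas _)

/-- The exceptional sets. -/
def yy (μ : Measure Ω) (S : Ω → Ω) (U : ℕ → Set Circle) (χ : Ω → Circle) (X : Set Ω) (n : ℕ)
    (c : Finset ℕ) : Set Ω :=
  AA U χ X n c ∩ ⋂ m : ℕ, {x | ee μ S (AA U χ X n c) x < 2 * dd μ S U χ X m x}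

theorem yy_meas {U : ℕ → Set Circle} (hU : ∀ i, MeasurableSet (U i)) {χ : Ω → Circle}
    (hχ : Measurable χ) {X : Set Ω} (hX : MeasurableSet X) (n : ℕ) (c : Finset ℕ) :
    MeasurableSet (yy μ S U χ X n c) := by
  refine (meas_AA hU hχ hX n c).inter (MeasurableSet.iInter fun m => ?_)
  exact measurableSet_lt (ee_meas _) ((dd_meas hU hχ hX m).const_mul 2)

theorem AA_sub {U : ℕ → Set Circle} {χ : Ω → Circle} {X : Set Ω} {n n' : ℕ} (h : n ≤ n')
    {x : Ω} {c : Finset ℕ} (hx : x ∈ AA U χ X n c) :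
    AA U χ X n' (kap U n' (χ x)) ⊆ AA U χ X n c := by
  rintro w ⟨hw, hw'⟩
  exact ⟨hw, (kap_mono h hw').trans hx.2⟩

theorem yy_orb {U : ℕ → Set Circle} (hU : ∀ i, MeasurableSet (U i))
    (hsep : ∀ z w : Circle, (∀ i, z ∈ U i ↔ w ∈ U i) → z = w) {χ : Ω → Circle}
    (hχ : Measurable χ) {X : Set Ω} (hX : MeasurableSet X) (n : ℕ) (c : Finset ℕ) :
    OrbC μ S χ (yy μ S U χ X n c) := by
  intro h
  have h1 : ∀ᵐ x ∂μ, ∀ (n' : ℕ) (c' c'' : Finset ℕ), AA U χ X n' c' ⊆ AA U χ X n c →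
      AA U χ X n' c'' ⊆ AA U χ X n c → c' ≠ c'' →
      ee μ S (AA U χ X n' c') x + ee μ S (AA U χ X n' c'') x ≤ ee μ S (AA U χ X n c) x := by
    rw [ae_all_iff]
    intro n'
    rw [ae_all_iff]
    intro c'
    rw [ae_all_iff]
    intro c''
    by_cases h2 : AA U χ X n' c' ⊆ AA U χ X n c ∧ AA U χ X n' c'' ⊆ AA U χ X n c ∧ c' ≠ c''
    · obtain ⟨h3, h4, h5⟩ := h2
      have h6 : Disjoint (AA U χ X n' c') (AA U χ X n' c'') := by
        rw [Set.disjoint_left]
        rintro w ⟨-, hw⟩ ⟨-, hw'⟩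
        exact h5 (hw.symm.trans hw')
      filter_upwards [ee_add (μ := μ) (S := S) (meas_AA hU hχ hX n' c') (meas_AA hU hχ hX n' c'')
        (meas_AA hU hχ hX n c) h3 h4 h6] with x hx _ _ _
      exact hx
    · exact Filter.Eventually.of_forall fun x h3 h4 h5 => (h2 ⟨h3, h4, h5⟩).elim
  filter_upwards [h1] with x hx hxY hyY
  by_contra hne
  set y : Ω := S^[h] x with hy
  have h2 : ∃ i, ¬ (χ y ∈ U i ↔ χ x ∈ U i) := by
    by_contra hcon
    push Not at hcon
    exact hne (hsep _ _ hcon)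
  obtain ⟨i, hi⟩ := h2
  have hxA := hxY.1
  have hyA := hyY.1
  have h3 : kap U (max n (i + 1)) (χ x) ≠ kap U (max n (i + 1)) (χ y) := by
    intro h4
    apply hi
    have h5 : i < max n (i + 1) := by omega
    have h6 : i ∈ kap U (max n (i + 1)) (χ x) ↔ i ∈ kap U (max n (i + 1)) (χ y) := by rw [h4]
    rw [mem_kap, mem_kap] at h6
    tauto
  have h4 := hx (max n (i + 1)) _ _ (AA_sub (le_max_left _ _) hxA)
    (AA_sub (le_max_left _ _) hyA) h3
  have h5 := Set.mem_iInter.1 hxY.2 (max n (i + 1))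
  have h6 := Set.mem_iInter.1 hyY.2 (max n (i + 1))
  simp only [Set.mem_setOf_eq] at h5 h6
  rw [dd_eq _ hxA.1] at h5
  rw [dd_eq _ hyA.1] at h6
  rw [hy, ee_inv, ee_inv, ← hy] at h6
  linarith

theorem lim {U : ℕ → Set Circle} (hU : ∀ i, MeasurableSet (U i))
    (hsep : ∀ z w : Circle, (∀ i, z ∈ U i ↔ w ∈ U i) → z = w) {χ : Ω → Circle}
    (hχ : Measurable χ) {X : Set Ω} (hX : MeasurableSet X) (hN : NoC μ S χ X) :
    ∀ᵐ x ∂μ, (∀ m, 0 ≤ dd μ S U χ X m x ∧ dd μ S U χ X m x ≤ 1) ∧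
      Tendsto (fun m => dd μ S U χ X m x) atTop (𝓝 0) := by
  have h1 : ∀ᵐ x ∂μ, ∀ (n : ℕ) (c : Finset ℕ), x ∉ yy μ S U χ X n c := by
    rw [ae_all_iff]
    intro n
    rw [ae_all_iff]
    intro c
    have h2 := hN (yy μ S U χ X n c) (fun x hx => hx.1.1) (yy_meas hU hχ hX n c)
      (yy_orb hU hsep hχ hX n c)
    exact measure_eq_zero_iff_ae_notMem.1 h2
  have h2 : ∀ᵐ x ∂μ, ∀ (n : ℕ) (c : Finset ℕ), 0 ≤ ee μ S (AA U χ X n c) x := by
    rw [ae_all_iff]
    intro n
    rw [ae_all_iff]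
    intro c
    exact ee_nonneg _
  have h3 : ∀ᵐ x ∂μ, ∀ (n : ℕ) (c : Finset ℕ), ee μ S (AA U χ X n c) x ≤ 1 := by
    rw [ae_all_iff]
    intro n
    rw [ae_all_iff]
    intro c
    exact ee_le_one _ (meas_AA hU hχ hX n c)
  have h4 : ∀ᵐ x ∂μ, ∀ (n : ℕ) (c c' : Finset ℕ), AA U χ X (n + 1) c' ⊆ AA U χ X n c →
      ee μ S (AA U χ X (n + 1) c') x ≤ ee μ S (AA U χ X n c) x := by
    rw [ae_all_iff]
    intro n
    rw [ae_all_iff]
    intro c
    rw [ae_all_iff]
    intro c'
    by_cases h5 : AA U χ X (n + 1) c' ⊆ AA U χ X n c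
    · filter_upwards [ee_mono (μ := μ) (S := S) (meas_AA hU hχ hX (n + 1) c')
        (meas_AA hU hχ hX n c) h5] with x hx _
      exact hx
    · exact Filter.Eventually.of_forall fun x h6 => absurd h6 h5
  filter_upwards [h1, h2, h3, h4] with x hx1 hx2 hx3 hx4
  by_cases hx : x ∈ X
  · have h5 : ∀ m, dd μ S U χ X m x = ee μ S (AA U χ X m (kap U m (χ x))) x :=
      fun m => dd_eq m hx
    have h6 : ∀ m, 0 ≤ dd μ S U χ X m x := fun m => by rw [h5]; exact hx2 _ _
    refine ⟨fun m => ⟨h6 m, by rw [h5]; exact hx3 _ _⟩, ?_⟩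
    have h7 : Antitone fun m => dd μ S U χ X m x := by
      refine antitone_nat_of_succ_le fun m => ?_
      rw [h5, h5]
      exact hx4 m _ _ (AA_sub (Nat.le_succ m) ⟨hx, rfl⟩)
    have h8 : BddBelow (Set.range fun m => dd μ S U χ X m x) := by
      refine ⟨0, ?_⟩
      rintro _ ⟨m, rfl⟩
      exact h6 m
    have h9 := tendsto_atTop_ciInf h7 h8
    have h10 : 0 ≤ ⨅ m, dd μ S U χ X m x := le_ciInf h6
    rcases h10.lt_or_eq with h11 | h11
    · exfalso
      obtain ⟨n, hn⟩ := exists_lt_of_ciInf_lt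
        (show (⨅ m, dd μ S U χ X m x) < 2 * ⨅ m, dd μ S U χ X m x by linarith)
      refine hx1 n (kap U n (χ x)) ⟨⟨hx, rfl⟩, Set.mem_iInter.2 fun m => ?_⟩
      show ee μ S (AA U χ X n (kap U n (χ x))) x < 2 * dd μ S U χ X m x
      rw [← h5]
      have h12 := ciInf_le h8 m
      linarith
    · rw [← h11] at h9
      exact h9
  · refine ⟨fun m => ?_, ?_⟩
    · rw [dd_out m hx]
      norm_num
    · refine tendsto_const_nhds.congr fun m => ?_
      rw [dd_out m hx]

theorem lim_int {U : ℕ → Set Circle} (hU : ∀ i, MeasurableSet (U i))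
    (hsep : ∀ z w : Circle, (∀ i, z ∈ U i ↔ w ∈ U i) → z = w) {χ : Ω → Circle}
    (hχ : Measurable χ) {X : Set Ω} (hX : MeasurableSet X) (hN : NoC μ S χ X) :
    Tendsto (fun m => ∫ x, dd μ S U χ X m x ∂μ) atTop (𝓝 0) := by
  have h1 := lim (μ := μ) (S := S) hU hsep hχ hX hN
  have h2 : Tendsto (fun m => ∫ x, dd μ S U χ X m x ∂μ) atTop (𝓝 (∫ _x, (0 : ℝ) ∂μ)) := by
    refine tendsto_integral_of_dominated_convergence (fun _ => (1 : ℝ))
      (fun m => (dd_meas hU hχ hX m).aestronglyMeasurable) (integrable_const _) ?_ ?_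
    · intro m
      filter_upwards [h1] with x hx
      rw [Real.norm_eq_abs, abs_le]
      have h3 := hx.1 m
      constructor <;> linarith
    · filter_upwards [h1] with x hx
      exact hx.2
  simpa using h2

/-- The number of returns to one cell. -/
theorem cell (hE : T_ERG.{u}) (hS : MeasurePreserving S μ μ) {A : Set Ω}
    (hA : MeasurableSet A) (δ : ℝ) (hδ : 0 < δ) : ∃ J₀ : ℕ, ∀ J ≥ J₀,
      (J : ℝ)⁻¹ * ∑ h ∈ range J, μ.real (A ∩ S^[h] ⁻¹' A) ≤
        ∫ x, one A x * ee μ S A x ∂μ + δ := by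
  obtain ⟨J₀, hJ⟩ := hE Ω μ S hS (one A) 1 (meas_one hA) (fun x => by
    rw [abs_le]
    have h1 := one_nonneg A x
    have h2 := one_le A x
    constructor <;> linarith) δ hδ
  refine ⟨J₀, fun J hJ' => ?_⟩
  have h3 := hJ J hJ'
  have hAh : ∀ h : ℕ, MeasurableSet (S^[h] ⁻¹' A) := fun h =>
    (hS.iterate h).measurable hA
  have h4 : ∀ h : ℕ, μ.real (A ∩ S^[h] ⁻¹' A) = ∫ x, one A x * one A (S^[h] x) ∂μ := by
    intro h
    rw [← integral_one (hA.inter (hAh h))]
    refine integral_congr_ae (Filter.Eventually.of_forall fun x => ?_)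
    by_cases h5 : x ∈ A
    · by_cases h6 : S^[h] x ∈ A
      · simp only [one_apply_mem h5, one_apply_mem h6,
          one_apply_mem (show x ∈ A ∩ S^[h] ⁻¹' A from ⟨h5, h6⟩), mul_one]
      · simp only [one_apply_mem h5, one_apply_not h6,
          one_apply_not (show x ∉ A ∩ S^[h] ⁻¹' A from fun h7 => h6 h7.2), mul_zero]
    · simp only [one_apply_not h5,
        one_apply_not (show x ∉ A ∩ S^[h] ⁻¹' A from fun h7 => h5 h7.1), zero_mul]
  have hint : ∀ h : ℕ, Integrable (fun x => one A x * one A (S^[h] x)) μ := by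
    intro h
    have h5 : Integrable (fun x => one A (S^[h] x) * one A x) μ := by
      refine (int_one hA).bdd_mul (c := 1)
        ((meas_one hA).comp (hS.iterate h).measurable).aestronglyMeasurable ?_
      refine Filter.Eventually.of_forall fun x => ?_
      rw [Real.norm_eq_abs, abs_of_nonneg (one_nonneg _ _)]
      exact one_le _ _
    refine h5.congr (Filter.Eventually.of_forall fun x => mul_comm _ _)
  have h5 : (J : ℝ)⁻¹ * ∑ h ∈ range J, μ.real (A ∩ S^[h] ⁻¹' A) =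
      ∫ x, one A x * ((J : ℝ)⁻¹ * ∑ h ∈ range J, one A (S^[h] x)) ∂μ := by
    simp_rw [h4]
    rw [← integral_finsetSum _ (fun h _ => hint h), ← integral_const_mul]
    refine integral_congr_ae (Filter.Eventually.of_forall fun x => ?_)
    simp only
    rw [Finset.mul_sum, Finset.mul_sum, Finset.mul_sum]
    refine Finset.sum_congr rfl fun h _ => ?_
    ring
  have hsum : Integrable (fun x => (J : ℝ)⁻¹ * ∑ h ∈ range J, one A (S^[h] x)) μ := by
    refine Integrable.const_mul ?_ _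
    refine integrable_finsetSum _ fun h _ => ?_
    exact (hS.iterate h).integrable_comp_of_integrable (int_one hA)
  have hee : Integrable (ee μ S A) μ := integrable_condExp
  have hbd : ∀ᵐ x ∂μ, ‖one A x‖ ≤ 1 := by
    refine Filter.Eventually.of_forall fun x => ?_
    rw [Real.norm_eq_abs, abs_of_nonneg (one_nonneg _ _)]
    exact one_le _ _
  have i1 : Integrable (fun x => one A x *
      ((J : ℝ)⁻¹ * ∑ h ∈ range J, one A (S^[h] x))) μ :=
    hsum.bdd_mul (c := 1) (meas_one hA).aestronglyMeasurable hbd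
  have i2 : Integrable (fun x => one A x * ee μ S A x) μ :=
    hee.bdd_mul (c := 1) (meas_one hA).aestronglyMeasurable hbd
  have i3 : Integrable (fun x => |(J : ℝ)⁻¹ * ∑ h ∈ range J, one A (S^[h] x) -
      ee μ S A x|) μ := (hsum.sub hee).abs
  rw [h5]
  have h6 : ∫ x, one A x * ((J : ℝ)⁻¹ * ∑ h ∈ range J, one A (S^[h] x)) ∂μ ≤
      ∫ x, (one A x * ee μ S A x + |(J : ℝ)⁻¹ * ∑ h ∈ range J, one A (S^[h] x) -
        ee μ S A x|) ∂μ := by
    refine integral_mono i1 (i2.add i3) fun x => ?_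
    simp only
    have h7 := one_nonneg A x
    have h8 := one_le A x
    have h9 := le_abs_self ((J : ℝ)⁻¹ * ∑ h ∈ range J, one A (S^[h] x) - ee μ S A x)
    have h10 := abs_nonneg ((J : ℝ)⁻¹ * ∑ h ∈ range J, one A (S^[h] x) - ee μ S A x)
    nlinarith
  rw [integral_add i2 i3] at h6
  refine h6.trans ?_
  have h7 : ∫ x, |(J : ℝ)⁻¹ * ∑ h ∈ range J, one A (S^[h] x) - ee μ S A x| ∂μ ≤ δ := h3
  linarith

end

end DEN_

/-- DEN. -/
theorem p_DEN (h_ERG : T_ERG.{u}) : T_DEN.{u} := by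
  intro Ω _ μ _ S hS χ X hχ hX hN ε hε
  obtain ⟨U, hU, hsep⟩ := exists_seq_separating Circle (p := MeasurableSet)
    MeasurableSet.empty Set.univ
  have hsep' : ∀ z w : Circle, (∀ i, z ∈ U i ↔ w ∈ U i) → z = w :=
    fun z w h => hsep z trivial w trivial h
  have h1 := DEN_.lim_int (μ := μ) (S := S) hU hsep' hχ hX hN
  obtain ⟨n, hn⟩ := (h1.eventually (gt_mem_nhds (half_pos hε))).exists
  have hM : (0 : ℝ) < ((range n).powerset.card : ℝ) := by
    have h2 : 0 < (range n).powerset.card := by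
      rw [card_powerset]
      positivity
    exact_mod_cast h2
  have h2 : ∀ c : Finset ℕ, ∃ J₀ : ℕ, ∀ J ≥ J₀, (J : ℝ)⁻¹ * ∑ h ∈ range J,
      μ.real (DEN_.AA U χ X n c ∩ S^[h] ⁻¹' DEN_.AA U χ X n c) ≤
      ∫ x, one (DEN_.AA U χ X n c) x * DEN_.ee μ S (DEN_.AA U χ X n c) x ∂μ +
        ε / (2 * ((range n).powerset.card : ℝ)) := fun c =>
    DEN_.cell h_ERG hS (DEN_.meas_AA hU hχ hX n c) _ (by positivity)
  choose J₀ hJ₀ using h2
  refine ⟨(range n).powerset.sup J₀, fun J hJ => ?_⟩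
  have h3 : ∀ h : ℕ, μ.real {x | x ∈ X ∧ S^[h] x ∈ X ∧ χ (S^[h] x) = χ x} ≤
      ∑ c ∈ (range n).powerset,
        μ.real (DEN_.AA U χ X n c ∩ S^[h] ⁻¹' DEN_.AA U χ X n c) := by
    intro h
    refine (measureReal_mono ?_ (measure_ne_top _ _)).trans
      (measureReal_biUnion_finset_le (range n).powerset
        (fun c => DEN_.AA U χ X n c ∩ S^[h] ⁻¹' DEN_.AA U χ X n c))
    rintro x ⟨hx, hx', he⟩
    rw [Set.mem_iUnion₂]
    exact ⟨DEN_.kap U n (χ x), DEN_.kap_sub U n (χ x), ⟨hx, rfl⟩, ⟨hx', by rw [he]⟩⟩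
  have h4 : (J : ℝ)⁻¹ * ∑ h ∈ range J,
      μ.real {x | x ∈ X ∧ S^[h] x ∈ X ∧ χ (S^[h] x) = χ x} ≤
      ∑ c ∈ (range n).powerset, ((J : ℝ)⁻¹ * ∑ h ∈ range J,
        μ.real (DEN_.AA U χ X n c ∩ S^[h] ⁻¹' DEN_.AA U χ X n c)) := by
    rw [← Finset.mul_sum, Finset.sum_comm]
    refine mul_le_mul_of_nonneg_left (Finset.sum_le_sum fun h _ => h3 h) (by positivity)
  have h5 : ∑ c ∈ (range n).powerset, ((J : ℝ)⁻¹ * ∑ h ∈ range J,
        μ.real (DEN_.AA U χ X n c ∩ S^[h] ⁻¹' DEN_.AA U χ X n c)) ≤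
      ∑ c ∈ (range n).powerset,
        (∫ x, one (DEN_.AA U χ X n c) x * DEN_.ee μ S (DEN_.AA U χ X n c) x ∂μ +
        ε / (2 * ((range n).powerset.card : ℝ))) := by
    refine Finset.sum_le_sum fun c hc => hJ₀ c J ?_
    exact (Finset.le_sup (f := J₀) hc).trans hJ
  rw [Finset.sum_add_distrib, Finset.sum_const, nsmul_eq_mul] at h5
  have h6 : ((range n).powerset.card : ℝ) * (ε / (2 * ((range n).powerset.card : ℝ))) =
      ε / 2 := by
    field_simp
  rw [h6, ← integral_finsetSum] at h5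
  · have h7 : ∫ x, ∑ c ∈ (range n).powerset,
        one (DEN_.AA U χ X n c) x * DEN_.ee μ S (DEN_.AA U χ X n c) x ∂μ < ε / 2 := hn
    linarith
  · intro c _
    refine Integrable.bdd_mul (c := 1) integrable_condExp
      (DEN_.meas_one (DEN_.meas_AA hU hχ hX n c)).aestronglyMeasurable ?_
    refine Filter.Eventually.of_forall fun x => ?_
    rw [Real.norm_eq_abs, abs_of_nonneg (DEN_.one_nonneg _ _)]
    exact DEN_.one_le _ _

end Pool.Agent.FSP
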