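import Pool.Agent.FSP.Targets

set_option autoImplicit false

/-!
Target DIC of the project FSP: the Noetherian choice.
-/

open MeasureTheory Filter Topology Finset

namespace Pool.Agent.FSP

universe u

namespace DIC_

variable {Ω : Type u} [MeasurableSpace Ω]

/-- the character with exponents `α` -/
noncomputable def ch {k : ℕ} (θ : Fin k → Ω → Circle) (α : Fin k → ℤ) (x : Ω) : Circle :=
  ∏ j, θ j x ^ α j

theorem ch_add {k : ℕ} (θ : Fin k → Ω → Circle) (α β : Fin k → ℤ) (x : Ω) :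
    ch θ (α + β) x = ch θ α x * ch θ β x := by
  unfold ch
  rw [← Finset.prod_mul_distrib]
  exact Finset.prod_congr rfl fun j _ => by rw [Pi.add_apply, zpow_add]

theorem ch_neg {k : ℕ} (θ : Fin k → Ω → Circle) (α : Fin k → ℤ) (x : Ω) :
    ch θ (-α) x = (ch θ α x)⁻¹ := by
  unfold ch
  rw [← Finset.prod_inv_distrib]
  exact Finset.prod_congr rfl fun j _ => by rw [Pi.neg_apply, zpow_neg]

theorem ch_zero {k : ℕ} (θ : Fin k → Ω → Circle) (x : Ω) : ch θ 0 x = 1 := by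
  unfold ch
  simp

/-- the exponents whose character is constant along the orbits of `S^[q]` in `X` -/
noncomputable def H (μ : Measure Ω) (S : Ω → Ω) {k : ℕ} (θ : Fin k → Ω → Circle) (X : Set Ω)
    (q : ℕ) : AddSubgroup (Fin k → ℤ) where
  carrier := {α | OrbC μ S^[q] (ch θ α) X}
  add_mem' := by
    intro α β ha hb h
    filter_upwards [ha h, hb h] with x h1 h2 hx hx'
    rw [ch_add, ch_add, h1 hx hx', h2 hx hx']
  zero_mem' := by
    intro h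
    refine Eventually.of_forall fun x _ _ => ?_
    rw [ch_zero, ch_zero]
  neg_mem' := by
    intro α ha h
    filter_upwards [ha h] with x h1 hx hx'
    rw [ch_neg, ch_neg, h1 hx hx']

theorem mem_H (μ : Measure Ω) (S : Ω → Ω) {k : ℕ} (θ : Fin k → Ω → Circle) (X : Set Ω)
    (q : ℕ) (α : Fin k → ℤ) : α ∈ H μ S θ X q ↔ OrbC μ S^[q] (ch θ α) X := Iff.rfl

theorem orbC_mono (μ : Measure Ω) (S : Ω → Ω) (χ : Ω → Circle) {X Y : Set Ω} {q q' : ℕ}
    (hYX : Y ⊆ X) (hq : q ∣ q') (h : OrbC μ S^[q] χ X) : OrbC μ S^[q'] χ Y := by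
  obtain ⟨m, rfl⟩ := hq
  intro h'
  filter_upwards [h (m * h')] with x hx h1 h2
  have e : (S^[q * m])^[h'] = (S^[q])^[m * h'] := by
    rw [← Function.iterate_mul, ← Function.iterate_mul, mul_assoc]
  rw [e] at h2 ⊢
  exact hx (hYX h1) (hYX h2)

theorem H_mono (μ : Measure Ω) (S : Ω → Ω) {k : ℕ} (θ : Fin k → Ω → Circle) {X Y : Set Ω}
    {q q' : ℕ} (hYX : Y ⊆ X) (hq : q ∣ q') : H μ S θ X q ≤ H μ S θ Y q' := by
  intro α ha
  exact orbC_mono μ S _ hYX hq ha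

end DIC_

open DIC_ in
theorem p_DIC : T_DIC.{u} := by
  intro Ω _ μ S₁ S₂ k θ A₀ hA hA0
  let G : Set Ω × ℕ → Submodule ℤ ((Fin k → ℤ) × (Fin k → ℤ)) := fun p =>
    (AddSubgroup.toIntSubmodule (H μ S₁ θ p.1 p.2)).prod
      (AddSubgroup.toIntSubmodule (H μ S₂ θ p.1 p.2))
  let Adm : Set (Set Ω × ℕ) := {p | p.1 ⊆ A₀ ∧ MeasurableSet p.1 ∧ μ p.1 ≠ 0 ∧ 1 ≤ p.2}
  have hne : (G '' Adm).Nonempty := ⟨_, ⟨(A₀, 1), ⟨Set.Subset.refl _, hA, hA0, le_rfl⟩, rfl⟩⟩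
  obtain ⟨M, ⟨⟨X, q₀⟩, hadm, rfl⟩, hmax⟩ := set_has_maximal_iff_noetherian.2
    (inferInstance : IsNoetherian ℤ ((Fin k → ℤ) × (Fin k → ℤ))) (G '' Adm) hne
  obtain ⟨hX1, hX2, hX3, hq0⟩ := hadm
  have key : ∀ (Y : Set Ω) (q : ℕ), Y ⊆ X → MeasurableSet Y → μ Y ≠ 0 → 1 ≤ q → q₀ ∣ q →
      H μ S₁ θ Y q ≤ H μ S₁ θ X q₀ ∧ H μ S₂ θ Y q ≤ H μ S₂ θ X q₀ := by
    intro Y q hYX hY hY0 hq hdvd
    have h1 : G (X, q₀) ≤ G (Y, q) := by
      refine Submodule.prod_mono ?_ ?_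
      · exact fun α ha => H_mono μ S₁ θ hYX hdvd ha
      · exact fun α ha => H_mono μ S₂ θ hYX hdvd ha
    have h2 : ¬ G (X, q₀) < G (Y, q) :=
      hmax _ ⟨(Y, q), ⟨hYX.trans hX1, hY, hY0, hq⟩, rfl⟩
    have h3 : G (Y, q) ≤ G (X, q₀) := by
      by_contra hcon
      exact h2 (lt_of_le_not_ge h1 hcon)
    constructor
    · intro α ha
      have h4 : (α, (0 : Fin k → ℤ)) ∈ G (Y, q) :=
        Submodule.mem_prod.2 ⟨ha, Submodule.zero_mem _⟩
      exact (Submodule.mem_prod.1 (h3 h4)).1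
    · intro α ha
      have h4 : ((0 : Fin k → ℤ), α) ∈ G (Y, q) :=
        Submodule.mem_prod.2 ⟨Submodule.zero_mem _, ha⟩
      exact (Submodule.mem_prod.1 (h3 h4)).2
  refine ⟨X, hX1, hX2, hX3, q₀, hq0, fun q hq hdvd α => ⟨?_, ?_⟩⟩
  · by_cases hα : α ∈ H μ S₁ θ X q₀
    · exact Or.inl (orbC_mono μ S₁ _ (Set.Subset.refl X) hdvd hα)
    · refine Or.inr fun Y hYX hY ho => ?_
      by_contra hcon
      exact hα ((key Y q hYX hY hcon hq hdvd).1 ho)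
  · by_cases hα : α ∈ H μ S₂ θ X q₀
    · exact Or.inl (orbC_mono μ S₂ _ (Set.Subset.refl X) hdvd hα)
    · refine Or.inr fun Y hYX hY ho => ?_
      by_contra hcon
      exact hα ((key Y q hYX hY hcon hq hdvd).2 ho)

end Pool.Agent.FSP
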