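import Pool.Agent.FSP.Targets

set_option autoImplicit false

/-!
# FSP: DUA, duality inequality (helper21)
-/

open MeasureTheory Filter Topology Finset

namespace Pool.Agent.FSP

namespace DUA_

/-- Cauchy-Schwarz for an average. -/
theorem sq_avg_le (N : ℕ) (hN : 0 < N) (c : ℕ → ℝ) :
    ((N : ℝ)⁻¹ * ∑ n ∈ range N, c n) ^ 2 ≤ (N : ℝ)⁻¹ * ∑ n ∈ range N, c n ^ 2 := by
  have hN' : (0 : ℝ) < N := Nat.cast_pos.2 hN
  have h := sq_sum_le_card_mul_sum_sq (s := range N) (f := c)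
  rw [card_range] at h
  have h2 : ((N : ℝ)⁻¹) ^ 2 * (∑ n ∈ range N, c n) ^ 2 ≤
      ((N : ℝ)⁻¹) ^ 2 * ((N : ℝ) * ∑ n ∈ range N, c n ^ 2) :=
    mul_le_mul_of_nonneg_left h (by positivity)
  calc ((N : ℝ)⁻¹ * ∑ n ∈ range N, c n) ^ 2
      = ((N : ℝ)⁻¹) ^ 2 * (∑ n ∈ range N, c n) ^ 2 := by ring
    _ ≤ ((N : ℝ)⁻¹) ^ 2 * ((N : ℝ) * ∑ n ∈ range N, c n ^ 2) := h2
    _ = (N : ℝ)⁻¹ * ∑ n ∈ range N, c n ^ 2 := by
        field_simp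

/-- the phase -/
noncomputable def ph (F : ℂ) : ℂ := starRingEnd ℂ F / (‖F‖ : ℂ)

theorem ph_mul (F : ℂ) : ph F * F = (‖F‖ : ℂ) := by
  unfold ph
  by_cases h : F = 0
  · simp [h]
  · have h1 : ((‖F‖ : ℝ) : ℂ) ≠ 0 := by
      rw [Complex.ofReal_ne_zero]
      exact norm_ne_zero_iff.2 h
    rw [div_mul_eq_mul_div, mul_comm, Complex.mul_conj, Complex.normSq_eq_norm_sq]
    push_cast
    field_simp

theorem ph_le (F : ℂ) : ‖ph F‖ ≤ 1 := by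
  unfold ph
  rw [norm_div, Complex.norm_conj, Complex.norm_real, norm_norm]
  exact div_self_le_one _

end DUA_

open DUA_ in
theorem p_DUA : T_DUA := by
  intro J N s z G a η hJ hN hη ha
  have hN' : (0 : ℝ) < N := Nat.cast_pos.2 hN
  have hJ' : (0 : ℝ) < J := Nat.cast_pos.2 hJ
  obtain ⟨F, hF⟩ : ∃ F : ℕ → ℂ, ∀ j, F j =
      (N : ℂ)⁻¹ * ∑ n ∈ range N, (z j : ℂ) ^ (s + n) * ((a n : ℝ) : ℂ) := ⟨_, fun _ => rfl⟩
  obtain ⟨c, hc⟩ : ∃ c : ℕ → ℂ, ∀ n, c n =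
      (J : ℂ)⁻¹ * ∑ j ∈ G, ph (F j) * (z j : ℂ) ^ (s + n) := ⟨_, fun _ => rfl⟩
  obtain ⟨y, hy⟩ : ∃ y : ℝ, y = (J : ℝ)⁻¹ * ∑ j ∈ G, ‖F j‖ := ⟨_, rfl⟩
  obtain ⟨D, hD⟩ : ∃ D : ℝ, D = ((J : ℝ)⁻¹) ^ 2 * ∑ j ∈ G, ∑ j' ∈ G,
      ‖(N : ℂ)⁻¹ * ∑ n ∈ range N, ((z j * (z j')⁻¹ : Circle) : ℂ) ^ n‖ := ⟨_, rfl⟩
  have hy0 : 0 ≤ y := by
    rw [hy]
    exact mul_nonneg (by positivity) (Finset.sum_nonneg fun j _ => norm_nonneg _)
  -- `y` as an average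
  have e1 : ((y : ℝ) : ℂ) = (N : ℂ)⁻¹ * ∑ n ∈ range N, ((a n : ℝ) : ℂ) * c n := by
    have e2 : ((y : ℝ) : ℂ) = (J : ℂ)⁻¹ * ∑ j ∈ G, ph (F j) * F j := by
      rw [hy]
      push_cast
      congr 1
      exact Finset.sum_congr rfl fun j _ => (ph_mul (F j)).symm
    have e3 : ∑ n ∈ range N, ((a n : ℝ) : ℂ) * c n =
        (J : ℂ)⁻¹ * ∑ j ∈ G, ∑ n ∈ range N, ph (F j) * (z j : ℂ) ^ (s + n) * ((a n : ℝ) : ℂ) := by
      rw [Finset.sum_comm, Finset.mul_sum]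
      refine Finset.sum_congr rfl fun n _ => ?_
      rw [hc, ← Finset.sum_mul]
      ring
    rw [e2, e3, Finset.mul_sum, Finset.mul_sum, Finset.mul_sum]
    refine Finset.sum_congr rfl fun j _ => ?_
    have e4 : ∑ n ∈ range N, ph (F j) * (z j : ℂ) ^ (s + n) * ((a n : ℝ) : ℂ) =
        ph (F j) * ∑ n ∈ range N, (z j : ℂ) ^ (s + n) * ((a n : ℝ) : ℂ) := by
      rw [Finset.mul_sum]
      exact Finset.sum_congr rfl fun n _ => by ring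
    rw [e4, hF j]
    ring
  have e5 : y ≤ (N : ℝ)⁻¹ * ∑ n ∈ range N, ‖c n‖ := by
    have e6 : y = ‖((y : ℝ) : ℂ)‖ := by
      rw [Complex.norm_real, Real.norm_of_nonneg hy0]
    rw [e6, e1, norm_mul, norm_inv, Complex.norm_natCast]
    refine mul_le_mul_of_nonneg_left ?_ (by positivity)
    refine (norm_sum_le _ _).trans (Finset.sum_le_sum fun n _ => ?_)
    rw [norm_mul, Complex.norm_real]
    exact mul_le_of_le_one_left (norm_nonneg _) (ha n)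
  have e7 : y ^ 2 ≤ (N : ℝ)⁻¹ * ∑ n ∈ range N, ‖c n‖ ^ 2 :=
    (pow_le_pow_left₀ hy0 e5 2).trans (sq_avg_le N hN fun n => ‖c n‖)
  -- expansion of the square
  have hz : ∀ j, starRingEnd ℂ (z j : ℂ) = (((z j)⁻¹ : Circle) : ℂ) :=
    fun j => (Circle.coe_inv_eq_conj (z j)).symm
  have e8 : (((N : ℝ)⁻¹ * ∑ n ∈ range N, ‖c n‖ ^ 2 : ℝ) : ℂ) =
      ((J : ℂ)⁻¹) ^ 2 * ∑ j ∈ G, ∑ j' ∈ G, ph (F j) * starRingEnd ℂ (ph (F j')) *
        (((z j * (z j')⁻¹ : Circle) : ℂ) ^ s *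
        ((N : ℂ)⁻¹ * ∑ n ∈ range N, ((z j * (z j')⁻¹ : Circle) : ℂ) ^ n)) := by
    have e9 : ∀ n, ((‖c n‖ ^ 2 : ℝ) : ℂ) = ((J : ℂ)⁻¹) ^ 2 * ∑ j ∈ G, ∑ j' ∈ G,
        ph (F j) * starRingEnd ℂ (ph (F j')) * ((z j * (z j')⁻¹ : Circle) : ℂ) ^ (s + n) := by
      intro n
      have e10 : ((‖c n‖ ^ 2 : ℝ) : ℂ) = c n * starRingEnd ℂ (c n) := by
        rw [Complex.mul_conj, Complex.normSq_eq_norm_sq]
      rw [e10, hc n, map_mul, map_sum, map_inv₀, Complex.conj_natCast]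
      have e11 : (∑ j ∈ G, ph (F j) * (z j : ℂ) ^ (s + n)) *
          (∑ j' ∈ G, starRingEnd ℂ (ph (F j') * (z j' : ℂ) ^ (s + n))) =
          ∑ j ∈ G, ∑ j' ∈ G,
        ph (F j) * starRingEnd ℂ (ph (F j')) * ((z j * (z j')⁻¹ : Circle) : ℂ) ^ (s + n) := by
        rw [Finset.sum_mul_sum]
        refine Finset.sum_congr rfl fun j _ => Finset.sum_congr rfl fun j' _ => ?_
        rw [map_mul, map_pow, hz j', Circle.coe_mul, mul_pow]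
        ring
      rw [← e11]
      ring
    rw [Complex.ofReal_mul, Complex.ofReal_inv, Complex.ofReal_natCast, Complex.ofReal_sum]
    simp only [e9]
    rw [← Finset.mul_sum, Finset.sum_comm]
    have e13 : ∀ x : ℂ, (N : ℂ)⁻¹ * (((J : ℂ)⁻¹) ^ 2 * x) = ((J : ℂ)⁻¹) ^ 2 * ((N : ℂ)⁻¹ * x) :=
      fun x => by ring
    rw [e13]
    congr 1
    rw [Finset.mul_sum]
    refine Finset.sum_congr rfl fun j _ => ?_
    rw [Finset.sum_comm, Finset.mul_sum]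
    refine Finset.sum_congr rfl fun j' _ => ?_
    rw [← Finset.mul_sum]
    have e14 : ∑ n ∈ range N, ((z j * (z j')⁻¹ : Circle) : ℂ) ^ (s + n) =
        ((z j * (z j')⁻¹ : Circle) : ℂ) ^ s *
          ∑ n ∈ range N, ((z j * (z j')⁻¹ : Circle) : ℂ) ^ n := by
      rw [Finset.mul_sum]
      exact Finset.sum_congr rfl fun n _ => by rw [pow_add]
    rw [e14]
    ring
  have e15 : (N : ℝ)⁻¹ * ∑ n ∈ range N, ‖c n‖ ^ 2 ≤ D := by
    have e16 : (N : ℝ)⁻¹ * ∑ n ∈ range N, ‖c n‖ ^ 2 =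
        ‖(((N : ℝ)⁻¹ * ∑ n ∈ range N, ‖c n‖ ^ 2 : ℝ) : ℂ)‖ := by
      rw [Complex.norm_real, Real.norm_of_nonneg]
      exact mul_nonneg (by positivity) (Finset.sum_nonneg fun n _ => by positivity)
    rw [e16, e8, norm_mul, norm_pow, norm_inv, Complex.norm_natCast, hD]
    refine mul_le_mul_of_nonneg_left ?_ (by positivity)
    refine (norm_sum_le _ _).trans (Finset.sum_le_sum fun j _ => ?_)
    refine (norm_sum_le _ _).trans (Finset.sum_le_sum fun j' _ => ?_)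
    rw [norm_mul, norm_mul, norm_mul, Complex.norm_conj, norm_pow, Circle.norm_coe, one_pow,
      one_mul]
    have e17 : ‖ph (F j)‖ * ‖ph (F j')‖ ≤ 1 :=
      mul_le_one₀ (ph_le _) (norm_nonneg _) (ph_le _)
    exact mul_le_of_le_one_left (norm_nonneg _) e17
  have e18 : y ^ 2 ≤ D := e7.trans e15
  have e19 : y ≤ η / 2 + (2 * η)⁻¹ * D := by
    have e20 : y ≤ η / 2 + (2 * η)⁻¹ * y ^ 2 := by
      have e21 : η / 2 + (2 * η)⁻¹ * y ^ 2 - y = (2 * η)⁻¹ * (y - η) ^ 2 := by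
        field_simp
        ring
      have e22 : 0 ≤ (2 * η)⁻¹ * (y - η) ^ 2 := by positivity
      linarith
    have e23 : (2 * η)⁻¹ * y ^ 2 ≤ (2 * η)⁻¹ * D :=
      mul_le_mul_of_nonneg_left e18 (by positivity)
    linarith
  rw [hy, hD] at e19
  simp only [hF] at e19
  exact e19

end Pool.Agent.FSP
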