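import Pool.Agent.FSP.Targets

set_option autoImplicit false

/-!
# FSP: target EIA, the integral of the conditional squares
-/

open MeasureTheory Filter Topology Finset

namespace Pool.Agent.FSP

universe u

namespace EIA_

theorem point (N : ℕ) (β : Circle) (a : ℕ → ℝ) :
    ‖(N : ℂ)⁻¹ * ∑ n ∈ range N, (β : ℂ) ^ n * ((a n : ℝ) : ℂ)‖ ^ 2 =
      ((N : ℝ)⁻¹) ^ 2 * ∑ n ∈ range N, ∑ n' ∈ range N,
        (((β ^ n * (β ^ n')⁻¹ : Circle) : ℂ)).re * (a n * a n') := by
  rw [← Complex.normSq_eq_norm_sq]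
  have h1 : ((Complex.normSq ((N : ℂ)⁻¹ * ∑ n ∈ range N, (β : ℂ) ^ n * ((a n : ℝ) : ℂ)) : ℝ) : ℂ) =
      ((N : ℂ)⁻¹) ^ 2 * ∑ n ∈ range N, ∑ n' ∈ range N,
        ((β ^ n * (β ^ n')⁻¹ : Circle) : ℂ) * ((a n * a n' : ℝ) : ℂ) := by
    rw [Complex.normSq_eq_conj_mul_self, mul_comm, map_mul, map_sum]
    have h2 : (starRingEnd ℂ) ((N : ℂ)⁻¹) = (N : ℂ)⁻¹ := by
      rw [map_inv₀, Complex.conj_natCast]
    rw [h2, mul_mul_mul_comm, sum_mul_sum, pow_two]
    congr 1
    refine sum_congr rfl fun n _ => sum_congr rfl fun n' _ => ?_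
    rw [map_mul, Complex.conj_ofReal, Circle.coe_mul, Circle.coe_inv_eq_conj, Circle.coe_pow,
      Circle.coe_pow]
    push_cast
    ring
  have h3 := congrArg Complex.re h1
  rw [Complex.ofReal_re] at h3
  rw [h3]
  have h4 : ((N : ℂ)⁻¹) ^ 2 = ((((N : ℝ)⁻¹) ^ 2 : ℝ) : ℂ) := by push_cast; ring
  rw [h4, Complex.re_ofReal_mul, Complex.re_sum]
  congr 1
  refine sum_congr rfl fun n _ => ?_
  rw [Complex.re_sum]
  refine sum_congr rfl fun n' _ => ?_
  rw [Complex.re_mul_ofReal]

end EIA_

open EIA_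

/-- Target EIA. -/
theorem p_EIA (h_CEX : T_CEX.{u}) : T_EIA.{u} := by
  intro Ω _ μ _ T hT g lam hg hg1 hlam hlT M
  obtain ⟨hC1, hC2, hC3⟩ := (h_CEX Ω μ T hT).2 g hg hg1
  have hm : MeasurableSpace.invariants T ≤ (inferInstance : MeasurableSpace Ω) :=
    MeasurableSpace.invariants_le T
  -- measurability of the coefficients
  have hlI : Measurable[MeasurableSpace.invariants T] lam := by
    rw [MeasurableSpace.measurable_invariants_dom]
    refine ⟨hlam, fun s _ => ?_⟩
    have : lam ∘ T = lam := funext hlT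
    rw [this]
  have hcont : ∀ n n' : ℕ, Measurable fun β : Circle =>
      (((β ^ n * (β ^ n')⁻¹ : Circle) : ℂ)).re := by
    intro n n'
    apply Continuous.measurable
    fun_prop
  set c : ℕ → ℕ → Ω → ℝ := fun n n' x =>
    (((lam x ^ n * (lam x ^ n')⁻¹ : Circle) : ℂ)).re with hc
  have hcI : ∀ n n', Measurable[MeasurableSpace.invariants T] (c n n') := fun n n' =>
    (hcont n n').comp hlI
  have hcm : ∀ n n', Measurable (c n n') := fun n n' => (hcont n n').comp hlam
  have hc1 : ∀ n n' x, |c n n' x| ≤ 1 := by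
    intro n n' x
    refine (Complex.abs_re_le_norm _).trans ?_
    rw [Circle.norm_coe]
  set F : ℕ → ℕ → Ω → ℝ := fun n n' x => g (T^[n] x) * g (T^[n'] x) with hF
  have hTm : ∀ n, Measurable (T^[n]) := fun n => hT.measurable.iterate n
  have hFm : ∀ n n', Measurable (F n n') := fun n n' =>
    (hg.comp (hTm n)).mul (hg.comp (hTm n'))
  have hF1 : ∀ n n' x, |F n n' x| ≤ 1 := by
    intro n n' x
    rw [hF]
    simp only
    rw [abs_mul]
    exact mul_le_one₀ (hg1 _) (abs_nonneg _) (hg1 _)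
  have hFi : ∀ n n', Integrable (F n n') μ := fun n n' =>
    Integrable.of_bound (hFm n n').aestronglyMeasurable 1 (Eventually.of_forall (hF1 n n'))
  have hcFi : ∀ n n', Integrable (fun x => c n n' x * F n n' x) μ := fun n n' =>
    Integrable.of_bound ((hcm n n').mul (hFm n n')).aestronglyMeasurable 1
      (Eventually.of_forall fun x => by
        rw [Real.norm_eq_abs, abs_mul]
        exact mul_le_one₀ (hc1 _ _ _) (abs_nonneg _) (hF1 _ _ _))
  have hgm : ∀ h, Measurable (gam μ T g h) := fun h => (hC3 h).1.mono hm le_rfl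
  have hcGi : ∀ n n', Integrable (fun x => gam μ T g (MRec.hd n n') x * c n n' x) μ :=
    fun n n' => Integrable.of_bound ((hgm _).mul (hcm n n')).aestronglyMeasurable 1
      ((hC2 _).mono fun x hx => by
        rw [Real.norm_eq_abs, abs_mul]
        exact mul_le_one₀ hx (abs_nonneg _) (hc1 _ _ _))
  have key : ∀ n n', ∫ x, c n n' x * F n n' x ∂μ =
      ∫ x, gam μ T g (MRec.hd n n') x * c n n' x ∂μ := by
    intro n n'
    rw [← integral_condExp hm (f := fun x => c n n' x * F n n' x)]
    apply integral_congr_ae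
    have h1 : μ[(c n n') * (F n n') | MeasurableSpace.invariants T] =ᵐ[μ]
        (c n n') * μ[F n n' | MeasurableSpace.invariants T] :=
      condExp_mul_of_stronglyMeasurable_left (hcI n n').stronglyMeasurable (hcFi n n') (hFi n n')
    have h2 := hC1 n n'
    filter_upwards [h1, h2] with x hx1 hx2
    have h3 : (μ[fun x => c n n' x * F n n' x | MeasurableSpace.invariants T]) x =
      (c n n' x) * (μ[F n n' | MeasurableSpace.invariants T]) x := hx1
    rw [h3]
    have h4 : (μ[F n n' | MeasurableSpace.invariants T]) x = gam μ T g (MRec.hd n n') x := hx2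
    rw [h4, mul_comm]
  have hL : ∀ x, ‖cav T lam g M 0 x‖ ^ 2 = ((M : ℝ)⁻¹) ^ 2 * ∑ n ∈ range M, ∑ n' ∈ range M,
      c n n' x * F n n' x := by
    intro x
    rw [cav]
    simp only [zero_add]
    exact point M (lam x) (fun n => g (T^[n] x))
  simp only [hL, SS]
  rw [integral_const_mul, integral_const_mul, integral_finsetSum, integral_finsetSum]
  · congr 1
    refine sum_congr rfl fun n _ => ?_
    rw [integral_finsetSum, integral_finsetSum]
    · exact sum_congr rfl fun n' _ => key n n'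
    · exact fun n' _ => hcGi n n'
    · exact fun n' _ => hcFi n n'
  · exact fun n _ => integrable_finsetSum _ fun n' _ => hcGi n n'
  · exact fun n _ => integrable_finsetSum _ fun n' _ => hcFi n n'

end Pool.Agent.FSP
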