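import Pool.Agent.FSP.Targets

set_option autoImplicit false

/-!
# FSP: EIB, a generalised eigenfunction correlated with `g`
-/

open MeasureTheory Filter Topology Finset

namespace Pool.Agent.FSP

universe u

namespace EIB_

variable {Ω : Type u} [MeasurableSpace Ω] {μ : Measure Ω}

theorem norm_sq (h : Lp ℂ 2 μ) : ‖h‖ ^ 2 = ∫ x, ‖h x‖ ^ 2 ∂μ := by
  rw [← real_inner_self_eq_norm_sq, L2.inner_def]
  apply integral_congr_ae
  filter_upwards with x
  exact real_inner_self_eq_norm_sq (h x)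

theorem norm_sq' (h : Lp ℂ 2 μ) {k : Ω → ℂ} (hk : h =ᵐ[μ] k) : ‖h‖ ^ 2 = ∫ x, ‖k x‖ ^ 2 ∂μ := by
  rw [norm_sq]
  apply integral_congr_ae
  filter_upwards [hk] with x hx
  rw [hx]

theorem inner_re (h F : Lp ℂ 2 μ) {f : Ω → ℝ} (hF : F =ᵐ[μ] fun x => ((f x : ℝ) : ℂ)) :
    inner ℝ h F = ∫ x, f x * (h x).re ∂μ := by
  rw [L2.inner_def]
  apply integral_congr_ae
  filter_upwards [hF] with x hx
  rw [hx, Complex.inner]
  simp

end EIB_

open EIB_ in
theorem p_EIB (h_VOP : T_VOP.{u}) : T_EIB.{u} := by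
  intro Ω _ μ _ T hT g lam hg hg1 hlam hinv c hc hcav
  obtain ⟨V, F, hF, hV, hN⟩ := h_VOP Ω μ T hT lam g hlam (ae_of_all _ hinv) hg hg1
  have hfix : V (MRec.proj V F) = MRec.proj V F := MRec.proj_fixed V F
  set v₀ : Lp ℂ 2 μ := MRec.proj V F with hv₀
  -- the norm
  have havg : ∀ n : ℕ, c ≤ ‖MRec.avg V (2 ^ n) F‖ ^ 2 := by
    intro n
    have h1 : (MRec.avg V (2 ^ n) F : Lp ℂ 2 μ) =ᵐ[μ] cav T lam g (2 ^ n) 0 := by
      have h2 := hN (2 ^ n) 0
      simp only [zero_add] at h2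
      exact h2
    rw [norm_sq' _ h1]
    exact hcav n
  have hlim : Tendsto (fun n : ℕ => ‖MRec.avg V (2 ^ n) F‖ ^ 2) atTop (𝓝 (‖v₀‖ ^ 2)) := by
    have h1 := (MRec.tendsto_avg V F).comp (tendsto_pow_atTop_atTop_of_one_lt (one_lt_two : 1 < 2))
    exact (h1.norm).pow 2
  have hvc : c ≤ ‖v₀‖ ^ 2 := ge_of_tendsto' hlim havg
  have hvm : Measurable (v₀ : Ω → ℂ) := (Lp.stronglyMeasurable v₀).measurable
  have hv2 : MemLp (v₀ : Ω → ℂ) 2 μ := Lp.memLp v₀
  have hvi : Integrable (v₀ : Ω → ℂ) μ := hv2.integrable one_le_two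
  refine ⟨v₀, hvm, ?_, ?_, ?_⟩
  · exact hv2.norm.integrable_sq
  · have h1 := hV v₀
    rw [hfix] at h1
    filter_upwards [h1] with x hx
    rw [hx, ← mul_assoc, ← Circle.coe_mul, inv_mul_cancel, Circle.coe_one, one_mul]
  · intro h0
    have hgi : Integrable (fun x => (g x : ℂ) * v₀ x) μ := by
      refine hvi.bdd_mul (c := 1) ?_ ?_
      · exact (Complex.measurable_ofReal.comp hg).aestronglyMeasurable
      · filter_upwards with x
        rw [Complex.norm_real]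
        exact hg1 x
    have h1 : inner ℝ v₀ F = ‖v₀‖ ^ 2 := MRec.inner_proj_self V F
    rw [inner_re v₀ F hF] at h1
    have h2 : (∫ x, (g x : ℂ) * v₀ x ∂μ).re = ∫ x, g x * (v₀ x).re ∂μ := by
      have h3 := integral_re hgi
      have h4 : (∫ x, (g x : ℂ) * v₀ x ∂μ).re = RCLike.re (∫ x, (g x : ℂ) * v₀ x ∂μ) := rfl
      rw [h4, ← h3]
      apply integral_congr_ae
      filter_upwards with x
      show ((g x : ℂ) * v₀ x).re = g x * (v₀ x).re
      rw [Complex.re_ofReal_mul]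
    rw [h0, Complex.zero_re, h1] at h2
    linarith

end Pool.Agent.FSP
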