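import Pool.Agent.FSP.Targets

set_option autoImplicit false

open MeasureTheory Filter Topology Finset

namespace Pool.Agent.FSP

universe u

/-- The expansion of the Fejer kernel. -/
theorem EXP_kk (m : ℕ) (z : Circle) : ((kk m z : ℝ) : ℂ) =
    (m : ℂ)⁻¹ * ∑ q : Fin m × Fin m, ((z ^ (q.1 : ℕ) * (z ^ (q.2 : ℕ))⁻¹ : Circle) : ℂ) := by
  have h1 : ((‖∑ a ∈ range m, (z : ℂ) ^ a‖ ^ 2 : ℝ) : ℂ) =
      (∑ a ∈ range m, (z : ℂ) ^ a) * (starRingEnd ℂ) (∑ a ∈ range m, (z : ℂ) ^ a) := by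
    rw [Complex.mul_conj, Complex.normSq_eq_norm_sq]
  have h2 : ((kk m z : ℝ) : ℂ) = (m : ℂ)⁻¹ * ((‖∑ a ∈ range m, (z : ℂ) ^ a‖ ^ 2 : ℝ) : ℂ) := by
    unfold kk
    push_cast
    rfl
  rw [h2, h1, map_sum, Finset.sum_mul_sum, Fintype.sum_prod_type]
  congr 1
  rw [← Fin.sum_univ_eq_sum_range (fun a => ∑ b ∈ range m, (z : ℂ) ^ a *
    (starRingEnd ℂ) ((z : ℂ) ^ b)) m]
  refine Finset.sum_congr rfl fun a _ => ?_
  rw [← Fin.sum_univ_eq_sum_range (fun b => (z : ℂ) ^ (a : ℕ) *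
    (starRingEnd ℂ) ((z : ℂ) ^ b)) m]
  refine Finset.sum_congr rfl fun b _ => ?_
  simp only [Circle.coe_mul, Circle.coe_pow, Circle.coe_inv, map_pow]
  rw [← Circle.coe_inv_eq_conj, Circle.coe_inv, inv_pow]

theorem p_EXP : T_EXP.{u} := by
  intro Ω m d τ x n
  have h1 : ((kw m τ x n : ℝ) : ℂ) = ((m : ℂ)⁻¹) ^ d *
      ∑ p : Fin d → Fin m × Fin m, ((chr τ p x : Circle) : ℂ) ^ n := by
    unfold kw
    push_cast
    simp only [EXP_kk]
    rw [Finset.prod_mul_distrib, Finset.prod_const, Finset.card_univ, Fintype.card_fin,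
      Finset.prod_univ_sum, Fintype.piFinset_univ]
    congr 1
    refine Finset.sum_congr rfl fun p _ => ?_
    unfold chr
    rw [← Circle.coe_pow, ← Finset.prod_pow]
    have h2 : ∀ (f : Fin d → Circle), ∏ l, ((f l : Circle) : ℂ) = ((∏ l, f l : Circle) : ℂ) :=
      fun f => (map_prod Circle.coeHom f univ).symm
    rw [h2]
    congr 1
    refine Finset.prod_congr rfl fun l _ => ?_
    rw [mul_pow, inv_pow, ← pow_mul, ← pow_mul, ← pow_mul, ← pow_mul, mul_comm n, mul_comm n]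
  have h3 : kw m τ x n = (((m : ℝ)⁻¹) ^ d) *
      ∑ p : Fin d → Fin m × Fin m, (((chr τ p x : Circle) : ℂ) ^ n).re := by
    have h4 := congrArg Complex.re h1
    rw [Complex.ofReal_re] at h4
    rw [h4]
    have h5 : ((m : ℂ)⁻¹) ^ d = ((((m : ℝ)⁻¹) ^ d : ℝ) : ℂ) := by push_cast; rfl
    rw [h5, Complex.re_ofReal_mul, Complex.re_sum]
  rw [h3, Finset.mul_sum]
  rfl

end Pool.Agent.FSP
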