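import Pool.Agent.FSP.Targets

set_option autoImplicit false
set_option linter.unusedVariables false

/-! Target GTH of the project FSP: the contribution of the relatively weakly mixing part. -/

open MeasureTheory Filter Topology Finset

namespace Pool.Agent.FSP

universe u

open Pool.Agent.MRec

theorem p_GTH : T_GTH.{u} := by
  intro Ω _ μ _ B P S₁ S₂ hB hP hcomm hS₁ hS₂ f g hf hf1 hg hg1 w W hwm hw κ' hκi h4 h5 ε hε
  have hne : Nonempty Ω := by
    by_contra hcon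
    have h0 : IsEmpty Ω := not_nonempty_iff.1 hcon
    have h1 : μ Set.univ = 1 := measure_univ
    rw [Set.univ_eq_empty_iff.2 h0, measure_empty] at h1
    exact zero_ne_one h1
  obtain ⟨x₀⟩ := hne
  have hW : 0 ≤ W := (abs_nonneg _).trans (hw x₀ 0)
  -- parameters
  obtain ⟨θ, hθ, hθ1⟩ : ∃ θ > 0, θ / 2 * W ^ 2 ≤ ε / 2 := by
    refine ⟨ε / (W ^ 2 + 1), by positivity, ?_⟩
    rw [div_div, div_mul_eq_mul_div, div_le_div_iff₀ (by positivity) (by positivity)]
    nlinarith [sq_nonneg W]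
  obtain ⟨ρ, hρ, hρ1⟩ : ∃ ρ > 0, 1 / (2 * θ) * (W ^ 2 * ρ) ≤ ε / 2 := by
    refine ⟨ε * θ / (W ^ 2 + 1), by positivity, ?_⟩
    rw [mul_div_assoc', mul_div_assoc', div_le_div_iff₀ (by positivity) (by positivity)]
    have e1 : 1 / (2 * θ) * (W ^ 2 * (ε * θ)) = W ^ 2 * ε / 2 := by field_simp
    rw [e1]
    nlinarith [sq_nonneg W]
  obtain ⟨H, hH0, hH⟩ : ∃ H : ℕ, 0 < H ∧ (H : ℝ)⁻¹ * ∑ h ∈ Finset.range H,
      ∫ x, |κ' h x| ∂μ ≤ ρ / 4 := by
    have h1 := (h4.eventually (ge_mem_nhds (show (0 : ℝ) < ρ / 4 by positivity))).and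
      (eventually_gt_atTop 0)
    obtain ⟨H, h2, h3⟩ := h1.exists
    exact ⟨H, h3, h2⟩
  have hHr : (0 : ℝ) < H := by exact_mod_cast hH0
  choose N₀ hN₀ using fun h => h5 h (ρ / 4) (by positivity)
  refine ⟨H, hH0, (∑ h ∈ Finset.range H, N₀ h) + 1, fun L hL s s' => ?_⟩
  have hL0 : 0 < L := by omega
  have hLr : (0 : ℝ) < L := by exact_mod_cast hL0
  set N := H * L with hN
  have hN0 : 0 < N := Nat.mul_pos hH0 hL0
  have hNr : (0 : ℝ) < N := by exact_mod_cast hN0
  have hNbig : ∀ h ∈ Finset.range H, N₀ h ≤ N := by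
    intro h hh
    have h1 : N₀ h ≤ ∑ h ∈ Finset.range H, N₀ h :=
      Finset.single_le_sum (f := N₀) (fun _ _ => Nat.zero_le _) hh
    have h2 : L ≤ N := Nat.le_mul_of_pos_left L hH0
    omega
  -- bound for `κ`
  set κ : ℕ → ℝ := fun h => ∫ x, |corr B P g N h x| ∂μ with hκ
  have hκ0 : ∀ h, 0 ≤ κ h := fun h => integral_nonneg fun x => abs_nonneg _
  have hκle : ∀ h ∈ Finset.range H, κ h ≤ ∫ x, |κ' h x| ∂μ + ρ / 4 := by
    intro h hh
    have h1 := hN₀ h N (hNbig h hh)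
    have h2 : ∀ x, |corr B P g N h x| ≤ |κ' h x| + |corr B P g N h x - κ' h x| := by
      intro x
      have := abs_add_le (κ' h x) (corr B P g N h x - κ' h x)
      simpa using this
    have hm := measurable_corr hB.measurable hP.measurable hg N h
    have hint0 : Integrable (corr B P g N h) μ :=
      int_of_bdd hm 1 (fun x => abs_corr_le hg1 N h x)
    have hint1 : Integrable (fun x => |corr B P g N h x|) μ := hint0.abs
    have hint2 : Integrable (fun x => |corr B P g N h x - κ' h x|) μ :=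
      (hint0.sub (hκi h)).abs
    calc κ h ≤ ∫ x, (|κ' h x| + |corr B P g N h x - κ' h x|) ∂μ :=
          integral_mono hint1 ((hκi h).abs.add hint2) h2
      _ = ∫ x, |κ' h x| ∂μ + ∫ x, |corr B P g N h x - κ' h x| ∂μ :=
          integral_add (hκi h).abs hint2
      _ ≤ _ := by gcongr
  have hκavg : (H : ℝ)⁻¹ * ∑ h ∈ Finset.range H, κ h ≤ ρ / 2 := by
    calc (H : ℝ)⁻¹ * ∑ h ∈ Finset.range H, κ h
        ≤ (H : ℝ)⁻¹ * ∑ h ∈ Finset.range H, (∫ x, |κ' h x| ∂μ + ρ / 4) := by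
          gcongr with h hh
          exact hκle h hh
      _ = (H : ℝ)⁻¹ * ∑ h ∈ Finset.range H, ∫ x, |κ' h x| ∂μ + ρ / 4 := by
          rw [Finset.sum_add_distrib, Finset.sum_const, Finset.card_range, nsmul_eq_mul]
          field_simp
      _ ≤ ρ / 4 + ρ / 4 := by gcongr
      _ = ρ / 2 := by ring
  have hdouble : ((H : ℝ)⁻¹) ^ 2 * ∑ t ∈ Finset.range H, ∑ t' ∈ Finset.range H, κ (hd t t') ≤ ρ := by
    calc ((H : ℝ)⁻¹) ^ 2 * ∑ t ∈ Finset.range H, ∑ t' ∈ Finset.range H, κ (hd t t')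
        ≤ ((H : ℝ)⁻¹) ^ 2 * ∑ t ∈ Finset.range H, 2 * ∑ h ∈ Finset.range H, κ h := by
          gcongr with t ht
          exact sum_hd_le κ hκ0 H t (Finset.mem_range.1 ht)
      _ = 2 * ((H : ℝ)⁻¹ * ∑ h ∈ Finset.range H, κ h) := by
          rw [Finset.sum_const, Finset.card_range, nsmul_eq_mul]
          field_simp
      _ ≤ 2 * (ρ / 2) := by gcongr
      _ = ρ := by ring
  -- the pointwise bound
  set G : ℕ → ℕ → ℕ → Ω → ℝ := fun l t j x => g (B^[(s + H * l) + t] (P^[s' + j] x)) with hG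
  set Γ : ℕ → ℕ → ℕ → Ω → ℝ := fun l t t' x =>
    |(N : ℝ)⁻¹ * ∑ j ∈ Finset.range N, G l t j x * G l t' j x| with hΓ
  have hGm : ∀ l t j, Measurable (G l t j) := by
    intro l t j
    exact hg.comp ((hB.measurable.iterate _).comp (hP.measurable.iterate _))
  have hΓm : ∀ l t t', Measurable (Γ l t t') := by
    intro l t t'
    apply Measurable.abs
    apply Measurable.const_mul
    apply Finset.measurable_sum
    intro j _
    exact (hGm l t j).mul (hGm l t' j)
  have hΓ1 : ∀ l t t' x, |Γ l t t' x| ≤ 1 := by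
    intro l t t' x
    simp only [hΓ, abs_abs]
    apply abs_avg_le N _ 1 zero_le_one
    intro j
    rw [abs_mul]
    exact mul_le_one₀ (hg1 _) (abs_nonneg _) (hg1 _)
  have hΓint : ∀ l t t', ∫ x, Γ l t t' x ∂μ = κ (hd t t') := by
    intro l t t'
    exact integral_corr_eq hB hP hcomm hg N (s + H * l) s' t t'
  have hpt : ∀ x, |(N : ℝ)⁻¹ * ∑ j ∈ Finset.range N, (N : ℝ)⁻¹ *
        ∑ i ∈ Finset.range N, (w x (s + i) * w x (s' + j)) * (f x *
          g (B^[s + i] (P^[s' + j] x)) * f (S₁^[s + i] x) * f (S₂^[s' + j] x))|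
      ≤ (L : ℝ)⁻¹ * ∑ l ∈ Finset.range L, (θ / 2 * W ^ 2 + 1 / (2 * θ) * (W ^ 2 *
        (((H : ℝ)⁻¹) ^ 2 * ∑ t ∈ Finset.range H, ∑ t' ∈ Finset.range H, Γ l t t' x))) := by
    intro x
    have e1 : (N : ℝ)⁻¹ * ∑ j ∈ Finset.range N, (N : ℝ)⁻¹ *
        ∑ i ∈ Finset.range N, (w x (s + i) * w x (s' + j)) * (f x *
          g (B^[s + i] (P^[s' + j] x)) * f (S₁^[s + i] x) * f (S₂^[s' + j] x))
        = (L : ℝ)⁻¹ * ∑ l ∈ Finset.range L, ((N : ℝ)⁻¹ * ∑ j ∈ Finset.range N, (H : ℝ)⁻¹ *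
          ∑ t ∈ Finset.range H, (w x (s' + j) * f x * f (S₂^[s' + j] x)) *
            ((w x ((s + H * l) + t) * f (S₁^[(s + H * l) + t] x)) * G l t j x)) := by
      have e2 : ∀ j, ∑ i ∈ Finset.range N, (w x (s + i) * w x (s' + j)) *
          (f x * g (B^[s + i] (P^[s' + j] x)) * f (S₁^[s + i] x) * f (S₂^[s' + j] x))
          = ∑ l ∈ Finset.range L, ∑ t ∈ Finset.range H,
            (w x (s' + j) * f x * f (S₂^[s' + j] x)) *
            ((w x ((s + H * l) + t) * f (S₁^[(s + H * l) + t] x)) * G l t j x) := by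
        intro j
        rw [hN, sum_range_block]
        apply Finset.sum_congr rfl; intro l _
        apply Finset.sum_congr rfl; intro t _
        simp only [hG, add_assoc]
        ring
      simp only [e2]
      have e3 : (N : ℝ)⁻¹ = (L : ℝ)⁻¹ * (H : ℝ)⁻¹ := by
        rw [hN, Nat.cast_mul, mul_inv, mul_comm]
      simp only [Finset.mul_sum]
      rw [Finset.sum_comm]
      apply Finset.sum_congr rfl; intro l _
      apply Finset.sum_congr rfl; intro j _
      apply Finset.sum_congr rfl; intro t _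
      rw [e3]; ring
    rw [e1, abs_mul, abs_of_nonneg (show (0 : ℝ) ≤ (L : ℝ)⁻¹ by positivity)]
    gcongr
    refine (Finset.abs_sum_le_sum_abs _ _).trans ?_
    apply Finset.sum_le_sum
    intro l _
    apply block_ineq N H hN0 hH0 W θ hθ (fun j => w x (s' + j) * f x * f (S₂^[s' + j] x))
      (fun t => w x ((s + H * l) + t) * f (S₁^[(s + H * l) + t] x)) (fun t j => G l t j x)
    · intro j
      rw [abs_mul, abs_mul]
      have a1 := hw x (s' + j)
      have a2 := hf1 x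
      have a3 := hf1 (S₂^[s' + j] x)
      calc |w x (s' + j)| * |f x| * |f (S₂^[s' + j] x)| ≤ W * 1 * 1 := by gcongr
        _ = W := by ring
    · intro t
      rw [abs_mul]
      have a1 := hw x ((s + H * l) + t)
      have a3 := hf1 (S₁^[(s + H * l) + t] x)
      calc |w x ((s + H * l) + t)| * |f (S₁^[(s + H * l) + t] x)| ≤ W * 1 := by gcongr
        _ = W := by ring
  -- integrate
  have hΓi : ∀ l t t', Integrable (Γ l t t') μ := fun l t t' =>
    int_of_bdd (hΓm l t t') 1 (hΓ1 l t t')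
  have hsumi : ∀ l, Integrable (fun x => ∑ t ∈ Finset.range H, ∑ t' ∈ Finset.range H,
      Γ l t t' x) μ := fun l => integrable_finsetSum _ fun t _ =>
        integrable_finsetSum _ fun t' _ => hΓi l t t'
  have hli : ∀ l, Integrable (fun x => θ / 2 * W ^ 2 + 1 / (2 * θ) * (W ^ 2 *
        (((H : ℝ)⁻¹) ^ 2 * ∑ t ∈ Finset.range H, ∑ t' ∈ Finset.range H, Γ l t t' x))) μ :=
    fun l => (integrable_const _).add ((((hsumi l).const_mul _).const_mul _).const_mul _)
  have hR : Integrable (fun x => (L : ℝ)⁻¹ * ∑ l ∈ Finset.range L, (θ / 2 * W ^ 2 +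
      1 / (2 * θ) * (W ^ 2 * (((H : ℝ)⁻¹) ^ 2 * ∑ t ∈ Finset.range H,
        ∑ t' ∈ Finset.range H, Γ l t t' x)))) μ :=
    (integrable_finsetSum _ fun l _ => hli l).const_mul _
  have hRint : ∫ x, (L : ℝ)⁻¹ * ∑ l ∈ Finset.range L, (θ / 2 * W ^ 2 +
      1 / (2 * θ) * (W ^ 2 * (((H : ℝ)⁻¹) ^ 2 * ∑ t ∈ Finset.range H,
        ∑ t' ∈ Finset.range H, Γ l t t' x))) ∂μ ≤ ε := by
    rw [integral_const_mul, integral_finsetSum _ fun l _ => hli l]
    have e1 : ∀ l, ∫ x, (θ / 2 * W ^ 2 + 1 / (2 * θ) * (W ^ 2 *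
        (((H : ℝ)⁻¹) ^ 2 * ∑ t ∈ Finset.range H, ∑ t' ∈ Finset.range H, Γ l t t' x))) ∂μ ≤ ε := by
      intro l
      rw [integral_add (integrable_const _) ((((hsumi l).const_mul _).const_mul _).const_mul _),
        integral_const, probReal_univ, one_smul,
        integral_const_mul, integral_const_mul, integral_const_mul,
        integral_finsetSum _ fun t _ => integrable_finsetSum _ fun t' _ => hΓi l t t']
      have e2 : ∀ t, ∫ x, ∑ t' ∈ Finset.range H, Γ l t t' x ∂μ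
          = ∑ t' ∈ Finset.range H, κ (hd t t') := by
        intro t
        rw [integral_finsetSum _ fun t' _ => hΓi l t t']
        simp only [hΓint]
      simp only [e2]
      have e3 : 1 / (2 * θ) * (W ^ 2 * (((H : ℝ)⁻¹) ^ 2 * ∑ t ∈ Finset.range H,
          ∑ t' ∈ Finset.range H, κ (hd t t'))) ≤ 1 / (2 * θ) * (W ^ 2 * ρ) := by
        gcongr
      linarith
    calc (L : ℝ)⁻¹ * ∑ l ∈ Finset.range L, ∫ x, (θ / 2 * W ^ 2 + 1 / (2 * θ) * (W ^ 2 *
        (((H : ℝ)⁻¹) ^ 2 * ∑ t ∈ Finset.range H, ∑ t' ∈ Finset.range H, Γ l t t' x))) ∂μ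
        ≤ (L : ℝ)⁻¹ * ∑ l ∈ Finset.range L, ε := by
          gcongr with l _
          exact e1 l
      _ = ε := by
          rw [Finset.sum_const, Finset.card_range, nsmul_eq_mul]; field_simp
  refine le_trans (integral_mono_of_nonneg (ae_of_all _ fun x => abs_nonneg _) hR
    (ae_of_all _ hpt)) hRint

end Pool.Agent.FSP
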