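import Pool.Agent.FSP.Targets

/-!
# FSP: means of trigonometric weights (T_KAV)
-/

set_option autoImplicit false

open MeasureTheory Filter Topology Finset

namespace Pool.Agent.FSP

universe u

namespace KAV_

/-- The modulus of the mean of `z ^ n` over a window. -/
noncomputable def K (N : ℕ) (z : Circle) : ℝ := ‖(N : ℂ)⁻¹ * ∑ n ∈ range N, (z : ℂ) ^ n‖

theorem norm_shift (z : Circle) (N s : ℕ) :
    ‖(N : ℂ)⁻¹ * ∑ n ∈ range N, (z : ℂ) ^ (s + n)‖ = K N z := by
  have h : (N : ℂ)⁻¹ * ∑ n ∈ range N, (z : ℂ) ^ (s + n) =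
      (z : ℂ) ^ s * ((N : ℂ)⁻¹ * ∑ n ∈ range N, (z : ℂ) ^ n) := by
    rw [mul_left_comm, Finset.mul_sum (range N) _ ((z : ℂ) ^ s)]
    simp only [pow_add]
  rw [h, norm_mul, norm_pow, Circle.norm_coe, one_pow, one_mul, K]

theorem K_nonneg (N : ℕ) (z : Circle) : 0 ≤ K N z := norm_nonneg _

theorem K_le (N : ℕ) (z : Circle) : K N z ≤ 1 := by
  unfold K
  rcases Nat.eq_zero_or_pos N with h | h
  · subst h
    simp
  · have hN : (0 : ℝ) < N := by exact_mod_cast h
    rw [norm_mul, norm_inv, Complex.norm_natCast]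
    have h1 : ‖∑ n ∈ range N, (z : ℂ) ^ n‖ ≤ N := by
      refine (norm_sum_le _ _).trans ?_
      have h2 : ∀ n ∈ range N, ‖(z : ℂ) ^ n‖ = 1 := by
        intro n _
        rw [norm_pow, Circle.norm_coe, one_pow]
      rw [Finset.sum_congr rfl h2]
      simp
    calc (N : ℝ)⁻¹ * ‖∑ n ∈ range N, (z : ℂ) ^ n‖ ≤ (N : ℝ)⁻¹ * N :=
          mul_le_mul_of_nonneg_left h1 (inv_nonneg.2 hN.le)
      _ = 1 := inv_mul_cancel₀ hN.ne'

theorem re_mean (z : Circle) (N s : ℕ) :
    (N : ℝ)⁻¹ * ∑ n ∈ range N, ((z : ℂ) ^ (s + n)).re =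
      ((N : ℂ)⁻¹ * ∑ n ∈ range N, (z : ℂ) ^ (s + n)).re := by
  have h : (N : ℂ)⁻¹ = (((N : ℝ)⁻¹ : ℝ) : ℂ) := by
    rw [Complex.ofReal_inv, Complex.ofReal_natCast]
  rw [h, Complex.re_ofReal_mul, Complex.re_sum]

/-- The pointwise bound. -/
theorem point {Ω : Type u} (χ : Ω → Circle) (N s : ℕ) (hN : 0 < N) (x : Ω) :
    |(N : ℝ)⁻¹ * ∑ n ∈ range N, ((χ x : ℂ) ^ (s + n)).re - one {y | χ y = 1} x| ≤
      ({y | χ y ≠ 1} : Set Ω).indicator (fun y => K N (χ y)) x := by
  have hN' : (N : ℝ) ≠ 0 := by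
    have : (0 : ℝ) < N := by exact_mod_cast hN
    exact this.ne'
  by_cases h : χ x = 1
  · have h1 : one {y | χ y = 1} x = 1 := by
      unfold one
      exact Set.indicator_of_mem (show x ∈ {y | χ y = 1} from h) _
    have h2 : ({y | χ y ≠ 1} : Set Ω).indicator (fun y => K N (χ y)) x = 0 :=
      Set.indicator_of_notMem (show x ∉ {y | χ y ≠ 1} from fun hx => hx h) _
    rw [h1, h2, h]
    simp [hN']
  · have h1 : one {y | χ y = 1} x = 0 := by
      unfold one
      exact Set.indicator_of_notMem (show x ∉ {y | χ y = 1} from h) _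
    have h2 : ({y | χ y ≠ 1} : Set Ω).indicator (fun y => K N (χ y)) x = K N (χ x) :=
      Set.indicator_of_mem (show x ∈ {y | χ y ≠ 1} from h) _
    rw [h1, h2, sub_zero, re_mean, ← norm_shift (χ x) N s]
    exact Complex.abs_re_le_norm _

theorem continuous_K (N : ℕ) : Continuous (K N) := by
  unfold K
  exact (continuous_const.mul (continuous_finsetSum _ fun n _ =>
    (continuous_subtype_val.pow n))).norm

end KAV_

theorem p_KAV (h_CLM : T_CLM.{u}) : T_KAV.{u} := by
  intro Ω _ μ _ ι _ a χ hχ ε hε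
  set A : ℝ := ∑ i, |a i| + 1 with hA
  have hA0 : 0 < A := by
    have : 0 ≤ ∑ i, |a i| := Finset.sum_nonneg fun i _ => abs_nonneg _
    rw [hA]
    linarith
  have hY : ∀ i, MeasurableSet {y | χ i y ≠ 1} := by
    intro i
    have h1 : MeasurableSet ({1}ᶜ : Set Circle) := isClosed_singleton.measurableSet.compl
    exact (hχ i) h1
  have hεA : 0 < ε / A := div_pos hε hA0
  have hex : ∀ i, ∃ N₀ : ℕ, ∀ N ≥ N₀, ∫ x in {y | χ i y ≠ 1}, KAV_.K N (χ i x) ∂μ ≤ ε / A := by
    intro i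
    obtain ⟨N₀, hN₀⟩ := h_CLM Ω μ (χ i) {y | χ i y ≠ 1} (hχ i) (hY i) (ε / A) hεA
    refine ⟨N₀, fun N hN => ?_⟩
    have h1 := hN₀ N hN
    have h2 : ({y | χ i y ≠ 1} ∩ {x | χ i x = 1} : Set Ω) = ∅ := by
      ext x
      constructor
      · rintro ⟨h3, h4⟩
        exact h3 h4
      · intro h
        exact absurd h (Set.notMem_empty x)
    rw [h2, measureReal_empty, zero_add] at h1
    exact h1
  choose M hM using hex
  refine ⟨∑ i, M i + 1, fun N hN s => ?_⟩
  have hN0 : 0 < N := by omega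
  have hNi : ∀ i, M i ≤ N := by
    intro i
    have h1 : M i ≤ ∑ i, M i := Finset.single_le_sum (fun j _ => Nat.zero_le _) (mem_univ i)
    omega
  set g : Ω → ℝ := fun x => ∑ i, |a i| *
    ({y | χ i y ≠ 1} : Set Ω).indicator (fun y => KAV_.K N (χ i y)) x with hg
  have hmeas : ∀ i, Measurable (fun y => KAV_.K N (χ i y)) := fun i =>
    (KAV_.continuous_K N).measurable.comp (hχ i)
  have hint : ∀ i, Integrable (({y | χ i y ≠ 1} : Set Ω).indicator
      (fun y => KAV_.K N (χ i y))) μ := by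
    intro i
    refine Integrable.of_bound ((hmeas i).indicator (hY i)).aestronglyMeasurable 1 ?_
    refine Filter.Eventually.of_forall fun x => ?_
    by_cases h : x ∈ {y | χ i y ≠ 1}
    · rw [Set.indicator_of_mem h, Real.norm_eq_abs, abs_of_nonneg (KAV_.K_nonneg N _)]
      exact KAV_.K_le N _
    · rw [Set.indicator_of_notMem h, norm_zero]
      exact zero_le_one
  have hgint : Integrable g μ := by
    refine integrable_finsetSum _ fun i _ => ?_
    exact (hint i).const_mul _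
  have hpt : ∀ x, |wm (tw a χ) N s x - tu a χ x| ≤ g x := by
    intro x
    have h1 : wm (tw a χ) N s x - tu a χ x =
        ∑ i, a i * ((N : ℝ)⁻¹ * ∑ n ∈ range N, ((χ i x : ℂ) ^ (s + n)).re -
          one {y | χ i y = 1} x) := by
      unfold wm tw tu
      rw [Finset.sum_comm, Finset.mul_sum, ← Finset.sum_sub_distrib]
      refine Finset.sum_congr rfl fun i _ => ?_
      rw [← Finset.mul_sum]
      ring
    rw [h1]
    refine (Finset.abs_sum_le_sum_abs _ _).trans ?_
    refine Finset.sum_le_sum fun i _ => ?_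
    rw [abs_mul]
    exact mul_le_mul_of_nonneg_left (KAV_.point (χ i) N s hN0 x) (abs_nonneg _)
  calc ∫ x, |wm (tw a χ) N s x - tu a χ x| ∂μ ≤ ∫ x, g x ∂μ :=
        integral_mono_of_nonneg (Filter.Eventually.of_forall fun x => abs_nonneg _) hgint
          (Filter.Eventually.of_forall hpt)
    _ = ∑ i, |a i| * ∫ x in {y | χ i y ≠ 1}, KAV_.K N (χ i x) ∂μ := by
        rw [hg, integral_finsetSum _ fun i _ => (hint i).const_mul _]
        refine Finset.sum_congr rfl fun i _ => ?_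
        rw [integral_const_mul, integral_indicator (hY i)]
    _ ≤ ∑ i, |a i| * (ε / A) := by
        refine Finset.sum_le_sum fun i _ => ?_
        exact mul_le_mul_of_nonneg_left (hM i N (hNi i)) (abs_nonneg _)
    _ = (∑ i, |a i|) * (ε / A) := by rw [Finset.sum_mul]
    _ ≤ A * (ε / A) := mul_le_mul_of_nonneg_right (by rw [hA]; linarith) hεA.le
    _ = ε := mul_div_cancel₀ _ hA0.ne'

end Pool.Agent.FSP
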