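import Pool.Agent.FSP.Targets

/-!
# FSP: bounds for the Fejer kernel (KKB)
-/

set_option autoImplicit false

open MeasureTheory Filter Topology Finset

namespace Pool.Agent.FSP

namespace KKB_

theorem norm_sum (m : ℕ) (z : Circle) : ‖∑ a ∈ range m, (z : ℂ) ^ a‖ ≤ m := by
  refine le_trans (norm_sum_le _ _) ?_
  simp [Circle.norm_coe]

theorem nonneg (m : ℕ) (z : Circle) : 0 ≤ kk m z := by
  unfold kk
  positivity

theorem le (m : ℕ) (z : Circle) : kk m z ≤ m := by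
  unfold kk
  rcases Nat.eq_zero_or_pos m with h | h
  · subst h
    simp
  · have h1 := norm_sum m z
    have h2 : (0 : ℝ) < m := by exact_mod_cast h
    have h3 : ‖∑ a ∈ range m, (z : ℂ) ^ a‖ ^ 2 ≤ (m : ℝ) ^ 2 :=
      pow_le_pow_left₀ (norm_nonneg _) h1 2
    calc (m : ℝ)⁻¹ * ‖∑ a ∈ range m, (z : ℂ) ^ a‖ ^ 2 ≤ (m : ℝ)⁻¹ * (m : ℝ) ^ 2 :=
          mul_le_mul_of_nonneg_left h3 (by positivity)
      _ = m := by field_simp

theorem mul_le (m : ℕ) (z : Circle) : kk m z * ‖(z : ℂ) - 1‖ ^ 2 ≤ 4 / m := by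
  unfold kk
  have h1 : (∑ a ∈ range m, (z : ℂ) ^ a) * ((z : ℂ) - 1) = (z : ℂ) ^ m - 1 :=
    geom_sum_mul _ _
  have h2 : ‖(z : ℂ) ^ m - 1‖ ≤ 2 := by
    refine le_trans (norm_sub_le _ _) ?_
    rw [norm_pow, Circle.norm_coe, one_pow, norm_one]
    norm_num
  have h3 : ‖∑ a ∈ range m, (z : ℂ) ^ a‖ ^ 2 * ‖(z : ℂ) - 1‖ ^ 2 ≤ 4 := by
    rw [← mul_pow, ← norm_mul, h1]
    nlinarith [norm_nonneg ((z : ℂ) ^ m - 1)]
  calc (m : ℝ)⁻¹ * ‖∑ a ∈ range m, (z : ℂ) ^ a‖ ^ 2 * ‖(z : ℂ) - 1‖ ^ 2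
      = (m : ℝ)⁻¹ * (‖∑ a ∈ range m, (z : ℂ) ^ a‖ ^ 2 * ‖(z : ℂ) - 1‖ ^ 2) := by ring
    _ ≤ (m : ℝ)⁻¹ * 4 := mul_le_mul_of_nonneg_left h3 (by positivity)
    _ = 4 / m := by rw [div_eq_mul_inv, mul_comm]

theorem meas (m : ℕ) : Measurable (kk m) := by
  have h1 : Continuous (kk m) := by
    unfold kk
    have h2 : Continuous (fun z : Circle => (z : ℂ)) := continuous_induced_dom
    fun_prop
  exact h1.measurable

end KKB_

theorem p_KKB : T_KKB := by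
  refine ⟨fun m z => ⟨KKB_.nonneg m z, KKB_.le m z⟩, KKB_.mul_le, KKB_.meas, ?_⟩
  intro m
  unfold kk
  rcases Nat.eq_zero_or_pos m with h | h
  · subst h
    simp
  · have h2 : (0 : ℝ) < m := by exact_mod_cast h
    simp only [Circle.coe_one, one_pow, sum_const, card_range, nsmul_eq_mul, mul_one,
      Complex.norm_natCast]
    field_simp

end Pool.Agent.FSP
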