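import Pool.Agent.FSP.Targets

set_option autoImplicit false

/-!
# FSP-KUB: bounds for the mean of the product of Fejer kernels
-/

open MeasureTheory Filter Topology Finset

namespace Pool.Agent.FSP

universe u

namespace KUB_

variable {Ω : Type u} {m d : ℕ}

open Classical in
/-- The number of trivial characters. -/
noncomputable def cnt (m : ℕ) {d : ℕ} (τ : Fin d → Ω → Circle) (x : Ω) :
    Finset (Fin d → Fin m × Fin m) :=
  univ.filter (fun p => chr τ p x = 1)

theorem mem_cnt (τ : Fin d → Ω → Circle) (x : Ω) (p : Fin d → Fin m × Fin m) :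
    p ∈ cnt m τ x ↔ chr τ p x = 1 := by
  classical
  simp [cnt]

theorem ku_eq (τ : Fin d → Ω → Circle) (x : Ω) :
    ku m τ x = ((m : ℝ)⁻¹) ^ d * ((cnt m τ x).card : ℝ) := by
  classical
  unfold ku tu kc one
  rw [← Finset.mul_sum]
  congr 1
  unfold cnt
  rw [Finset.card_filter, Nat.cast_sum]
  refine Finset.sum_congr rfl fun p _ => ?_
  rw [Set.indicator_apply]
  by_cases h : chr τ p x = 1
  · rw [if_pos h, if_pos (show x ∈ {y | chr τ p y = 1} from h), Nat.cast_one]
  · rw [if_neg h, if_neg (show ¬ x ∈ {y | chr τ p y = 1} from h), Nat.cast_zero]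

theorem card_ge (τ : Fin d → Ω → Circle) (x : Ω) : m ^ d ≤ (cnt m τ x).card := by
  have h1 : (univ : Finset (Fin d → Fin m)).card ≤ (cnt m τ x).card := by
    refine Finset.card_le_card_of_injOn (fun f l => (f l, f l)) ?_ ?_
    · intro f _
      rw [Finset.mem_coe, mem_cnt]
      unfold chr
      refine Finset.prod_eq_one fun l _ => ?_
      exact mul_inv_cancel _
    · intro f _ g _ hfg
      funext l
      exact congrArg Prod.fst (congrFun hfg l)
  rwa [card_univ, Fintype.card_fun, Fintype.card_fin, Fintype.card_fin] at h1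

theorem card_le (τ : Fin d → Ω → Circle) (x : Ω) : (cnt m τ x).card ≤ (m * m) ^ d := by
  have h1 : (cnt m τ x).card ≤ (univ : Finset (Fin d → Fin m × Fin m)).card :=
    Finset.card_le_card (Finset.subset_univ _)
  rwa [card_univ, Fintype.card_fun, Fintype.card_prod, Fintype.card_fin, Fintype.card_fin] at h1

theorem card_upd (τ : Fin d → Ω → Circle) (x : Ω) (l : Fin d) :
    (cnt m (Function.update τ l (fun _ => 1)) x).card ≤ m * (cnt m τ x).card := by
  classical
  have h1 : (cnt m (Function.update τ l (fun _ => 1)) x).card ≤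
      ((univ : Finset (Fin m)) ×ˢ cnt m τ x).card := by
    refine Finset.card_le_card_of_injOn
      (fun p => ((p l).2, Function.update p l ((p l).1, (p l).1))) ?_ ?_
    · intro p hp
      rw [Finset.mem_coe, mem_cnt] at hp
      rw [Finset.mem_coe, Finset.mem_product]
      refine ⟨mem_univ _, ?_⟩
      rw [mem_cnt, ← hp]
      show chr τ (Function.update p l ((p l).1, (p l).1)) x = _
      unfold chr
      refine Finset.prod_congr rfl fun j _ => ?_
      by_cases hj : j = l
      · subst hj
        rw [Function.update_self, Function.update_self]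
        simp
      · rw [Function.update_of_ne hj, Function.update_of_ne hj]
    · intro p _ q _ hpq
      have h2 : (p l).2 = (q l).2 := congrArg Prod.fst hpq
      have h3 : Function.update p l ((p l).1, (p l).1) =
          Function.update q l ((q l).1, (q l).1) := congrArg Prod.snd hpq
      funext j
      have h4 := congrFun h3 j
      by_cases hj : j = l
      · subst hj
        rw [Function.update_self, Function.update_self] at h4
        have h5 : (p j).1 = (q j).1 := (Prod.mk.inj h4).1
        exact Prod.ext h5 h2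
      · rwa [Function.update_of_ne hj, Function.update_of_ne hj] at h4
  rwa [Finset.card_product, card_univ, Fintype.card_fin] at h1

end KUB_

open KUB_

theorem p_KUB : T_KUB.{u} := by
  intro Ω m d τ x hm
  have hm0 : (0 : ℝ) < m := by exact_mod_cast hm
  have hmd : (0 : ℝ) < (m : ℝ) ^ d := pow_pos hm0 d
  have h1 : ((m ^ d : ℕ) : ℝ) ≤ ((cnt m τ x).card : ℝ) := by exact_mod_cast card_ge τ x
  have h2 : ((cnt m τ x).card : ℝ) ≤ (((m * m) ^ d : ℕ) : ℝ) := by exact_mod_cast card_le τ x
  rw [Nat.cast_pow] at h1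
  rw [Nat.cast_pow, Nat.cast_mul, mul_pow] at h2
  refine ⟨?_, ?_, ?_⟩
  · rw [ku_eq, inv_pow, inv_mul_eq_div, le_div_iff₀ hmd, one_mul]
    exact h1
  · rw [ku_eq, inv_pow, inv_mul_eq_div, div_le_iff₀ hmd]
    exact h2
  · intro l
    rw [ku_eq, ku_eq]
    have h3 : ((cnt m (Function.update τ l (fun _ => 1)) x).card : ℝ) ≤
        (m : ℝ) * ((cnt m τ x).card : ℝ) := by exact_mod_cast card_upd τ x l
    have h4 : (0 : ℝ) ≤ ((m : ℝ)⁻¹) ^ d := by positivity
    calc ((m : ℝ)⁻¹) ^ d * ((cnt m (Function.update τ l (fun _ => 1)) x).card : ℝ)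
        ≤ ((m : ℝ)⁻¹) ^ d * ((m : ℝ) * ((cnt m τ x).card : ℝ)) :=
          mul_le_mul_of_nonneg_left h3 h4
      _ = (m : ℝ) * (((m : ℝ)⁻¹) ^ d * ((cnt m τ x).card : ℝ)) := by ring

end Pool.Agent.FSP
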