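import Pool.Agent.FSP.Targets

set_option autoImplicit false
set_option linter.unusedSectionVars false

/-!
# FSP: p_MET, the mean ergodic theorem with an invariant multiplier
-/

open MeasureTheory Filter Topology Finset

namespace Pool.Agent.FSP

universe u

namespace MET_

variable {Ω : Type u} [MeasurableSpace Ω] {μ : Measure Ω} [IsProbabilityMeasure μ]

theorem int_norm_le (h : Lp ℂ 2 μ) : ∫ x, ‖h x‖ ∂μ ≤ ‖h‖ := by
  have hm : AEStronglyMeasurable h μ := Lp.aestronglyMeasurable h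
  rw [integral_norm_eq_lintegral_enorm hm, ← eLpNorm_one_eq_lintegral_enorm, Lp.norm_def]
  refine ENNReal.toReal_mono (Lp.eLpNorm_ne_top h) ?_
  exact eLpNorm_le_eLpNorm_of_exponent_le (by norm_num) hm

theorem norm_sq_eq (h : Lp ℂ 2 μ) (g : Ω → ℂ) (hg : h =ᵐ[μ] g) :
    ‖h‖ ^ 2 = ∫ x, ‖g x‖ ^ 2 ∂μ := by
  rw [← real_inner_self_eq_norm_sq, L2.inner_def]
  refine integral_congr_ae ?_
  filter_upwards [hg] with x hx
  rw [hx, real_inner_self_eq_norm_sq]

theorem inner_eq (h F : Lp ℂ 2 μ) (g : Ω → ℂ) (f : Ω → ℝ) (hg : h =ᵐ[μ] g)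
    (hF : F =ᵐ[μ] fun x => ((f x : ℝ) : ℂ)) :
    inner ℝ h F = ∫ x, f x * (g x).re ∂μ := by
  rw [L2.inner_def]
  refine integral_congr_ae ?_
  filter_upwards [hg, hF] with x hx hx'
  rw [hx, hx', Complex.inner]
  simp [Complex.mul_re, mul_comm]

end MET_

open MET_ in
theorem p_MET (h_VOP : T_VOP.{u}) : T_MET.{u} := by
  intro Ω _ μ _ S hS b f hb hbS hf hf1
  obtain ⟨V, F, hF, -, hcav⟩ := h_VOP Ω μ S hS b f hb hbS hf hf1
  have ht : Tendsto (fun N => MRec.avg V N F) atTop (𝓝 (MRec.proj V F)) := MRec.tendsto_avg V F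
  constructor
  · refine ⟨⇑(MRec.proj V F), (Lp.stronglyMeasurable _).measurable,
      (Lp.memLp (MRec.proj V F)).integrable (by norm_num), fun ε hε => ?_⟩
    obtain ⟨N₀, hN₀⟩ := (Metric.tendsto_atTop.1 ht) ε hε
    refine ⟨N₀, fun N hN s => ?_⟩
    have h1 := (hN₀ N hN).le
    rw [dist_eq_norm, ← MRec.norm_window_sub V N s F] at h1
    refine le_trans ?_ ((int_norm_le _).trans h1)
    refine le_of_eq (integral_congr_ae ?_)
    filter_upwards [Lp.coeFn_sub ((N : ℝ)⁻¹ • ∑ n ∈ range N, V^[s + n] F : Lp ℂ 2 μ)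
      (MRec.proj V F), hcav N s] with x e1 e2
    rw [e1, Pi.sub_apply, e2]
  · intro ε hε
    have hn : Tendsto (fun N => ‖MRec.avg V N F‖ ^ 2) atTop (𝓝 (‖MRec.proj V F‖ ^ 2)) :=
      ht.norm.pow 2
    have hi : Tendsto (fun N => inner ℝ (MRec.avg V N F) F) atTop
        (𝓝 (inner ℝ (MRec.proj V F) F)) := ht.inner tendsto_const_nhds
    rw [MRec.inner_proj_self] at hi
    have hd := hn.sub hi
    rw [sub_self] at hd
    obtain ⟨N₀, hN₀⟩ := (Metric.tendsto_atTop.1 hd) ε hε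
    refine ⟨N₀, fun N hN => ?_⟩
    have h1 := hN₀ N hN
    rw [Real.dist_eq, sub_zero] at h1
    have h2 := (abs_lt.1 h1).2
    have hg : (MRec.avg V N F : Lp ℂ 2 μ) =ᵐ[μ] cav S b f N 0 := by
      have h3 := hcav N 0
      have h4 : ((N : ℝ)⁻¹ • ∑ n ∈ range N, V^[0 + n] F : Lp ℂ 2 μ) = MRec.avg V N F := by
        unfold MRec.avg
        simp only [zero_add]
      rwa [h4] at h3
    rw [norm_sq_eq _ _ hg, inner_eq _ F _ f hg hF] at h2
    linarith

end Pool.Agent.FSP
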