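import Pool.Agent.FSP.Targets

/-!
# FSP, target MUL: sums over the multiples of `q`
-/

set_option autoImplicit false

open MeasureTheory Filter Topology Finset

namespace Pool.Agent.FSP

namespace MUL_

theorem block (q r s N' : ℕ) (G : ℕ → ℝ) (hq : 1 ≤ q) (h1 : s ≤ q * r) (h2 : q * r < s + q) :
    ∑ j ∈ range q, (if q ∣ s + (q * N' + j) then G ((s + (q * N' + j)) / q) else 0)
      = G (r + N') := by
  rw [Finset.sum_eq_single (q * r - s)]
  · have e : s + (q * N' + (q * r - s)) = q * (r + N') := by
      rw [mul_add]; omega
    rw [e, if_pos (Dvd.intro _ rfl), Nat.mul_div_cancel_left _ (by omega)]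
  · intro j hj hne
    rw [if_neg]
    rintro ⟨k, hk⟩
    rw [Finset.mem_range] at hj
    apply hne
    have h3 : k = r + N' := by
      have a1 : q * k < q * (r + N' + 1) := by
        rw [← hk, mul_add, mul_add]; omega
      have a2 : q * (r + N') < q * (k + 1) := by
        rw [mul_add, mul_add, ← hk]; omega
      have b1 := Nat.lt_of_mul_lt_mul_left a1
      have b2 := Nat.lt_of_mul_lt_mul_left a2
      omega
    rw [h3, mul_add] at hk
    omega
  · intro h
    exact absurd (Finset.mem_range.2 (by omega)) h

end MUL_

open MUL_ in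
theorem p_MUL : T_MUL := by
  intro q N' s G hq
  have hr := Nat.div_add_mod (s + q - 1) q
  have hm := Nat.mod_lt (s + q - 1) hq
  set r := (s + q - 1) / q with hrdef
  have h1 : s ≤ q * r := by omega
  have h2 : q * r < s + q := by omega
  induction N' with
  | zero => simp
  | succ N' ih =>
    rw [Finset.sum_range_succ, ← ih, mul_add, mul_one, Finset.sum_range_add, 
      block q r s N' G hq h1 h2]

end Pool.Agent.FSP
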