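import Pool.Agent.FSP.Targets

set_option autoImplicit false

/-!
# FSP: the target T_NWA (elementary facts on the normalised weights)
-/

open MeasureTheory Filter Topology Finset

namespace Pool.Agent.FSP

universe u

namespace NWA_

variable {Ω : Type u}

theorem chr_congr {m d : ℕ} (τ : Fin d → Ω → Circle) (p : Fin d → Fin m × Fin m) (x y : Ω)
    (h : ∀ l, τ l x = τ l y) : chr τ p x = chr τ p y := by
  unfold chr
  refine Finset.prod_congr rfl fun l _ => ?_
  rw [h l]

theorem kw_congr (m : ℕ) {d : ℕ} (τ : Fin d → Ω → Circle) (x y : Ω) (n : ℕ)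
    (h : ∀ l, τ l x = τ l y) : kw m τ x n = kw m τ y n := by
  unfold kw
  refine Finset.prod_congr rfl fun l _ => ?_
  rw [h l]

theorem ku_congr (m : ℕ) {d : ℕ} (τ : Fin d → Ω → Circle) (x y : Ω)
    (h : ∀ l, τ l x = τ l y) : ku m τ x = ku m τ y := by
  unfold ku tu
  refine Finset.sum_congr rfl fun p _ => ?_
  congr 1
  unfold one
  have h1 : chr τ p x = chr τ p y := chr_congr τ p x y h
  by_cases hx : chr τ p x = 1
  · have hy : chr τ p y = 1 := h1 ▸ hx
    rw [Set.indicator_of_mem (show x ∈ {y | chr τ p y = 1} from hx),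
      Set.indicator_of_mem (show y ∈ {y | chr τ p y = 1} from hy)]
  · have hy : ¬ chr τ p y = 1 := fun hy => hx (h1.trans hy)
    rw [Set.indicator_of_notMem (show x ∉ {y | chr τ p y = 1} from hx),
      Set.indicator_of_notMem (show y ∉ {y | chr τ p y = 1} from hy)]

theorem meas_pow [MeasurableSpace Ω] {f : Ω → Circle} (hf : Measurable f) (a : ℕ) :
    Measurable fun x => f x ^ a := by
  have h1 : Continuous fun z : Circle => z ^ a := continuous_pow a
  exact h1.measurable.comp hf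

theorem meas_chr [MeasurableSpace Ω] {m d : ℕ} (τ : Fin d → Ω → Circle)
    (hτ : ∀ l, Measurable (τ l)) (p : Fin d → Fin m × Fin m) : Measurable (chr τ p) := by
  have h0 : ∀ l : Fin d, Measurable fun x =>
      τ l x ^ ((p l).1 : ℕ) * (τ l x ^ ((p l).2 : ℕ))⁻¹ := by
    intro l
    have h1 : Continuous fun z : Circle => z ^ ((p l).1 : ℕ) * (z ^ ((p l).2 : ℕ))⁻¹ := by
      fun_prop
    exact h1.measurable.comp (hτ l)
  have h2 : Measurable fun x => ∏ l, τ l x ^ ((p l).1 : ℕ) * (τ l x ^ ((p l).2 : ℕ))⁻¹ := by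
    have h3 : Continuous fun v : Fin d → Circle => ∏ l, v l := by fun_prop
    have h4 : Measurable fun x => fun l : Fin d =>
        τ l x ^ ((p l).1 : ℕ) * (τ l x ^ ((p l).2 : ℕ))⁻¹ := measurable_pi_lambda _ h0
    exact h3.measurable.comp h4
  exact h2

theorem meas_kw (h_KKB : T_KKB) [MeasurableSpace Ω] (m : ℕ) {d : ℕ} (τ : Fin d → Ω → Circle)
    (hτ : ∀ l, Measurable (τ l)) (n : ℕ) : Measurable fun x => kw m τ x n := by
  unfold kw
  refine Finset.measurable_prod _ fun l _ => ?_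
  exact (h_KKB.2.2.1 m).comp (meas_pow (hτ l) n)

theorem meas_ku [MeasurableSpace Ω] (m : ℕ) {d : ℕ} (τ : Fin d → Ω → Circle)
    (hτ : ∀ l, Measurable (τ l)) : Measurable (ku m τ) := by
  have h : Measurable fun x => ∑ p, kc m d p * one {y | chr τ p y = 1} x := by
    refine Finset.measurable_sum _ fun p _ => ?_
    refine Measurable.const_mul ?_ _
    unfold one
    refine Measurable.indicator measurable_const ?_
    exact (meas_chr τ hτ p) (measurableSet_singleton 1)
  exact h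

theorem kw_bounds (h_KKB : T_KKB) (m : ℕ) {d : ℕ} (τ : Fin d → Ω → Circle) (x : Ω) (n : ℕ) :
    0 ≤ kw m τ x n ∧ kw m τ x n ≤ (m : ℝ) ^ d := by
  unfold kw
  constructor
  · exact Finset.prod_nonneg fun l _ => (h_KKB.1 m _).1
  · have h1 : ∏ l : Fin d, kk m (τ l x ^ n) ≤ ∏ _l : Fin d, (m : ℝ) :=
      Finset.prod_le_prod (fun l _ => (h_KKB.1 m _).1) (fun l _ => (h_KKB.1 m _).2)
    simpa using h1

end NWA_

open NWA_ in
theorem p_NWA (h_KKB : T_KKB) (h_KUB : T_KUB.{u}) : T_NWA.{u} := by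
  intro Ω _ q m d τ hq hm hτ
  have hq0 : (0 : ℝ) ≤ (q : ℝ) := Nat.cast_nonneg q
  refine ⟨?_, ?_, fun p => meas_chr τ hτ p, fun n => meas_kw h_KKB m τ hτ n,
    meas_ku m τ hτ, ?_⟩
  · intro x n
    have hb := kw_bounds h_KKB m τ x (n / q)
    have hu : 1 ≤ ku m τ x := (h_KUB Ω m d τ x hm).1
    have hu0 : 0 < ku m τ x := by linarith
    have hmd : (0 : ℝ) ≤ (m : ℝ) ^ d := by positivity
    unfold nw
    by_cases hn : q ∣ n
    · rw [if_pos hn]
      have h0 : 0 ≤ (q : ℝ) * kw m τ x (n / q) := mul_nonneg hq0 hb.1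
      constructor
      · exact div_nonneg h0 hu0.le
      · rw [div_le_iff₀ hu0]
        have h1 : (q : ℝ) * kw m τ x (n / q) ≤ q * (m : ℝ) ^ d :=
          mul_le_mul_of_nonneg_left hb.2 hq0
        have h2 : (q : ℝ) * (m : ℝ) ^ d * 1 ≤ (q : ℝ) * (m : ℝ) ^ d * ku m τ x :=
          mul_le_mul_of_nonneg_left hu (mul_nonneg hq0 hmd)
        linarith
    · rw [if_neg hn]
      exact ⟨le_refl _, mul_nonneg hq0 hmd⟩
  · intro n
    unfold nw
    by_cases hn : q ∣ n
    · simp only [if_pos hn]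
      exact ((meas_kw h_KKB m τ hτ (n / q)).const_mul _).div (meas_ku m τ hτ)
    · simp only [if_neg hn]
      exact measurable_const
  · intro T x n hT
    unfold nw
    rw [kw_congr m τ (T x) x (n / q) hT, ku_congr m τ (T x) x hT]

end Pool.Agent.FSP
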