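import Pool.Agent.FSP.Targets

set_option autoImplicit false

/-!
# NWB: the mean of the normalised weights is one
-/

open MeasureTheory Filter Topology Finset

namespace Pool.Agent.FSP

universe u

theorem p_NWB (h_MUL : T_MUL) (h_EXP : T_EXP.{u}) (h_KAV : T_KAV.{u}) (h_KUB : T_KUB.{u})
    (h_NWA : T_NWA.{u}) : T_NWB.{u} := by
  intro Ω _ μ _ q m d τ hq hm hτ ε hε
  obtain ⟨-, -, hchr, hkw, hku, -⟩ := h_NWA Ω q m d τ hq hm hτ
  obtain ⟨N₀, hN₀⟩ := h_KAV Ω μ (Fin d → Fin m × Fin m) (kc m d) (chr τ) hchr ε hε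
  refine ⟨q * N₀, ?_⟩
  intro N hN hqN s
  obtain ⟨N', rfl⟩ := hqN
  have hN' : N₀ ≤ N' := Nat.le_of_mul_le_mul_left hN hq
  have hk1 : ∀ x, 1 ≤ ku m τ x := fun x => (h_KUB Ω m d τ x hm).1
  have hk0 : ∀ x, 0 < ku m τ x := fun x => lt_of_lt_of_le zero_lt_one (hk1 x)
  have hq0 : (q : ℝ) ≠ 0 := by
    have h1 : q ≠ 0 := by omega
    exact_mod_cast h1
  have hwm : ∀ x, wm (nw q m τ) (q * N') s x =
      wm (tw (kc m d) (chr τ)) N' ((s + q - 1) / q) x / ku m τ x := by
    intro x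
    unfold wm
    have h1 : ∀ n, nw q m τ x (s + n) = if q ∣ s + n then
        (fun k => (q : ℝ) * kw m τ x k / ku m τ x) ((s + n) / q) else 0 := fun n => rfl
    rw [Finset.sum_congr rfl fun n _ => h1 n,
      h_MUL q N' s (fun k => (q : ℝ) * kw m τ x k / ku m τ x) hq]
    have h2 : ∀ n, (fun k => (q : ℝ) * kw m τ x k / ku m τ x) ((s + q - 1) / q + n) =
        ((q : ℝ) / ku m τ x) * tw (kc m d) (chr τ) x ((s + q - 1) / q + n) := by
      intro n
      rw [← h_EXP Ω m d τ x]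
      ring
    rw [Finset.sum_congr rfl fun n _ => h2 n, ← Finset.mul_sum, Nat.cast_mul, mul_inv]
    rw [mul_comm ((q : ℝ)⁻¹) _, mul_assoc, ← mul_assoc ((q : ℝ)⁻¹), ← mul_div_assoc,
      inv_mul_cancel₀ hq0]
    ring
  have hle : ∀ x, |wm (nw q m τ) (q * N') s x - 1| ≤
      |wm (tw (kc m d) (chr τ)) N' ((s + q - 1) / q) x - tu (kc m d) (chr τ) x| := by
    intro x
    have h1 : tu (kc m d) (chr τ) x = ku m τ x := rfl
    rw [hwm x, h1]
    have h2 : wm (tw (kc m d) (chr τ)) N' ((s + q - 1) / q) x / ku m τ x - 1 =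
        (wm (tw (kc m d) (chr τ)) N' ((s + q - 1) / q) x - ku m τ x) / ku m τ x := by
      rw [sub_div, div_self (hk0 x).ne']
    rw [h2, abs_div, abs_of_pos (hk0 x)]
    exact div_le_self (abs_nonneg _) (hk1 x)
  have hkwb : ∀ n x, |kw m τ x n| ≤ (m : ℝ) ^ d * (m : ℝ) ^ d := by
    intro n x
    have h1 := (h_NWA Ω 1 m d τ le_rfl hm hτ).1 x n
    have h2 : nw 1 m τ x n = kw m τ x n / ku m τ x := by
      unfold nw
      rw [if_pos (one_dvd _), Nat.div_one, Nat.cast_one, one_mul]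
    rw [h2, Nat.cast_one, one_mul] at h1
    have h3 : kw m τ x n = (kw m τ x n / ku m τ x) * ku m τ x :=
      (div_mul_cancel₀ _ (hk0 x).ne').symm
    rw [h3, abs_of_nonneg (mul_nonneg h1.1 (hk0 x).le)]
    exact mul_le_mul h1.2 (h_KUB Ω m d τ x hm).2.1 (hk0 x).le (by positivity)
  have hint : Integrable (fun x => |wm (tw (kc m d) (chr τ)) N' ((s + q - 1) / q) x -
      tu (kc m d) (chr τ) x|) μ := by
    apply Integrable.abs
    apply Integrable.sub
    · unfold wm
      apply Integrable.const_mul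
      apply integrable_finsetSum
      intro n _
      have h1 : (fun x => tw (kc m d) (chr τ) x ((s + q - 1) / q + n)) =
          fun x => kw m τ x ((s + q - 1) / q + n) := by
        funext x
        rw [h_EXP Ω m d τ x]
      rw [h1]
      refine Integrable.of_bound (hkw _).aestronglyMeasurable ((m : ℝ) ^ d * (m : ℝ) ^ d) ?_
      exact ae_of_all _ fun x => by
        rw [Real.norm_eq_abs]
        exact hkwb _ x
    · change Integrable (ku m τ) μ
      refine Integrable.of_bound hku.aestronglyMeasurable ((m : ℝ) ^ d) ?_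
      exact ae_of_all _ fun x => by
        rw [Real.norm_eq_abs, abs_of_pos (hk0 x)]
        exact (h_KUB Ω m d τ x hm).2.1
  refine le_trans (integral_mono_of_nonneg (ae_of_all _ fun x => abs_nonneg _) hint
    (ae_of_all _ hle)) ?_
  exact hN₀ N' hN' _

end Pool.Agent.FSP
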