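import Pool.Agent.FSP.Targets

/-!
# FSP, NWC: the weights off the Bohr sets
-/

set_option autoImplicit false

open MeasureTheory Filter Topology Finset

namespace Pool.Agent.FSP

universe u

namespace NWC_

variable {Ω : Type u}

/-- the frequencies with the frequency number `l` replaced by one -/
noncomputable def up {d : ℕ} (τ : Fin d → Ω → Circle) (l : Fin d) : Fin d → Ω → Circle :=
  Function.update τ l (fun _ => 1)

theorem kk_le (hK : T_KKB) {m : ℕ} {ρ : ℝ} (hρ : 0 < ρ) (z : Circle)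
    (hz : ρ < ‖(z : ℂ) - 1‖) : kk m z ≤ 4 / (m * ρ ^ 2) := by
  have h1 := hK.2.1 m z
  have h2 := (hK.1 m z).1
  have h3 : ρ ^ 2 ≤ ‖(z : ℂ) - 1‖ ^ 2 := pow_le_pow_left₀ hρ.le hz.le 2
  have h4 : kk m z * ρ ^ 2 ≤ 4 / m := (mul_le_mul_of_nonneg_left h3 h2).trans h1
  have h5 : 4 / ((m : ℝ) * ρ ^ 2) = 4 / m / ρ ^ 2 := by rw [div_div]
  rw [h5, le_div_iff₀ (by positivity)]
  exact h4

theorem kw_nonneg (hK : T_KKB) {m d : ℕ} (τ : Fin d → Ω → Circle) (x : Ω) (n : ℕ) :
    0 ≤ kw m τ x n := by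
  unfold kw
  exact Finset.prod_nonneg fun l _ => (hK.1 m _).1

theorem kw_le_pow (hK : T_KKB) {m d : ℕ} (τ : Fin d → Ω → Circle) (x : Ω) (n : ℕ) :
    kw m τ x n ≤ (m : ℝ) ^ d := by
  unfold kw
  calc ∏ l, kk m (τ l x ^ n) ≤ ∏ _l : Fin d, (m : ℝ) :=
        Finset.prod_le_prod (fun l _ => (hK.1 m _).1) fun l _ => (hK.1 m _).2
    _ = (m : ℝ) ^ d := by simp

theorem kw_le (hK : T_KKB) {m d : ℕ} (hm : 1 ≤ m) {ρ : ℝ} (hρ : 0 < ρ)
    (τ : Fin d → Ω → Circle) (x : Ω) (n : ℕ) (l : Fin d)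
    (hz : ρ < ‖(τ l x : ℂ) ^ n - 1‖) :
    kw m τ x n ≤ 4 / ((m : ℝ) ^ 2 * ρ ^ 2) * kw m (up τ l) x n := by
  have hm0 : (0 : ℝ) < m := by exact_mod_cast hm
  have h1 : kw m τ x n = kk m (τ l x ^ n) * ∏ l' ∈ univ.erase l, kk m (τ l' x ^ n) := by
    unfold kw
    rw [Finset.mul_prod_erase univ (fun l' => kk m (τ l' x ^ n)) (mem_univ l)]
  have h2 : kw m (up τ l) x n = m * ∏ l' ∈ univ.erase l, kk m (τ l' x ^ n) := by
    unfold kw
    rw [← Finset.mul_prod_erase univ (fun l' => kk m (up τ l l' x ^ n)) (mem_univ l)]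
    have h3 : up τ l l x = 1 := by
      unfold up
      rw [Function.update_self]
    rw [h3, one_pow, hK.2.2.2 m]
    congr 1
    refine Finset.prod_congr rfl fun l' hl' => ?_
    have h4 : up τ l l' = τ l' := by
      unfold up
      rw [Function.update_of_ne (Finset.ne_of_mem_erase hl')]
    rw [h4]
  have h5 : kk m (τ l x ^ n) ≤ 4 / (m * ρ ^ 2) := by
    refine kk_le hK hρ _ ?_
    rw [Circle.coe_pow]
    exact hz
  have h6 : 0 ≤ ∏ l' ∈ univ.erase l, kk m (τ l' x ^ n) :=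
    Finset.prod_nonneg fun l _ => (hK.1 m _).1
  rw [h1, h2]
  calc kk m (τ l x ^ n) * ∏ l' ∈ univ.erase l, kk m (τ l' x ^ n)
      ≤ 4 / (m * ρ ^ 2) * ∏ l' ∈ univ.erase l, kk m (τ l' x ^ n) :=
        mul_le_mul_of_nonneg_right h5 h6
    _ = 4 / ((m : ℝ) ^ 2 * ρ ^ 2) * (m * ∏ l' ∈ univ.erase l, kk m (τ l' x ^ n)) := by
        field_simp

theorem off_le (hK : T_KKB) {m d : ℕ} (hm : 1 ≤ m) {ρ : ℝ} (hρ : 0 < ρ)
    (τ : Fin d → Ω → Circle) (x : Ω) (n : ℕ) :
    kw m τ x n * one {y | y ∉ bohr τ ρ n} x ≤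
      ∑ l, 4 / ((m : ℝ) ^ 2 * ρ ^ 2) * kw m (up τ l) x n := by
  have hc : (0 : ℝ) ≤ 4 / ((m : ℝ) ^ 2 * ρ ^ 2) := by positivity
  have hnn : ∀ l ∈ (univ : Finset (Fin d)),
      0 ≤ 4 / ((m : ℝ) ^ 2 * ρ ^ 2) * kw m (up τ l) x n :=
    fun l _ => mul_nonneg hc (kw_nonneg hK _ _ _)
  by_cases hx : x ∈ bohr τ ρ n
  · have h1 : one {y | y ∉ bohr τ ρ n} x = 0 := by
      unfold one
      exact Set.indicator_of_notMem (show x ∉ {y | y ∉ bohr τ ρ n} from fun h => h hx) _
    rw [h1, mul_zero]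
    exact Finset.sum_nonneg hnn
  · have h1 : one {y | y ∉ bohr τ ρ n} x = 1 := by
      unfold one
      exact Set.indicator_of_mem (show x ∈ {y | y ∉ bohr τ ρ n} from hx) _
    obtain ⟨l, hl⟩ : ∃ l, ρ < ‖(τ l x : ℂ) ^ n - 1‖ := by
      by_contra hcon
      push Not at hcon
      exact hx hcon
    rw [h1, mul_one]
    exact (kw_le hK hm hρ τ x n l hl).trans
      (Finset.single_le_sum (f := fun l => 4 / ((m : ℝ) ^ 2 * ρ ^ 2) * kw m (up τ l) x n)
        hnn (mem_univ l))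

/-- the window average, pointwise -/
theorem wm_le (hM : T_MUL) (hK : T_KKB) (hU : T_KUB.{u}) {q m d : ℕ} (hq : 1 ≤ q)
    (hm : 1 ≤ m) {ρ : ℝ} (hρ : 0 < ρ) (τ : Fin d → Ω → Circle) (N' s : ℕ) (x : Ω) :
    wm (fun x n => nw q m τ x n * one {y | y ∉ bohr τ ρ (n / q)} x) (q * N') s x ≤
      d * (4 / (m * ρ ^ 2)) + ∑ l, 4 / ((m : ℝ) ^ 2 * ρ ^ 2) *
        |wm (kw m (up τ l)) N' ((s + q - 1) / q) x - ku m (up τ l) x| := by
  have hm0 : (0 : ℝ) < m := by exact_mod_cast hm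
  have hq0 : (0 : ℝ) < q := by exact_mod_cast hq
  obtain ⟨hk1, -, hk3⟩ := hU Ω m d τ x hm
  have hk0 : 0 < ku m τ x := lt_of_lt_of_le one_pos hk1
  set c : ℝ := 4 / ((m : ℝ) ^ 2 * ρ ^ 2) with hc
  have hc0 : 0 ≤ c := by positivity
  set s' : ℕ := (s + q - 1) / q with hs'
  let G : ℕ → ℝ := fun k => (q : ℝ) * kw m τ x k / ku m τ x * one {y | y ∉ bohr τ ρ k} x
  have h1 : ∑ n ∈ range (q * N'), (nw q m τ x (s + n) *
      one {y | y ∉ bohr τ ρ ((s + n) / q)} x) = ∑ n ∈ range N', G (s' + n) := by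
    rw [hs', ← hM q N' s G hq]
    refine Finset.sum_congr rfl fun n _ => ?_
    unfold nw
    by_cases hd : q ∣ s + n
    · rw [if_pos hd, if_pos hd]
    · rw [if_neg hd, if_neg hd, zero_mul]
  have h2 : ∀ k, G k ≤ (q : ℝ) * (∑ l, c * kw m (up τ l) x k) / ku m τ x := by
    intro k
    have h3 : G k = (q : ℝ) * (kw m τ x k * one {y | y ∉ bohr τ ρ k} x) / ku m τ x := by
      show (q : ℝ) * kw m τ x k / ku m τ x * one {y | y ∉ bohr τ ρ k} x = _
      ring
    rw [h3]
    exact div_le_div_of_nonneg_right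
      (mul_le_mul_of_nonneg_left (off_le hK hm hρ τ x k) hq0.le) hk0.le
  have h4 : wm (fun x n => nw q m τ x n * one {y | y ∉ bohr τ ρ (n / q)} x) (q * N') s x ≤
      ∑ l, c * (wm (kw m (up τ l)) N' s' x / ku m τ x) := by
    unfold wm
    rw [h1]
    have hinv : (0 : ℝ) ≤ (((q * N' : ℕ) : ℝ))⁻¹ := by positivity
    calc (((q * N' : ℕ) : ℝ))⁻¹ * ∑ n ∈ range N', G (s' + n)
        ≤ (((q * N' : ℕ) : ℝ))⁻¹ * ∑ n ∈ range N',
          (q : ℝ) * (∑ l, c * kw m (up τ l) x (s' + n)) / ku m τ x :=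
          mul_le_mul_of_nonneg_left (Finset.sum_le_sum fun n _ => h2 _) hinv
      _ = ∑ l, c * ((N' : ℝ)⁻¹ * (∑ n ∈ range N', kw m (up τ l) x (s' + n)) / ku m τ x) := by
          have h5 : ∑ n ∈ range N', (q : ℝ) * (∑ l, c * kw m (up τ l) x (s' + n)) / ku m τ x =
              (q : ℝ) * ∑ l, c * ((∑ n ∈ range N', kw m (up τ l) x (s' + n)) / ku m τ x) := by
            rw [Finset.mul_sum]
            simp_rw [Finset.mul_sum, Finset.sum_div, Finset.mul_sum]
            rw [Finset.sum_comm]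
            refine Finset.sum_congr rfl fun l _ => Finset.sum_congr rfl fun n _ => ?_
            ring
          rw [h5]
          push_cast
          rw [mul_inv]
          have h6 : (q : ℝ)⁻¹ * (N' : ℝ)⁻¹ * ((q : ℝ) *
              ∑ l, c * ((∑ n ∈ range N', kw m (up τ l) x (s' + n)) / ku m τ x)) =
              (N' : ℝ)⁻¹ * ∑ l, c * ((∑ n ∈ range N', kw m (up τ l) x (s' + n)) /
                ku m τ x) := by
            rw [mul_comm (q : ℝ)⁻¹ (N' : ℝ)⁻¹, mul_assoc, inv_mul_cancel_left₀ hq0.ne']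
          rw [h6, Finset.mul_sum]
          refine Finset.sum_congr rfl fun l _ => ?_
          ring
  refine h4.trans ?_
  have h7 : ∀ l, c * (wm (kw m (up τ l)) N' s' x / ku m τ x) ≤
      4 / (m * ρ ^ 2) + c * |wm (kw m (up τ l)) N' s' x - ku m (up τ l) x| := by
    intro l
    have h8 : ku m (up τ l) x ≤ m * ku m τ x := hk3 l
    have h9 : wm (kw m (up τ l)) N' s' x ≤
        |wm (kw m (up τ l)) N' s' x - ku m (up τ l) x| + m * ku m τ x := by
      have := le_abs_self (wm (kw m (up τ l)) N' s' x - ku m (up τ l) x)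
      linarith
    have h10 : wm (kw m (up τ l)) N' s' x / ku m τ x ≤
        |wm (kw m (up τ l)) N' s' x - ku m (up τ l) x| + m := by
      rw [div_le_iff₀ hk0]
      have h11 : |wm (kw m (up τ l)) N' s' x - ku m (up τ l) x| ≤
          |wm (kw m (up τ l)) N' s' x - ku m (up τ l) x| * ku m τ x :=
        le_mul_of_one_le_right (abs_nonneg _) hk1
      nlinarith
    have h12 : c * (m : ℝ) = 4 / (m * ρ ^ 2) := by
      rw [hc]
      field_simp
    calc c * (wm (kw m (up τ l)) N' s' x / ku m τ x)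
        ≤ c * (|wm (kw m (up τ l)) N' s' x - ku m (up τ l) x| + m) :=
          mul_le_mul_of_nonneg_left h10 hc0
      _ = 4 / (m * ρ ^ 2) + c * |wm (kw m (up τ l)) N' s' x - ku m (up τ l) x| := by
          rw [mul_add, h12, add_comm]
  calc ∑ l, c * (wm (kw m (up τ l)) N' s' x / ku m τ x)
      ≤ ∑ l, (4 / (m * ρ ^ 2) + c * |wm (kw m (up τ l)) N' s' x - ku m (up τ l) x|) :=
        Finset.sum_le_sum fun l _ => h7 l
    _ = d * (4 / (m * ρ ^ 2)) + ∑ l, c * |wm (kw m (up τ l)) N' s' x - ku m (up τ l) x| := by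
        rw [Finset.sum_add_distrib, Finset.sum_const, Finset.card_univ, Fintype.card_fin,
          nsmul_eq_mul]

end NWC_

open NWC_ in
theorem p_NWC (h_MUL : T_MUL) (h_EXP : T_EXP.{u}) (h_KAV : T_KAV.{u}) (h_KUB : T_KUB.{u})
    (h_KKB : T_KKB) (h_NWA : T_NWA.{u}) : T_NWC.{u} := by
  intro Ω _ μ _ q m d τ hq hm hτ ρ hρ ε hε
  have hm0 : (0 : ℝ) < m := by exact_mod_cast hm
  set c : ℝ := 4 / ((m : ℝ) ^ 2 * ρ ^ 2) with hc
  have hc0 : 0 < c := by positivity
  have hup : ∀ l l', Measurable (up τ l l') := by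
    intro l l'
    unfold up
    by_cases h : l' = l
    · rw [h, Function.update_self]
      exact measurable_const
    · rw [Function.update_of_ne h]
      exact hτ l'
  have hchr : ∀ l p, Measurable (chr (m := m) (up τ l) p) := fun l =>
    (h_NWA Ω q m d (up τ l) hq hm (hup l)).2.2.1
  set η : ℝ := ε / (c * (d + 1)) with hη
  have hη0 : 0 < η := by positivity
  have hex : ∀ l : Fin d, ∃ N₀ : ℕ, ∀ N ≥ N₀, ∀ s : ℕ,
      ∫ x, |wm (kw m (up τ l)) N s x - ku m (up τ l) x| ∂μ ≤ η := by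
    intro l
    obtain ⟨N₀, hN₀⟩ := h_KAV Ω μ (Fin d → Fin m × Fin m) (kc m d) (chr (up τ l)) (hchr l) η hη0
    refine ⟨N₀, fun N hN s => ?_⟩
    have h1 := hN₀ N hN s
    have h2 : (kw m (up τ l)) = tw (kc m d) (chr (up τ l)) := by
      funext x n
      exact h_EXP Ω m d (up τ l) x n
    rw [h2]
    exact h1
  choose NN hNN using hex
  refine ⟨q * ∑ l, NN l, fun N hN hqN s => ?_⟩
  obtain ⟨N', rfl⟩ := hqN
  have hN' : ∑ l, NN l ≤ N' := by
    exact Nat.le_of_mul_le_mul_left hN (by omega)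
  set s' : ℕ := (s + q - 1) / q with hs'
  -- integrability
  have hint : ∀ l, Integrable (fun x => |wm (kw m (up τ l)) N' s' x - ku m (up τ l) x|) μ := by
    intro l
    have hA := h_NWA Ω q m d (up τ l) hq hm (hup l)
    have hmeas : Measurable (fun x => wm (kw m (up τ l)) N' s' x - ku m (up τ l) x) := by
      refine Measurable.sub ?_ hA.2.2.2.2.1
      unfold wm
      exact (Finset.measurable_fun_sum (range N') fun n _ => hA.2.2.2.1 (s' + n)).const_mul _
    refine Integrable.of_bound (C := (m : ℝ) ^ d + (m : ℝ) ^ d)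
      (hmeas.abs).aestronglyMeasurable (Filter.Eventually.of_forall fun x => ?_)
    rw [Real.norm_eq_abs, abs_abs]
    have h1 : |wm (kw m (up τ l)) N' s' x| ≤ (m : ℝ) ^ d := by
      unfold wm
      rw [abs_of_nonneg (mul_nonneg (by positivity)
        (Finset.sum_nonneg fun n _ => kw_nonneg h_KKB _ _ _))]
      have h2 : ∑ n ∈ range N', kw m (up τ l) x (s' + n) ≤ N' * (m : ℝ) ^ d := by
        calc ∑ n ∈ range N', kw m (up τ l) x (s' + n) ≤ ∑ _n ∈ range N', (m : ℝ) ^ d :=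
              Finset.sum_le_sum fun n _ => kw_le_pow h_KKB _ _ _
          _ = N' * (m : ℝ) ^ d := by
              rw [Finset.sum_const, Finset.card_range, nsmul_eq_mul]
      rcases Nat.eq_zero_or_pos N' with h0 | h0
      · rw [h0]
        simp
      · have h3 : (0 : ℝ) < N' := by exact_mod_cast h0
        rw [inv_mul_le_iff₀ h3]
        exact h2
    have h4 : |ku m (up τ l) x| ≤ (m : ℝ) ^ d := by
      obtain ⟨h5, h6, -⟩ := h_KUB Ω m d (up τ l) x hm
      rw [abs_of_nonneg (zero_le_one.trans h5)]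
      exact h6
    exact (abs_sub _ _).trans (add_le_add h1 h4)
  have hsumint : Integrable (fun x => ∑ l, c *
      |wm (kw m (up τ l)) N' s' x - ku m (up τ l) x|) μ :=
    integrable_finsetSum _ fun l _ => (hint l).const_mul c
  have hle := integral_mono_of_nonneg (μ := μ)
    (f := fun x => wm (fun x n => nw q m τ x n * one {y | y ∉ bohr τ ρ (n / q)} x) (q * N') s x)
    (g := fun x => d * (4 / (m * ρ ^ 2)) + ∑ l, c *
      |wm (kw m (up τ l)) N' s' x - ku m (up τ l) x|)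
    (Filter.Eventually.of_forall fun x => by
      show (0 : ℝ) ≤ _
      unfold wm
      refine mul_nonneg (by positivity) (Finset.sum_nonneg fun n _ => ?_)
      refine mul_nonneg ((h_NWA Ω q m d τ hq hm hτ).1 x (s + n)).1 ?_
      unfold one
      exact Set.indicator_nonneg (fun _ _ => zero_le_one) _)
    ((integrable_const _).add hsumint)
    (Filter.Eventually.of_forall fun x => wm_le h_MUL h_KKB h_KUB hq hm hρ τ N' s x)
  refine hle.trans ?_
  rw [integral_add (integrable_const _) hsumint, integral_const, probReal_univ, one_smul,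
    integral_finsetSum _ fun l _ => (hint l).const_mul c]
  refine add_le_add le_rfl ?_
  calc ∑ l, ∫ x, c * |wm (kw m (up τ l)) N' s' x - ku m (up τ l) x| ∂μ
      ≤ ∑ _l : Fin d, c * η := by
        refine Finset.sum_le_sum fun l _ => ?_
        rw [integral_const_mul]
        refine mul_le_mul_of_nonneg_left (hNN l N' ?_ s') hc0.le
        exact (Finset.single_le_sum (f := fun l => NN l) (fun _ _ => Nat.zero_le _)
          (mem_univ l)).trans hN'
    _ = d * (c * η) := by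
        rw [Finset.sum_const, Finset.card_univ, Fintype.card_fin, nsmul_eq_mul]
    _ ≤ (d + 1) * (c * η) := by
        refine mul_le_mul_of_nonneg_right (by linarith) (by positivity)
    _ = ε := by
        rw [hη]
        have : (0 : ℝ) < d + 1 := by positivity
        field_simp

end Pool.Agent.FSP
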