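import Pool.Agent.FSP.Targets

set_option autoImplicit false

/-!
# FSP: proof of the target NWD (ASL for the normalised weights)
-/

open MeasureTheory Filter Topology Finset

namespace Pool.Agent.FSP

universe u

namespace NWD_

variable {Ω : Type u}

lemma wav_eq (hMUL : T_MUL) [MeasurableSpace Ω] (S : Ω → Ω) (q m d : ℕ)
    (τ : Fin d → Ω → Circle) (f : Ω → ℝ) (hq : 1 ≤ q) (N' s : ℕ) (x : Ω) :
    wav S (nw q m τ) f (q * N') s x =
      (ku m τ x)⁻¹ * wav S^[q] (kw m τ) f N' ((s + q - 1) / q) x := by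
  have hq0 : (q : ℝ) ≠ 0 := by
    have h1 : q ≠ 0 := by omega
    exact_mod_cast h1
  have h1 : ∑ n ∈ range (q * N'), nw q m τ x (s + n) * f (S^[s + n] x) =
      ∑ n ∈ range (q * N'), (if q ∣ s + n then
        (fun k => (q : ℝ) * kw m τ x k / ku m τ x * f ((S^[q])^[k] x)) ((s + n) / q) else 0) := by
    refine Finset.sum_congr rfl fun n _ => ?_
    by_cases h : q ∣ s + n
    · rw [if_pos h]
      have h2 : (S^[q])^[(s + n) / q] = S^[s + n] := by
        rw [← Function.iterate_mul, Nat.mul_div_cancel' h]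
      simp only [nw, if_pos h, h2]
    · simp only [nw, if_neg h, zero_mul]
  have h3 := hMUL q N' s (fun k => (q : ℝ) * kw m τ x k / ku m τ x * f ((S^[q])^[k] x)) hq
  unfold wav
  rw [h1, h3, Finset.mul_sum, Finset.mul_sum, Finset.mul_sum]
  refine Finset.sum_congr rfl fun n _ => ?_
  push_cast
  by_cases hN : (N' : ℝ) = 0
  · rw [hN]
    simp
  · by_cases hk : ku m τ x = 0
    · rw [hk]
      simp
    · field_simp

end NWD_

open NWD_ in
theorem p_NWD (hMUL : T_MUL) (hEXP : T_EXP.{u}) (hKUB : T_KUB.{u}) (hKKB : T_KKB)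
    (hNWA : T_NWA.{u}) (hASL : T_ASL.{u}) : T_NWD.{u} := by
  intro Ω _ μ _ S hS q m d τ X hq hm hτ hX hcase δ hδ
  have hkw : kw m τ = tw (kc m d) (chr (m := m) τ) := by
    funext x n
    exact hEXP Ω m d τ x n
  have hku : ∀ x, 1 ≤ ku m τ x := fun x => (hKUB Ω m d τ x hm).1
  obtain ⟨-, -, hchr, -, -, -⟩ := hNWA Ω q m d τ hq hm hτ
  obtain ⟨N₁, hN₁⟩ := hASL Ω μ S^[q] (hS.iterate q) (Fin d → Fin m × Fin m) (kc m d) (chr τ) X
    (fun _ => by unfold kc; positivity) hchr hX hcase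
    (fun x n => by
      rw [← hkw]
      unfold kw
      exact Finset.prod_nonneg fun l _ => (hKKB.1 m _).1)
    hku δ hδ
  refine ⟨q * N₁, fun N hN hqN s => ?_⟩
  obtain ⟨N', rfl⟩ := hqN
  have hN' : N₁ ≤ N' := Nat.le_of_mul_le_mul_left hN (by omega)
  have h1 := hN₁ N' hN' ((s + q - 1) / q)
  have h2 : {x | x ∈ X ∧ wav S (nw q m τ) (one X) (q * N') s x < δ} =
      {x | x ∈ X ∧ wav S^[q] (tw (kc m d) (chr τ)) (one X) N' ((s + q - 1) / q) x <
        δ * tu (kc m d) (chr τ) x} := by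
    ext x
    have h3 : 0 < ku m τ x := lt_of_lt_of_le one_pos (hku x)
    have h4 : wav S (nw q m τ) (one X) (q * N') s x < δ ↔
        wav S^[q] (tw (kc m d) (chr τ)) (one X) N' ((s + q - 1) / q) x <
          δ * tu (kc m d) (chr τ) x := by
      rw [wav_eq hMUL S q m d τ (one X) hq N' s x, ← hkw, inv_mul_lt_iff₀ h3, mul_comm]
      exact Iff.rfl
    exact and_congr_right fun _ => h4
  rw [h2]
  exact h1

end Pool.Agent.FSP
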