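import Pool.Agent.FSP.Targets

set_option autoImplicit false

/-!
# FSP-ORT: orthogonality to the generalised eigenfunctions
-/

open MeasureTheory Filter Topology Finset

namespace Pool.Agent.FSP

universe u

namespace ORT_

/-! ## Distance to `1` on the circle -/

theorem nm_mul (x y : Circle) : ‖((x * y : Circle) : ℂ) - 1‖ ≤ ‖(x : ℂ) - 1‖ + ‖(y : ℂ) - 1‖ := by
  have h : ((x * y : Circle) : ℂ) - 1 = ((x : ℂ) - 1) * y + ((y : ℂ) - 1) := by
    rw [Circle.coe_mul]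
    ring
  rw [h]
  refine (norm_add_le _ _).trans ?_
  rw [norm_mul, Circle.norm_coe, mul_one]

theorem nm_inv (x : Circle) : ‖((x⁻¹ : Circle) : ℂ) - 1‖ = ‖(x : ℂ) - 1‖ := by
  have h : ((x⁻¹ : Circle) : ℂ) - 1 = -(((x : ℂ) - 1) * ((x⁻¹ : Circle) : ℂ)) := by
    have h1 : (x : ℂ) * ((x⁻¹ : Circle) : ℂ) = 1 := by
      rw [← Circle.coe_mul, mul_inv_cancel, Circle.coe_one]
    linear_combination h1
  rw [h, norm_neg, norm_mul, Circle.norm_coe, mul_one]

theorem nm_pow (x : Circle) (m : ℕ) : ‖((x ^ m : Circle) : ℂ) - 1‖ ≤ m * ‖(x : ℂ) - 1‖ := by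
  induction m with
  | zero => simp
  | succ m ih =>
    rw [pow_succ]
    refine (nm_mul _ _).trans ?_
    rw [Nat.cast_add, Nat.cast_one, add_mul, one_mul]
    exact add_le_add ih le_rfl

theorem nm_zpow (x : Circle) (a : ℤ) :
    ‖((x ^ a : Circle) : ℂ) - 1‖ ≤ |(a : ℝ)| * ‖(x : ℂ) - 1‖ := by
  rcases Int.eq_nat_or_neg a with ⟨m, rfl | rfl⟩
  · rw [zpow_natCast]
    simpa using nm_pow x m
  · rw [zpow_neg, zpow_natCast, nm_inv]
    simpa using nm_pow x m

theorem nm_prod {ι : Type} (s : Finset ι) (f : ι → Circle) :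
    ‖((∏ j ∈ s, f j : Circle) : ℂ) - 1‖ ≤ ∑ j ∈ s, ‖(f j : ℂ) - 1‖ := by
  classical
  induction s using Finset.induction_on with
  | empty => simp
  | insert j s hj ih =>
    rw [Finset.prod_insert hj, Finset.sum_insert hj]
    exact (nm_mul _ _).trans (by linarith)

theorem nm_main {k : ℕ} (ζ : Circle) (θ : Fin k → Circle) (a : Fin k → ℤ) (i : ℕ) (ρ : ℝ)
    (hζ : ‖(ζ : ℂ) ^ i - 1‖ ≤ ρ) (hθ : ∀ j, ‖(θ j : ℂ) ^ i - 1‖ ≤ ρ) :
    ‖(((ζ * ∏ j, θ j ^ a j) ^ i : Circle) : ℂ) - 1‖ ≤ (1 + ∑ j, |(a j : ℝ)|) * ρ := by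
  have h1 : (ζ * ∏ j, θ j ^ a j) ^ i = ζ ^ i * ∏ j, (θ j ^ i) ^ a j := by
    rw [mul_pow, ← Finset.prod_pow]
    congr 1
    refine Finset.prod_congr rfl fun j _ => ?_
    rw [← zpow_natCast, ← zpow_natCast, ← zpow_mul, ← zpow_mul, mul_comm]
  rw [h1]
  refine (nm_mul _ _).trans ?_
  rw [add_mul, one_mul, Circle.coe_pow]
  refine add_le_add hζ ?_
  refine (nm_prod _ _).trans ?_
  rw [Finset.sum_mul]
  refine Finset.sum_le_sum fun j _ => ?_
  refine (nm_zpow _ _).trans ?_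
  rw [Circle.coe_pow]
  exact mul_le_mul_of_nonneg_left (hθ j) (abs_nonneg _)

/-! ## Eigenfunctions -/

variable {Ω : Type u} [MeasurableSpace Ω] {μ : Measure Ω} {T : Ω → Ω}

theorem inv_iter {α : Type} {f : Ω → α} (h : ∀ x, f (T x) = f x) (m : ℕ) (x : Ω) :
    f (T^[m] x) = f x := by
  induction m with
  | zero => rfl
  | succ m ih => rw [Function.iterate_succ_apply', h, ih]

theorem mem_iter {D : Set Ω} (h : ∀ x, T x ∈ D ↔ x ∈ D) (m : ℕ) (x : Ω) :
    T^[m] x ∈ D ↔ x ∈ D := by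
  induction m with
  | zero => rfl
  | succ m ih => rw [Function.iterate_succ_apply', h, ih]

theorem eig_iter (hT : MeasurePreserving T μ μ) {v : Ω → ℂ} {lam : Ω → Circle}
    (hlam : ∀ x, lam (T x) = lam x) (hv : ∀ᵐ x ∂μ, v (T x) = (lam x : ℂ) * v x) :
    ∀ᵐ x ∂μ, ∀ m : ℕ, v (T^[m] x) = ((lam x ^ m : Circle) : ℂ) * v x := by
  have h1 : ∀ᵐ x ∂μ, ∀ m : ℕ, v (T (T^[m] x)) = (lam (T^[m] x) : ℂ) * v (T^[m] x) := by
    rw [ae_all_iff]
    intro m
    exact (hT.iterate m).quasiMeasurePreserving.ae hv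
  filter_upwards [h1] with x hx m
  induction m with
  | zero => simp
  | succ m ih =>
    rw [Function.iterate_succ_apply', hx m, ih, inv_iter hlam, pow_succ, Circle.coe_mul]
    ring

/-- Almost periodicity of the truncated functions. -/
theorem ap_trunc (hT : MeasurePreserving T μ μ) {k : ℕ} {θ : Fin k → Ω → Circle}
    {Λ : Set Circle} {v : Ω → ℂ} {lam : Ω → Circle} (hlam : ∀ x, lam (T x) = lam x)
    (hv : ∀ᵐ x ∂μ, v (T x) = (lam x : ℂ) * v x) (D : Set Ω) (hD : ∀ x, T x ∈ D ↔ x ∈ D)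
    (n : ℕ) (hn : 1 ≤ n) (ζ : Circle) (hζ : ζ ∈ Λ) (a : Fin k → ℤ)
    (hDt : ∀ x ∈ D, lam x ^ n = ζ * ∏ j, θ j x ^ a j) (K : ℝ) (hK : 0 ≤ K)
    (pr : ℂ → ℝ) (hpr : ∀ z w, |pr z - pr w| ≤ ‖z - w‖) (ε : ℝ) (hε : 0 < ε) :
    AP μ T (freq θ Λ) ε fun x => pr ((D ∩ {x | ‖v x‖ ≤ K}).indicator v x) := by
  set B : ℝ := 1 + ∑ j, |(a j : ℝ)| with hB
  have hB0 : 0 < B := by
    have : 0 ≤ ∑ j, |(a j : ℝ)| := Finset.sum_nonneg fun _ _ => abs_nonneg _
    linarith
  refine ⟨n, hn, ε / (K * B + 1), by positivity, k + 1, Fin.cons (fun _ => ζ) θ, ?_, ?_⟩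
  · intro l
    refine Fin.cases ?_ (fun j => ?_) l
    · rw [Fin.cons_zero]
      exact Or.inr ⟨ζ, hζ, rfl⟩
    · rw [Fin.cons_succ]
      exact Or.inl ⟨j, rfl⟩
  · intro i
    filter_upwards [eig_iter hT hlam hv] with x hx hb
    refine (hpr _ _).trans ?_
    have h0 : ‖(ζ : ℂ) ^ i - 1‖ ≤ ε / (K * B + 1) := by
      have := hb 0
      rwa [Fin.cons_zero] at this
    have h1 : ∀ j, ‖(θ j x : ℂ) ^ i - 1‖ ≤ ε / (K * B + 1) := by
      intro j
      have := hb j.succ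
      rwa [Fin.cons_succ] at this
    have hnorm : ‖v (T^[n * i] x)‖ = ‖v x‖ := by
      rw [hx, norm_mul, Circle.norm_coe, one_mul]
    have hmem : T^[n * i] x ∈ D ∩ {x | ‖v x‖ ≤ K} ↔ x ∈ D ∩ {x | ‖v x‖ ≤ K} := by
      show T^[n * i] x ∈ D ∧ ‖v (T^[n * i] x)‖ ≤ K ↔ x ∈ D ∧ ‖v x‖ ≤ K
      rw [mem_iter hD, hnorm]
    by_cases hxE : x ∈ D ∩ {x | ‖v x‖ ≤ K}
    · rw [Set.indicator_of_mem (hmem.2 hxE), Set.indicator_of_mem hxE, hx]
      have h2 : ((lam x ^ (n * i) : Circle) : ℂ) * v x - v x =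
          (((lam x ^ (n * i) : Circle) : ℂ) - 1) * v x := by ring
      rw [h2, norm_mul, pow_mul, hDt x hxE.1]
      have h3 := nm_main ζ (fun j => θ j x) a i _ h0 h1
      have h4 : ‖v x‖ ≤ K := hxE.2
      calc _ ≤ (B * (ε / (K * B + 1))) * K :=
            mul_le_mul h3 h4 (norm_nonneg _) (by positivity)
        _ = K * B / (K * B + 1) * ε := by ring
        _ ≤ 1 * ε := by
            refine mul_le_mul_of_nonneg_right ?_ hε.le
            rw [div_le_one (by positivity)]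
            linarith
        _ = ε := one_mul ε
    · rw [Set.indicator_of_notMem (fun h => hxE (hmem.1 h)), Set.indicator_of_notMem hxE, sub_zero,
        norm_zero]
      exact hε.le

/-- The integral over a set of one type vanishes. -/
theorem int_type [IsProbabilityMeasure μ] (hT : MeasurePreserving T μ μ) {Z : Set Ω} {k : ℕ}
    {θ : Fin k → Ω → Circle} {Λ : Set Circle} {g : Ω → ℝ} (hg : Measurable g)
    (hg1 : ∀ x, |g x| ≤ 1) (hO : OrtAP μ T (freq θ Λ) Z g) {v : Ω → ℂ} {lam : Ω → Circle}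
    (hvm : Measurable v) (hlam : ∀ x, lam (T x) = lam x)
    (hv : ∀ᵐ x ∂μ, v (T x) = (lam x : ℂ) * v x) (hvi : Integrable v μ)
    (D : Set Ω) (hDm : MeasurableSet D) (hDZ : D ⊆ Z) (hD : ∀ x, T x ∈ D ↔ x ∈ D)
    (n : ℕ) (hn : 1 ≤ n) (ζ : Circle) (hζ : ζ ∈ Λ) (a : Fin k → ℤ)
    (hDt : ∀ x ∈ D, lam x ^ n = ζ * ∏ j, θ j x ^ a j) :
    ∫ x in D, (g x : ℂ) * v x ∂μ = 0 := by
  have hEm : ∀ K : ℕ, MeasurableSet (D ∩ {x | ‖v x‖ ≤ (K : ℝ)}) := fun K =>
    hDm.inter (measurableSet_le hvm.norm measurable_const)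
  have hgc : Measurable fun x => (g x : ℂ) := Complex.measurable_ofReal.comp hg
  have hbound : ∀ K : ℕ, ∀ x, ‖(g x : ℂ) * (D ∩ {x | ‖v x‖ ≤ (K : ℝ)}).indicator v x‖ ≤
      ‖v x‖ := by
    intro K x
    rw [norm_mul, Complex.norm_real, Real.norm_eq_abs]
    have h1 : ‖(D ∩ {x | ‖v x‖ ≤ (K : ℝ)}).indicator v x‖ ≤ ‖v x‖ := norm_indicator_le_norm_self _ _
    calc _ ≤ 1 * ‖v x‖ := mul_le_mul (hg1 x) h1 (norm_nonneg _) zero_le_one
      _ = ‖v x‖ := one_mul _
  have hmeas : ∀ K : ℕ, Measurable fun x =>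
      (g x : ℂ) * (D ∩ {x | ‖v x‖ ≤ (K : ℝ)}).indicator v x := fun K =>
    hgc.mul (hvm.indicator (hEm K))
  have hint : ∀ K : ℕ, Integrable (fun x =>
      (g x : ℂ) * (D ∩ {x | ‖v x‖ ≤ (K : ℝ)}).indicator v x) μ := fun K =>
    hvi.norm.mono' (hmeas K).aestronglyMeasurable (Eventually.of_forall (hbound K))
  have hzero : ∀ K : ℕ, ∫ x, (g x : ℂ) * (D ∩ {x | ‖v x‖ ≤ (K : ℝ)}).indicator v x ∂μ = 0 := by
    intro K
    have hpart : ∀ pr : ℂ → ℝ, Measurable pr → pr 0 = 0 → (∀ z w, |pr z - pr w| ≤ ‖z - w‖) →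
        ∫ x, g x * pr ((D ∩ {x | ‖v x‖ ≤ (K : ℝ)}).indicator v x) ∂μ = 0 := by
      intro pr hprm hpr0 hpr
      refine hO _ (hprm.comp (hvm.indicator (hEm K))) ⟨K, fun x => ?_⟩ (fun x hx => ?_)
        (fun ε hε => ap_trunc hT hlam hv D hD n hn ζ hζ a hDt K (Nat.cast_nonneg K) pr hpr ε hε)
      · by_cases hxE : x ∈ D ∩ {x | ‖v x‖ ≤ (K : ℝ)}
        · rw [Set.indicator_of_mem hxE]
          have h1 := hpr (v x) 0
          rw [hpr0, sub_zero, sub_zero] at h1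
          exact h1.trans hxE.2
        · rw [Set.indicator_of_notMem hxE, hpr0, abs_zero]
          exact Nat.cast_nonneg K
      · have hxE : x ∉ D ∩ {x | ‖v x‖ ≤ (K : ℝ)} := fun h => hx (hDZ h.1)
        rw [Set.indicator_of_notMem hxE, hpr0]
    have hre := hpart Complex.re Complex.measurable_re Complex.zero_re (fun z w => by
      rw [← Complex.sub_re]
      exact Complex.abs_re_le_norm _)
    have him := hpart Complex.im Complex.measurable_im Complex.zero_im (fun z w => by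
      rw [← Complex.sub_im]
      exact Complex.abs_im_le_norm _)
    rw [← integral_re_add_im (hint K)]
    simp only [RCLike.re_to_complex, RCLike.im_to_complex, Complex.re_ofReal_mul,
      Complex.im_ofReal_mul]
    rw [hre, him]
    simp
  have hlim : Tendsto (fun K : ℕ =>
      ∫ x, (g x : ℂ) * (D ∩ {x | ‖v x‖ ≤ (K : ℝ)}).indicator v x ∂μ) atTop
      (𝓝 (∫ x, (g x : ℂ) * D.indicator v x ∂μ)) := by
    refine tendsto_integral_of_dominated_convergence (fun x => ‖v x‖)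
      (fun K => (hmeas K).aestronglyMeasurable) hvi.norm
      (fun K => Eventually.of_forall (hbound K)) (Eventually.of_forall fun x => ?_)
    refine Tendsto.congr' ?_ tendsto_const_nhds
    obtain ⟨K₀, hK₀⟩ := exists_nat_ge ‖v x‖
    filter_upwards [eventually_ge_atTop K₀] with K hK
    by_cases hxD : x ∈ D
    · have hxE : x ∈ D ∩ {x | ‖v x‖ ≤ (K : ℝ)} :=
        ⟨hxD, hK₀.trans (by exact_mod_cast hK)⟩
      rw [Set.indicator_of_mem hxE, Set.indicator_of_mem hxD]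
    · have hxE : x ∉ D ∩ {x | ‖v x‖ ≤ (K : ℝ)} := fun h => hxD h.1
      rw [Set.indicator_of_notMem hxE, Set.indicator_of_notMem hxD]
  simp only [hzero] at hlim
  have h1 := tendsto_nhds_unique hlim tendsto_const_nhds
  rw [← integral_indicator hDm]
  have h2 : D.indicator (fun x => (g x : ℂ) * v x) = fun x => (g x : ℂ) * D.indicator v x := by
    funext x
    by_cases hxD : x ∈ D
    · rw [Set.indicator_of_mem hxD, Set.indicator_of_mem hxD]
    · rw [Set.indicator_of_notMem hxD, Set.indicator_of_notMem hxD, mul_zero]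
  rw [h2]
  exact h1

/-- The set of points of a given type is measurable. -/
theorem meas_type {k : ℕ} {θ : Fin k → Ω → Circle} (hθ : ∀ j, Measurable (θ j)) {lam : Ω → Circle}
    (hlam : Measurable lam) (n : ℕ) (ζ : Circle) (a : Fin k → ℤ) :
    MeasurableSet {x | lam x ^ n = ζ * ∏ j, θ j x ^ a j} := by
  have hcc : Continuous (fun z : Circle => (z : ℂ)) := continuous_subtype_val
  have hc : Measurable (fun z : Circle => (z : ℂ)) := hcc.measurable
  have h1 : Measurable fun x => ((lam x : ℂ)) ^ n := (hc.comp hlam).pow_const n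
  have h2 : ∀ j, Measurable fun x => ((θ j x ^ a j : Circle) : ℂ) := fun j => by
    have h3 : Measurable (fun z : Circle => ((z ^ a j : Circle) : ℂ)) :=
      (hcc.comp (continuous_zpow (a j))).measurable
    exact h3.comp (hθ j)
  have h3 : Measurable fun x => (ζ : ℂ) * ∏ j, ((θ j x ^ a j : Circle) : ℂ) :=
    measurable_const.mul (Finset.measurable_prod _ fun j _ => h2 j)
  have h4 : {x | lam x ^ n = ζ * ∏ j, θ j x ^ a j} =
      {x | ((lam x : ℂ)) ^ n = (ζ : ℂ) * ∏ j, ((θ j x ^ a j : Circle) : ℂ)} := by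
    ext x
    rw [Set.mem_ofPred_eq, Set.mem_ofPred_eq, ← Circle.coe_inj, Circle.coe_pow, Circle.coe_mul]
    have h5 : ((∏ j, θ j x ^ a j : Circle) : ℂ) = ∏ j, ((θ j x ^ a j : Circle) : ℂ) :=
      map_prod Circle.coeHom _ _
    rw [h5]
  rw [h4]
  exact measurableSet_eq_fun h1 h3

/-- Unions of enumerated types. -/
def yy {Ω : Type u} {ι : Type} [Encodable ι] (Y : ι → Set Ω) (m : ℕ) : Set Ω :=
  match Encodable.decode (α := ι) m with
  | none => ∅
  | some t => Y t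

theorem yy_encode {ι : Type} [Encodable ι] (Y : ι → Set Ω) (t : ι) :
    yy Y (Encodable.encode t) = Y t := by
  unfold yy
  rw [Encodable.encodek]

theorem yy_cases {ι : Type} [Encodable ι] (Y : ι → Set Ω) (m : ℕ) :
    yy Y m = ∅ ∨ ∃ t, yy Y m = Y t := by
  unfold yy
  cases h : Encodable.decode (α := ι) m with
  | none => exact Or.inl rfl
  | some t => exact Or.inr ⟨t, rfl⟩

end ORT_

open ORT_ in
theorem p_ORT : T_ORT.{u} := by
  intro Ω _ μ _ T hT Z k θ Λ hZ hZT hΛ hθ hθT g hg hg1 hgZ hO v lam hv hlam hlamT hvT hrel hv2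
  -- `v` is integrable
  have hvi : Integrable v μ := by
    have h1 : Integrable (fun x => 1 + ‖v x‖ ^ 2) μ := (integrable_const _).add hv2
    refine h1.mono' hv.aestronglyMeasurable (Eventually.of_forall fun x => ?_)
    nlinarith [sq_nonneg (‖v x‖ - 1), norm_nonneg (v x)]
  have hgc : Measurable fun x => (g x : ℂ) := Complex.measurable_ofReal.comp hg
  have hgv : Integrable (fun x => (g x : ℂ) * v x) μ := by
    refine hvi.norm.mono' (hgc.mul hv).aestronglyMeasurable (Eventually.of_forall fun x => ?_)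
    rw [norm_mul, Complex.norm_real, Real.norm_eq_abs]
    calc _ ≤ 1 * ‖v x‖ := mul_le_mul_of_nonneg_right (hg1 x) (norm_nonneg _)
      _ = ‖v x‖ := one_mul _
  -- the types
  have : Countable Λ := hΛ.to_subtype
  let ι : Type := ℕ × Λ × (Fin k → ℤ)
  letI : Encodable ι := Encodable.ofCountable ι
  let Y : ι → Set Ω := fun t => Z ∩ {x | lam x ^ (t.1 + 1) = (t.2.1 : Circle) * ∏ j, θ j x ^ t.2.2 j}
  have hYm : ∀ t, MeasurableSet (Y t) := fun t => hZ.inter (meas_type hθ hlam _ _ _)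
  have hYT : ∀ t x, T x ∈ Y t ↔ x ∈ Y t := by
    intro t x
    show T x ∈ Z ∧ lam (T x) ^ (t.1 + 1) = (t.2.1 : Circle) * ∏ j, θ j (T x) ^ t.2.2 j ↔
      x ∈ Z ∧ lam x ^ (t.1 + 1) = (t.2.1 : Circle) * ∏ j, θ j x ^ t.2.2 j
    rw [hZT, hlamT]
    simp only [hθT]
  have hym : ∀ m, MeasurableSet (yy Y m) := by
    intro m
    rcases yy_cases Y m with h | ⟨t, h⟩
    · rw [h]; exact MeasurableSet.empty
    · rw [h]; exact hYm t
  have hyT : ∀ m x, T x ∈ yy Y m ↔ x ∈ yy Y m := by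
    intro m x
    rcases yy_cases Y m with h | ⟨t, h⟩
    · rw [h]; exact Iff.rfl
    · rw [h]; exact hYT t x
  have hDm : ∀ m, MeasurableSet (disjointed (yy Y) m) := MeasurableSet.disjointed hym
  have hDT : ∀ m x, T x ∈ disjointed (yy Y) m ↔ x ∈ disjointed (yy Y) m := by
    intro m
    refine disjointedRec (f := yy Y) (p := fun s => ∀ x, T x ∈ s ↔ x ∈ s) (fun s i hs x => ?_)
      (hyT m)
    show T x ∈ s ∧ T x ∉ yy Y i ↔ x ∈ s ∧ x ∉ yy Y i
    rw [hs, hyT]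
  have hDsub : ∀ m, disjointed (yy Y) m ⊆ yy Y m := fun m => disjointed_le (yy Y) m
  have hzero : ∀ m, ∫ x in disjointed (yy Y) m, (g x : ℂ) * v x ∂μ = 0 := by
    intro m
    rcases yy_cases Y m with h | ⟨t, h⟩
    · have h1 : disjointed (yy Y) m = ∅ := Set.subset_eq_empty (hDsub m) h
      rw [h1, setIntegral_empty]
    · have h1 : disjointed (yy Y) m ⊆ Y t := (hDsub m).trans h.le
      refine int_type hT hg hg1 hO hv hlamT hvT hvi _ (hDm m) (fun x hx => (h1 hx).1) (hDT m)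
        (t.1 + 1) (Nat.le_add_left 1 t.1) (t.2.1 : Circle) t.2.1.2 t.2.2 fun x hx => (h1 hx).2
  have hunion : ∫ x in ⋃ m, disjointed (yy Y) m, (g x : ℂ) * v x ∂μ = 0 := by
    rw [integral_iUnion hDm (disjoint_disjointed (yy Y)) hgv.integrableOn]
    simp only [hzero, tsum_zero]
  rw [← hunion]
  symm
  refine setIntegral_eq_integral_of_ae_compl_eq_zero ?_
  filter_upwards [hrel] with x hx hxU
  by_cases hxZ : x ∈ Z
  · by_cases hvx : v x = 0
    · rw [hvx, mul_zero]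
    · obtain ⟨n, hn, ζ, hζ, a, ha⟩ := hx hxZ hvx
      refine absurd ?_ hxU
      rw [iUnion_disjointed]
      refine Set.mem_iUnion.2 ⟨Encodable.encode ((n - 1, ⟨ζ, hζ⟩, a) : ι), ?_⟩
      rw [yy_encode]
      refine ⟨hxZ, ?_⟩
      show lam x ^ (n - 1 + 1) = ζ * ∏ j, θ j x ^ a j
      rw [Nat.sub_add_cancel hn]
      exact ha
  · rw [hgZ x hxZ, Complex.ofReal_zero, zero_mul]

end Pool.Agent.FSP
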