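import Pool.Agent.FSP.Targets

/-!
# FSP: Parseval
-/

set_option autoImplicit false

open MeasureTheory Filter Topology Finset

namespace Pool.Agent.FSP

namespace PAR_

/-- The double sum. -/
noncomputable def S (γ : ℕ → ℝ) (M : ℕ) (β : ℂ) : ℂ :=
  ∑ n ∈ range M, ∑ n' ∈ range M, (γ (Pool.Agent.MRec.hd n n') : ℂ) * (β ^ n * (β ^ n')⁻¹)

lemma hd_comm (n m : ℕ) : Pool.Agent.MRec.hd n m = Pool.Agent.MRec.hd m n := by
  unfold Pool.Agent.MRec.hd
  omega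

lemma S_re (γ : ℕ → ℝ) (M : ℕ) (β : Circle) :
    SS γ M β = ((M : ℝ)⁻¹) ^ 2 * (S γ M (β : ℂ)).re := by
  unfold SS S
  rw [Complex.re_sum]
  congr 1
  refine sum_congr rfl fun n _ => ?_
  rw [Complex.re_sum]
  refine sum_congr rfl fun n' _ => ?_
  rw [Complex.re_ofReal_mul]
  congr 2

lemma S_conj (γ : ℕ → ℝ) (M : ℕ) (β : ℂ) (hβ : (starRingEnd ℂ) β = β⁻¹) :
    (starRingEnd ℂ) (S γ M β) = S γ M β := by
  unfold S
  simp only [map_sum, map_mul, map_pow, map_inv₀, hβ, Complex.conj_ofReal, inv_pow, inv_inv]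
  rw [sum_comm]
  refine sum_congr rfl fun n _ => sum_congr rfl fun n' _ => ?_
  rw [hd_comm n' n, mul_comm (β ^ n)]

lemma geo (z : ℂ) (Q : ℕ) (hz : IsPrimitiveRoot z Q) (a b : ℕ) (ha : a < Q) (hb : b < Q) :
    ∑ k ∈ range Q, ((z ^ k) ^ a * ((z ^ k) ^ b)⁻¹) = if a = b then (Q : ℂ) else 0 := by
  have hz0 : z ≠ 0 := hz.ne_zero (by omega)
  have h1 : ∀ k, (z ^ k) ^ a * ((z ^ k) ^ b)⁻¹ = (z ^ a * (z ^ b)⁻¹) ^ k := by
    intro k
    rw [mul_pow, inv_pow, ← pow_mul, ← pow_mul, ← pow_mul, ← pow_mul, mul_comm k a, mul_comm k b]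
  simp only [h1]
  split_ifs with hab
  · subst hab
    rw [mul_inv_cancel₀ (pow_ne_zero _ hz0)]
    simp
  · have hw : z ^ a * (z ^ b)⁻¹ ≠ 1 := by
      intro h
      apply hab
      refine hz.pow_inj ha hb ?_
      rw [← div_eq_mul_inv, div_eq_one_iff_eq (pow_ne_zero _ hz0)] at h
      exact h
    rw [geom_sum_eq hw, mul_pow, inv_pow, ← pow_mul, ← pow_mul, mul_comm a Q, mul_comm b Q, pow_mul,
      pow_mul, hz.pow_eq_one]
    simp

lemma first (γ : ℕ → ℝ) (M : ℕ) (z : ℂ) (Q : ℕ) (hQ : 2 * M ≤ Q) (hz : IsPrimitiveRoot z Q) :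
    ∑ k ∈ range Q, S γ M (z ^ k) = ((Q * (M * γ 0) : ℝ) : ℂ) := by
  unfold S
  rw [sum_comm]
  have h1 : ∀ n ∈ range M, ∑ k ∈ range Q, ∑ n' ∈ range M,
      (γ (Pool.Agent.MRec.hd n n') : ℂ) * ((z ^ k) ^ n * ((z ^ k) ^ n')⁻¹) =
        (γ 0 : ℂ) * Q := by
    intro n hn
    have hn' := mem_range.1 hn
    rw [sum_comm]
    have h2 : ∀ n' ∈ range M, ∑ k ∈ range Q,
        (γ (Pool.Agent.MRec.hd n n') : ℂ) * ((z ^ k) ^ n * ((z ^ k) ^ n')⁻¹) =
        if n = n' then (γ (Pool.Agent.MRec.hd n n') : ℂ) * Q else 0 := by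
      intro n' hm
      have hm' := mem_range.1 hm
      rw [← mul_sum, geo z Q hz n n' (by omega) (by omega)]
      split_ifs <;> simp
    rw [sum_congr rfl h2, sum_ite_eq, if_pos hn]
    simp [Pool.Agent.MRec.hd]
  rw [sum_congr rfl h1, sum_const, card_range]
  push_cast
  rw [nsmul_eq_mul]
  ring

lemma second (γ : ℕ → ℝ) (M : ℕ) (z : ℂ) (Q : ℕ) (hQ : 2 * M ≤ Q) (hz : IsPrimitiveRoot z Q) :
    ∑ k ∈ range Q, S γ M (z ^ k) ^ 2 =
      ((∑ n' ∈ range M, ∑ m ∈ range M, ∑ n ∈ range M, ∑ m' ∈ range M,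
        (if n + m = n' + m' then Q * γ (Pool.Agent.MRec.hd n n') ^ 2 else 0) : ℝ) : ℂ) := by
  have h1 : ∀ k, S γ M (z ^ k) ^ 2 = ∑ n' ∈ range M, ∑ m ∈ range M, ∑ n ∈ range M,
      ∑ m' ∈ range M, ((γ (Pool.Agent.MRec.hd n n') : ℂ) * (γ (Pool.Agent.MRec.hd m m') : ℂ)) *
        ((z ^ k) ^ (n + m) * ((z ^ k) ^ (n' + m'))⁻¹) := by
    intro k
    have e1 : S γ M (z ^ k) = ∑ n' ∈ range M, ∑ n ∈ range M,
        (γ (Pool.Agent.MRec.hd n n') : ℂ) * ((z ^ k) ^ n * ((z ^ k) ^ n')⁻¹) := by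
      unfold S
      rw [sum_comm]
    have e2 : S γ M (z ^ k) = ∑ m ∈ range M, ∑ m' ∈ range M,
        (γ (Pool.Agent.MRec.hd m m') : ℂ) * ((z ^ k) ^ m * ((z ^ k) ^ m')⁻¹) := rfl
    calc S γ M (z ^ k) ^ 2 = S γ M (z ^ k) * S γ M (z ^ k) := sq _
      _ = (∑ n' ∈ range M, ∑ n ∈ range M,
          (γ (Pool.Agent.MRec.hd n n') : ℂ) * ((z ^ k) ^ n * ((z ^ k) ^ n')⁻¹)) *
          (∑ m ∈ range M, ∑ m' ∈ range M,
          (γ (Pool.Agent.MRec.hd m m') : ℂ) * ((z ^ k) ^ m * ((z ^ k) ^ m')⁻¹)) := by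
        rw [← e1, ← e2]
      _ = _ := ?_
    rw [sum_mul]
    refine sum_congr rfl fun n' _ => ?_
    rw [mul_sum]
    refine sum_congr rfl fun m _ => ?_
    rw [sum_mul]
    refine sum_congr rfl fun n _ => ?_
    rw [mul_sum]
    refine sum_congr rfl fun m' _ => ?_
    rw [pow_add, pow_add, mul_inv]
    ring
  simp only [h1]
  rw [sum_comm]
  push_cast
  refine sum_congr rfl fun n' hn' => ?_
  rw [sum_comm]
  refine sum_congr rfl fun m hm => ?_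
  rw [sum_comm]
  refine sum_congr rfl fun n hn => ?_
  rw [sum_comm]
  refine sum_congr rfl fun m' hm' => ?_
  have e1 := mem_range.1 hn'
  have e2 := mem_range.1 hm
  have e3 := mem_range.1 hn
  have e4 := mem_range.1 hm'
  rw [← mul_sum, geo z Q hz (n + m) (n' + m') (by omega) (by omega)]
  split_ifs with h
  · have h2 : Pool.Agent.MRec.hd m m' = Pool.Agent.MRec.hd n n' := by
      unfold Pool.Agent.MRec.hd
      omega
    rw [h2]
    push_cast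
    ring
  · simp

lemma lower (γ : ℕ → ℝ) (M Q : ℕ) :
    (Q : ℝ) * (((M - M / 2 : ℕ) : ℝ) ^ 2 * ∑ h ∈ range (M / 2 + 1), γ h ^ 2) ≤
      ∑ n' ∈ range M, ∑ m ∈ range M, ∑ n ∈ range M, ∑ m' ∈ range M,
        (if n + m = n' + m' then Q * γ (Pool.Agent.MRec.hd n n') ^ 2 else 0) := by
  have hnn : ∀ n' m n m' : ℕ, (0 : ℝ) ≤
      (if n + m = n' + m' then Q * γ (Pool.Agent.MRec.hd n n') ^ 2 else 0) := by
    intro n' m n m'
    split_ifs
    · positivity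
    · exact le_rfl
  have h1 : ∀ n' ∈ range (M - M / 2), ∀ m ∈ range (M - M / 2),
      (Q : ℝ) * ∑ h ∈ range (M / 2 + 1), γ h ^ 2 ≤ ∑ n ∈ range M, ∑ m' ∈ range M,
        (if n + m = n' + m' then Q * γ (Pool.Agent.MRec.hd n n') ^ 2 else 0) := by
    intro n' hn' m hm
    rw [mem_range] at hn' hm
    have hsub : (range (M / 2 + 1)).image (fun h => n' + h) ⊆ range M := by
      intro x hx
      rw [mem_image] at hx
      obtain ⟨h, hh, rfl⟩ := hx
      rw [mem_range] at hh ⊢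
      omega
    refine le_trans ?_ (sum_le_sum_of_subset_of_nonneg hsub fun n _ _ =>
      sum_nonneg fun m' _ => hnn n' m n m')
    rw [sum_image (fun a _ b _ hab => by simpa using hab), mul_sum]
    refine sum_le_sum fun h hh => ?_
    rw [mem_range] at hh
    refine le_trans ?_ (single_le_sum (fun m' _ => hnn n' m (n' + h) m')
      (mem_range.2 (show m + h < M by omega)))
    rw [if_pos (by omega)]
    have : Pool.Agent.MRec.hd (n' + h) n' = h := by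
      unfold Pool.Agent.MRec.hd
      omega
    rw [this]
  have hs : range (M - M / 2) ⊆ range M := by
    intro x hx
    rw [mem_range] at hx ⊢
    omega
  calc (Q : ℝ) * (((M - M / 2 : ℕ) : ℝ) ^ 2 * ∑ h ∈ range (M / 2 + 1), γ h ^ 2)
      = ∑ n' ∈ range (M - M / 2), ∑ m ∈ range (M - M / 2),
          (Q : ℝ) * ∑ h ∈ range (M / 2 + 1), γ h ^ 2 := by
        rw [sum_const, sum_const, card_range, nsmul_eq_mul, nsmul_eq_mul]
        ring
    _ ≤ ∑ n' ∈ range (M - M / 2), ∑ m ∈ range (M - M / 2), ∑ n ∈ range M, ∑ m' ∈ range M,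
          (if n + m = n' + m' then Q * γ (Pool.Agent.MRec.hd n n') ^ 2 else 0) :=
        sum_le_sum fun n' hn' => sum_le_sum fun m hm => h1 n' hn' m hm
    _ ≤ ∑ n' ∈ range (M - M / 2), ∑ m ∈ range M, ∑ n ∈ range M, ∑ m' ∈ range M,
          (if n + m = n' + m' then Q * γ (Pool.Agent.MRec.hd n n') ^ 2 else 0) :=
        sum_le_sum fun n' _ => sum_le_sum_of_subset_of_nonneg hs fun m _ _ =>
          sum_nonneg fun n _ => sum_nonneg fun m' _ => hnn n' m n m'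
    _ ≤ _ := sum_le_sum_of_subset_of_nonneg hs fun n' _ _ => sum_nonneg fun m _ =>
          sum_nonneg fun n _ => sum_nonneg fun m' _ => hnn n' m n m'

end PAR_

theorem p_PAR : T_PAR := by
  intro γ M hM hSS hγ
  set Q : ℕ := 2 * M with hQ
  have hQ0 : Q ≠ 0 := by omega
  set z : Circle := Circle.exp (2 * Real.pi / Q) with hz
  have hzc : (z : ℂ) = Complex.exp (2 * Real.pi * Complex.I / Q) := by
    rw [hz, Circle.coe_exp]
    congr 1
    push_cast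
    ring
  have hprim : IsPrimitiveRoot (z : ℂ) Q := by
    rw [hzc]
    exact Complex.isPrimitiveRoot_exp Q hQ0
  have hcoe : ∀ k : ℕ, ((z ^ k : Circle) : ℂ) = (z : ℂ) ^ k := fun k => by push_cast; rfl
  have hconj : ∀ k : ℕ, (starRingEnd ℂ) ((z : ℂ) ^ k) = ((z : ℂ) ^ k)⁻¹ := by
    intro k
    rw [← hcoe, ← Circle.coe_inv_eq_conj, Circle.coe_inv]
  set s : ℕ → ℝ := fun k => (PAR_.S γ M ((z : ℂ) ^ k)).re with hs
  have hreal : ∀ k, ((s k : ℝ) : ℂ) = PAR_.S γ M ((z : ℂ) ^ k) := fun k =>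
    Complex.conj_eq_iff_re.1 (PAR_.S_conj γ M _ (hconj k))
  have hMpos : (0 : ℝ) < M := by exact_mod_cast hM
  have hQpos : (0 : ℝ) < Q := by exact_mod_cast Nat.pos_of_ne_zero hQ0
  have hsSS : ∀ k, SS γ M (z ^ k) = ((M : ℝ)⁻¹) ^ 2 * s k := fun k => by
    rw [PAR_.S_re, hcoe]
  have hs0 : ∀ k, 0 ≤ s k := by
    intro k
    have h := hSS (z ^ k)
    rw [hsSS] at h
    by_contra hneg
    push Not at hneg
    have : ((M : ℝ)⁻¹) ^ 2 * s k < 0 := mul_neg_of_pos_of_neg (by positivity) hneg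
    linarith
  have h1 : ∑ k ∈ range Q, s k = Q * (M * γ 0) := by
    have := PAR_.first γ M (z : ℂ) Q (by omega) hprim
    rw [← Complex.ofReal_inj, ← this]
    push_cast
    exact sum_congr rfl fun k _ => hreal k
  have h2 : (Q : ℝ) * (((M - M / 2 : ℕ) : ℝ) ^ 2 * ∑ h ∈ range (M / 2 + 1), γ h ^ 2) ≤
      ∑ k ∈ range Q, s k ^ 2 := by
    refine (PAR_.lower γ M Q).trans (le_of_eq ?_)
    rw [← Complex.ofReal_inj, ← PAR_.second γ M (z : ℂ) Q (by omega) hprim]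
    push_cast
    exact sum_congr rfl fun k _ => by rw [hreal k]
  obtain ⟨k₀, -, hmax⟩ := exists_max_image (range Q) s ⟨0, mem_range.2 (Nat.pos_of_ne_zero hQ0)⟩
  refine ⟨z ^ k₀, ?_⟩
  rw [hsSS]
  have h3 : ∑ k ∈ range Q, s k ^ 2 ≤ s k₀ * (Q * M) := by
    calc ∑ k ∈ range Q, s k ^ 2 ≤ ∑ k ∈ range Q, s k₀ * s k :=
          sum_le_sum fun k hk => by
            rw [sq]
            exact mul_le_mul_of_nonneg_right (hmax k hk) (hs0 k)
      _ = s k₀ * (Q * (M * γ 0)) := by rw [← mul_sum, h1]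
      _ ≤ s k₀ * (Q * M) := by
          refine mul_le_mul_of_nonneg_left ?_ (hs0 k₀)
          refine mul_le_mul_of_nonneg_left ?_ hQpos.le
          calc (M : ℝ) * γ 0 ≤ M * 1 := mul_le_mul_of_nonneg_left hγ hMpos.le
            _ = M := mul_one _
  set G : ℝ := ∑ h ∈ range (M / 2 + 1), γ h ^ 2 with hG
  have hG0 : 0 ≤ G := sum_nonneg fun h _ => sq_nonneg _
  have h4 : (M : ℝ) / 2 ≤ ((M - M / 2 : ℕ) : ℝ) := by
    have : M ≤ 2 * (M - M / 2) := by omega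
    have h5 : (M : ℝ) ≤ 2 * ((M - M / 2 : ℕ) : ℝ) := by exact_mod_cast this
    linarith
  have h5 : ((M : ℝ) / 2) ^ 2 ≤ ((M - M / 2 : ℕ) : ℝ) ^ 2 :=
    pow_le_pow_left₀ (by positivity) h4 2
  have h6 : (Q : ℝ) * (((M : ℝ) / 2) ^ 2 * G) ≤ s k₀ * (Q * M) :=
    le_trans (mul_le_mul_of_nonneg_left (mul_le_mul_of_nonneg_right h5 hG0) hQpos.le)
      (h2.trans h3)
  have h7 : ((M : ℝ) / 2) ^ 2 * G ≤ s k₀ * M := by
    have : (Q : ℝ) * (((M : ℝ) / 2) ^ 2 * G) ≤ Q * (s k₀ * M) := by linarith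
    exact le_of_mul_le_mul_left this hQpos
  have h8 : (M : ℝ) * G / 4 ≤ s k₀ := by
    have : (M : ℝ) * (M * G / 4) ≤ M * s k₀ := by nlinarith
    exact le_of_mul_le_mul_left this hMpos
  calc (4 * (M : ℝ))⁻¹ * G = ((M : ℝ)⁻¹) ^ 2 * (M * G / 4) := by
        field_simp
    _ ≤ ((M : ℝ)⁻¹) ^ 2 * s k₀ := mul_le_mul_of_nonneg_left h8 (by positivity)

theorem t_par : T_PAR := p_PAR

end Pool.Agent.FSP
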