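import Pool.Agent.FSP.Targets

set_option autoImplicit false

/-!
# FSP: POS, good versions of the conditional correlations
-/

open MeasureTheory Filter Topology Finset

namespace Pool.Agent.FSP

universe u

namespace POS_

/-- The pointwise quadratic form. -/
noncomputable def qf (a : ℕ → ℝ) (M : ℕ) (β : Circle) : ℝ :=
  ((M : ℝ)⁻¹) ^ 2 * ∑ n ∈ range M, ∑ n' ∈ range M,
    (a n * a n') * (((β ^ n * (β ^ n')⁻¹ : Circle) : ℂ)).re

theorem normSq_sum (M : ℕ) (β : Circle) (a : ℕ → ℝ) :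
    ∑ n ∈ range M, ∑ n' ∈ range M, (a n * a n') * (((β ^ n * (β ^ n')⁻¹ : Circle) : ℂ)).re =
      Complex.normSq (∑ n ∈ range M, (β : ℂ) ^ n * ((a n : ℝ) : ℂ)) := by
  have h1 : Complex.normSq (∑ n ∈ range M, (β : ℂ) ^ n * ((a n : ℝ) : ℂ)) =
      ((∑ n ∈ range M, (β : ℂ) ^ n * ((a n : ℝ) : ℂ)) *
        (starRingEnd ℂ) (∑ n ∈ range M, (β : ℂ) ^ n * ((a n : ℝ) : ℂ))).re := by
    rw [Complex.mul_conj]
    simp
  rw [h1, map_sum, Finset.sum_mul_sum, Complex.re_sum]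
  refine Finset.sum_congr rfl fun n _ => ?_
  rw [Complex.re_sum]
  refine Finset.sum_congr rfl fun n' _ => ?_
  have h2 : (((β ^ n * (β ^ n')⁻¹ : Circle) : ℂ)) =
      (β : ℂ) ^ n * (starRingEnd ℂ) ((β : ℂ) ^ n') := by
    rw [Circle.coe_mul, Circle.coe_inv_eq_conj, Circle.coe_pow, Circle.coe_pow]
  rw [h2, map_mul, Complex.conj_ofReal]
  have h3 : (β : ℂ) ^ n * ((a n : ℝ) : ℂ) * ((starRingEnd ℂ) ((β : ℂ) ^ n') * ((a n' : ℝ) : ℂ)) =
      ((a n * a n' : ℝ) : ℂ) * ((β : ℂ) ^ n * (starRingEnd ℂ) ((β : ℂ) ^ n')) := by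
    push_cast
    ring
  rw [h3, Complex.re_ofReal_mul]

theorem qf_eq (a : ℕ → ℝ) (M : ℕ) (β : Circle) :
    qf a M β = ((M : ℝ)⁻¹) ^ 2 *
      Complex.normSq (∑ n ∈ range M, (β : ℂ) ^ n * ((a n : ℝ) : ℂ)) := by
  unfold qf
  rw [normSq_sum]

theorem qf_nonneg (a : ℕ → ℝ) (M : ℕ) (β : Circle) : 0 ≤ qf a M β := by
  rw [qf_eq]
  exact mul_nonneg (sq_nonneg _) (Complex.normSq_nonneg _)

theorem normSq_add_le (z w : ℂ) :
    Complex.normSq (z + w) ≤ 2 * Complex.normSq z + 2 * Complex.normSq w := by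
  rw [Complex.normSq_apply, Complex.normSq_apply, Complex.normSq_apply, Complex.add_re,
    Complex.add_im]
  nlinarith [sq_nonneg (z.re - w.re), sq_nonneg (z.im - w.im)]

theorem qf_double (a : ℕ → ℝ) (M : ℕ) (β : Circle) :
    qf a (2 * M) β ≤ 1 / 2 * (qf a M β + qf (fun n => a (n + M)) M β) := by
  rw [qf_eq, qf_eq, qf_eq]
  have h1 : ∑ n ∈ range (2 * M), (β : ℂ) ^ n * ((a n : ℝ) : ℂ) =
      ∑ n ∈ range M, (β : ℂ) ^ n * ((a n : ℝ) : ℂ) +
        (β : ℂ) ^ M * ∑ n ∈ range M, (β : ℂ) ^ n * ((a (n + M) : ℝ) : ℂ) := by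
    rw [two_mul, Finset.sum_range_add, Finset.mul_sum]
    congr 1
    refine Finset.sum_congr rfl fun n _ => ?_
    rw [add_comm n M, pow_add]
    ring
  have h2 : Complex.normSq ((β : ℂ) ^ M *
      ∑ n ∈ range M, (β : ℂ) ^ n * ((a (n + M) : ℝ) : ℂ)) =
      Complex.normSq (∑ n ∈ range M, (β : ℂ) ^ n * ((a (n + M) : ℝ) : ℂ)) := by
    rw [Complex.normSq_mul, map_pow, Circle.normSq_coe, one_pow, one_mul]
  have h3 := normSq_add_le (∑ n ∈ range M, (β : ℂ) ^ n * ((a n : ℝ) : ℂ))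
    ((β : ℂ) ^ M * ∑ n ∈ range M, (β : ℂ) ^ n * ((a (n + M) : ℝ) : ℂ))
  rw [h2] at h3
  rw [h1]
  have h4 : (((2 * M : ℕ) : ℝ)⁻¹) ^ 2 = 1 / 4 * ((M : ℝ)⁻¹) ^ 2 := by
    push_cast
    rw [mul_inv]
    ring
  rw [h4]
  have h5 : 0 ≤ ((M : ℝ)⁻¹) ^ 2 := sq_nonneg _
  nlinarith [mul_le_mul_of_nonneg_left h3 h5]

theorem continuous_SS (γ : ℕ → ℝ) (M : ℕ) : Continuous fun β : Circle => SS γ M β := by
  unfold SS
  refine continuous_const.mul (continuous_finsetSum _ fun n _ => continuous_finsetSum _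
    fun n' _ => continuous_const.mul (Complex.continuous_re.comp ?_))
  exact continuous_subtype_val.comp ((continuous_pow n).mul (continuous_pow n').inv)

theorem SS_zero (M : ℕ) (β : Circle) : SS (fun _ => 0) M β = 0 := by
  unfold SS
  simp

variable {Ω : Type u} [mΩ : MeasurableSpace Ω]

theorem meas_it {μ : Measure Ω} {T : Ω → Ω} (hT : MeasurePreserving T μ μ) {g : Ω → ℝ}
    (hg : Measurable g) (n : ℕ) : Measurable fun x => g (T^[n] x) :=
  hg.comp (hT.measurable.iterate n)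

theorem int_prod {μ : Measure Ω} [IsProbabilityMeasure μ] {T : Ω → Ω}
    (hT : MeasurePreserving T μ μ) {g : Ω → ℝ}
    (hg : Measurable g) (hg1 : ∀ x, |g x| ≤ 1) (n n' : ℕ) :
    Integrable (fun x => g (T^[n] x) * g (T^[n'] x)) μ := by
  refine Integrable.of_bound ((meas_it hT hg n).mul (meas_it hT hg n')).aestronglyMeasurable 1
    (Filter.Eventually.of_forall fun x => ?_)
  rw [Real.norm_eq_abs, abs_mul]
  exact mul_le_one₀ (hg1 _) (abs_nonneg _) (hg1 _)

omit mΩ in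
theorem qf_fun (T : Ω → Ω) (g : Ω → ℝ) (M : ℕ) (β : Circle) :
    (fun x => qf (fun n => g (T^[n] x)) M β) =
      ∑ p ∈ range M ×ˢ range M, (((M : ℝ)⁻¹) ^ 2 * (((β ^ p.1 * (β ^ p.2)⁻¹ : Circle) : ℂ)).re) •
        fun x => g (T^[p.1] x) * g (T^[p.2] x) := by
  funext x
  rw [Finset.sum_apply]
  unfold qf
  rw [Finset.mul_sum, Finset.sum_product]
  refine Finset.sum_congr rfl fun n _ => ?_
  rw [Finset.mul_sum]
  refine Finset.sum_congr rfl fun n' _ => ?_
  rw [Pi.smul_apply, smul_eq_mul]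
  ring

omit mΩ in
theorem SS_fun (γ : ℕ → Ω → ℝ) (M : ℕ) (β : Circle) :
    (fun x => SS (fun h => γ h x) M β) =
      ∑ p ∈ range M ×ˢ range M, (((M : ℝ)⁻¹) ^ 2 * (((β ^ p.1 * (β ^ p.2)⁻¹ : Circle) : ℂ)).re) •
        γ (MRec.hd p.1 p.2) := by
  funext x
  rw [Finset.sum_apply]
  unfold SS
  rw [Finset.mul_sum, Finset.sum_product]
  refine Finset.sum_congr rfl fun n _ => ?_
  rw [Finset.mul_sum]
  refine Finset.sum_congr rfl fun n' _ => ?_
  rw [Pi.smul_apply, smul_eq_mul]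
  ring

theorem int_qf {μ : Measure Ω} [IsProbabilityMeasure μ] {T : Ω → Ω}
    (hT : MeasurePreserving T μ μ) {g : Ω → ℝ}
    (hg : Measurable g) (hg1 : ∀ x, |g x| ≤ 1) (M : ℕ) (β : Circle) :
    Integrable (fun x => qf (fun n => g (T^[n] x)) M β) μ := by
  rw [qf_fun]
  exact integrable_finsetSum' _ fun p _ => (int_prod hT hg hg1 p.1 p.2).smul _

theorem condExp_qf {μ : Measure Ω} [IsProbabilityMeasure μ] {T : Ω → Ω}
    (hT : MeasurePreserving T μ μ) {g : Ω → ℝ}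
    (hg : Measurable g) (hg1 : ∀ x, |g x| ≤ 1)
    (hc : ∀ n n' : ℕ, μ[fun x => g (T^[n] x) * g (T^[n'] x) | MeasurableSpace.invariants T]
      =ᵐ[μ] gam μ T g (MRec.hd n n')) (M : ℕ) (β : Circle) :
    μ[fun x => qf (fun n => g (T^[n] x)) M β | MeasurableSpace.invariants T] =ᵐ[μ]
      fun x => SS (fun h => gam μ T g h x) M β := by
  rw [qf_fun, SS_fun]
  have h1 := condExp_finsetSum (μ := μ) (s := range M ×ˢ range M)
    (f := fun p : ℕ × ℕ => (((M : ℝ)⁻¹) ^ 2 * (((β ^ p.1 * (β ^ p.2)⁻¹ : Circle) : ℂ)).re) •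
        fun x => g (T^[p.1] x) * g (T^[p.2] x))
    (fun p _ => (int_prod hT hg hg1 p.1 p.2).smul _) (MeasurableSpace.invariants T)
  refine h1.trans ?_
  have h2 : ∀ p : ℕ × ℕ, μ[(((M : ℝ)⁻¹) ^ 2 * (((β ^ p.1 * (β ^ p.2)⁻¹ : Circle) : ℂ)).re) •
        fun x => g (T^[p.1] x) * g (T^[p.2] x) | MeasurableSpace.invariants T] =ᵐ[μ]
      (((M : ℝ)⁻¹) ^ 2 * (((β ^ p.1 * (β ^ p.2)⁻¹ : Circle) : ℂ)).re) •
        gam μ T g (MRec.hd p.1 p.2) := by
    intro p
    refine (condExp_smul _ _ _).trans ?_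
    filter_upwards [hc p.1 p.2] with x hx
    rw [Pi.smul_apply, Pi.smul_apply, hx]
  have h3 : ∀ᵐ x ∂μ, ∀ p : ℕ × ℕ,
      (μ[(((M : ℝ)⁻¹) ^ 2 * (((β ^ p.1 * (β ^ p.2)⁻¹ : Circle) : ℂ)).re) •
        fun x => g (T^[p.1] x) * g (T^[p.2] x) | MeasurableSpace.invariants T]) x =
      ((((M : ℝ)⁻¹) ^ 2 * (((β ^ p.1 * (β ^ p.2)⁻¹ : Circle) : ℂ)).re) •
        gam μ T g (MRec.hd p.1 p.2)) x := ae_all_iff.mpr h2
  filter_upwards [h3] with x hx
  rw [Finset.sum_apply, Finset.sum_apply]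
  exact Finset.sum_congr rfl fun p _ => hx p

theorem condExp_it {μ : Measure Ω} [IsProbabilityMeasure μ] {T : Ω → Ω}
    (hT : MeasurePreserving T μ μ)
    (hc : ∀ F : Ω → ℝ, Integrable F μ → μ[fun x => F (T x) | MeasurableSpace.invariants T]
      =ᵐ[μ] μ[F | MeasurableSpace.invariants T]) (F : Ω → ℝ) (hF : Integrable F μ) (k : ℕ) :
    Integrable (fun x => F (T^[k] x)) μ ∧
    μ[fun x => F (T^[k] x) | MeasurableSpace.invariants T]
      =ᵐ[μ] μ[F | MeasurableSpace.invariants T] := by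
  refine ⟨(hT.iterate k).integrable_comp_of_integrable hF, ?_⟩
  induction k with
  | zero => exact Filter.EventuallyEq.rfl
  | succ k ih =>
    have h1 := hc (fun x => F (T^[k] x)) ((hT.iterate k).integrable_comp_of_integrable hF)
    exact h1.trans ih

end POS_

open POS_ in
theorem p_POS (h_CEX : T_CEX.{u}) : T_POS.{u} := by
  intro Ω _ μ _ T hT g hg hg1
  obtain ⟨c1, c2⟩ := h_CEX Ω μ T hT
  obtain ⟨c3, c4, c5⟩ := c2 g hg hg1
  obtain ⟨D, hDc, hDd⟩ := TopologicalSpace.exists_countable_dense Circle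
  -- the two inequalities for fixed data
  have k1 : ∀ (M : ℕ) (β : Circle), ∀ᵐ x ∂μ, 0 ≤ SS (fun h => gam μ T g h x) M β := by
    intro M β
    have h1 := condExp_mono (m := MeasurableSpace.invariants T) (integrable_zero Ω ℝ μ)
      (int_qf hT hg hg1 M β)
      (Filter.Eventually.of_forall fun x => qf_nonneg (fun n => g (T^[n] x)) M β)
    filter_upwards [h1, condExp_qf hT hg hg1 c3 M β] with x hx hx2
    rw [← hx2]
    refine le_trans (le_of_eq ?_) hx
    rw [condExp_zero]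
    rfl
  have k2 : ∀ (M : ℕ) (β : Circle), ∀ᵐ x ∂μ, SS (fun h => gam μ T g h x) (2 * M) β ≤
      SS (fun h => gam μ T g h x) M β := by
    intro M β
    obtain ⟨i1, e1⟩ := condExp_it hT c1 (fun x => qf (fun n => g (T^[n] x)) M β)
      (int_qf hT hg hg1 M β) M
    have i2 : Integrable ((1 / 2 : ℝ) • ((fun x => qf (fun n => g (T^[n] x)) M β) +
        fun x => qf (fun n => g (T^[n] (T^[M] x))) M β)) μ :=
      ((int_qf hT hg hg1 M β).add i1).smul _
    have h1 := condExp_mono (m := MeasurableSpace.invariants T)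
      (int_qf hT hg hg1 (2 * M) β) i2
      (Filter.Eventually.of_forall fun x => by
        have h2 := qf_double (fun n => g (T^[n] x)) M β
        simp only [Function.iterate_add_apply] at h2
        exact h2)
    filter_upwards [h1, condExp_qf hT hg hg1 c3 M β, condExp_qf hT hg hg1 c3 (2 * M) β, e1,
      condExp_smul (μ := μ) (1 / 2 : ℝ) ((fun x => qf (fun n => g (T^[n] x)) M β) +
        fun x => qf (fun n => g (T^[n] (T^[M] x))) M β) (MeasurableSpace.invariants T),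
      condExp_add (m := MeasurableSpace.invariants T) (int_qf hT hg hg1 M β) i1] with
      x hx hx2 hx3 hx4 hx5 hx6
    rw [hx3, hx5, Pi.smul_apply, hx6, Pi.add_apply, hx4, hx2, smul_eq_mul] at hx
    linarith
  -- the good set
  let G : Set Ω := {x | (∀ h, |gam μ T g h x| ≤ 1) ∧ ∀ M : ℕ, ∀ β ∈ D,
    0 ≤ SS (fun h => gam μ T g h x) M β ∧
      SS (fun h => gam μ T g h x) (2 * M) β ≤ SS (fun h => gam μ T g h x) M β}
  have hSS : ∀ (M : ℕ) (β : Circle), Measurable[MeasurableSpace.invariants T]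
      fun x => SS (fun h => gam μ T g h x) M β := by
    intro M β
    rw [SS_fun]
    rw [show (∑ p ∈ range M ×ˢ range M,
        (((M : ℝ)⁻¹) ^ 2 * (((β ^ p.1 * (β ^ p.2)⁻¹ : Circle) : ℂ)).re) •
          gam μ T g (MRec.hd p.1 p.2)) = fun x => ∑ p ∈ range M ×ˢ range M,
        ((((M : ℝ)⁻¹) ^ 2 * (((β ^ p.1 * (β ^ p.2)⁻¹ : Circle) : ℂ)).re) •
          gam μ T g (MRec.hd p.1 p.2)) x from by
      funext x
      rw [Finset.sum_apply]]
    refine @Finset.measurable_sum _ _ _ _ _ _ (MeasurableSpace.invariants T) _ _ fun p _ => ?_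
    exact (c5 _).1.const_smul _
  have hG : MeasurableSet[MeasurableSpace.invariants T] G := by
    have e : G = (⋂ h, {x | |gam μ T g h x| ≤ 1}) ∩ ⋂ M : ℕ, ⋂ β ∈ D,
        ({x | 0 ≤ SS (fun h => gam μ T g h x) M β} ∩
          {x | SS (fun h => gam μ T g h x) (2 * M) β ≤ SS (fun h => gam μ T g h x) M β}) := by
      ext x
      simp only [G, Set.mem_ofPred_eq, Set.mem_inter_iff, Set.mem_iInter]
    rw [e]
    refine MeasurableSet.inter (MeasurableSet.iInter fun h => ?_)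
      (MeasurableSet.iInter fun M => MeasurableSet.biInter hDc fun β _ => MeasurableSet.inter ?_ ?_)
    · exact @measurableSet_le _ _ _ _ _ (MeasurableSpace.invariants T) _ _ _ _ _
        (continuous_abs.measurable.comp (c5 h).1) measurable_const
    · exact @measurableSet_le _ _ _ _ _ (MeasurableSpace.invariants T) _ _ _ _ _
        measurable_const (hSS M β)
    · exact @measurableSet_le _ _ _ _ _ (MeasurableSpace.invariants T) _ _ _ _ _
        (hSS (2 * M) β) (hSS M β)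
  have hGae : ∀ᵐ x ∂μ, x ∈ G := by
    have a1 : ∀ᵐ x ∂μ, ∀ h, |gam μ T g h x| ≤ 1 := ae_all_iff.mpr c4
    have a2 : ∀ᵐ x ∂μ, ∀ M : ℕ, ∀ β ∈ D, 0 ≤ SS (fun h => gam μ T g h x) M β ∧
        SS (fun h => gam μ T g h x) (2 * M) β ≤ SS (fun h => gam μ T g h x) M β := by
      rw [ae_all_iff]
      intro M
      rw [ae_ball_iff hDc]
      intro β _
      exact (k1 M β).and (k2 M β)
    filter_upwards [a1, a2] with x h1 h2
    exact ⟨h1, h2⟩
  refine ⟨fun h => G.indicator (gam μ T g h), fun h => (c5 h).1.indicator hG, fun h => ?_,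
    fun h x => ?_, fun x M β => ?_⟩
  · filter_upwards [hGae] with x hx
    exact Set.indicator_of_mem hx _
  · change |G.indicator (gam μ T g h) x| ≤ 1
    by_cases hx : x ∈ G
    · rw [Set.indicator_of_mem hx]
      exact hx.1 h
    · rw [Set.indicator_of_notMem hx]
      simp
  · by_cases hx : x ∈ G
    · have e : (fun h => G.indicator (gam μ T g h) x) = fun h => gam μ T g h x := by
        funext h
        exact Set.indicator_of_mem hx _
      rw [e]
      have cl : IsClosed {β : Circle | 0 ≤ SS (fun h => gam μ T g h x) M β ∧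
          SS (fun h => gam μ T g h x) (2 * M) β ≤ SS (fun h => gam μ T g h x) M β} :=
        (isClosed_le continuous_const (continuous_SS _ M)).inter
          (isClosed_le (continuous_SS _ (2 * M)) (continuous_SS _ M))
      have := cl.closure_subset_iff.mpr (fun β hβ => hx.2 M β hβ)
      rw [hDd.closure_eq] at this
      exact this (Set.mem_univ β)
    · have e : (fun h => G.indicator (gam μ T g h) x) = fun _ => 0 := by
        funext h
        exact Set.indicator_of_notMem hx _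
      rw [e, SS_zero, SS_zero]
      exact ⟨le_refl _, le_refl _⟩

end Pool.Agent.FSP
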