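import Pool.Agent.FSP.Targets

set_option autoImplicit false

open MeasureTheory Filter Topology Finset

namespace Pool.Agent.FSP

universe u

namespace PRO_

/-- Clipping to the unit interval. -/
noncomputable def clip (t : ℝ) : ℝ := max 0 (min t 1)

theorem clip_lip : LipschitzWith 1 clip := by
  refine LipschitzWith.of_dist_le_mul fun x y => ?_
  rw [NNReal.coe_one, one_mul, Real.dist_eq, Real.dist_eq]
  unfold clip
  rcases le_total x 0 with hx | hx <;> rcases le_total y 0 with hy | hy <;>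
    rcases le_total x 1 with hx1 | hx1 <;> rcases le_total y 1 with hy1 | hy1 <;>
    simp only [min_eq_left hx1, min_eq_left hy1, min_eq_right hx1, min_eq_right hy1,
      max_eq_left hx, max_eq_left hy, max_eq_right hx, max_eq_right hy,
      max_eq_right (zero_le_one' ℝ)] <;>
    rcases abs_cases (x - y) with ⟨h, _⟩ | ⟨h, _⟩ <;> rw [h] <;>
    (rw [abs_le]; constructor <;> linarith)

theorem clip_zero : clip 0 = 0 := by
  unfold clip
  norm_num

theorem clip_mem (t : ℝ) : 0 ≤ clip t ∧ clip t ≤ 1 := by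
  unfold clip
  exact ⟨le_max_left _ _, max_le zero_le_one (min_le_right _ _)⟩

theorem clip_id {t : ℝ} (h0 : 0 ≤ t) (h1 : t ≤ 1) : clip t = t := by
  unfold clip
  rw [min_eq_left h1, max_eq_right h0]

end PRO_

open PRO_ in
theorem p_PRO : T_PRO.{u} := by
  intro Ω _ μ _ K hK hclip f hf
  have hc : CompleteSpace K := hK.completeSpace_coe
  set c₀ : Lp ℝ 2 μ := K.starProjection f with hc0
  have hc0K : c₀ ∈ K := K.starProjection_apply_mem f
  have horth : ∀ h ∈ K, inner ℝ (f - c₀) h = 0 := by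
    intro h hh
    rw [real_inner_comm]
    exact K.inner_right_of_mem_orthogonal hh (K.sub_starProjection_mem_orthogonal f)
  set c₁ : Lp ℝ 2 μ := clip_lip.compLp clip_zero c₀ with hc1
  have hae : c₁ =ᵐ[μ] clip ∘ c₀ := clip_lip.coeFn_compLp clip_zero c₀
  have hc1K : c₁ ∈ K := hclip c₀ hc0K c₁ hae
  have hle : ‖f - c₁‖ ≤ ‖f - c₀‖ := by
    refine Lp.norm_le_norm_of_ae_le ?_
    filter_upwards [Lp.coeFn_sub f c₁, Lp.coeFn_sub f c₀, hae, hf] with x h1 h2 h3 h4
    rw [h1, h2, Pi.sub_apply, Pi.sub_apply, h3]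
    have h5 := clip_lip.dist_le_mul (f x) (c₀ x)
    rw [NNReal.coe_one, one_mul, clip_id h4.1 h4.2, dist_eq_norm, dist_eq_norm] at h5
    exact h5
  have hpy : ‖f - c₁‖ ^ 2 = ‖f - c₀‖ ^ 2 + ‖c₀ - c₁‖ ^ 2 := by
    have e : f - c₁ = (f - c₀) + (c₀ - c₁) := by abel
    rw [e, norm_add_sq_real, horth _ (K.sub_mem hc0K hc1K)]
    ring
  have h0 : ‖c₀ - c₁‖ = 0 := by
    have h1 : ‖f - c₁‖ ^ 2 ≤ ‖f - c₀‖ ^ 2 := by gcongr
    have h2 : ‖c₀ - c₁‖ ^ 2 ≤ 0 := by linarith
    have h3 : ‖c₀ - c₁‖ ^ 2 = 0 := le_antisymm h2 (sq_nonneg _)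
    exact pow_eq_zero_iff (two_ne_zero) |>.1 h3
  have heq : c₀ = c₁ := sub_eq_zero.1 (norm_eq_zero.1 h0)
  refine ⟨c₀, hc0K, ?_, horth⟩
  filter_upwards [hae] with x hx
  rw [← heq] at hx
  rw [hx]
  exact clip_mem _

end Pool.Agent.FSP
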