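import Pool.Agent.FSP.Targets

set_option autoImplicit false
set_option linter.unusedVariables false

/-! Target REC of the project FSP: assembly. -/

open MeasureTheory Filter Topology Finset

namespace Pool.Agent.FSP

universe u

open Pool.Agent.MRec

namespace REC_

theorem one_nonneg' {Ω : Type u} (X : Set Ω) (x : Ω) : 0 ≤ one X x := by
  unfold one
  exact Set.indicator_nonneg (fun _ _ => zero_le_one) x

theorem one_le' {Ω : Type u} (X : Set Ω) (x : Ω) : one X x ≤ 1 := by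
  unfold one
  exact Set.indicator_le_self' (fun _ _ => zero_le_one) x

theorem one_meas {Ω : Type u} [MeasurableSpace Ω] {X : Set Ω} (hX : MeasurableSet X) :
    Measurable (one X) := measurable_const.indicator hX

theorem mem_of_one {Ω : Type u} {X : Set Ω} {x : Ω} (h : one X x ≠ 0) : x ∈ X := by
  by_contra hcon
  exact h (by unfold one; simp [hcon])

theorem bohr_meas {Ω : Type u} [MeasurableSpace Ω] {d : ℕ} {τ : Fin d → Ω → Circle}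
    (hτ : ∀ l, Measurable (τ l)) (ρ : ℝ) (n : ℕ) : MeasurableSet (bohr τ ρ n) := by
  have h1 : bohr τ ρ n = ⋂ l, {x | ‖(τ l x : ℂ) ^ n - 1‖ ≤ ρ} := by
    ext x
    simp [bohr]
  rw [h1]
  apply MeasurableSet.iInter
  intro l
  have h2 : Continuous fun z : Circle => ‖(z : ℂ) ^ n - 1‖ :=
    ((continuous_induced_dom.pow n).sub continuous_const).norm
  exact measurableSet_le (h2.measurable.comp (hτ l)) measurable_const

end REC_

open REC_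

theorem p_REC (h_DEC : T_DEC.{u}) (h_ORT : T_ORT.{u}) (h_RWM : T_RWM.{u}) (h_COR : T_COR.{u})
    (h_DIC : T_DIC.{u}) (h_CHR : T_CHR.{u}) (h_CTL : T_CTL.{u}) (h_NWA : T_NWA.{u})
    (h_NWB : T_NWB.{u}) (h_NWC : T_NWC.{u}) (h_NWD : T_NWD.{u}) (h_AME : T_AME.{u}) :
    T_REC.{u} := by
  intro Ω _ μ _ Q Q' B P S₁ S₂ hQ hQ' hQQ hQQ' hBP hS₁ hS₂ Z A hZ hZQ hA hAZ k θ Λ hfin
  obtain ⟨hΛ, hθm, hθQ, hfin⟩ := hfin
  set F : Set (Ω → Circle) := freq θ Λ with hF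
  have hFm : ∀ φ ∈ F, Measurable φ ∧ ∀ x, φ (Q x) = φ x := by
    intro φ hφ
    rcases hφ with ⟨j, rfl⟩ | ⟨ζ, -, rfl⟩
    · exact ⟨hθm j, hθQ j⟩
    · exact ⟨measurable_const, fun _ => rfl⟩
  obtain ⟨c, g, hcm, hgm, hc0, hc1, hg1, hfcg, hgZ, hp, hort, γ, hγ, hA₀⟩ :=
    h_DEC Ω μ Q hQ Z F hZ hZQ hFm A hA hAZ
  have hRW : RWM μ Q g := by
    apply h_RWM Ω μ Q hQ g hgm hg1
    intro v lam hv hlam hlQ hvl hv2
    exact h_ORT Ω μ Q hQ Z k θ Λ hZ hZQ hΛ hθm hθQ g hgm hg1 hgZ hort v lam hv hlam hlQ hvl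
      (hfin v lam hv hlam hlQ hvl) hv2
  obtain ⟨κ, hκi, hκ4, hκ5⟩ := h_COR Ω μ Q Q' B P hQ hQ' hQQ hQQ' hBP g hgm hg1 hRW
  have hA₀m : MeasurableSet {x | x ∈ A ∩ Z ∧ γ ≤ c x} :=
    (hA.inter hZ).inter (measurableSet_le measurable_const hcm)
  obtain ⟨X, hXA, hX, hX0, q₀, hq₀, hdic⟩ :=
    h_DIC Ω μ S₁ S₂ k θ {x | x ∈ A ∩ Z ∧ γ ≤ c x} hA₀m hA₀
  have hXr : 0 < μ.real X := by
    rw [measureReal_def]; exact ENNReal.toReal_pos hX0 (measure_ne_top μ X)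
  set δ : ℝ := μ.real X / 12 with hδ
  have hδ0 : 0 < δ := by positivity
  set ε : ℝ := γ * δ ^ 2 * μ.real X / 27 with hε
  have hε0 : 0 < ε := by positivity
  have hεlt : 26 * ε < γ * δ ^ 2 * μ.real X := by
    have : 0 < γ * δ ^ 2 * μ.real X := by positivity
    rw [hε]; linarith
  obtain ⟨p, hpm, hp0, hp1, hcp, hAP⟩ := hp ε hε0
  obtain ⟨q₁, hq₁, ρ, hρ, d, τ, hτF, hτ⟩ := hAP
  have hτm : ∀ l, Measurable (τ l) := fun l => (hFm _ (hτF l)).1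
  have hτQ : ∀ l x, τ l (Q x) = τ l x := fun l => (hFm _ (hτF l)).2
  have hτQ' : ∀ l x, τ l (Q' x) = τ l x := by
    intro l x
    have := hτQ l (Q' x)
    rw [hQQ' x] at this
    exact this.symm
  set q : ℕ := q₀ * q₁ with hq
  have hq1 : 1 ≤ q := Nat.mul_pos hq₀ hq₁
  have hq₀r : (0 : ℝ) < q₀ := by exact_mod_cast hq₀
  set ρ' : ℝ := ρ / q₀ with hρ'
  have hρ'0 : 0 < ρ' := by positivity
  obtain ⟨m₀, hm₀⟩ := exists_nat_gt ((d : ℝ) * 4 / (ρ' ^ 2 * ε))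
  set m : ℕ := m₀ + 1 with hm
  have hm1 : 1 ≤ m := by omega
  have hmr : (0 : ℝ) < m := by exact_mod_cast hm1
  have htail : (d : ℝ) * (4 / (m * ρ' ^ 2)) ≤ ε := by
    have h1 : (d : ℝ) * 4 / (ρ' ^ 2 * ε) ≤ m := by
      refine hm₀.le.trans ?_
      rw [hm]; push_cast; linarith
    rw [div_le_iff₀ (by positivity)] at h1
    rw [mul_div_assoc', div_le_iff₀ (by positivity)]
    linarith
  obtain ⟨hnw, hnwm, hchr, hkwm, hkum, hnwinv⟩ := h_NWA Ω q m d τ hq1 hm1 hτm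
  set w : Ω → ℕ → ℝ := nw q m τ with hw
  set E : ℕ → Set Ω := fun n => {x | q ∣ n ∧ x ∈ bohr τ ρ' (n / q)} with hE
  have hEm : ∀ n, MeasurableSet (E n) := by
    intro n
    by_cases hn : q ∣ n
    · have h1 : E n = bohr τ ρ' (n / q) := by
        ext x; simp [hE, hn]
      rw [h1]
      exact bohr_meas hτm _ _
    · have h1 : E n = ∅ := by
        ext x; simp [hE, hn]
      rw [h1]
      exact MeasurableSet.empty
  have hcomm : ∀ x, B (P x) = P (B x) := by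
    rcases hBP with ⟨rfl, rfl⟩ | ⟨rfl, rfl⟩
    · intro x; rfl
    · intro x; simp only [Function.comp, hQQ, hQQ']
  have hBmp : MeasurePreserving B μ μ := by
    rcases hBP with ⟨rfl, rfl⟩ | ⟨rfl, rfl⟩
    · exact hQ
    · exact hQ.comp hQ
  have hPmp : MeasurePreserving P μ μ := by
    rcases hBP with ⟨rfl, rfl⟩ | ⟨rfl, rfl⟩
    · exact hQ
    · exact hQ'
  have hτB : ∀ l x, τ l (B x) = τ l x := by
    rcases hBP with ⟨rfl, rfl⟩ | ⟨rfl, rfl⟩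
    · exact hτQ
    · intro l x; simp only [Function.comp, hτQ]
  have hτP : ∀ l x, τ l (P x) = τ l x := by
    rcases hBP with ⟨rfl, rfl⟩ | ⟨rfl, rfl⟩
    · exact hτQ
    · exact hτQ'
  have hEP : ∀ n x, P x ∈ E n ↔ x ∈ E n := by
    intro n x
    simp only [hE, bohr, Set.mem_setOf_eq, hτP]
  have hdich : ∀ S : Ω → Ω, (∀ α : Fin k → ℤ, OrbC μ S^[q] (fun x => ∏ j, θ j x ^ α j) X ∨
      NoC μ S^[q] (fun x => ∏ j, θ j x ^ α j) X) →
      ∀ pp : Fin d → Fin m × Fin m, OrbC μ S^[q] (chr τ pp) X ∨ NoC μ S^[q] (chr τ pp) X := by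
    intro S hS pp
    exact h_CHR Ω μ S^[q] k θ Λ X m d τ hτF hS pp
  have hS1 := h_NWD Ω μ S₁ hS₁ q m d τ X hq1 hm1 hτm hX
    (hdich S₁ fun α => (hdic q hq1 (Dvd.intro q₁ rfl) α).1) δ hδ0
  have hS2 := h_NWD Ω μ S₂ hS₂ q m d τ X hq1 hm1 hτm hX
    (hdich S₂ fun α => (hdic q hq1 (Dvd.intro q₁ rfl) α).2) δ hδ0
  have h3δ : 3 * δ = μ.real X / 4 := by rw [hδ]; ring
  rw [h3δ] at hS1 hS2
  have hav := h_NWB Ω μ q m d τ hq1 hm1 hτm
  have htl : ∃ N₀ : ℕ, ∀ N ≥ N₀, q ∣ N → ∀ s : ℕ,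
      ∫ x, wm (fun x n => w x n * one (E n)ᶜ x) N s x ∂μ ≤ 2 * ε := by
    obtain ⟨N₀, hN₀⟩ := h_NWC Ω μ q m d τ hq1 hm1 hτm ρ' hρ'0 ε hε0
    refine ⟨N₀, fun N hN hqN s => ?_⟩
    have h1 := hN₀ N hN hqN s
    have h2 : (fun x n => w x n * one (E n)ᶜ x)
        = fun x n => nw q m τ x n * one {y | y ∉ bohr τ ρ' (n / q)} x := by
      funext x n
      by_cases hn : q ∣ n
      · congr 1
        have h3 : (E n)ᶜ = {y | y ∉ bohr τ ρ' (n / q)} := by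
          ext y; simp [hE, hn]
        rw [h3]
      · have h3 : w x n = 0 := by
          rw [hw]; unfold nw; rw [if_neg hn]
        have h4 : nw q m τ x n = 0 := h3
        rw [h3, h4, zero_mul, zero_mul]
    rw [h2]
    linarith
  have hctl := h_CTL Ω μ Q Q' B P hQ hQ' hQQ hQQ' hBP d τ hτQ p hpm ε ρ q₀ q₁ hε0.le hρ hq₀ hq₁ hτ
  have hmain := h_AME Ω μ B P S₁ S₂ hBmp hPmp hcomm hS₁.measurable hS₂.measurable X A hX hA
    (one (A ∩ Z)) c p g (one_meas (hA.inter hZ)) (one_nonneg' _) (one_le' _)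
    (fun x hx => (mem_of_one hx).1) hcm hc0 hc1 hpm hp0 hp1 hgm hg1 hfcg w (q * (m : ℝ) ^ d)
    hnwm (fun x n => (hnw x n).1) (fun x n => (hnw x n).2)
    (fun x n => hnwinv B x n fun l => hτB l x) (fun x n => hnwinv P x n fun l => hτP l x)
    E hEm hEP q ε hq1 hε0 hcp hctl hav htl κ hκi hκ4 hκ5 γ δ hγ hδ0
    (fun x hx => (hXA hx).2) hS1 hS2 hεlt
  intro N₁
  obtain ⟨N, hN, hN0, hmainN⟩ := hmain N₁
  refine ⟨N, hN, hN0, fun s s' => ?_⟩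
  obtain ⟨i, hi, j, hj, hij⟩ := hmainN s s'
  refine ⟨i, hi, j, hj, fun h0 => hij ?_⟩
  refine measure_mono_null ?_ h0
  have hXA' : X ⊆ A := fun x hx => (hXA hx).1.1
  intro x hx
  obtain ⟨⟨⟨x1, x2⟩, x3⟩, x4⟩ := hx
  exact ⟨⟨⟨hXA' x1, x2⟩, hXA' x3⟩, hXA' x4⟩

end Pool.Agent.FSP
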