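import Pool.Agent.FSP.Targets

set_option autoImplicit false

/-!
# FSP: failure of relative weak mixing gives a character
-/

open MeasureTheory Filter Topology Finset

namespace Pool.Agent.FSP

universe u

namespace RWA_

theorem exists_exp (β : Circle) : ∃ t ∈ Set.Icc (0 : ℝ) 1, Circle.exp (2 * Real.pi * t) = β := by
  set s : ℝ := (β : ℂ).arg / (2 * Real.pi) with hs
  refine ⟨Int.fract s, ⟨Int.fract_nonneg s, (Int.fract_lt_one s).le⟩, ?_⟩
  have h1 : Circle.exp (2 * Real.pi * Int.fract s) = Circle.exp (β : ℂ).arg := by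
    rw [Circle.exp_eq_exp]
    refine ⟨-⌊s⌋, ?_⟩
    have h2 : Int.fract s = s - ⌊s⌋ := rfl
    have h3 : (β : ℂ).arg = 2 * Real.pi * s := by
      rw [hs]
      field_simp
    rw [h3, h2]
    push_cast
    ring
  rw [h1, Circle.exp_arg]

/-- The kernel of `SS`. -/
noncomputable def ck (n n' : ℕ) (β : Circle) : ℝ := ((β ^ n * (β ^ n')⁻¹ : Circle) : ℂ).re

theorem SS_eq (γ : ℕ → ℝ) (M : ℕ) (β : Circle) : SS γ M β = ((M : ℝ)⁻¹) ^ 2 *
    ∑ n ∈ range M, ∑ n' ∈ range M, γ (Pool.Agent.MRec.hd n n') * ck n n' β := rfl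

theorem ck_le (n n' : ℕ) (β : Circle) : |ck n n' β| ≤ 1 := by
  refine (Complex.abs_re_le_norm _).trans ?_
  rw [Circle.norm_coe]

theorem ck_cont (n n' : ℕ) : Continuous (ck n n') := by
  unfold ck
  fun_prop

theorem abs_SS_le {γ : ℕ → ℝ} (hγ : ∀ h, |γ h| ≤ 1) {M : ℕ} (hM : 0 < M) (β : Circle) :
    |SS γ M β| ≤ 1 := by
  have hM' : (0 : ℝ) < M := by exact_mod_cast hM
  rw [SS_eq, abs_mul, abs_of_nonneg (by positivity : (0 : ℝ) ≤ ((M : ℝ)⁻¹) ^ 2)]
  have h1 : |∑ n ∈ range M, ∑ n' ∈ range M, γ (Pool.Agent.MRec.hd n n') * ck n n' β| ≤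
      (M : ℝ) * M := by
    calc |∑ n ∈ range M, ∑ n' ∈ range M, γ (Pool.Agent.MRec.hd n n') * ck n n' β|
        ≤ ∑ n ∈ range M, ∑ n' ∈ range M, |γ (Pool.Agent.MRec.hd n n') * ck n n' β| :=
          (abs_sum_le_sum_abs _ _).trans (sum_le_sum fun n _ => abs_sum_le_sum_abs _ _)
      _ ≤ ∑ _n ∈ range M, ∑ _n' ∈ range M, (1 : ℝ) := by
          refine sum_le_sum fun n _ => sum_le_sum fun n' _ => ?_
          rw [abs_mul]
          exact mul_le_one₀ (hγ _) (abs_nonneg _) (ck_le _ _ _)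
      _ = (M : ℝ) * M := by simp
  calc ((M : ℝ)⁻¹) ^ 2 * |∑ n ∈ range M, ∑ n' ∈ range M,
        γ (Pool.Agent.MRec.hd n n') * ck n n' β| ≤ ((M : ℝ)⁻¹) ^ 2 * ((M : ℝ) * M) :=
        mul_le_mul_of_nonneg_left h1 (by positivity)
    _ = 1 := by field_simp

theorem SS_cont (γ : ℕ → ℝ) (M : ℕ) : Continuous fun β => SS γ M β := by
  simp only [SS_eq]
  refine continuous_const.mul (continuous_finsetSum _ fun n _ => continuous_finsetSum _ fun n' _ =>
    continuous_const.mul (ck_cont n n'))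

theorem SS_cont_exp (γ : ℕ → ℝ) (M : ℕ) :
    Continuous fun t : ℝ => SS γ M (Circle.exp (2 * Real.pi * t)) := by
  have hc : Continuous fun t : ℝ => Circle.exp (2 * Real.pi * t) :=
    Circle.exp.continuous.comp (continuous_const.mul continuous_id)
  exact (SS_cont γ M).comp hc

theorem SS_meas {Ω : Type u} [MeasurableSpace Ω] {γ : ℕ → Ω → ℝ} (hγ : ∀ h, Measurable (γ h))
    (M : ℕ) {ψ : Ω → ℝ} (hψ : Measurable ψ) :
    Measurable fun x => SS (fun h => γ h x) M (Circle.exp (2 * Real.pi * ψ x)) := by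
  simp only [SS_eq]
  refine measurable_const.mul (Finset.measurable_fun_sum _ fun n _ =>
    Finset.measurable_fun_sum _ fun n' _ => (hγ _).mul ?_)
  have hc : Continuous fun t : ℝ => ck n n' (Circle.exp (2 * Real.pi * t)) :=
    (ck_cont n n').comp (Circle.exp.continuous.comp (continuous_const.mul continuous_id))
  exact hc.measurable.comp hψ

end RWA_

open RWA_ in
/-- RWA. -/
theorem p_RWA (h_POS : T_POS.{u}) (h_PAR : T_PAR) (h_SEL : T_SEL.{u}) : T_RWA.{u} := by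
  intro Ω mΩ μ _ T hT g hg hg1 hRWM
  obtain ⟨γ, hγm, hγe, hγ1, hγS⟩ := h_POS Ω μ T hT g hg hg1
  have hle : MeasurableSpace.invariants T ≤ mΩ := MeasurableSpace.invariants_le T
  have hγm' : ∀ h, Measurable (γ h) := fun h => (hγm h).mono hle le_rfl
  have hγi : ∀ h, Integrable (γ h) μ := fun h =>
    Integrable.of_bound (hγm' h).aestronglyMeasurable 1 (Eventually.of_forall fun x => by
      rw [Real.norm_eq_abs]; exact hγ1 h x)
  have hγ2i : ∀ h, Integrable (fun x => γ h x ^ 2) μ := fun h =>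
    Integrable.of_bound ((hγm' h).pow_const 2).aestronglyMeasurable 1
      (Eventually.of_forall fun x => by
        rw [Real.norm_eq_abs, abs_pow]
        exact pow_le_one₀ (abs_nonneg _) (hγ1 h x))
  -- the failure of relative weak mixing
  obtain ⟨τ, hτ, hfreq⟩ : ∃ τ : ℝ, 0 < τ ∧ ∀ N : ℕ, ∃ H ≥ N,
      τ ≤ (H : ℝ)⁻¹ * ∑ h ∈ range H, ∫ x, |γ h x| ∂μ := by
    unfold RWM at hRWM
    rw [Metric.tendsto_atTop] at hRWM
    push Not at hRWM
    obtain ⟨τ, hτ, h1⟩ := hRWM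
    refine ⟨τ, hτ, fun N => ?_⟩
    obtain ⟨H, hH, h2⟩ := h1 N
    refine ⟨H, hH, ?_⟩
    have h3 : ∀ h, ∫ x, |gam μ T g h x| ∂μ = ∫ x, |γ h x| ∂μ := fun h =>
      integral_congr_ae ((hγe h).symm.fun_comp fun y => |y|)
    have h4 : 0 ≤ (H : ℝ)⁻¹ * ∑ h ∈ range H, ∫ x, |gam μ T g h x| ∂μ :=
      mul_nonneg (by positivity) (sum_nonneg fun h _ => integral_nonneg fun x => abs_nonneg _)
    rw [Real.dist_eq, sub_zero, abs_of_nonneg h4] at h2
    simpa only [h3] using h2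
  -- selection
  obtain ⟨σ', σ, ψ, hσ'm, hσm, hψm, hG1, hG2, hσσ', hlim, hψ⟩ :=
    @h_SEL Ω (MeasurableSpace.invariants T)
      (fun n x t => SS (fun h => γ h x) (2 ^ n) (Circle.exp (2 * Real.pi * t)))
      (fun n t => @SS_meas Ω (MeasurableSpace.invariants T) γ hγm (2 ^ n) (fun _ => t)
        (@measurable_const _ _ _ (MeasurableSpace.invariants T) _))
      (fun n x => SS_cont_exp _ _)
      (fun n x t => (hγS x (2 ^ n) _).1)
      (fun n x t => by
        have := (hγS x (2 ^ n) (Circle.exp (2 * Real.pi * t))).2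
        rw [pow_succ, mul_comm (2 ^ n) 2]
        exact this)
  have hσ'm' : ∀ n, Measurable (σ' n) := fun n => (hσ'm n).mono hle le_rfl
  have hσm' : Measurable σ := hσm.mono hle le_rfl
  have hψm' : Measurable ψ := hψm.mono hle le_rfl
  have hσ'0 : ∀ n x, 0 ≤ σ' n x := by
    intro n x
    obtain ⟨t, -, ht⟩ := hG2 n x
    rw [ht]
    exact (hγS x (2 ^ n) _).1
  have hσ'1 : ∀ n x, σ' n x ≤ 1 := by
    intro n x
    obtain ⟨t, -, ht⟩ := hG2 n x
    rw [ht]
    exact (le_abs_self _).trans (abs_SS_le (fun h => hγ1 h x) (by positivity) _)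
  have hσ'i : ∀ n, Integrable (σ' n) μ := fun n =>
    Integrable.of_bound (hσ'm' n).aestronglyMeasurable 1 (Eventually.of_forall fun x => by
      rw [Real.norm_eq_abs, abs_of_nonneg (hσ'0 n x)]; exact hσ'1 n x)
  have hanti : ∀ n x, σ' (n + 1) x ≤ σ' n x := by
    intro n x
    obtain ⟨t, ht1, ht⟩ := hG2 (n + 1) x
    rw [ht]
    refine le_trans ?_ (hG1 n x t ht1)
    have := (hγS x (2 ^ n) (Circle.exp (2 * Real.pi * t))).2
    rw [pow_succ, mul_comm (2 ^ n) 2]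
    exact this
  have hanti' : ∀ n m, n ≤ m → ∀ x, σ' m x ≤ σ' n x := by
    intro n m hnm x
    induction m, hnm using Nat.le_induction with
    | base => exact le_rfl
    | succ m _ ih => exact (hanti m x).trans ih
  -- the lower bound for the integrals of `σ'`
  have hlow : ∀ n, τ ^ 2 / 16 ≤ ∫ x, σ' n x ∂μ := by
    intro n
    obtain ⟨H, hH, hHτ⟩ := hfreq (2 ^ n)
    have hH0 : 0 < H := lt_of_lt_of_le (by positivity) hH
    have hH0' : (0 : ℝ) < H := by exact_mod_cast hH0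
    set k := Nat.clog 2 (2 * H) with hk
    have hk1 : 2 * H ≤ 2 ^ k := Nat.le_pow_clog (by norm_num) _
    have hk2 : 2 ^ k.pred < 2 * H := Nat.pow_pred_clog_lt_self (by norm_num) (by omega)
    have hk0 : k ≠ 0 := by
      intro h0
      rw [h0] at hk1
      omega
    have hk3 : 2 ^ k < 4 * H := by
      have h1 : 2 ^ k = 2 * 2 ^ k.pred := by
        have h2 : k = k.pred + 1 := (Nat.succ_pred_eq_of_ne_zero hk0).symm
        calc 2 ^ k = 2 ^ (k.pred + 1) := by rw [← h2]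
          _ = 2 * 2 ^ k.pred := by rw [pow_succ, mul_comm]
      omega
    have hnk : n ≤ k := by
      by_contra hlt
      push Not at hlt
      have h1 : 2 ^ k < 2 ^ n := Nat.pow_lt_pow_right (by norm_num) hlt
      omega
    -- squares
    have hsq : τ ^ 2 ≤ (H : ℝ)⁻¹ * ∑ h ∈ range H, ∫ x, γ h x ^ 2 ∂μ := by
      have h1 : ∀ h, ∫ x, |γ h x| ∂μ ≤ (2 * τ)⁻¹ * (∫ x, γ h x ^ 2 ∂μ) + τ / 2 := by
        intro h
        have h2 : ∫ x, ((2 * τ)⁻¹ * γ h x ^ 2 + τ / 2) ∂μ =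
            (2 * τ)⁻¹ * (∫ x, γ h x ^ 2 ∂μ) + τ / 2 := by
          rw [integral_add ((hγ2i h).const_mul _) (integrable_const _), integral_const_mul]
          simp
        rw [← h2]
        refine integral_mono (hγi h).abs (((hγ2i h).const_mul _).add (integrable_const _)) ?_
        intro x
        show |γ h x| ≤ (2 * τ)⁻¹ * γ h x ^ 2 + τ / 2
        have h3 : (2 * τ)⁻¹ * γ h x ^ 2 + τ / 2 - |γ h x| =
            (2 * τ)⁻¹ * (|γ h x| - τ) ^ 2 := by
          rw [← sq_abs (γ h x)]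
          field_simp
          ring
        have h4 : 0 ≤ (2 * τ)⁻¹ * (|γ h x| - τ) ^ 2 := by positivity
        linarith
      have h5 : τ ≤ (2 * τ)⁻¹ * ((H : ℝ)⁻¹ * ∑ h ∈ range H, ∫ x, γ h x ^ 2 ∂μ) + τ / 2 := by
        calc τ ≤ (H : ℝ)⁻¹ * ∑ h ∈ range H, ∫ x, |γ h x| ∂μ := hHτ
          _ ≤ (H : ℝ)⁻¹ * ∑ h ∈ range H, ((2 * τ)⁻¹ * (∫ x, γ h x ^ 2 ∂μ) + τ / 2) :=
              mul_le_mul_of_nonneg_left (sum_le_sum fun h _ => h1 h) (by positivity)
          _ = _ := by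
              rw [sum_add_distrib, ← mul_sum, sum_const, card_range, nsmul_eq_mul]
              field_simp
      have h6 : τ / 2 ≤ (2 * τ)⁻¹ * ((H : ℝ)⁻¹ * ∑ h ∈ range H, ∫ x, γ h x ^ 2 ∂μ) := by
        linarith
      have h7 : (2 * τ) * (τ / 2) ≤
          (2 * τ) * ((2 * τ)⁻¹ * ((H : ℝ)⁻¹ * ∑ h ∈ range H, ∫ x, γ h x ^ 2 ∂μ)) :=
        mul_le_mul_of_nonneg_left h6 (by positivity)
      rw [mul_inv_cancel_left₀ (by positivity)] at h7
      calc τ ^ 2 = (2 * τ) * (τ / 2) := by ring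
        _ ≤ _ := h7
    -- pointwise
    have hpt : ∀ x, (16 : ℝ)⁻¹ * ((H : ℝ)⁻¹ * ∑ h ∈ range H, γ h x ^ 2) ≤ σ' k x := by
      intro x
      obtain ⟨β, hβ⟩ := h_PAR (fun h => γ h x) (2 ^ k) Nat.one_le_two_pow
        (fun β => (hγS x (2 ^ k) β).1) ((le_abs_self _).trans (hγ1 0 x))
      obtain ⟨t, ht, rfl⟩ := exists_exp β
      refine le_trans ?_ (hβ.trans (hG1 k x t ht))
      have h1 : ∑ h ∈ range H, γ h x ^ 2 ≤ ∑ h ∈ range (2 ^ k / 2 + 1), γ h x ^ 2 := by
        refine sum_le_sum_of_subset_of_nonneg ?_ fun _ _ _ => sq_nonneg _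
        intro h hh
        rw [mem_range] at hh ⊢
        omega
      have h2 : (0 : ℝ) ≤ ∑ h ∈ range H, γ h x ^ 2 := sum_nonneg fun _ _ => sq_nonneg _
      have h3 : ((2 ^ k : ℕ) : ℝ) ≤ 4 * H := by exact_mod_cast hk3.le
      have h4 : (16 * (H : ℝ))⁻¹ ≤ (4 * ((2 ^ k : ℕ) : ℝ))⁻¹ := by
        apply inv_anti₀
        · positivity
        · linarith
      calc (16 : ℝ)⁻¹ * ((H : ℝ)⁻¹ * ∑ h ∈ range H, γ h x ^ 2)
          = (16 * (H : ℝ))⁻¹ * ∑ h ∈ range H, γ h x ^ 2 := by rw [mul_inv]; ring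
        _ ≤ (4 * ((2 ^ k : ℕ) : ℝ))⁻¹ * ∑ h ∈ range (2 ^ k / 2 + 1), γ h x ^ 2 :=
            mul_le_mul h4 h1 h2 (by positivity)
    have hint : ∫ x, (16 : ℝ)⁻¹ * ((H : ℝ)⁻¹ * ∑ h ∈ range H, γ h x ^ 2) ∂μ ≤
        ∫ x, σ' k x ∂μ := by
      refine integral_mono ?_ (hσ'i k) hpt
      exact ((integrable_finsetSum _ fun h _ => hγ2i h).const_mul _).const_mul _
    rw [integral_const_mul, integral_const_mul, integral_finsetSum _ fun h _ => hγ2i h] at hint
    have hmono : ∫ x, σ' k x ∂μ ≤ ∫ x, σ' n x ∂μ :=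
      integral_mono (hσ'i k) (hσ'i n) (hanti' n k hnk)
    linarith
  -- the limit
  have hσ0 : ∀ x, 0 ≤ σ x := fun x =>
    ge_of_tendsto (hlim x) (Eventually.of_forall fun n => hσ'0 n x)
  have hσi : Integrable σ μ :=
    Integrable.of_bound hσm'.aestronglyMeasurable 1 (Eventually.of_forall fun x => by
      rw [Real.norm_eq_abs, abs_of_nonneg (hσ0 x)]
      exact (hσσ' 0 x).trans (hσ'1 0 x))
  have hσint : τ ^ 2 / 16 ≤ ∫ x, σ x ∂μ := by
    have hd : Tendsto (fun n => ∫ x, σ' n x ∂μ) atTop (𝓝 (∫ x, σ x ∂μ)) := by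
      refine tendsto_integral_of_dominated_convergence (fun _ => (1 : ℝ))
        (fun n => (hσ'm' n).aestronglyMeasurable) (integrable_const _) ?_ ?_
      · intro n
        exact Eventually.of_forall fun x => by
          rw [Real.norm_eq_abs, abs_of_nonneg (hσ'0 n x)]; exact hσ'1 n x
      · exact Eventually.of_forall fun x => hlim x
    exact ge_of_tendsto hd (Eventually.of_forall hlow)
  -- the character
  refine ⟨τ ^ 2 / 32, fun x => Circle.exp (2 * Real.pi * ψ x), by positivity, ?_, ?_, ?_⟩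
  · have hc : Continuous fun t : ℝ => Circle.exp (2 * Real.pi * t) :=
      Circle.exp.continuous.comp (continuous_const.mul continuous_id)
    exact hc.measurable.comp hψm'
  · intro x
    have h1 : ψ ∘ T = ψ := MeasurableSpace.comp_eq_of_measurable_invariants hψm
    have h2 : ψ (T x) = ψ x := congrFun h1 x
    show Circle.exp (2 * Real.pi * ψ (T x)) = _
    rw [h2]
  · intro n
    have h1 : ∫ x, SS (fun h => gam μ T g h x) (2 ^ n) (Circle.exp (2 * Real.pi * ψ x)) ∂μ =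
        ∫ x, SS (fun h => γ h x) (2 ^ n) (Circle.exp (2 * Real.pi * ψ x)) ∂μ := by
      refine integral_congr_ae ?_
      have h2 : ∀ᵐ x ∂μ, ∀ h, γ h x = gam μ T g h x := ae_all_iff.2 hγe
      filter_upwards [h2] with x hx
      simp only [hx]
    rw [h1]
    have h3 : ∫ x, σ x / 2 ∂μ ≤
        ∫ x, SS (fun h => γ h x) (2 ^ n) (Circle.exp (2 * Real.pi * ψ x)) ∂μ := by
      refine integral_mono (hσi.div_const 2) ?_ (hψ n)
      exact Integrable.of_bound (SS_meas hγm' (2 ^ n) hψm').aestronglyMeasurable 1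
        (Eventually.of_forall fun x => by
          rw [Real.norm_eq_abs]
          exact abs_SS_le (fun h => hγ1 h x) (by positivity) _)
    rw [integral_div] at h3
    linarith

end Pool.Agent.FSP
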