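import Pool.Agent.FSP.Targets

set_option autoImplicit false

/-!
# FSP: RWM, relative weak mixing, assembly (helper21)
-/

open MeasureTheory Filter Topology Finset

namespace Pool.Agent.FSP

universe u

theorem p_RWM (h_RWA : T_RWA.{u}) (h_EIA : T_EIA.{u}) (h_EIB : T_EIB.{u}) : T_RWM.{u} := by
  intro Ω _ μ _ T hT g hg hg1 hort
  by_contra hno
  obtain ⟨c, lam, hc, hlam, hinv, hSS⟩ := h_RWA Ω μ T hT g hg hg1 hno
  have h1 : ∀ n : ℕ, c ≤ ∫ x, ‖cav T lam g (2 ^ n) 0 x‖ ^ 2 ∂μ := by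
    intro n
    rw [h_EIA Ω μ T hT g lam hg hg1 hlam hinv (2 ^ n)]
    exact hSS n
  obtain ⟨v, hv, hv2, heig, hne⟩ := h_EIB Ω μ T hT g lam hg hg1 hlam hinv c hc h1
  have hcont : Continuous (fun z : Circle => z⁻¹) := continuous_inv
  have hmeas : Measurable fun x => (lam x)⁻¹ := hcont.measurable.comp hlam
  exact hne (hort v (fun x => (lam x)⁻¹) hv hmeas (fun x => by rw [hinv x]) heig hv2)

end Pool.Agent.FSP
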