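import Pool.Agent.FSP.Targets

set_option autoImplicit false

/-!
# FSP, target SEL: measurable selection of an almost maximal point
-/

open MeasureTheory Filter Topology Finset

namespace Pool.Agent.FSP

universe u

namespace SEL_

/-- A dense sequence in the unit interval. -/
noncomputable def dd (i : ℕ) : ℝ := (TopologicalSpace.denseSeq (Set.Icc (0 : ℝ) 1) i : ℝ)

lemma dd_mem (i : ℕ) : dd i ∈ Set.Icc (0 : ℝ) 1 :=
  (TopologicalSpace.denseSeq (Set.Icc (0 : ℝ) 1) i).2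

lemma dd_dense (f : ℝ → ℝ) (hf : Continuous f) (c : ℝ) (h : ∀ i, f (dd i) ≤ c) (t : ℝ)
    (ht : t ∈ Set.Icc (0 : ℝ) 1) : f t ≤ c := by
  have h1 : IsClosed {s : Set.Icc (0 : ℝ) 1 | f s ≤ c} :=
    isClosed_le (hf.comp continuous_subtype_val) continuous_const
  have h2 : Set.range (TopologicalSpace.denseSeq (Set.Icc (0 : ℝ) 1)) ⊆
      {s : Set.Icc (0 : ℝ) 1 | f s ≤ c} := by
    rintro _ ⟨i, rfl⟩
    exact h i
  have h3 := closure_minimal h2 h1
  rw [(TopologicalSpace.denseRange_denseSeq (Set.Icc (0 : ℝ) 1)).closure_range] at h3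
  exact h3 (Set.mem_univ (⟨t, ht⟩ : Set.Icc (0 : ℝ) 1))

section

variable (g : ℝ → ℝ)

/-- The supremum over the unit interval. -/
noncomputable def sp : ℝ := ⨆ i : ℕ, g (dd i)

lemma sp_bdd (hg : Continuous g) : BddAbove (Set.range fun i : ℕ => g (dd i)) := by
  obtain ⟨t, -, ht⟩ := isCompact_Icc.exists_isMaxOn (s := Set.Icc (0 : ℝ) 1) ⟨0, by simp⟩
    hg.continuousOn
  refine ⟨g t, ?_⟩
  rintro _ ⟨i, rfl⟩
  exact ht (dd_mem i)

lemma le_sp (hg : Continuous g) (t : ℝ) (ht : t ∈ Set.Icc (0 : ℝ) 1) : g t ≤ sp g :=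
  dd_dense g hg _ (fun i => le_ciSup (sp_bdd g hg) i) t ht

lemma sp_att (hg : Continuous g) : ∃ t ∈ Set.Icc (0 : ℝ) 1, sp g = g t := by
  obtain ⟨t, ht0, ht⟩ := isCompact_Icc.exists_isMaxOn (s := Set.Icc (0 : ℝ) 1) ⟨0, by simp⟩
    hg.continuousOn
  refine ⟨t, ht0, le_antisymm ?_ (le_sp g hg t ht0)⟩
  exact ciSup_le fun i => ht (dd_mem i)

open Classical in
/-- The candidates. -/
noncomputable def vv (s : ℝ) (i : ℕ) : ℝ := if s < g (dd i) then dd i else 1

/-- The first point. -/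
noncomputable def mm (s : ℝ) : ℝ := ⨅ i : ℕ, vv g s i

lemma vv_mem (s : ℝ) (i : ℕ) : vv g s i ∈ Set.Icc (0 : ℝ) 1 := by
  unfold vv
  split_ifs
  · exact dd_mem i
  · simp

lemma vv_bdd (s : ℝ) : BddBelow (Set.range (vv g s)) := by
  refine ⟨0, ?_⟩
  rintro _ ⟨i, rfl⟩
  exact (vv_mem g s i).1

lemma mm_mem (s : ℝ) : mm g s ∈ Set.Icc (0 : ℝ) 1 :=
  ⟨le_ciInf fun i => (vv_mem g s i).1, (ciInf_le (vv_bdd g s) 0).trans (vv_mem g s 0).2⟩

lemma mm_ge (hg : Continuous g) (s : ℝ) (h : s < sp g) : s ≤ g (mm g s) := by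
  obtain ⟨i0, hi0⟩ := exists_lt_of_lt_ciSup h
  set A : Set ℝ := {t | ∃ i, t = dd i ∧ s < g (dd i)} with hA
  have hAne : A.Nonempty := ⟨dd i0, i0, rfl, hi0⟩
  have hAb : BddBelow A := by
    refine ⟨0, ?_⟩
    rintro _ ⟨i, rfl, -⟩
    exact (dd_mem i).1
  have h1 : mm g s = sInf A := by
    refine le_antisymm (le_csInf hAne ?_) (le_ciInf fun i => ?_)
    · rintro _ ⟨i, rfl, hi⟩
      have h2 := ciInf_le (vv_bdd g s) i
      unfold mm
      refine h2.trans (le_of_eq ?_)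
      unfold vv
      rw [if_pos hi]
    · unfold vv
      split_ifs with h3
      · exact csInf_le hAb ⟨i, rfl, h3⟩
      · exact (csInf_le hAb ⟨i0, rfl, hi0⟩).trans (dd_mem i0).2
  have h4 : closure A ⊆ {t | s ≤ g t} := by
    refine closure_minimal ?_ (isClosed_le continuous_const hg)
    rintro _ ⟨i, rfl, hi⟩
    exact hi.le
  rw [h1]
  exact h4 (csInf_mem_closure hAne hAb)

lemma mm_mono (g' : ℝ → ℝ) (h : ∀ t, g' t ≤ g t) (s : ℝ) : mm g s ≤ mm g' s := by
  refine ciInf_mono (vv_bdd g s) fun i => ?_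
  unfold vv
  by_cases h1 : s < g' (dd i)
  · rw [if_pos h1, if_pos (h1.trans_le (h _))]
  · rw [if_neg h1]
    split_ifs
    · exact (dd_mem i).2
    · exact le_refl _

end

end SEL_

open SEL_ in
theorem p_SEL : T_SEL.{u} := by
  intro Ω _ G hGm hGc hG0 hGd
  have hanti : ∀ x t, Antitone fun n => G n x t :=
    fun x t => antitone_nat_of_succ_le fun n => hGd n x t
  have hm1 : ∀ n, Measurable fun x => sp (G n x) :=
    fun n => Measurable.iSup fun i => hGm n (dd i)
  have hm2 : Measurable fun x => ⨅ n, sp (G n x) := Measurable.iInf hm1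
  have hspa : ∀ x, Antitone fun n => sp (G n x) := by
    intro x
    refine antitone_nat_of_succ_le fun n => ?_
    exact ciSup_mono (sp_bdd _ (hGc n x)) fun i => hGd n x _
  have hsp0 : ∀ n x, 0 ≤ sp (G n x) := by
    intro n x
    obtain ⟨t, -, ht⟩ := sp_att _ (hGc n x)
    rw [ht]
    exact hG0 n x t
  have hbb : ∀ x, BddBelow (Set.range fun n => sp (G n x)) := by
    intro x
    refine ⟨0, ?_⟩
    rintro _ ⟨n, rfl⟩
    exact hsp0 n x
  have hm3 : ∀ n, Measurable fun x => mm (G n x) ((⨅ n, sp (G n x)) / 2) := by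
    intro n
    refine Measurable.iInf fun i => ?_
    unfold vv
    exact Measurable.ite (measurableSet_lt (hm2.div_const 2) (hGm n (dd i))) measurable_const
      measurable_const
  refine ⟨fun n x => sp (G n x), fun x => ⨅ n, sp (G n x),
    fun x => ⨆ n, mm (G n x) ((⨅ n, sp (G n x)) / 2), hm1, hm2, Measurable.iSup hm3, ?_, ?_, ?_,
    ?_, ?_⟩
  · intro n x t ht
    exact le_sp _ (hGc n x) t ht
  · intro n x
    exact sp_att _ (hGc n x)
  · intro n x
    exact ciInf_le (hbb x) n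
  · intro x
    exact tendsto_atTop_ciInf (hspa x) (hbb x)
  · intro n x
    rcases le_or_gt (⨅ n, sp (G n x)) 0 with h0 | h0
    · exact (by linarith : (⨅ n, sp (G n x)) / 2 ≤ 0).trans (hG0 n x _)
    · have hlt : ∀ j, (⨅ n, sp (G n x)) / 2 < sp (G j x) := by
        intro j
        have h1 : (⨅ n, sp (G n x)) ≤ sp (G j x) := ciInf_le (hbb x) j
        linarith
      have hmono : Monotone fun j => mm (G j x) ((⨅ n, sp (G n x)) / 2) :=
        monotone_nat_of_le_succ fun j => mm_mono _ _ (fun t => hGd j x t) _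
      have hba : BddAbove (Set.range fun j => mm (G j x) ((⨅ n, sp (G n x)) / 2)) := by
        refine ⟨1, ?_⟩
        rintro _ ⟨j, rfl⟩
        exact (mm_mem _ _).2
      have hlim := tendsto_atTop_ciSup hmono hba
      have hlim2 := ((hGc n x).tendsto _).comp hlim
      refine ge_of_tendsto hlim2 (eventually_atTop.2 ⟨n, fun j hj => ?_⟩)
      exact (mm_ge _ (hGc j x) _ (hlt j)).trans (hanti x _ hj)

end Pool.Agent.FSP
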