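import Pool.Agent.FSP.Targets

set_option autoImplicit false

/-!
# FSP, SLA: convergence of the weighted averages
-/

open MeasureTheory Filter Topology Finset

namespace Pool.Agent.FSP

universe u

namespace SLA_

variable {Ω : Type u} [MeasurableSpace Ω]

theorem cav_meas {S : Ω → Ω} {χ : Ω → Circle} {f : Ω → ℝ} (hS : Measurable S)
    (hχ : Measurable χ) (hf : Measurable f) (N s : ℕ) : Measurable (cav S χ f N s) := by
  have hco : Continuous (fun z : Circle => (z : ℂ)) := by fun_prop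
  unfold cav
  refine Measurable.const_mul (Finset.measurable_sum _ fun n _ => ?_) _
  refine Measurable.mul ?_ ?_
  · exact (hco.measurable.comp hχ).pow_const _
  · exact Complex.measurable_ofReal.comp (hf.comp (hS.iterate _))

omit [MeasurableSpace Ω] in
theorem cav_bd {S : Ω → Ω} {χ : Ω → Circle} {f : Ω → ℝ} (hf : ∀ x, |f x| ≤ 1) (N s : ℕ) (x : Ω) :
    ‖cav S χ f N s x‖ ≤ 1 := by
  unfold cav
  rw [norm_mul, norm_inv, Complex.norm_natCast]
  have h1 : ‖∑ n ∈ range N, (χ x : ℂ) ^ (s + n) * ((f (S^[s + n] x) : ℝ) : ℂ)‖ ≤ N := by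
    refine (norm_sum_le _ _).trans ?_
    calc ∑ n ∈ range N, ‖(χ x : ℂ) ^ (s + n) * ((f (S^[s + n] x) : ℝ) : ℂ)‖
        ≤ ∑ _n ∈ range N, (1 : ℝ) := by
          refine Finset.sum_le_sum fun n _ => ?_
          rw [norm_mul, norm_pow, Circle.norm_coe, one_pow, one_mul, Complex.norm_real,
            Real.norm_eq_abs]
          exact hf _
      _ = N := by simp
  rcases Nat.eq_zero_or_pos N with h0 | h0
  · subst h0
    simp
  · have : (0 : ℝ) < N := by exact_mod_cast h0
    rw [inv_mul_le_iff₀ this, mul_one]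
    exact h1

omit [MeasurableSpace Ω] in
theorem cav_congr {S : Ω → Ω} {χ b : Ω → Circle} {f : Ω → ℝ} (N s : ℕ) {x : Ω}
    (h : b x = χ x) : cav S b f N s x = cav S χ f N s x := by
  unfold cav
  rw [h]

theorem one_i {μ : Measure Ω} [IsProbabilityMeasure μ] {S : Ω → Ω} (h_BFN : T_BFN.{u})
    (h_MET : T_MET.{u}) (h_VAN : T_VAN.{u}) (hS : MeasurePreserving S μ μ) {χ : Ω → Circle}
    {X : Set Ω} (hχ : Measurable χ) (hX : MeasurableSet X)
    (hc : OrbC μ S χ X ∨ NoC μ S χ X) {f : Ω → ℝ} (hf : Measurable f) (hf1 : ∀ x, |f x| ≤ 1) :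
    ∃ G : Ω → ℂ, Measurable G ∧ Integrable G μ ∧ ∀ ε : ℝ, 0 < ε → ∃ N₀ : ℕ, ∀ N ≥ N₀, ∀ s : ℕ,
      ∫ x in X, ‖cav S χ f N s x - G x‖ ∂μ ≤ ε := by
  rcases hc with hc | hc
  · obtain ⟨b, hb1, hb2, hb3⟩ := h_BFN Ω μ S hS χ X hχ hX hc
    obtain ⟨⟨G, hG1, hG2, hG3⟩, -⟩ := h_MET Ω μ S hS b f hb1 hb2 hf hf1
    refine ⟨G, hG1, hG2, fun ε hε => ?_⟩
    obtain ⟨N₀, hN⟩ := hG3 ε hε
    refine ⟨N₀, fun N hNN s => ?_⟩
    have h1 : ∫ x in X, ‖cav S χ f N s x - G x‖ ∂μ = ∫ x in X, ‖cav S b f N s x - G x‖ ∂μ := by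
      refine setIntegral_congr_ae hX ?_
      filter_upwards [hb3] with x hx hxX
      rw [cav_congr N s (hx hxX)]
    rw [h1]
    refine le_trans ?_ (hN N hNN s)
    refine setIntegral_le_integral ?_ (Eventually.of_forall fun x => norm_nonneg _)
    refine Integrable.norm (Integrable.sub ?_ hG2)
    exact Integrable.of_bound (cav_meas hS.measurable hb1 hf N s).aestronglyMeasurable 1
      (Eventually.of_forall fun x => cav_bd hf1 N s x)
  · refine ⟨fun _ => 0, measurable_const, integrable_const _, fun ε hε => ?_⟩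
    obtain ⟨N₀, hN⟩ := h_VAN Ω μ S hS χ X hχ hX hc f hf hf1 ε hε
    refine ⟨N₀, fun N hNN s => ?_⟩
    simpa using hN N hNN s

omit [MeasurableSpace Ω] in
theorem wav_eq {ι : Type} [Fintype ι] (S : Ω → Ω) (a : ι → ℝ) (χ : ι → Ω → Circle) (f : Ω → ℝ)
    (N s : ℕ) (x : Ω) : wav S (tw a χ) f N s x = ∑ i, a i * (cav S (χ i) f N s x).re := by
  unfold wav tw cav
  have h1 : ∀ i, (((N : ℂ)⁻¹ * ∑ n ∈ range N, (χ i x : ℂ) ^ (s + n) *
      ((f (S^[s + n] x) : ℝ) : ℂ)).re) =
      (N : ℝ)⁻¹ * ∑ n ∈ range N, ((χ i x : ℂ) ^ (s + n)).re * f (S^[s + n] x) := by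
    intro i
    have h2 : (N : ℂ)⁻¹ = (((N : ℝ)⁻¹ : ℝ) : ℂ) := by push_cast; rfl
    rw [h2, Complex.re_ofReal_mul, Complex.re_sum]
    congr 1
    refine Finset.sum_congr rfl fun n _ => ?_
    rw [Complex.re_mul_ofReal]
  simp only [h1]
  rw [Finset.mul_sum]
  simp only [Finset.mul_sum, Finset.sum_mul]
  rw [Finset.sum_comm]
  refine Finset.sum_congr rfl fun i _ => Finset.sum_congr rfl fun n _ => ?_
  ring

end SLA_

open SLA_ in
theorem p_SLA (h_BFN : T_BFN.{u}) (h_MET : T_MET.{u}) (h_VAN : T_VAN.{u}) : T_SLA.{u} := by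
  intro Ω _ μ _ S hS ι _ a χ X hχ hX hc f hf hf1
  choose G hG1 hG2 hG3 using fun i => one_i h_BFN h_MET h_VAN hS (hχ i) hX (hc i) hf hf1
  refine ⟨fun x => ∑ i, a i * (G i x).re, ?_, ?_, fun ε hε => ?_⟩
  · exact Finset.measurable_sum _ fun i _ =>
      (Complex.measurable_re.comp (hG1 i)).const_mul _
  · exact integrable_finsetSum _ fun i _ => (hG2 i).re.const_mul _
  · set A : ℝ := ∑ i, |a i| with hA
    have hA0 : 0 ≤ A := Finset.sum_nonneg fun i _ => abs_nonneg _
    have hε' : 0 < ε / (A + 1) := by positivity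
    choose N₀ hN₀ using fun i => hG3 i (ε / (A + 1)) hε'
    refine ⟨∑ i, N₀ i, fun N hN s => ?_⟩
    have hNi : ∀ i, N₀ i ≤ N := fun i =>
      (Finset.single_le_sum (fun i _ => Nat.zero_le (N₀ i)) (Finset.mem_univ i)).trans hN
    have hint : ∀ i, Integrable (fun x => |a i| * ‖cav S (χ i) f N s x - G i x‖)
        (μ.restrict X) := by
      intro i
      refine Integrable.const_mul ?_ _
      refine Integrable.integrableOn (Integrable.norm (Integrable.sub ?_ (hG2 i)))
      exact Integrable.of_bound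
        (cav_meas hS.measurable (hχ i) hf N s).aestronglyMeasurable 1
        (Eventually.of_forall fun x => cav_bd hf1 N s x)
    have h1 : ∀ x, |wav S (tw a χ) f N s x - ∑ i, a i * (G i x).re| ≤
        ∑ i, |a i| * ‖cav S (χ i) f N s x - G i x‖ := by
      intro x
      rw [wav_eq, ← Finset.sum_sub_distrib]
      refine (Finset.abs_sum_le_sum_abs _ _).trans (Finset.sum_le_sum fun i _ => ?_)
      rw [← mul_sub, abs_mul, ← Complex.sub_re]
      gcongr
      exact Complex.abs_re_le_norm _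
    calc ∫ x in X, |wav S (tw a χ) f N s x - ∑ i, a i * (G i x).re| ∂μ
        ≤ ∫ x in X, ∑ i, |a i| * ‖cav S (χ i) f N s x - G i x‖ ∂μ := by
          refine integral_mono_of_nonneg (Eventually.of_forall fun x => abs_nonneg _)
            (integrable_finsetSum _ fun i _ => hint i) (Eventually.of_forall h1)
      _ = ∑ i, |a i| * ∫ x in X, ‖cav S (χ i) f N s x - G i x‖ ∂μ := by
          rw [integral_finsetSum _ fun i _ => hint i]
          refine Finset.sum_congr rfl fun i _ => ?_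
          rw [integral_const_mul]
      _ ≤ ∑ i, |a i| * (ε / (A + 1)) := by
          refine Finset.sum_le_sum fun i _ => ?_
          exact mul_le_mul_of_nonneg_left (hN₀ i N (hNi i) s) (abs_nonneg _)
      _ = A * (ε / (A + 1)) := by rw [← Finset.sum_mul]
      _ ≤ ε := by
          rw [← mul_div_assoc, div_le_iff₀ (by positivity)]
          nlinarith

end Pool.Agent.FSP
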