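import Pool.Agent.FSP.Targets

set_option autoImplicit false

/-!
# FSP SLB: the lower bound on a part (MP_cfac66_an).
-/

open MeasureTheory Filter Topology Finset

namespace Pool.Agent.FSP

universe u

namespace SLB_

variable {Ω : Type u} [MeasurableSpace Ω]

omit [MeasurableSpace Ω] in
lemma one_mem {X : Set Ω} {x : Ω} (h : x ∈ X) : one X x = 1 := by
  unfold one
  rw [Set.indicator_of_mem h]

omit [MeasurableSpace Ω] in
lemma one_notMem {X : Set Ω} {x : Ω} (h : x ∉ X) : one X x = 0 := by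
  unfold one
  rw [Set.indicator_of_notMem h]

omit [MeasurableSpace Ω] in
lemma one_nonneg (X : Set Ω) (x : Ω) : 0 ≤ one X x := by
  by_cases h : x ∈ X
  · rw [one_mem h]; exact zero_le_one
  · rw [one_notMem h]

omit [MeasurableSpace Ω] in
lemma one_le (X : Set Ω) (x : Ω) : one X x ≤ 1 := by
  by_cases h : x ∈ X
  · rw [one_mem h]
  · rw [one_notMem h]; exact zero_le_one

omit [MeasurableSpace Ω] in
lemma abs_one_le (X : Set Ω) (x : Ω) : |one X x| ≤ 1 := by
  rw [abs_of_nonneg (one_nonneg X x)]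
  exact one_le X x

lemma measurable_one {X : Set Ω} (h : MeasurableSet X) : Measurable (one X) :=
  measurable_const.indicator h

lemma measurable_coe : Measurable (fun z : Circle => (z : ℂ)) := by
  have h : Continuous (fun z : Circle => (z : ℂ)) := by fun_prop
  exact h.measurable

lemma measurable_cav {S : Ω → Ω} (hS : Measurable S) {χ : Ω → Circle} (hχ : Measurable χ)
    {f : Ω → ℝ} (hf : Measurable f) (N s : ℕ) : Measurable (cav S χ f N s) := by
  unfold cav
  refine Measurable.const_mul ?_ _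
  refine Finset.measurable_fun_sum _ fun n _ => ?_
  refine Measurable.mul ((measurable_coe.comp hχ).pow_const _) ?_
  exact Complex.measurable_ofReal.comp (hf.comp (hS.iterate _))

omit [MeasurableSpace Ω] in
lemma norm_cav_le {S : Ω → Ω} {χ : Ω → Circle} {f : Ω → ℝ} (hf : ∀ x, |f x| ≤ 1) (N s : ℕ)
    (x : Ω) : ‖cav S χ f N s x‖ ≤ 1 := by
  unfold cav
  rw [norm_mul, norm_inv, Complex.norm_natCast]
  have h1 : ‖∑ n ∈ range N, (χ x : ℂ) ^ (s + n) * ((f (S^[s + n] x) : ℝ) : ℂ)‖ ≤ (N : ℝ) := by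
    refine (norm_sum_le _ _).trans ?_
    have h2 : ∀ n ∈ range N, ‖(χ x : ℂ) ^ (s + n) * ((f (S^[s + n] x) : ℝ) : ℂ)‖ ≤ 1 := by
      intro n _
      rw [norm_mul, norm_pow, Circle.norm_coe, one_pow, one_mul, Complex.norm_real,
        Real.norm_eq_abs]
      exact hf _
    refine (Finset.sum_le_sum h2).trans ?_
    simp
  rcases Nat.eq_zero_or_pos N with h0 | h0
  · subst h0
    simp
  · have hN : (0 : ℝ) < N := by exact_mod_cast h0
    rw [inv_mul_le_iff₀ hN, mul_one]
    exact h1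

lemma measurable_tu {ι : Type} [Fintype ι] (a : ι → ℝ) {χ : ι → Ω → Circle}
    (hχ : ∀ i, Measurable (χ i)) : Measurable (tu a χ) := by
  unfold tu
  refine Finset.measurable_fun_sum _ fun i _ => ?_
  refine Measurable.const_mul (measurable_one ?_) _
  exact (hχ i) (measurableSet_singleton (1 : Circle))

omit [MeasurableSpace Ω] in
/-- The weighted average is a combination of the averages with characters. -/
lemma wav_tw {ι : Type} [Fintype ι] (S : Ω → Ω) (a : ι → ℝ) (χ : ι → Ω → Circle) (f : Ω → ℝ)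
    (N s : ℕ) (x : Ω) :
    wav S (tw a χ) f N s x = ∑ i, a i * (cav S (χ i) f N s x).re := by
  unfold wav tw cav
  have h1 : ∀ i, (((N : ℂ)⁻¹ * ∑ n ∈ range N, (χ i x : ℂ) ^ (s + n) *
      ((f (S^[s + n] x) : ℝ) : ℂ)).re) =
      (N : ℝ)⁻¹ * ∑ n ∈ range N, ((χ i x : ℂ) ^ (s + n)).re * f (S^[s + n] x) := by
    intro i
    have h2 : (N : ℂ)⁻¹ = (((N : ℝ)⁻¹ : ℝ) : ℂ) := by push_cast; rfl
    rw [h2, Complex.re_ofReal_mul, Complex.re_sum]
    congr 1
    refine Finset.sum_congr rfl fun n _ => ?_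
    rw [Complex.re_mul_ofReal]
  simp_rw [h1]
  simp_rw [Finset.sum_mul, Finset.mul_sum]
  rw [Finset.sum_comm]
  refine Finset.sum_congr rfl fun i _ => Finset.sum_congr rfl fun n _ => ?_
  ring

/-- A bounded measurable function is integrable. -/
lemma integrable_bdd {μ : Measure Ω} [IsProbabilityMeasure μ] {g : Ω → ℝ} (hg : Measurable g)
    {C : ℝ} (hC : ∀ x, |g x| ≤ C) : Integrable g μ :=
  Integrable.of_bound hg.aestronglyMeasurable C (Filter.Eventually.of_forall fun x => by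
    rw [Real.norm_eq_abs]; exact hC x)

/-- A function invariant a.e. is invariant under all powers a.e. -/
lemma ae_iterate {μ : Measure Ω} {S : Ω → Ω} (hS : MeasurePreserving S μ μ) {β : Type*}
    {g : Ω → β} (hg : ∀ᵐ x ∂μ, g (S x) = g x) : ∀ᵐ x ∂μ, ∀ n : ℕ, g (S^[n] x) = g x := by
  rw [ae_all_iff]
  intro n
  induction n with
  | zero => exact Filter.Eventually.of_forall fun x => rfl
  | succ n ih =>
    have h1 : ∀ᵐ x ∂μ, g (S (S^[n] x)) = g (S^[n] x) :=
      ((hS.iterate n).quasiMeasurePreserving.ae hg)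
    filter_upwards [ih, h1] with x hx h1x
    rw [Function.iterate_succ_apply', h1x, hx]

end SLB_

open SLB_ in
theorem p_SLB (h_BFN : T_BFN.{u}) (h_MET : T_MET.{u}) (h_VAN : T_VAN.{u}) (h_PSD : T_PSD.{u}) :
    T_SLB.{u} := by
  classical
  intro Ω _ μ _ S hS ι _ a χ X ha hχ hX hdich htu Y hY hYX ε hε
  have hSm : Measurable S := hS.measurable
  -- the invariant functions
  have hb : ∀ i, ∃ b : Ω → Circle, Measurable b ∧ (OrbC μ S (χ i) X →
      (∀ᵐ x ∂μ, b (S x) = b x) ∧ ∀ᵐ x ∂μ, x ∈ X → b x = χ i x) := by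
    intro i
    by_cases hi : OrbC μ S (χ i) X
    · obtain ⟨b, h1, h2, h3⟩ := h_BFN Ω μ S hS (χ i) X (hχ i) hX hi
      exact ⟨b, h1, fun _ => ⟨h2, h3⟩⟩
    · exact ⟨χ i, hχ i, fun h => absurd h hi⟩
  choose b hbm hbo using hb
  let ι₁ : Type := {i : ι // OrbC μ S (χ i) X}
  let a₁ : ι₁ → ℝ := fun i => a i.1
  let b₁ : ι₁ → Ω → Circle := fun i => b i.1
  let u' : Ω → ℝ := tu a₁ b₁
  have hu'm : Measurable u' := measurable_tu a₁ fun i => hbm i.1
  -- `u'` is invariant
  have hu'inv : ∀ᵐ x ∂μ, u' (S x) = u' x := by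
    have h1 : ∀ᵐ x ∂μ, ∀ i : ι₁, b₁ i (S x) = b₁ i x :=
      ae_all_iff.mpr fun i => (hbo i.1 i.2).1
    filter_upwards [h1] with x hx
    show tu a₁ b₁ (S x) = tu a₁ b₁ x
    unfold tu
    refine Finset.sum_congr rfl fun i _ => ?_
    congr 1
    by_cases h : b₁ i x = 1
    · rw [one_mem (show S x ∈ {y | b₁ i y = 1} from (hx i).trans h),
        one_mem (show x ∈ {y | b₁ i y = 1} from h)]
    · rw [one_notMem (show S x ∉ {y | b₁ i y = 1} from fun h' => h ((hx i).symm.trans h')),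
        one_notMem (show x ∉ {y | b₁ i y = 1} from h)]
  -- agreement on `X`
  have hagree : ∀ᵐ x ∂μ, ∀ i : ι, OrbC μ S (χ i) X → x ∈ X → b i x = χ i x := by
    refine ae_all_iff.mpr fun i => ?_
    by_cases hi : OrbC μ S (χ i) X
    · filter_upwards [(hbo i hi).2] with x hx
      exact fun _ => hx
    · exact Filter.Eventually.of_forall fun x h => absurd h hi
  have hnull : ∀ᵐ x ∂μ, ∀ i : ι, ¬ OrbC μ S (χ i) X → x ∈ X → χ i x ≠ 1 := by
    refine ae_all_iff.mpr fun i => ?_
    by_cases hi : OrbC μ S (χ i) X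
    · exact Filter.Eventually.of_forall fun x h => absurd hi h
    · have hno : NoC μ S (χ i) X := (hdich i).resolve_left hi
      have h1 : μ (X ∩ {y | χ i y = 1}) = 0 := by
        refine hno _ Set.inter_subset_left
          (hX.inter ((hχ i) (measurableSet_singleton (1 : Circle)))) ?_
        intro h
        refine Filter.Eventually.of_forall fun x hx1 hx2 => ?_
        have e1 : χ i x = 1 := hx1.2
        have e2 : χ i (S^[h] x) = 1 := hx2.2
        rw [e1, e2]
      have h2 : ∀ᵐ x ∂μ, x ∉ X ∩ {y | χ i y = 1} := measure_eq_zero_iff_ae_notMem.mp h1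
      filter_upwards [h2] with x hx _ hxX hx1
      exact hx ⟨hxX, hx1⟩
  have htuu : ∀ᵐ x ∂μ, x ∈ X → tu a χ x = u' x := by
    filter_upwards [hagree, hnull] with x h1 h2 hxX
    show (∑ i, a i * one {y | χ i y = 1} x) = ∑ i : ι₁, a₁ i * one {y | b₁ i y = 1} x
    have h3 := Fintype.sum_subtype_add_sum_subtype (fun i => OrbC μ S (χ i) X)
      (fun i => a i * one {y | χ i y = 1} x)
    rw [← h3]
    have h4 : ∑ i : {i : ι // ¬ OrbC μ S (χ i) X}, a i * one {y | χ i y = 1} x = 0 := by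
      refine Finset.sum_eq_zero fun i _ => ?_
      rw [one_notMem (show x ∉ {y | χ i y = 1} from h2 i.1 i.2 hxX), mul_zero]
    rw [h4, add_zero]
    refine Finset.sum_congr rfl fun i _ => ?_
    show a i.1 * _ = a i.1 * _
    congr 1
    have h5 : b₁ i x = χ i.1 x := h1 i.1 i.2 hxX
    by_cases h : χ i.1 x = 1
    · rw [one_mem (show x ∈ {y | χ i.1 y = 1} from h),
        one_mem (show x ∈ {y | b₁ i y = 1} from h5.trans h)]
    · rw [one_notMem (show x ∉ {y | χ i.1 y = 1} from h),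
        one_notMem (show x ∉ {y | b₁ i y = 1} from fun h' => h (h5.symm.trans h'))]
  -- the function `r`
  let r : Ω → ℝ := fun x => if 1 ≤ u' x then (Real.sqrt (u' x))⁻¹ else 1
  have hrm : Measurable r :=
    Measurable.ite (measurableSet_le measurable_const hu'm)
      (Real.continuous_sqrt.measurable.comp hu'm).inv measurable_const
  have hr0 : ∀ x, 0 ≤ r x := by
    intro x
    show 0 ≤ if 1 ≤ u' x then (Real.sqrt (u' x))⁻¹ else 1
    split_ifs
    · positivity
    · exact zero_le_one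
  have hr1 : ∀ x, r x ≤ 1 := by
    intro x
    show (if 1 ≤ u' x then (Real.sqrt (u' x))⁻¹ else 1) ≤ 1
    split_ifs with h
    · exact inv_le_one_of_one_le₀ (Real.one_le_sqrt.mpr h)
    · exact le_refl _
  have hrinv : ∀ᵐ x ∂μ, r (S x) = r x := by
    filter_upwards [hu'inv] with x hx
    show (if 1 ≤ u' (S x) then (Real.sqrt (u' (S x)))⁻¹ else 1) =
      if 1 ≤ u' x then (Real.sqrt (u' x))⁻¹ else 1
    rw [hx]
  have hr2 : ∀ᵐ x ∂μ, x ∈ X → r x ^ 2 = (tu a χ x)⁻¹ ∧ 1 ≤ u' x * r x ^ 2 := by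
    filter_upwards [htuu] with x hx hxX
    have h1 : 1 ≤ u' x := by rw [← hx hxX]; exact htu x
    have h2 : r x = (Real.sqrt (u' x))⁻¹ := if_pos h1
    have h3 : r x ^ 2 = (u' x)⁻¹ := by
      rw [h2, inv_pow, Real.sq_sqrt (by linarith)]
    refine ⟨by rw [h3, hx hxX], ?_⟩
    rw [h3, mul_inv_cancel₀ (by linarith)]
  have hPSD := h_PSD Ω μ S hS ι₁ a₁ b₁ r Y (fun i => ha i.1) (fun i => hbm i.1)
    (fun i => (hbo i.1 i.2).1) hrm hr0 hr1 hrinv hY
    (by filter_upwards [hr2] with x hx hxY; exact (hx (hYX hxY)).2)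
  -- the function `f = r 1_Y`
  let f : Ω → ℝ := fun y => r y * one Y y
  have hfm : Measurable f := hrm.mul (measurable_one hY)
  have hf1 : ∀ x, |f x| ≤ 1 := by
    intro x
    show |r x * one Y x| ≤ 1
    rw [abs_mul, abs_of_nonneg (hr0 x), abs_of_nonneg (one_nonneg Y x)]
    exact mul_le_one₀ (hr1 x) (one_nonneg Y x) (one_le Y x)
  -- the integrals
  let J : ι → ℕ → ℝ := fun i N =>
    ∫ x, one Y x * ((tu a χ x)⁻¹ * (cav S (χ i) (one Y) N 0 x).re) ∂μ
  have htui0 : ∀ x, 0 ≤ (tu a χ x)⁻¹ := fun x => inv_nonneg.mpr (by linarith [htu x])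
  have htui1 : ∀ x, (tu a χ x)⁻¹ ≤ 1 := fun x => inv_le_one_of_one_le₀ (htu x)
  have hJm : ∀ i N, Measurable
      (fun x => one Y x * ((tu a χ x)⁻¹ * (cav S (χ i) (one Y) N 0 x).re)) := fun i N =>
    (measurable_one hY).mul ((measurable_tu a hχ).inv.mul
      (Complex.measurable_re.comp (measurable_cav hSm (hχ i) (measurable_one hY) N 0)))
  have hre : ∀ i N x, |(cav S (χ i) (one Y) N 0 x).re| ≤ ‖cav S (χ i) (one Y) N 0 x‖ :=
    fun i N x => Complex.abs_re_le_norm _
  have hJb : ∀ i N x, |one Y x * ((tu a χ x)⁻¹ * (cav S (χ i) (one Y) N 0 x).re)| ≤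
      one Y x * ‖cav S (χ i) (one Y) N 0 x‖ := by
    intro i N x
    rw [abs_mul, abs_mul, abs_of_nonneg (one_nonneg Y x), abs_of_nonneg (htui0 x)]
    refine mul_le_mul_of_nonneg_left ?_ (one_nonneg Y x)
    calc (tu a χ x)⁻¹ * |(cav S (χ i) (one Y) N 0 x).re|
        ≤ 1 * |(cav S (χ i) (one Y) N 0 x).re| :=
          mul_le_mul_of_nonneg_right (htui1 x) (abs_nonneg _)
      _ = |(cav S (χ i) (one Y) N 0 x).re| := one_mul _
      _ ≤ _ := hre i N x
  have hJb1 : ∀ i N x, |one Y x * ((tu a χ x)⁻¹ * (cav S (χ i) (one Y) N 0 x).re)| ≤ 1 := by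
    intro i N x
    refine (hJb i N x).trans ?_
    exact mul_le_one₀ (one_le Y x) (norm_nonneg _) (norm_cav_le (abs_one_le Y) N 0 x)
  have hJint : ∀ i N, Integrable
      (fun x => one Y x * ((tu a χ x)⁻¹ * (cav S (χ i) (one Y) N 0 x).re)) μ := fun i N =>
    integrable_bdd (hJm i N) (hJb1 i N)
  -- expansion
  have hexp : ∀ N, ∫ x, one Y x * ((tu a χ x)⁻¹ * wav S (tw a χ) (one Y) N 0 x) ∂μ =
      ∑ i, a i * J i N := by
    intro N
    have h1 : (fun x => one Y x * ((tu a χ x)⁻¹ * wav S (tw a χ) (one Y) N 0 x)) =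
        fun x => ∑ i, a i * (one Y x * ((tu a χ x)⁻¹ * (cav S (χ i) (one Y) N 0 x).re)) := by
      funext x
      rw [wav_tw, Finset.mul_sum, Finset.mul_sum]
      refine Finset.sum_congr rfl fun i _ => ?_
      ring
    rw [h1, integral_finsetSum _ fun i _ => (hJint i N).const_mul (a i)]
    refine Finset.sum_congr rfl fun i _ => ?_
    rw [integral_const_mul]
  -- the main estimate for one index
  let c : ι → ℕ → ℝ := fun i N => if OrbC μ S (χ i) X then
    ∫ x, ‖cav S (b i) f N 0 x‖ ^ 2 ∂μ else 0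
  have hsum0 : 0 ≤ ∑ i, a i := Finset.sum_nonneg fun i _ => ha i
  let ε' : ℝ := ε / (∑ i, a i + 1)
  have hε' : 0 < ε' := div_pos hε (by linarith)
  have hmain : ∀ i, ∃ N₀ : ℕ, ∀ N ≥ N₀, c i N - ε' ≤ J i N := by
    intro i
    by_cases hi : OrbC μ S (χ i) X
    · obtain ⟨N₀, hN₀⟩ := (h_MET Ω μ S hS (b i) f (hbm i) (hbo i hi).1 hfm hf1).2 ε' hε'
      refine ⟨N₀, fun N hN => ?_⟩
      have h1 : c i N = ∫ x, ‖cav S (b i) f N 0 x‖ ^ 2 ∂μ := if_pos hi
      have h2 := hN₀ N hN
      have h3 : ∫ x, f x * (cav S (b i) f N 0 x).re ∂μ = J i N := by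
        refine integral_congr_ae ?_
        filter_upwards [ae_iterate hS hrinv, (hbo i hi).2, hr2] with x hx1 hx2 hx3
        show f x * (cav S (b i) f N 0 x).re =
          one Y x * ((tu a χ x)⁻¹ * (cav S (χ i) (one Y) N 0 x).re)
        by_cases hxY : x ∈ Y
        · have h4 : cav S (b i) f N 0 x = ((r x : ℝ) : ℂ) * cav S (χ i) (one Y) N 0 x := by
            show (N : ℂ)⁻¹ * ∑ n ∈ range N, (b i x : ℂ) ^ (0 + n) *
                ((r (S^[0 + n] x) * one Y (S^[0 + n] x) : ℝ) : ℂ) =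
              ((r x : ℝ) : ℂ) * ((N : ℂ)⁻¹ * ∑ n ∈ range N, (χ i x : ℂ) ^ (0 + n) *
                ((one Y (S^[0 + n] x) : ℝ) : ℂ))
            rw [hx2 (hYX hxY), mul_left_comm ((r x : ℝ) : ℂ), Finset.mul_sum _ _ ((r x : ℝ) : ℂ)]
            congr 1
            refine Finset.sum_congr rfl fun n _ => ?_
            rw [hx1 (0 + n)]
            push_cast
            ring
          rw [h4, Complex.re_ofReal_mul, ← (hx3 (hYX hxY)).1]
          show r x * one Y x * _ = _
          ring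
        · show r x * one Y x * _ = _
          rw [one_notMem hxY]
          ring
      rw [h1, ← h3]
      linarith
    · have hno : NoC μ S (χ i) X := (hdich i).resolve_left hi
      obtain ⟨N₀, hN₀⟩ := h_VAN Ω μ S hS (χ i) X (hχ i) hX hno (one Y) (measurable_one hY)
        (abs_one_le Y) ε' hε'
      refine ⟨N₀, fun N hN => ?_⟩
      have h1 : c i N = 0 := if_neg hi
      have h2 := hN₀ N hN 0
      have hcm : Measurable (fun x => ‖cav S (χ i) (one Y) N 0 x‖) :=
        (measurable_cav hSm (hχ i) (measurable_one hY) N 0).norm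
      have h3 : |J i N| ≤ ∫ x in X, ‖cav S (χ i) (one Y) N 0 x‖ ∂μ := by
        rw [← integral_indicator hX]
        refine (abs_integral_le_integral_abs).trans ?_
        refine integral_mono ((hJint i N).abs) ?_ ?_
        · refine integrable_bdd (C := 1) (hcm.indicator hX) fun x => ?_
          by_cases hxX : x ∈ X
          · rw [Set.indicator_of_mem hxX, abs_of_nonneg (norm_nonneg _)]
            exact norm_cav_le (abs_one_le Y) N 0 x
          · rw [Set.indicator_of_notMem hxX, abs_zero]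
            exact zero_le_one
        · intro x
          refine (hJb i N x).trans ?_
          by_cases hxY : x ∈ Y
          · rw [one_mem hxY, one_mul, Set.indicator_of_mem (hYX hxY)]
          · rw [one_notMem hxY, zero_mul]
            exact Set.indicator_nonneg (fun _ _ => norm_nonneg _) x
      rw [h1]
      have h4 := neg_abs_le (J i N)
      linarith
  choose N₀ hN₀ using hmain
  refine ⟨(Finset.univ.sup N₀) + 1, fun N hN => ?_⟩
  have hNpos : 0 < N := by omega
  have hNi : ∀ i, N₀ i ≤ N := fun i => (Finset.le_sup (f := N₀) (Finset.mem_univ i)).trans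
    (by omega)
  have h1 : ∑ i, a i * (c i N - ε') ≤ ∑ i, a i * J i N :=
    Finset.sum_le_sum fun i _ => mul_le_mul_of_nonneg_left (hN₀ i N (hNi i)) (ha i)
  have h2 : ∑ i, a i * (c i N - ε') = (∑ i, a i * c i N) - (∑ i, a i) * ε' := by
    rw [Finset.sum_mul, ← Finset.sum_sub_distrib]
    exact Finset.sum_congr rfl fun i _ => by ring
  have h3 : ∑ i, a i * c i N = ∑ i : ι₁, a₁ i * ∫ x, ‖cav S (b₁ i) f N 0 x‖ ^ 2 ∂μ := by
    have h4 := Fintype.sum_subtype_add_sum_subtype (fun i => OrbC μ S (χ i) X)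
      (fun i => a i * c i N)
    rw [← h4]
    have h5 : ∑ i : {i : ι // ¬ OrbC μ S (χ i) X}, a i * c i N = 0 := by
      refine Finset.sum_eq_zero fun i _ => ?_
      rw [show c i.1 N = 0 from if_neg i.2, mul_zero]
    rw [h5, add_zero]
    refine Finset.sum_congr rfl fun i _ => ?_
    rw [show c i.1 N = ∫ x, ‖cav S (b i.1) f N 0 x‖ ^ 2 ∂μ from if_pos i.2]
  have h6 := hPSD N hNpos
  have h7 : (∑ i, a i) * ε' ≤ ε := by
    have h8 : (∑ i, a i + 1) * ε' = ε := by
      show (∑ i, a i + 1) * (ε / (∑ i, a i + 1)) = ε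
      exact mul_div_cancel₀ ε (by linarith)
    nlinarith [hε'.le]
  rw [hexp N]
  have h9 : (μ.real Y) ^ 2 ≤ ∑ i, a i * c i N := by
    rw [h3]
    exact h6
  linarith

end Pool.Agent.FSP
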