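import Pool.Agent.FSP.Targets

set_option autoImplicit false

/-!
# FSP: p_VAN, vanishing of the averages on a `NoC` set
-/

open MeasureTheory Filter Topology Finset

namespace Pool.Agent.FSP

universe u

namespace VAN_

lemma norm_cpow (z : Circle) (n : ℕ) : ‖(z : ℂ) ^ n‖ = 1 := by
  rw [norm_pow, Circle.norm_coe, one_pow]

/-- Shifting a window by `j`. -/
lemma shift (z : Circle) (b : ℕ → ℝ) (hb : ∀ n, |b n| ≤ 1) (N s j : ℕ) (hN : 0 < N) :
    ‖(N : ℂ)⁻¹ * ∑ n ∈ range N, (z : ℂ) ^ (s + n) * ((b (s + n + j) : ℝ) : ℂ)‖ ≤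
      ‖(N : ℂ)⁻¹ * ∑ n ∈ range N, (z : ℂ) ^ (s + n) * ((b (s + n) : ℝ) : ℂ)‖ +
        2 * (j : ℝ) / N := by
  set g : ℕ → ℂ := fun n => (z : ℂ) ^ (s + n) * ((b (s + n) : ℝ) : ℂ) with hg
  have hgn : ∀ n, ‖g n‖ ≤ 1 := by
    intro n
    rw [hg]
    simp only [norm_mul, norm_cpow, one_mul, Complex.norm_real, Real.norm_eq_abs]
    exact hb _
  have h1 : (z : ℂ) ^ j * ∑ n ∈ range N, (z : ℂ) ^ (s + n) * ((b (s + n + j) : ℝ) : ℂ) =
      ∑ n ∈ range N, g (j + n) := by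
    rw [Finset.mul_sum]
    refine Finset.sum_congr rfl fun n _ => ?_
    rw [hg]
    simp only
    rw [show s + (j + n) = s + n + j by ring, pow_add _ (s + n) j]
    ring
  have h2 : ∑ n ∈ range N, g (j + n) =
      ∑ n ∈ range N, g n + ∑ n ∈ range j, g (N + n) - ∑ n ∈ range j, g n := by
    have e1 := Finset.sum_range_add g j N
    have e2 := Finset.sum_range_add g N j
    rw [add_comm N j] at e2
    rw [← e2, e1]
    ring
  have h3 : ‖∑ n ∈ range N, (z : ℂ) ^ (s + n) * ((b (s + n + j) : ℝ) : ℂ)‖ =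
      ‖∑ n ∈ range N, g (j + n)‖ := by
    rw [← h1, norm_mul, norm_cpow, one_mul]
  have hsum : ∀ (c : ℕ → ℕ), ‖∑ n ∈ range j, g (c n)‖ ≤ j := by
    intro c
    refine (norm_sum_le _ _).trans ?_
    refine (Finset.sum_le_sum fun n _ => hgn (c n)).trans ?_
    simp
  have hN' : (0 : ℝ) < N := Nat.cast_pos.2 hN
  rw [norm_mul, norm_mul, h3, h2, norm_inv, Complex.norm_natCast]
  have h4 : ‖∑ n ∈ range N, g n + ∑ n ∈ range j, g (N + n) - ∑ n ∈ range j, g n‖ ≤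
      ‖∑ n ∈ range N, g n‖ + 2 * j := by
    refine (norm_sub_le _ _).trans ?_
    have := norm_add_le (∑ n ∈ range N, g n) (∑ n ∈ range j, g (N + n))
    have h5 := hsum (fun n => N + n)
    have h6 := hsum (fun n => n)
    linarith
  calc (N : ℝ)⁻¹ * ‖∑ n ∈ range N, g n + ∑ n ∈ range j, g (N + n) - ∑ n ∈ range j, g n‖
      ≤ (N : ℝ)⁻¹ * (‖∑ n ∈ range N, g n‖ + 2 * j) :=
        mul_le_mul_of_nonneg_left h4 (inv_nonneg.2 hN'.le)
    _ = (N : ℝ)⁻¹ * ‖∑ n ∈ range N, g n‖ + 2 * (j : ℝ) / N := by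
        rw [mul_add, div_eq_inv_mul]

variable {Ω : Type u} [MeasurableSpace Ω]

lemma cont_coe : Continuous (fun z : Circle => (z : ℂ)) := continuous_subtype_val

lemma meas_coe {χ : Ω → Circle} (hχ : Measurable χ) : Measurable fun x => (χ x : ℂ) :=
  (Continuous.measurable (α := Circle) cont_coe).comp hχ

lemma meas_cav {S : Ω → Ω} (hS : Measurable S) {χ : Ω → Circle} (hχ : Measurable χ)
    {f : Ω → ℝ} (hf : Measurable f) (N s : ℕ) : Measurable (cav S χ f N s) := by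
  unfold cav
  refine Measurable.const_mul (Finset.measurable_sum _ fun n _ => ?_) _
  exact ((meas_coe hχ).pow_const _).mul
    (Complex.measurable_ofReal.comp (hf.comp (hS.iterate _)))

/-- The average of the powers of a character. -/
noncomputable def ker (N : ℕ) (z : Circle) : ℝ := ‖(N : ℂ)⁻¹ * ∑ n ∈ range N, (z : ℂ) ^ n‖

lemma ker_le (N : ℕ) (z : Circle) : ker N z ≤ 1 := by
  unfold ker
  rw [norm_mul, norm_inv, Complex.norm_natCast]
  have h1 : ‖∑ n ∈ range N, (z : ℂ) ^ n‖ ≤ N := by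
    refine (norm_sum_le _ _).trans ?_
    simp
  rcases Nat.eq_zero_or_pos N with rfl | hN
  · simp
  · have hN' : (0 : ℝ) < N := Nat.cast_pos.2 hN
    calc (N : ℝ)⁻¹ * ‖∑ n ∈ range N, (z : ℂ) ^ n‖ ≤ (N : ℝ)⁻¹ * N :=
          mul_le_mul_of_nonneg_left h1 (inv_nonneg.2 hN'.le)
      _ = 1 := inv_mul_cancel₀ hN'.ne'

lemma meas_ker (N : ℕ) {φ : Ω → Circle} (hφ : Measurable φ) : Measurable fun x => ker N (φ x) := by
  unfold ker
  exact (Measurable.const_mul (Finset.measurable_sum _ fun n _ =>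
    (meas_coe hφ).pow_const _) _).norm

/-- The points which are in `X` at the times `j` and `j'`. -/
def YY (S : Ω → Ω) (X : Set Ω) (j j' : ℕ) : Set Ω := {x | S^[j] x ∈ X ∧ S^[j'] x ∈ X}

/-- The quotient of the characters at the times `j` and `j'`. -/
noncomputable def ff (S : Ω → Ω) (χ : Ω → Circle) (j j' : ℕ) (x : Ω) : Circle :=
  χ (S^[j] x) * (χ (S^[j'] x))⁻¹

omit [MeasurableSpace Ω] in
lemma pre (S : Ω → Ω) (χ : Ω → Circle) (X : Set Ω) (j h : ℕ) :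
    {x | S^[j] x ∈ X ∧ S^[h + j] x ∈ X ∧ χ (S^[h + j] x) = χ (S^[j] x)} =
      (S^[j]) ⁻¹' {x | x ∈ X ∧ S^[h] x ∈ X ∧ χ (S^[h] x) = χ x} := by
  ext x
  simp only [Set.mem_preimage, Set.mem_ofPred_eq, Function.iterate_add_apply]

lemma meas_e {S : Ω → Ω} (hS : Measurable S) {χ : Ω → Circle} (hχ : Measurable χ) {X : Set Ω}
    (hX : MeasurableSet X) (h : ℕ) :
    MeasurableSet {x | x ∈ X ∧ S^[h] x ∈ X ∧ χ (S^[h] x) = χ x} := by
  refine hX.inter ((hS.iterate h hX).inter ?_)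
  have h1 : {x | χ (S^[h] x) = χ x} = {x | (χ (S^[h] x) : ℂ) = (χ x : ℂ)} := by
    ext x
    exact Circle.coe_inj.symm
  change MeasurableSet {x | χ (S^[h] x) = χ x}
  rw [h1]
  exact measurableSet_eq_fun (meas_coe (hχ.comp (hS.iterate h))) (meas_coe hχ)

lemma inter_eq (μ : Measure Ω) {S : Ω → Ω} (hS : MeasurePreserving S μ μ) {χ : Ω → Circle}
    (hχ : Measurable χ) {X : Set Ω} (hX : MeasurableSet X) (j j' : ℕ) :
    μ.real (YY S X j j' ∩ {x | ff S χ j j' x = 1}) =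
      μ.real {x | x ∈ X ∧ S^[Pool.Agent.MRec.hd j j'] x ∈ X ∧
        χ (S^[Pool.Agent.MRec.hd j j'] x) = χ x} := by
  have key : ∀ j h : ℕ, μ.real {x | S^[j] x ∈ X ∧ S^[h + j] x ∈ X ∧
      χ (S^[h + j] x) = χ (S^[j] x)} = μ.real {x | x ∈ X ∧ S^[h] x ∈ X ∧ χ (S^[h] x) = χ x} := by
    intro j h
    rw [pre, measureReal_def, measureReal_def,
      (hS.iterate j).measure_preimage (meas_e hS.measurable hχ hX h).nullMeasurableSet]
  rcases le_total j j' with hj | hj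
  · obtain ⟨h, rfl⟩ := Nat.exists_eq_add_of_le' hj
    have hh : Pool.Agent.MRec.hd j (h + j) = h := by
      unfold Pool.Agent.MRec.hd
      omega
    rw [hh, ← key j h]
    congr 1
    ext x
    simp only [YY, ff, Set.mem_inter_iff, Set.mem_ofPred_eq, mul_inv_eq_one]
    constructor
    · rintro ⟨⟨h1, h2⟩, h3⟩
      exact ⟨h1, h2, h3.symm⟩
    · rintro ⟨h1, h2, h3⟩
      exact ⟨⟨h1, h2⟩, h3.symm⟩
  · obtain ⟨h, rfl⟩ := Nat.exists_eq_add_of_le' hj
    have hh : Pool.Agent.MRec.hd (h + j') j' = h := by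
      unfold Pool.Agent.MRec.hd
      omega
    rw [hh, ← key j' h]
    congr 1
    ext x
    simp only [YY, ff, Set.mem_inter_iff, Set.mem_ofPred_eq, mul_inv_eq_one]
    constructor
    · rintro ⟨⟨h1, h2⟩, h3⟩
      exact ⟨h2, h1, h3⟩
    · rintro ⟨h1, h2, h3⟩
      exact ⟨⟨h2, h1⟩, h3⟩

lemma int_affine (μ : Measure Ω) [IsProbabilityMeasure μ] (F : Ω → ℝ) (hF : Integrable F μ)
    (a b c d : ℝ) : ∫ x, (a + b * (c * F x) + d) ∂μ = a + b * (c * ∫ x, F x ∂μ) + d := by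
  have h1 : Integrable (fun x => b * (c * F x)) μ := (hF.const_mul c).const_mul b
  have h2 : Integrable (fun x => a + b * (c * F x)) μ := (integrable_const a).add h1
  rw [integral_add h2 (integrable_const d), integral_add (integrable_const a) h1,
    integral_const_mul, integral_const_mul]
  simp

omit [MeasurableSpace Ω] in
open Classical in
/-- The pointwise inequality. -/
lemma pointwise (h_DUA : T_DUA) (S : Ω → Ω) (χ : Ω → Circle) (X : Set Ω) (f : Ω → ℝ)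
    (hf : ∀ x, |f x| ≤ 1) (J N s : ℕ) (hJ : 0 < J) (hN : 0 < N) (η : ℝ) (hη : 0 < η) (x : Ω) :
    (J : ℝ)⁻¹ * ∑ j ∈ range J, X.indicator (fun y => ‖cav S χ f N s y‖) (S^[j] x) ≤
      η / 2 + (2 * η)⁻¹ * (((J : ℝ)⁻¹) ^ 2 * ∑ j ∈ range J, ∑ j' ∈ range J,
        (YY S X j j').indicator (fun y => ker N (ff S χ j j' y)) x) + 2 * (J : ℝ) / N := by
  set G : Finset ℕ := (range J).filter fun j => S^[j] x ∈ X with hG
  have hJ' : (0 : ℝ) < J := Nat.cast_pos.2 hJ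
  have hN' : (0 : ℝ) < N := Nat.cast_pos.2 hN
  have h1 : ∑ j ∈ range J, X.indicator (fun y => ‖cav S χ f N s y‖) (S^[j] x) =
      ∑ j ∈ G, ‖cav S χ f N s (S^[j] x)‖ := by
    rw [hG, Finset.sum_filter]
    exact Finset.sum_congr rfl fun j _ => Set.indicator_apply _ _ _
  have h2 : ∀ j ∈ G, ‖cav S χ f N s (S^[j] x)‖ ≤
      ‖(N : ℂ)⁻¹ * ∑ n ∈ range N, (χ (S^[j] x) : ℂ) ^ (s + n) * ((f (S^[s + n] x) : ℝ) : ℂ)‖ +
        2 * (J : ℝ) / N := by
    intro j hj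
    have h3 := shift (χ (S^[j] x)) (fun n => f (S^[n] x)) (fun n => hf _) N s j hN
    have h4 : cav S χ f N s (S^[j] x) = (N : ℂ)⁻¹ * ∑ n ∈ range N,
        (χ (S^[j] x) : ℂ) ^ (s + n) * ((f (S^[s + n + j] x) : ℝ) : ℂ) := by
      unfold cav
      refine congrArg _ (Finset.sum_congr rfl fun n _ => ?_)
      rw [← Function.iterate_add_apply]
    rw [h4]
    refine h3.trans ?_
    have h5 : (j : ℝ) ≤ J := by
      rw [hG, Finset.mem_filter, Finset.mem_range] at hj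
      exact_mod_cast hj.1.le
    gcongr
  have h6 := h_DUA J N s (fun j => χ (S^[j] x)) G (fun n => f (S^[s + n] x)) η hJ hN hη
    (fun n => hf _)
  have h7 : ∑ j ∈ G, ∑ j' ∈ G,
      ‖(N : ℂ)⁻¹ * ∑ n ∈ range N, ((χ (S^[j] x) * (χ (S^[j'] x))⁻¹ : Circle) : ℂ) ^ n‖ =
      ∑ j ∈ range J, ∑ j' ∈ range J,
        (YY S X j j').indicator (fun y => ker N (ff S χ j j' y)) x := by
    rw [hG, Finset.sum_filter]
    refine Finset.sum_congr rfl fun j _ => ?_
    rw [Finset.sum_filter]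
    by_cases hj : S^[j] x ∈ X
    · rw [if_pos hj]
      refine Finset.sum_congr rfl fun j' _ => ?_
      rw [Set.indicator_apply]
      by_cases hj' : S^[j'] x ∈ X
      · rw [if_pos hj', if_pos (show x ∈ YY S X j j' from ⟨hj, hj'⟩)]
        rfl
      · rw [if_neg hj', if_neg (fun h : x ∈ YY S X j j' => hj' h.2)]
    · rw [if_neg hj]
      symm
      refine Finset.sum_eq_zero fun j' _ => ?_
      rw [Set.indicator_apply, if_neg (fun h : x ∈ YY S X j j' => hj h.1)]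
  rw [h7] at h6
  rw [h1]
  have h8 : (J : ℝ)⁻¹ * ∑ j ∈ G, ‖cav S χ f N s (S^[j] x)‖ ≤ (J : ℝ)⁻¹ * ∑ j ∈ G,
      ‖(N : ℂ)⁻¹ * ∑ n ∈ range N, (χ (S^[j] x) : ℂ) ^ (s + n) * ((f (S^[s + n] x) : ℝ) : ℂ)‖ +
      2 * (J : ℝ) / N := by
    have h9 := Finset.sum_le_sum h2
    rw [Finset.sum_add_distrib, Finset.sum_const, nsmul_eq_mul] at h9
    have hc : (G.card : ℝ) ≤ J := by
      have := Finset.card_filter_le (range J) fun j => S^[j] x ∈ X
      rw [Finset.card_range] at this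
      exact_mod_cast this
    have hp : (0 : ℝ) ≤ 2 * (J : ℝ) / N := by positivity
    calc (J : ℝ)⁻¹ * ∑ j ∈ G, ‖cav S χ f N s (S^[j] x)‖
        ≤ (J : ℝ)⁻¹ * (∑ j ∈ G, ‖(N : ℂ)⁻¹ * ∑ n ∈ range N, (χ (S^[j] x) : ℂ) ^ (s + n) *
          ((f (S^[s + n] x) : ℝ) : ℂ)‖ + (J : ℝ) * (2 * (J : ℝ) / N)) := by
          refine mul_le_mul_of_nonneg_left (h9.trans ?_) (inv_nonneg.2 hJ'.le)
          gcongr
      _ = _ := by
          rw [mul_add, ← mul_assoc, inv_mul_cancel₀ hJ'.ne', one_mul]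
  exact h8.trans (add_le_add_left h6 _)

end VAN_

open VAN_ in
theorem p_VAN (h_DUA : T_DUA) (h_CLM : T_CLM.{u}) (h_DEN : T_DEN.{u}) : T_VAN.{u} := by
  intro Ω _ μ _ S hS χ X hχ hX hno f hf hfb ε hε
  obtain ⟨J₀, hJ₀⟩ := h_DEN Ω μ S hS χ X hχ hX hno (ε ^ 2 / 8) (by positivity)
  set J := J₀ + 1 with hJdef
  have hJ : 0 < J := Nat.succ_pos _
  have hJ' : (0 : ℝ) < J := Nat.cast_pos.2 hJ
  have hden := hJ₀ J (Nat.le_succ _)
  set e : ℕ → ℝ := fun h => μ.real {x | x ∈ X ∧ S^[h] x ∈ X ∧ χ (S^[h] x) = χ x} with he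
  have he0 : ∀ h, 0 ≤ e h := fun h => measureReal_nonneg
  have hYm : ∀ j j', MeasurableSet (YY S X j j') := fun j j' =>
    (hS.measurable.iterate j hX).inter (hS.measurable.iterate j' hX)
  have hfm : ∀ j j', Measurable (ff S χ j j') := fun j j' =>
    (hχ.comp (hS.measurable.iterate j)).mul (hχ.comp (hS.measurable.iterate j')).inv
  have hN₀ : ∀ j j' : ℕ, ∃ N₀ : ℕ, ∀ N ≥ N₀,
      ∫ x in YY S X j j', ker N (ff S χ j j' x) ∂μ ≤
        e (Pool.Agent.MRec.hd j j') + ε ^ 2 / 4 := by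
    intro j j'
    obtain ⟨N₀, h⟩ := h_CLM Ω μ (ff S χ j j') (YY S X j j') (hfm j j') (hYm j j') (ε ^ 2 / 4)
      (by positivity)
    refine ⟨N₀, fun N hN => (h N hN).trans ?_⟩
    rw [inter_eq μ hS hχ hX j j']
  choose n₀ hn₀ using hN₀
  obtain ⟨N₁, hN₁⟩ := exists_nat_gt (8 * (J : ℝ) / ε)
  refine ⟨(∑ j ∈ range J, ∑ j' ∈ range J, n₀ j j') + N₁ + 1, fun N hN s => ?_⟩
  have hNpos : 0 < N := by omega
  have hN' : (0 : ℝ) < N := Nat.cast_pos.2 hNpos
  have hNn : ∀ j ∈ range J, ∀ j' ∈ range J, n₀ j j' ≤ N := by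
    intro j hj j' hj'
    have h1 : n₀ j j' ≤ ∑ j' ∈ range J, n₀ j j' :=
      Finset.single_le_sum (f := fun j' => n₀ j j') (fun _ _ => Nat.zero_le _) hj'
    have h2 : ∑ j' ∈ range J, n₀ j j' ≤ ∑ j ∈ range J, ∑ j' ∈ range J, n₀ j j' :=
      Finset.single_le_sum (f := fun j => ∑ j' ∈ range J, n₀ j j')
        (fun _ _ => Nat.zero_le _) hj
    omega
  have h2J : 2 * (J : ℝ) / N ≤ ε / 4 := by
    have h1 : 8 * (J : ℝ) / ε ≤ N := by
      have : (N₁ : ℝ) ≤ N := by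
        have : N₁ ≤ N := by omega
        exact_mod_cast this
      linarith
    rw [div_le_iff₀ hε] at h1
    rw [div_le_iff₀ hN']
    linarith
  -- integrability
  set A : ℕ → Ω → ℝ := fun j x => X.indicator (fun y => ‖cav S χ f N s y‖) (S^[j] x) with hA
  set B : ℕ → ℕ → Ω → ℝ := fun j j' x =>
    (YY S X j j').indicator (fun y => ker N (ff S χ j j' y)) x with hB
  have hcm : Measurable fun y => ‖cav S χ f N s y‖ := (meas_cav hS.measurable hχ hf N s).norm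
  have hcb : ∀ y, ‖cav S χ f N s y‖ ≤ 1 := by
    intro y
    unfold cav
    rw [norm_mul, norm_inv, Complex.norm_natCast]
    have h1 : ‖∑ n ∈ range N, (χ y : ℂ) ^ (s + n) * ((f (S^[s + n] y) : ℝ) : ℂ)‖ ≤ N := by
      refine (norm_sum_le _ _).trans ?_
      refine (Finset.sum_le_sum (g := fun _ => (1 : ℝ)) fun n _ => ?_).trans ?_
      · rw [norm_mul, norm_cpow, one_mul, Complex.norm_real, Real.norm_eq_abs]
        exact hfb _
      · simp
    calc (N : ℝ)⁻¹ * _ ≤ (N : ℝ)⁻¹ * N := mul_le_mul_of_nonneg_left h1 (inv_nonneg.2 hN'.le)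
      _ = 1 := inv_mul_cancel₀ hN'.ne'
  have hind : Measurable (X.indicator fun y => ‖cav S χ f N s y‖) := hcm.indicator hX
  have hindb : ∀ y, |X.indicator (fun y => ‖cav S χ f N s y‖) y| ≤ 1 := by
    intro y
    by_cases hy : y ∈ X
    · rw [Set.indicator_of_mem hy, abs_of_nonneg (norm_nonneg _)]
      exact hcb y
    · rw [Set.indicator_of_notMem hy, abs_zero]
      exact zero_le_one
  have hAi : ∀ j, Integrable (A j) μ := fun j =>
    Pool.Agent.MRec.int_of_bdd (hind.comp (hS.measurable.iterate j)) 1 fun x => hindb _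
  have hAe : ∀ j, ∫ x, A j x ∂μ = ∫ x in X, ‖cav S χ f N s x‖ ∂μ := by
    intro j
    rw [← integral_indicator hX]
    exact Pool.Agent.MRec.integral_comp_mp (hS.iterate j) hind
  have hBm : ∀ j j', Measurable (B j j') := fun j j' => (meas_ker N (hfm j j')).indicator (hYm j j')
  have hBi : ∀ j j', Integrable (B j j') μ := fun j j' =>
    Pool.Agent.MRec.int_of_bdd (hBm j j') 1 fun x => by
      change |(YY S X j j').indicator (fun y => ker N (ff S χ j j' y)) x| ≤ 1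
      by_cases hy : x ∈ YY S X j j'
      · rw [Set.indicator_of_mem hy, abs_of_nonneg (show 0 ≤ ker N (ff S χ j j' x) from
          norm_nonneg _)]
        exact ker_le _ _
      · rw [Set.indicator_of_notMem hy, abs_zero]
        exact zero_le_one
  have hBe : ∀ j j', ∫ x, B j j' x ∂μ = ∫ x in YY S X j j', ker N (ff S χ j j' x) ∂μ :=
    fun j j' => integral_indicator (hYm j j')
  -- integration of the pointwise inequality
  have hSi : Integrable (fun x => ∑ j ∈ range J, ∑ j' ∈ range J, B j j' x) μ :=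
    integrable_finsetSum _ fun j _ => integrable_finsetSum _ fun j' _ => hBi j j'
  have hint : ∫ x, (J : ℝ)⁻¹ * ∑ j ∈ range J, A j x ∂μ ≤
      ∫ x, (ε / 2 / 2 + (2 * (ε / 2))⁻¹ * (((J : ℝ)⁻¹) ^ 2 * ∑ j ∈ range J, ∑ j' ∈ range J,
        B j j' x) + 2 * (J : ℝ) / N) ∂μ := by
    refine integral_mono ((integrable_finsetSum _ fun j _ => hAi j).const_mul _)
      (((integrable_const _).add ((hSi.const_mul _).const_mul _)).add (integrable_const _))
      fun x => ?_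
    exact pointwise h_DUA S χ X f hfb J N s hJ hNpos (ε / 2) (by positivity) x
  have hL : ∫ x, (J : ℝ)⁻¹ * ∑ j ∈ range J, A j x ∂μ = ∫ x in X, ‖cav S χ f N s x‖ ∂μ := by
    rw [integral_const_mul, integral_finsetSum _ fun j _ => hAi j,
      Finset.sum_congr rfl fun j _ => hAe j, Finset.sum_const, Finset.card_range, nsmul_eq_mul,
      ← mul_assoc, inv_mul_cancel₀ hJ'.ne', one_mul]
  have hR : ∫ x, (ε / 2 / 2 + (2 * (ε / 2))⁻¹ * (((J : ℝ)⁻¹) ^ 2 * ∑ j ∈ range J,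
      ∑ j' ∈ range J, B j j' x) + 2 * (J : ℝ) / N) ∂μ =
      ε / 2 / 2 + (2 * (ε / 2))⁻¹ * (((J : ℝ)⁻¹) ^ 2 * ∑ j ∈ range J, ∑ j' ∈ range J,
        ∫ x, B j j' x ∂μ) + 2 * (J : ℝ) / N := by
    rw [int_affine μ (fun x => ∑ j ∈ range J, ∑ j' ∈ range J, B j j' x) hSi,
      integral_finsetSum _ fun j _ => integrable_finsetSum _ fun j' _ => hBi j j',
      Finset.sum_congr rfl fun j _ => integral_finsetSum _ fun j' _ => hBi j j']
  rw [hL, hR] at hint
  refine hint.trans ?_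
  -- the double sum
  have hD : ((J : ℝ)⁻¹) ^ 2 * ∑ j ∈ range J, ∑ j' ∈ range J, ∫ x, B j j' x ∂μ ≤ ε ^ 2 / 2 := by
    have h1 : ∀ j ∈ range J, ∑ j' ∈ range J, ∫ x, B j j' x ∂μ ≤
        2 * ∑ h ∈ range J, e h + J * (ε ^ 2 / 4) := by
      intro j hj
      calc ∑ j' ∈ range J, ∫ x, B j j' x ∂μ
          ≤ ∑ j' ∈ range J, (e (Pool.Agent.MRec.hd j j') + ε ^ 2 / 4) := by
            refine Finset.sum_le_sum fun j' hj' => ?_
            rw [hBe]
            exact hn₀ j j' N (hNn j hj j' hj')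
        _ = ∑ j' ∈ range J, e (Pool.Agent.MRec.hd j j') + J * (ε ^ 2 / 4) := by
            rw [Finset.sum_add_distrib, Finset.sum_const, Finset.card_range, nsmul_eq_mul]
        _ ≤ _ := by
            have := Pool.Agent.MRec.sum_hd_le e he0 J j (Finset.mem_range.1 hj)
            linarith
    have h2 := Finset.sum_le_sum h1
    rw [Finset.sum_const, Finset.card_range, nsmul_eq_mul] at h2
    have h3 : ∑ h ∈ range J, e h ≤ J * (ε ^ 2 / 8) := by
      have h4 : (J : ℝ)⁻¹ * ∑ h ∈ range J, e h ≤ ε ^ 2 / 8 := hden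
      rwa [inv_mul_le_iff₀ hJ'] at h4
    calc ((J : ℝ)⁻¹) ^ 2 * ∑ j ∈ range J, ∑ j' ∈ range J, ∫ x, B j j' x ∂μ
        ≤ ((J : ℝ)⁻¹) ^ 2 * (J * (2 * (J * (ε ^ 2 / 8)) + J * (ε ^ 2 / 4))) := by
          refine mul_le_mul_of_nonneg_left (h2.trans ?_) (by positivity)
          gcongr
      _ = ε ^ 2 / 2 := by
          field_simp
          ring
  have h9 : (2 * (ε / 2))⁻¹ * (((J : ℝ)⁻¹) ^ 2 * ∑ j ∈ range J, ∑ j' ∈ range J,
      ∫ x, B j j' x ∂μ) ≤ (2 * (ε / 2))⁻¹ * (ε ^ 2 / 2) :=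
    mul_le_mul_of_nonneg_left hD (by positivity)
  have h10 : (2 * (ε / 2))⁻¹ * (ε ^ 2 / 2) = ε / 2 := by
    field_simp
  linarith

end Pool.Agent.FSP
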