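import Pool.Agent.FSP.Targets

set_option autoImplicit false

/-!
# FSP: VOP, multiplication by a unimodular function after composition with the map
-/

open MeasureTheory Filter Topology Finset

namespace Pool.Agent.FSP

universe u

namespace VOP_

variable {Ω : Type u} [MeasurableSpace Ω] {μ : Measure Ω}

theorem meas_coe {b : Ω → Circle} (hb : Measurable b) : Measurable fun x => (b x : ℂ) := by
  have h : Continuous fun z : Circle => (z : ℂ) := by fun_prop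
  exact h.measurable.comp hb

omit [MeasurableSpace Ω] in
theorem norm_mul_eq (b : Ω → Circle) (h : Ω → ℂ) (x : Ω) : ‖(b x : ℂ) * h x‖ = ‖h x‖ := by
  rw [norm_mul, Circle.norm_coe, one_mul]

theorem memLp_mul {b : Ω → Circle} (hb : Measurable b) (h : Lp ℂ 2 μ) :
    MemLp (fun x => (b x : ℂ) * h x) 2 μ := by
  have h1 : AEStronglyMeasurable (fun x => (b x : ℂ) * h x) μ :=
    (meas_coe hb).aestronglyMeasurable.mul (Lp.aestronglyMeasurable h)
  exact (Lp.memLp h).congr_norm h1 (ae_of_all _ fun x => (norm_mul_eq b h x).symm)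

/-- Multiplication by a unimodular function. -/
noncomputable def mulV {b : Ω → Circle} (hb : Measurable b) : Lp ℂ 2 μ →ₗᵢ[ℝ] Lp ℂ 2 μ where
  toFun h := (memLp_mul hb h).toLp _
  map_add' h h' := by
    apply Lp.ext
    filter_upwards [(memLp_mul hb (h + h')).coeFn_toLp, (memLp_mul hb h).coeFn_toLp,
      (memLp_mul hb h').coeFn_toLp, Lp.coeFn_add h h',
      Lp.coeFn_add ((memLp_mul hb h).toLp _) ((memLp_mul hb h').toLp _)] with x h1 h2 h3 h4 h5
    rw [h1, h5, Pi.add_apply, h2, h3, h4, Pi.add_apply, mul_add]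
  map_smul' r h := by
    apply Lp.ext
    filter_upwards [(memLp_mul hb (r • h)).coeFn_toLp, (memLp_mul hb h).coeFn_toLp,
      Lp.coeFn_smul r h, Lp.coeFn_smul r ((memLp_mul hb h).toLp _)] with x h1 h2 h3 h4
    rw [h1, RingHom.id_apply, h4, Pi.smul_apply, h2, h3, Pi.smul_apply, mul_smul_comm]
  norm_map' h := by
    show ‖(memLp_mul hb h).toLp _‖ = ‖h‖
    rw [Lp.norm_toLp, Lp.norm_def]
    congr 1
    exact eLpNorm_congr_norm_ae (ae_of_all _ fun x => norm_mul_eq b h x)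

theorem coeFn_mulV {b : Ω → Circle} (hb : Measurable b) (h : Lp ℂ 2 μ) :
    mulV hb h =ᵐ[μ] fun x => (b x : ℂ) * h x :=
  (memLp_mul hb h).coeFn_toLp

/-- The operator. -/
noncomputable def op {b : Ω → Circle} (hb : Measurable b) {S : Ω → Ω}
    (hS : MeasurePreserving S μ μ) : Lp ℂ 2 μ →ₗᵢ[ℝ] Lp ℂ 2 μ :=
  (mulV hb).comp (Lp.compMeasurePreservingₗᵢ ℝ S hS)

theorem coeFn_op {b : Ω → Circle} (hb : Measurable b) {S : Ω → Ω}
    (hS : MeasurePreserving S μ μ) (h : Lp ℂ 2 μ) :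
    op hb hS h =ᵐ[μ] fun x => (b x : ℂ) * h (S x) := by
  have h1 : (Lp.compMeasurePreservingₗᵢ ℝ S hS h : Lp ℂ 2 μ) =ᵐ[μ] h ∘ S :=
    Lp.coeFn_compMeasurePreserving h hS
  filter_upwards [coeFn_mulV hb (Lp.compMeasurePreservingₗᵢ ℝ S hS h), h1] with x h2 h3
  show (mulV hb (Lp.compMeasurePreservingₗᵢ ℝ S hS h)) x = _
  rw [h2, h3]
  rfl

theorem iter {b : Ω → Circle} (hb : Measurable b) {S : Ω → Ω} (hS : MeasurePreserving S μ μ)
    (hbS : ∀ᵐ x ∂μ, b (S x) = b x) {F : Lp ℂ 2 μ} {f : Ω → ℝ}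
    (hF : F =ᵐ[μ] fun x => ((f x : ℝ) : ℂ)) (n : ℕ) :
    (op hb hS)^[n] F =ᵐ[μ] fun x => (b x : ℂ) ^ n * ((f (S^[n] x) : ℝ) : ℂ) := by
  induction n with
  | zero =>
    filter_upwards [hF] with x hx
    simpa using hx
  | succ n ih =>
    rw [Function.iterate_succ_apply']
    have h1 := hS.quasiMeasurePreserving.ae_eq_comp ih
    filter_upwards [coeFn_op hb hS ((op hb hS)^[n] F), h1, hbS] with x h2 h3 h4
    rw [h2]
    have h5 : ((op hb hS)^[n] F) (S x) = (b (S x) : ℂ) ^ n * ((f (S^[n] (S x)) : ℝ) : ℂ) := h3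
    rw [h5, h4, Function.iterate_succ_apply]
    ring

theorem sum_ae {b : Ω → Circle} (hb : Measurable b) {S : Ω → Ω} (hS : MeasurePreserving S μ μ)
    (hbS : ∀ᵐ x ∂μ, b (S x) = b x) {F : Lp ℂ 2 μ} {f : Ω → ℝ}
    (hF : F =ᵐ[μ] fun x => ((f x : ℝ) : ℂ)) (s N : ℕ) :
    (∑ n ∈ range N, (op hb hS)^[s + n] F : Lp ℂ 2 μ) =ᵐ[μ]
      fun x => ∑ n ∈ range N, (b x : ℂ) ^ (s + n) * ((f (S^[s + n] x) : ℝ) : ℂ) := by
  induction N with
  | zero =>
    simp only [range_zero, sum_empty]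
    exact Lp.coeFn_zero ℂ 2 μ
  | succ N ih =>
    rw [sum_range_succ]
    filter_upwards [Lp.coeFn_add (∑ n ∈ range N, (op hb hS)^[s + n] F) ((op hb hS)^[s + N] F),
      ih, iter hb hS hbS hF (s + N)] with x h1 h2 h3
    rw [h1, Pi.add_apply, h2, h3, sum_range_succ]

end VOP_

theorem p_VOP : T_VOP.{u} := by
  intro Ω _ μ _ S hS b f hb hbS hf hf1
  have hfm : MemLp (fun x => ((f x : ℝ) : ℂ)) 2 μ :=
    MemLp.of_bound (Complex.measurable_ofReal.comp hf).aestronglyMeasurable 1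
      (ae_of_all _ fun x => by
        rw [Complex.norm_real]
        exact hf1 x)
  refine ⟨VOP_.op hb hS, hfm.toLp _, hfm.coeFn_toLp, VOP_.coeFn_op hb hS, ?_⟩
  intro N s
  filter_upwards [Lp.coeFn_smul ((N : ℝ)⁻¹)
      (∑ n ∈ range N, (VOP_.op hb hS)^[s + n] (hfm.toLp _) : Lp ℂ 2 μ),
    VOP_.sum_ae hb hS hbS hfm.coeFn_toLp s N] with x h1 h2
  rw [h1, Pi.smul_apply, h2, Complex.real_smul]
  unfold cav
  push_cast
  rfl

end Pool.Agent.FSP

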