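import Pool.Agent.FSP.P_AME
import Pool.Agent.FSP.P_ASL
import Pool.Agent.FSP.P_BFN
import Pool.Agent.FSP.P_CEX
import Pool.Agent.FSP.P_CHR
import Pool.Agent.FSP.P_CLM
import Pool.Agent.FSP.P_COR
import Pool.Agent.FSP.P_CTH
import Pool.Agent.FSP.P_CTL
import Pool.Agent.FSP.P_DEC
import Pool.Agent.FSP.P_DEN
import Pool.Agent.FSP.P_DIC
import Pool.Agent.FSP.P_DUA
import Pool.Agent.FSP.P_EIA
import Pool.Agent.FSP.P_EIB
import Pool.Agent.FSP.P_ERG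
import Pool.Agent.FSP.P_EXP
import Pool.Agent.FSP.P_GTH
import Pool.Agent.FSP.P_KAV
import Pool.Agent.FSP.P_KKB
import Pool.Agent.FSP.P_KUB
import Pool.Agent.FSP.P_MET
import Pool.Agent.FSP.P_MUL
import Pool.Agent.FSP.P_NWA
import Pool.Agent.FSP.P_NWB
import Pool.Agent.FSP.P_NWC
import Pool.Agent.FSP.P_NWD
import Pool.Agent.FSP.P_ORT
import Pool.Agent.FSP.P_PAR
import Pool.Agent.FSP.P_POS
import Pool.Agent.FSP.P_PRO
import Pool.Agent.FSP.P_PSD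
import Pool.Agent.FSP.P_REC
import Pool.Agent.FSP.P_RWA
import Pool.Agent.FSP.P_RWM
import Pool.Agent.FSP.P_SEL
import Pool.Agent.FSP.P_SLA
import Pool.Agent.FSP.P_SLB
import Pool.Agent.FSP.P_SPC
import Pool.Agent.FSP.P_VAN
import Pool.Agent.FSP.P_VOP

set_option autoImplicit false

/-! Project FSP: all targets together. -/

namespace Pool.Agent.FSP

universe u

theorem f_ERG : T_ERG.{u} := p_ERG
theorem f_DEN : T_DEN.{u} := p_DEN f_ERG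
theorem f_CLM : T_CLM.{u} := p_CLM
theorem f_VAN : T_VAN.{u} := p_VAN p_DUA f_CLM f_DEN
theorem f_MET : T_MET.{u} := p_MET p_VOP
theorem f_SLA : T_SLA.{u} := p_SLA p_BFN f_MET f_VAN
theorem f_SLB : T_SLB.{u} := p_SLB p_BFN f_MET f_VAN p_PSD
theorem f_ASL : T_ASL.{u} := p_ASL f_SLA f_SLB
theorem f_KAV : T_KAV.{u} := p_KAV f_CLM
theorem f_NWA : T_NWA.{u} := p_NWA p_KKB p_KUB
theorem f_NWB : T_NWB.{u} := p_NWB p_MUL p_EXP f_KAV p_KUB f_NWA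
theorem f_NWC : T_NWC.{u} := p_NWC p_MUL p_EXP f_KAV p_KUB p_KKB f_NWA
theorem f_NWD : T_NWD.{u} := p_NWD p_MUL p_EXP p_KUB p_KKB f_NWA f_ASL
theorem f_DEC : T_DEC.{u} := p_DEC p_PRO p_SPC
theorem f_RWA : T_RWA.{u} := p_RWA (p_POS p_CEX) p_PAR p_SEL
theorem f_RWM : T_RWM.{u} := p_RWM f_RWA (p_EIA p_CEX) (p_EIB p_VOP)
theorem f_AME : T_AME.{u} := p_AME p_GTH p_CTH

/-- The recurrence theorem in the form used for the three roles. -/
theorem f_REC : T_REC.{u} :=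
  p_REC f_DEC p_ORT f_RWM (p_COR f_ERG) p_DIC p_CHR p_CTL f_NWA f_NWB f_NWC f_NWD f_AME

end Pool.Agent.FSP
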