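import Pool.Agent.MRec.Final

set_option autoImplicit false

/-!
# FSP: multiple recurrence when one map has generalised eigenvalues of finite rank
(MP_cfac66_an, ideas row 2102).
-/

open MeasureTheory Filter Topology Finset

namespace Pool.Agent.FSP

universe u

/-- The Borel sets of the circle. -/
noncomputable instance instMeasurableSpaceCircle : MeasurableSpace Circle := borel Circle

instance instBorelSpaceCircle : BorelSpace Circle := ⟨rfl⟩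

section

variable {Ω : Type u} [MeasurableSpace Ω]

/-- Indicator function with real values. -/
noncomputable def one (X : Set Ω) : Ω → ℝ := X.indicator (fun _ => (1 : ℝ))

/-- `χ` is constant along the `S`-orbits inside `X`. -/
def OrbC (μ : Measure Ω) (S : Ω → Ω) (χ : Ω → Circle) (X : Set Ω) : Prop :=
  ∀ h : ℕ, ∀ᵐ x ∂μ, x ∈ X → S^[h] x ∈ X → χ (S^[h] x) = χ x

/-- `X` has no non-null measurable part on which `χ` is constant along the `S`-orbits. -/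
def NoC (μ : Measure Ω) (S : Ω → Ω) (χ : Ω → Circle) (X : Set Ω) : Prop :=
  ∀ Y : Set Ω, Y ⊆ X → MeasurableSet Y → OrbC μ S χ Y → μ Y = 0

/-- Window average with a character. -/
noncomputable def cav (S : Ω → Ω) (χ : Ω → Circle) (f : Ω → ℝ) (N s : ℕ) (x : Ω) : ℂ :=
  (N : ℂ)⁻¹ * ∑ n ∈ range N, (χ x : ℂ) ^ (s + n) * ((f (S^[s + n] x) : ℝ) : ℂ)

/-- Window average with weights. -/
noncomputable def wav (S : Ω → Ω) (w : Ω → ℕ → ℝ) (f : Ω → ℝ) (N s : ℕ) (x : Ω) : ℝ :=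
  (N : ℝ)⁻¹ * ∑ n ∈ range N, w x (s + n) * f (S^[s + n] x)

/-- Window average of the weights. -/
noncomputable def wm (w : Ω → ℕ → ℝ) (N s : ℕ) (x : Ω) : ℝ :=
  (N : ℝ)⁻¹ * ∑ n ∈ range N, w x (s + n)

/-- Trigonometric weights with coefficients `a` and characters `χ`. -/
noncomputable def tw {ι : Type} [Fintype ι] (a : ι → ℝ) (χ : ι → Ω → Circle) (x : Ω) (n : ℕ) : ℝ :=
  ∑ i, a i * ((χ i x : ℂ) ^ n).re

/-- The mean of the trigonometric weights. -/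
noncomputable def tu {ι : Type} [Fintype ι] (a : ι → ℝ) (χ : ι → Ω → Circle) (x : Ω) : ℝ :=
  ∑ i, a i * one {y | χ i y = 1} x

/-- Fejer kernel. -/
noncomputable def kk (m : ℕ) (z : Circle) : ℝ := (m : ℝ)⁻¹ * ‖∑ a ∈ range m, (z : ℂ) ^ a‖ ^ 2

/-- Product of Fejer kernels for the frequencies `τ`. -/
noncomputable def kw (m : ℕ) {d : ℕ} (τ : Fin d → Ω → Circle) (x : Ω) (n : ℕ) : ℝ :=
  ∏ l, kk m (τ l x ^ n)

/-- The characters of the expansion of `kw`. -/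
noncomputable def chr {m d : ℕ} (τ : Fin d → Ω → Circle) (p : Fin d → Fin m × Fin m) (x : Ω) :
    Circle :=
  ∏ l, τ l x ^ ((p l).1 : ℕ) * (τ l x ^ ((p l).2 : ℕ))⁻¹

/-- The coefficients of the expansion of `kw`. -/
noncomputable def kc (m d : ℕ) : (Fin d → Fin m × Fin m) → ℝ := fun _ => ((m : ℝ)⁻¹) ^ d

/-- The mean of `kw`. -/
noncomputable def ku (m : ℕ) {d : ℕ} (τ : Fin d → Ω → Circle) (x : Ω) : ℝ :=
  tu (kc m d) (chr τ) x

/-- Normalised weights, living on the multiples of `q`. -/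
noncomputable def nw (q m : ℕ) {d : ℕ} (τ : Fin d → Ω → Circle) (x : Ω) (n : ℕ) : ℝ :=
  if q ∣ n then (q : ℝ) * kw m τ x (n / q) / ku m τ x else 0

/-- Bohr sets. -/
def bohr {d : ℕ} (τ : Fin d → Ω → Circle) (ρ : ℝ) (n : ℕ) : Set Ω :=
  {x | ∀ l, ‖(τ l x : ℂ) ^ n - 1‖ ≤ ρ}

/-- The frequencies: the functions `θ j` and the constants from `Λ`. -/
def freq {k : ℕ} (θ : Fin k → Ω → Circle) (Λ : Set Circle) : Set (Ω → Circle) :=
  Set.range θ ∪ {φ | ∃ ζ ∈ Λ, φ = fun _ => ζ}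

/-- `p` is almost periodic up to `ε` for `T` with frequencies from `F`. -/
def AP (μ : Measure Ω) (T : Ω → Ω) (F : Set (Ω → Circle)) (ε : ℝ) (p : Ω → ℝ) : Prop :=
  ∃ q : ℕ, 1 ≤ q ∧ ∃ ρ : ℝ, 0 < ρ ∧ ∃ (d : ℕ) (τ : Fin d → Ω → Circle), (∀ l, τ l ∈ F) ∧
    ∀ n : ℕ, ∀ᵐ x ∂μ, x ∈ bohr τ ρ n → |p (T^[q * n] x) - p x| ≤ ε

/-- The `L²` functions which are limits of almost periodic functions supported in `Z`. -/
def InE (μ : Measure Ω) (T : Ω → Ω) (F : Set (Ω → Circle)) (Z : Set Ω) (h : Lp ℝ 2 μ) : Prop :=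
  ∀ ε : ℝ, 0 < ε → ∃ p : Ω → ℝ, Measurable p ∧ (∀ x, x ∉ Z → p x = 0) ∧ AP μ T F ε p ∧
    ∃ hp : MemLp p 2 μ, ‖h - hp.toLp p‖ ≤ ε

/-- `g` is orthogonal to the bounded almost periodic functions supported in `Z`. -/
def OrtAP (μ : Measure Ω) (T : Ω → Ω) (F : Set (Ω → Circle)) (Z : Set Ω) (g : Ω → ℝ) : Prop :=
  ∀ v : Ω → ℝ, Measurable v → (∃ K : ℝ, ∀ x, |v x| ≤ K) → (∀ x, x ∉ Z → v x = 0) →
    (∀ ε : ℝ, 0 < ε → AP μ T F ε v) → ∫ x, g x * v x ∂μ = 0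

/-- Conditional correlation. -/
noncomputable def gam (μ : Measure Ω) (T : Ω → Ω) (g : Ω → ℝ) (h : ℕ) : Ω → ℝ :=
  μ[fun x => g (T^[h] x) * g x | MeasurableSpace.invariants T]

/-- Relative weak mixing. -/
def RWM (μ : Measure Ω) (T : Ω → Ω) (g : Ω → ℝ) : Prop :=
  Tendsto (fun H : ℕ => (H : ℝ)⁻¹ * ∑ h ∈ range H, ∫ x, |gam μ T g h x| ∂μ) atTop (𝓝 0)

/-- A power of `lam x` is a constant from `Λ` times a monomial in the `θ j x`. -/
def Rel {k : ℕ} (θ : Fin k → Ω → Circle) (Λ : Set Circle) (lam : Ω → Circle) (x : Ω) : Prop :=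
  ∃ n : ℕ, 1 ≤ n ∧ ∃ ζ ∈ Λ, ∃ a : Fin k → ℤ, lam x ^ n = ζ * ∏ j, θ j x ^ a j

/-- The generalised eigenvalues of `T` on `Z` have finite rank modulo `Λ`. -/
def FinRank (μ : Measure Ω) (T : Ω → Ω) (Z : Set Ω) {k : ℕ} (θ : Fin k → Ω → Circle)
    (Λ : Set Circle) : Prop :=
  Λ.Countable ∧ (∀ j, Measurable (θ j)) ∧ (∀ j x, θ j (T x) = θ j x) ∧
  ∀ (v : Ω → ℂ) (lam : Ω → Circle), Measurable v → Measurable lam → (∀ x, lam (T x) = lam x) →
    (∀ᵐ x ∂μ, v (T x) = (lam x : ℂ) * v x) → ∀ᵐ x ∂μ, x ∈ Z → v x ≠ 0 → Rel θ Λ lam x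

end

/-- Conditional square function of a correlation sequence. -/
noncomputable def SS (γ : ℕ → ℝ) (M : ℕ) (β : Circle) : ℝ :=
  ((M : ℝ)⁻¹) ^ 2 * ∑ n ∈ range M, ∑ n' ∈ range M,
    γ (Pool.Agent.MRec.hd n n') * (((β ^ n * (β ^ n')⁻¹ : Circle) : ℂ)).re

end Pool.Agent.FSP
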