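import Pool.Agent.FSP.Targets

set_option autoImplicit false
set_option linter.unusedVariables false

/-! Target AME of the project FSP: the main estimate. -/

open MeasureTheory Filter Topology Finset

namespace Pool.Agent.FSP

universe u

open Pool.Agent.MRec

namespace AME_

theorem one_nonneg' {Ω : Type u} (X : Set Ω) (x : Ω) : 0 ≤ one X x := by
  unfold one
  exact Set.indicator_nonneg (fun _ _ => zero_le_one) x

theorem one_le' {Ω : Type u} (X : Set Ω) (x : Ω) : one X x ≤ 1 := by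
  unfold one
  exact Set.indicator_le_self' (fun _ _ => zero_le_one) x

theorem one_meas {Ω : Type u} [MeasurableSpace Ω] {X : Set Ω} (hX : MeasurableSet X) :
    Measurable (one X) := measurable_const.indicator hX

theorem one_of_mem {Ω : Type u} {X : Set Ω} {x : Ω} (h : x ∈ X) : one X x = 1 := by
  unfold one; simp [h]

theorem mem_of_one {Ω : Type u} {X : Set Ω} {x : Ω} (h : one X x ≠ 0) : x ∈ X := by
  by_contra hcon
  exact h (by unfold one; simp [hcon])

end AME_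

open AME_

theorem p_AME (h_GTH : T_GTH.{u}) (h_CTH : T_CTH.{u}) : T_AME.{u} := by
  intro Ω _ μ _ B P S₁ S₂ hB hP hcomm hS₁ hS₂ X A hX hA f c p g hf hf0 hf1 hfA hc hc0 hc1 hp hp0
    hp1 hg hg1 hfcg w W hwm hw0 hwW hwB hwP E hE hEP q ε hq hε hcp hpE hav htail κ hκi hκ4 hκ5
    γ δ hγ hδ hγc hS1 hS2 hpos N₁
  have hne : Nonempty Ω := by
    by_contra hcon
    have h0 : IsEmpty Ω := not_nonempty_iff.1 hcon
    have h1 : μ Set.univ = 1 := measure_univ
    rw [Set.univ_eq_empty_iff.2 h0, measure_empty] at h1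
    exact zero_ne_one h1
  obtain ⟨x₀⟩ := hne
  have hW : 0 ≤ W := (hw0 x₀ 0).trans (hwW x₀ 0)
  have hwa : ∀ x n, |w x n| ≤ W := fun x n => by rw [abs_of_nonneg (hw0 x n)]; exact hwW x n
  set F : Ω → ℝ := one X with hF
  have hFm : Measurable F := one_meas hX
  have hF0 : ∀ x, 0 ≤ F x := fun x => one_nonneg' X x
  have hF1 : ∀ x, F x ≤ 1 := fun x => one_le' X x
  have hFa : ∀ x, |F x| ≤ 1 := fun x => by rw [abs_of_nonneg (hF0 x)]; exact hF1 x
  have hfa : ∀ x, |f x| ≤ 1 := fun x => by rw [abs_of_nonneg (hf0 x)]; exact hf1 x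
  obtain ⟨H, hH, L₀, hL₀⟩ := h_GTH Ω μ B P S₁ S₂ hB hP hcomm hS₁ hS₂ F g hFm hFa hg hg1 w W hwm
    hwa κ hκi hκ4 hκ5 ε hε
  obtain ⟨Nc, hNc⟩ := h_CTH Ω μ B P hB hP hcomm c p hc hc0 hc1 hp hp0 hp1 w W hwm hw0 hwW hwB hwP
    E hE hEP q ε hq hε hcp hpE hav htail
  obtain ⟨Na, hNa⟩ := hS1
  obtain ⟨Nb, hNb⟩ := hS2
  set K := L₀ + N₁ + Nc + Na + Nb + 1 with hK
  set L := q * K with hL
  have hKL : K ≤ L := Nat.le_mul_of_pos_left K (by omega)
  have hNL : L ≤ H * L := Nat.le_mul_of_pos_left L hH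
  set N := H * L with hN
  have hqN : q ∣ N := Dvd.dvd.mul_left (Dvd.intro K rfl) H
  have hN0 : 0 < N := by omega
  have hNr : (0 : ℝ) < N := by exact_mod_cast hN0
  refine ⟨N, by omega, hN0, fun s s' => ?_⟩
  by_contra hcon
  push Not at hcon
  have e3 := hL₀ L (by omega) s s'
  rw [← hN] at e3
  have e2 := hNc N (by omega) hqN s s'
  have ea := hNa N (by omega) hqN s
  have eb := hNb N (by omega) hqN s'
  -- names
  set D₁ : Ω → ℝ := wav S₁ w F N s with hD₁
  set D₂ : Ω → ℝ := wav S₂ w F N s' with hD₂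
  have hFS₁ : ∀ n, Measurable fun x => F (S₁^[n] x) := fun n => hFm.comp (hS₁.iterate n)
  have hFS₂ : ∀ n, Measurable fun x => F (S₂^[n] x) := fun n => hFm.comp (hS₂.iterate n)
  have hBP : ∀ m n, Measurable fun x => B^[m] (P^[n] x) := fun m n =>
    (hB.measurable.iterate m).comp (hP.measurable.iterate n)
  have hD₁m : Measurable D₁ := by
    apply Measurable.const_mul
    exact Finset.measurable_sum _ fun n _ => (hwm _).mul (hFS₁ _)
  have hD₂m : Measurable D₂ := by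
    apply Measurable.const_mul
    exact Finset.measurable_sum _ fun n _ => (hwm _).mul (hFS₂ _)
  have hD₁0 : ∀ x, 0 ≤ D₁ x := fun x => mul_nonneg (by positivity)
    (Finset.sum_nonneg fun n _ => mul_nonneg (hw0 _ _) (hF0 _))
  have hD₂0 : ∀ x, 0 ≤ D₂ x := fun x => mul_nonneg (by positivity)
    (Finset.sum_nonneg fun n _ => mul_nonneg (hw0 _ _) (hF0 _))
  have hD₁W : ∀ x, |D₁ x| ≤ W := by
    intro x
    apply abs_avg_le N _ W hW
    intro n
    rw [abs_mul]
    calc |w x (s + n)| * |F (S₁^[s + n] x)| ≤ W * 1 := by gcongr; exacts [hwa _ _, hFa _]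
      _ = W := mul_one _
  have hD₂W : ∀ x, |D₂ x| ≤ W := by
    intro x
    apply abs_avg_le N _ W hW
    intro n
    rw [abs_mul]
    calc |w x (s' + n)| * |F (S₂^[s' + n] x)| ≤ W * 1 := by gcongr; exacts [hwa _ _, hFa _]
      _ = W := mul_one _
  -- the functions
  set F₁ : ℕ → ℕ → Ω → ℝ := fun i j x => F x * f (B^[s + i] (P^[s' + j] x)) * F (S₁^[s + i] x)
    * F (S₂^[s' + j] x) with hF₁
  set F₂ : ℕ → ℕ → Ω → ℝ := fun i j x => (w x (s + i) * w x (s' + j)) *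
    (F x * (c (B^[s + i] (P^[s' + j] x)) - c x) * F (S₁^[s + i] x) * F (S₂^[s' + j] x)) with hF₂
  set F₃ : ℕ → ℕ → Ω → ℝ := fun i j x => (w x (s + i) * w x (s' + j)) *
    (F x * g (B^[s + i] (P^[s' + j] x)) * F (S₁^[s + i] x) * F (S₂^[s' + j] x)) with hF₃
  have hF₁m : ∀ i j, Measurable (F₁ i j) := fun i j =>
    ((hFm.mul (hf.comp (hBP _ _))).mul (hFS₁ _)).mul (hFS₂ _)
  have hF₂m : ∀ i j, Measurable (F₂ i j) := fun i j =>
    ((hwm _).mul (hwm _)).mul
      (((hFm.mul ((hc.comp (hBP _ _)).sub hc)).mul (hFS₁ _)).mul (hFS₂ _))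
  have hF₃m : ∀ i j, Measurable (F₃ i j) := fun i j =>
    ((hwm _).mul (hwm _)).mul (((hFm.mul (hg.comp (hBP _ _))).mul (hFS₁ _)).mul (hFS₂ _))
  have hF₁1 : ∀ i j x, |F₁ i j x| ≤ 1 := by
    intro i j x
    simp only [hF₁, abs_mul]
    calc |F x| * |f (B^[s + i] (P^[s' + j] x))| * |F (S₁^[s + i] x)| * |F (S₂^[s' + j] x)|
        ≤ 1 * 1 * 1 * 1 := by
          gcongr
          exacts [hFa _, hfa _, hFa _, hFa _]
      _ = 1 := by norm_num
  have hcd : ∀ x y, |c x - c y| ≤ 1 := by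
    intro x y
    rw [abs_le]; constructor
    · linarith [hc0 x, hc1 y]
    · linarith [hc1 x, hc0 y]
  have hww : ∀ i j x, |(w x (s + i) * w x (s' + j))| ≤ W * W := by
    intro i j x
    rw [abs_mul]
    exact mul_le_mul (hwa _ _) (hwa _ _) (abs_nonneg _) hW
  have hF₂1 : ∀ i j x, |F₂ i j x| ≤ (w x (s + i) * w x (s' + j)) *
      |c (B^[s + i] (P^[s' + j] x)) - c x| := by
    intro i j x
    simp only [hF₂, abs_mul, abs_of_nonneg (hw0 _ _)]
    have a1 := hFa x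
    have a2 := hFa (S₁^[s + i] x)
    have a3 := hFa (S₂^[s' + j] x)
    have a4 := hw0 x (s + i)
    have a5 := hw0 x (s' + j)
    gcongr
    calc |F x| * |c (B^[s + i] (P^[s' + j] x)) - c x| * |F (S₁^[s + i] x)| * |F (S₂^[s' + j] x)|
        ≤ 1 * |c (B^[s + i] (P^[s' + j] x)) - c x| * 1 * 1 := by gcongr
      _ = _ := by ring
  have hF₂W : ∀ i j x, |F₂ i j x| ≤ W * W := by
    intro i j x
    refine (hF₂1 i j x).trans ?_
    have b1 := hww i j x
    rw [abs_of_nonneg (mul_nonneg (hw0 _ _) (hw0 _ _))] at b1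
    calc (w x (s + i) * w x (s' + j)) * |c (B^[s + i] (P^[s' + j] x)) - c x|
        ≤ (W * W) * 1 := mul_le_mul b1 (hcd _ _) (abs_nonneg _) (mul_nonneg hW hW)
      _ = W * W := mul_one _
  have hF₃W : ∀ i j x, |F₃ i j x| ≤ W * W := by
    intro i j x
    simp only [hF₃]
    rw [abs_mul]
    have b1 := hww i j x
    have b2 : |F x * g (B^[s + i] (P^[s' + j] x)) * F (S₁^[s + i] x) * F (S₂^[s' + j] x)| ≤ 1 := by
      simp only [abs_mul]
      calc |F x| * |g (B^[s + i] (P^[s' + j] x))| * |F (S₁^[s + i] x)| * |F (S₂^[s' + j] x)|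
          ≤ 1 * 1 * 1 * 1 := by
            gcongr
            exacts [hFa _, hg1 _, hFa _, hFa _]
        _ = 1 := by norm_num
    calc _ ≤ (W * W) * 1 := mul_le_mul b1 b2 (abs_nonneg _) (mul_nonneg hW hW)
      _ = _ := mul_one _
  have hF₁i : ∀ i j, Integrable (fun x => (w x (s + i) * w x (s' + j)) * F₁ i j x) μ := by
    intro i j
    apply int_of_bdd (((hwm _).mul (hwm _)).mul (hF₁m i j)) (W * W)
    intro x
    show |(w x (s + i) * w x (s' + j)) * F₁ i j x| ≤ W * W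
    rw [abs_mul]
    calc _ ≤ (W * W) * 1 := mul_le_mul (hww i j x) (hF₁1 i j x) (abs_nonneg _) (mul_nonneg hW hW)
      _ = _ := mul_one _
  have hF₂i : ∀ i j, Integrable (F₂ i j) μ := fun i j => int_of_bdd (hF₂m i j) _ (hF₂W i j)
  have hF₃i : ∀ i j, Integrable (F₃ i j) μ := fun i j => int_of_bdd (hF₃m i j) _ (hF₃W i j)
  set Φ₂ : Ω → ℝ := fun x => (N : ℝ)⁻¹ * ∑ j ∈ Finset.range N, (N : ℝ)⁻¹ *
    ∑ i ∈ Finset.range N, F₂ i j x with hΦ₂
  set Φ₃ : Ω → ℝ := fun x => (N : ℝ)⁻¹ * ∑ j ∈ Finset.range N, (N : ℝ)⁻¹ *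
    ∑ i ∈ Finset.range N, F₃ i j x with hΦ₃
  set Ψ : Ω → ℝ := fun x => (N : ℝ)⁻¹ * ∑ j ∈ Finset.range N, (N : ℝ)⁻¹ *
    ∑ i ∈ Finset.range N, (w x (s + i) * w x (s' + j)) * F₁ i j x with hΨ
  have hΦ₂i : Integrable Φ₂ μ := (integrable_finsetSum _ fun j _ =>
    (integrable_finsetSum _ fun i _ => hF₂i i j).const_mul _).const_mul _
  have hΦ₃i : Integrable Φ₃ μ := (integrable_finsetSum _ fun j _ =>
    (integrable_finsetSum _ fun i _ => hF₃i i j).const_mul _).const_mul _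
  have hΨi : Integrable Ψ μ := (integrable_finsetSum _ fun j _ =>
    (integrable_finsetSum _ fun i _ => hF₁i i j).const_mul _).const_mul _
  -- `∫ Ψ = 0`
  have hΨ0 : ∫ x, Ψ x ∂μ = 0 := by
    simp only [hΨ]
    rw [integral_const_mul, integral_finsetSum _ fun j _ =>
      (integrable_finsetSum _ fun i _ => hF₁i i j).const_mul _]
    have : ∀ j ∈ Finset.range N, ∫ x, (N : ℝ)⁻¹ * ∑ i ∈ Finset.range N,
        (w x (s + i) * w x (s' + j)) * F₁ i j x ∂μ = 0 := by
      intro j hj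
      rw [integral_const_mul, integral_finsetSum _ fun i _ => hF₁i i j]
      have h3 : ∀ i ∈ Finset.range N, ∫ x, (w x (s + i) * w x (s' + j)) * F₁ i j x ∂μ = 0 := by
        intro i hi
        have h6 := hcon i (Finset.mem_range.1 hi) j (Finset.mem_range.1 hj)
        apply integral_eq_zero_of_ae
        rw [Filter.EventuallyEq, ae_iff]
        refine measure_mono_null ?_ h6
        intro x hx
        have hx' : (w x (s + i) * w x (s' + j)) * F₁ i j x ≠ 0 := hx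
        have hx2 : F₁ i j x ≠ 0 := right_ne_zero_of_mul hx'
        simp only [hF₁] at hx2
        have y4 := right_ne_zero_of_mul hx2
        have y3 := right_ne_zero_of_mul (left_ne_zero_of_mul hx2)
        have y2 := right_ne_zero_of_mul (left_ne_zero_of_mul (left_ne_zero_of_mul hx2))
        have y1 := left_ne_zero_of_mul (left_ne_zero_of_mul (left_ne_zero_of_mul hx2))
        exact ⟨⟨⟨mem_of_one y1, hfA _ y2⟩, mem_of_one y3⟩, mem_of_one y4⟩
      rw [Finset.sum_eq_zero h3, mul_zero]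
    rw [Finset.sum_eq_zero this, mul_zero]
  -- decomposition
  have hdec : ∀ x, Ψ x = F x * c x * D₁ x * D₂ x + Φ₂ x + Φ₃ x := by
    intro x
    have h6 : F x * c x * D₁ x * D₂ x = (N : ℝ)⁻¹ * ∑ j ∈ Finset.range N, (N : ℝ)⁻¹ *
        ∑ i ∈ Finset.range N, (w x (s + i) * w x (s' + j)) * (F x * c x * F (S₁^[s + i] x)
          * F (S₂^[s' + j] x)) := by
      simp only [hD₁, hD₂, wav]
      rw [← Finset.mul_sum]
      have h7 : (∑ n ∈ Finset.range N, w x (s + n) * F (S₁^[s + n] x)) *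
          (∑ n ∈ Finset.range N, w x (s' + n) * F (S₂^[s' + n] x))
          = ∑ j ∈ Finset.range N, ∑ i ∈ Finset.range N, (w x (s + i) * F (S₁^[s + i] x)) *
            (w x (s' + j) * F (S₂^[s' + j] x)) := by
        rw [Finset.sum_mul_sum, Finset.sum_comm]
      have h8 : ∑ j ∈ Finset.range N, ∑ i ∈ Finset.range N, (w x (s + i) * w x (s' + j)) *
          (F x * c x * F (S₁^[s + i] x) * F (S₂^[s' + j] x))
          = (F x * c x) * ∑ j ∈ Finset.range N, ∑ i ∈ Finset.range N,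
            (w x (s + i) * F (S₁^[s + i] x)) * (w x (s' + j) * F (S₂^[s' + j] x)) := by
        simp only [Finset.mul_sum]
        apply Finset.sum_congr rfl; intro j _
        apply Finset.sum_congr rfl; intro i _
        ring
      rw [h8, ← h7]
      ring
    rw [h6]
    simp only [hΨ, hΦ₂, hΦ₃]
    rw [← mul_add, ← mul_add, ← Finset.sum_add_distrib, ← Finset.sum_add_distrib]
    congr 1
    apply Finset.sum_congr rfl; intro j _
    rw [← mul_add, ← mul_add, ← Finset.sum_add_distrib, ← Finset.sum_add_distrib]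
    congr 1
    apply Finset.sum_congr rfl; intro i _
    simp only [hF₁, hF₂, hF₃]
    rw [hfcg (B^[s + i] (P^[s' + j] x))]
    ring
  -- bound of `∫ |Φ₂|`
  have hcint : ∀ i j, Integrable (fun x => (w x (s + i) * w x (s' + j)) *
      |c (B^[s + i] (P^[s' + j] x)) - c x|) μ := by
    intro i j
    apply int_of_bdd (((hwm _).mul (hwm _)).mul ((hc.comp (hBP _ _)).sub hc).abs) (W * W)
    intro x
    show |(w x (s + i) * w x (s' + j)) * (|c (B^[s + i] (P^[s' + j] x)) - c x|)| ≤ W * W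
    rw [abs_mul, abs_abs]
    calc _ ≤ (W * W) * 1 := mul_le_mul (hww i j x) (hcd _ _) (abs_nonneg _) (mul_nonneg hW hW)
      _ = _ := mul_one _
  have hΦ₂b : ∫ x, |Φ₂ x| ∂μ ≤ 11 * ε := by
    have hpt : ∀ x, |Φ₂ x| ≤ (N : ℝ)⁻¹ * ∑ j ∈ Finset.range N, (N : ℝ)⁻¹ *
        ∑ i ∈ Finset.range N, (w x (s + i) * w x (s' + j)) *
          |c (B^[s + i] (P^[s' + j] x)) - c x| := by
      intro x
      simp only [hΦ₂]
      rw [abs_mul, abs_of_nonneg (show (0 : ℝ) ≤ (N : ℝ)⁻¹ by positivity)]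
      gcongr
      refine (Finset.abs_sum_le_sum_abs _ _).trans ?_
      apply Finset.sum_le_sum; intro j _
      rw [abs_mul, abs_of_nonneg (show (0 : ℝ) ≤ (N : ℝ)⁻¹ by positivity)]
      gcongr
      refine (Finset.abs_sum_le_sum_abs _ _).trans ?_
      apply Finset.sum_le_sum; intro i _
      exact hF₂1 i j x
    have hRi : Integrable (fun x => (N : ℝ)⁻¹ * ∑ j ∈ Finset.range N, (N : ℝ)⁻¹ *
        ∑ i ∈ Finset.range N, (w x (s + i) * w x (s' + j)) *
          |c (B^[s + i] (P^[s' + j] x)) - c x|) μ := (integrable_finsetSum _ fun j _ =>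
      (integrable_finsetSum _ fun i _ => hcint i j).const_mul _).const_mul _
    exact (integral_mono hΦ₂i.abs hRi hpt).trans e2
  have hΦ₃b : ∫ x, |Φ₃ x| ∂μ ≤ ε := e3
  -- the main term
  have hi2 : Integrable (fun x => F x * c x * D₁ x * D₂ x) μ := by
    apply int_of_bdd (((hFm.mul hc).mul hD₁m).mul hD₂m) (W * W)
    intro x
    show |F x * c x * D₁ x * D₂ x| ≤ W * W
    have q0 : 0 ≤ F x * c x := mul_nonneg (hF0 x) (hc0 x)
    have q1 : F x * c x ≤ 1 := mul_le_one₀ (hF1 x) (hc0 x) (hc1 x)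
    rw [abs_mul, abs_mul, abs_of_nonneg q0]
    calc F x * c x * |D₁ x| * |D₂ x| ≤ 1 * W * W := by gcongr; exacts [hD₁W x, hD₂W x]
      _ = W * W := by ring
  have hup : ∫ x, F x * c x * D₁ x * D₂ x ∂μ ≤ 12 * ε := by
    have h9 : ∫ x, F x * c x * D₁ x * D₂ x ∂μ = ∫ x, Ψ x ∂μ - ∫ x, Φ₂ x ∂μ - ∫ x, Φ₃ x ∂μ := by
      have z2 : ∫ x, (Ψ x - Φ₂ x) ∂μ = ∫ x, Ψ x ∂μ - ∫ x, Φ₂ x ∂μ := integral_sub hΨi hΦ₂i
      have z1 : ∫ x, (Ψ x - Φ₂ x - Φ₃ x) ∂μ = ∫ x, (Ψ x - Φ₂ x) ∂μ - ∫ x, Φ₃ x ∂μ :=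
        integral_sub (hΨi.sub hΦ₂i) hΦ₃i
      rw [← z2, ← z1]
      apply integral_congr_ae
      refine ae_of_all _ fun x => ?_
      simp only [Pi.sub_apply]
      rw [hdec x]; ring
    rw [h9, hΨ0]
    have t1 : |∫ x, Φ₂ x ∂μ| ≤ ∫ x, |Φ₂ x| ∂μ := abs_integral_le_integral_abs
    have t2 : |∫ x, Φ₃ x ∂μ| ≤ ∫ x, |Φ₃ x| ∂μ := abs_integral_le_integral_abs
    have t3 := neg_abs_le (∫ x, Φ₂ x ∂μ)
    have t4 := neg_abs_le (∫ x, Φ₃ x ∂μ)
    linarith
  have hlow : γ * δ ^ 2 * (μ.real X / 2) ≤ ∫ x, F x * c x * D₁ x * D₂ x ∂μ := by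
    set G : Set Ω := {x | x ∈ X ∧ δ ≤ D₁ x ∧ δ ≤ D₂ x} with hG
    have hGm : MeasurableSet G := hX.inter
      ((measurableSet_le measurable_const hD₁m).inter (measurableSet_le measurable_const hD₂m))
    have hsub : X ⊆ G ∪ ({x | x ∈ X ∧ D₁ x < δ} ∪ {x | x ∈ X ∧ D₂ x < δ}) := by
      intro x hx
      by_cases p1 : D₁ x < δ
      · exact Or.inr (Or.inl ⟨hx, p1⟩)
      by_cases p2 : D₂ x < δ
      · exact Or.inr (Or.inr ⟨hx, p2⟩)
      push Not at p1 p2
      exact Or.inl ⟨hx, p1, p2⟩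
    have q1 : μ.real X ≤ μ.real G + (μ.real X / 4 + μ.real X / 4) := by
      refine (measureReal_mono hsub).trans ((measureReal_union_le _ _).trans ?_)
      refine add_le_add le_rfl ((measureReal_union_le _ _).trans (add_le_add ea eb))
    have q2 : μ.real X / 2 ≤ μ.real G := by linarith
    have q3 : ∫ x, G.indicator (fun _ => γ * δ ^ 2) x ∂μ ≤ ∫ x, F x * c x * D₁ x * D₂ x ∂μ := by
      apply integral_mono ((integrable_const _).indicator hGm) hi2
      intro x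
      by_cases hx : x ∈ G
      · simp only [hx, Set.indicator_of_mem]
        obtain ⟨hxX, r1, r2⟩ := hx
        have hfx : F x = 1 := one_of_mem hxX
        have hcx := hγc x hxX
        rw [hfx, one_mul]
        have y1 : γ * δ ≤ c x * D₁ x := mul_le_mul hcx r1 hδ.le (hc0 x)
        have y2 : γ * δ * δ ≤ c x * D₁ x * D₂ x :=
          mul_le_mul y1 r2 hδ.le (mul_nonneg (hc0 x) (hD₁0 x))
        calc γ * δ ^ 2 = γ * δ * δ := by ring
          _ ≤ _ := y2
      · simp only [hx, not_false_eq_true, Set.indicator_of_notMem]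
        exact mul_nonneg (mul_nonneg (mul_nonneg (hF0 x) (hc0 x)) (hD₁0 x)) (hD₂0 x)
    rw [integral_indicator hGm, setIntegral_const, smul_eq_mul] at q3
    calc γ * δ ^ 2 * (μ.real X / 2) ≤ γ * δ ^ 2 * μ.real G := by gcongr
      _ = μ.real G * (γ * δ ^ 2) := by ring
      _ ≤ _ := q3
  nlinarith

end Pool.Agent.FSP
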