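import Pool.Agent.FSP.Targets

/-!
# FSP: target ERG, mean ergodic theorem in `L¹` with the conditional expectation
-/

set_option autoImplicit false

open MeasureTheory Filter Topology Finset

namespace Pool.Agent.FSP

universe u

namespace ERG_

open Pool.Agent.MRec

variable {Ω : Type u} [MeasurableSpace Ω] {μ : Measure Ω} [IsProbabilityMeasure μ]

omit [IsProbabilityMeasure μ] in
/-- A fixed vector with vanishing integrals on the invariant sets is nonpositive. -/
theorem nonpos {S : Ω → Ω} (hS : MeasurePreserving S μ μ) (D : Ω → ℝ) (hD : StronglyMeasurable D)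
    (hDi : Integrable D μ) (hDS : D ∘ S =ᵐ[μ] D)
    (h0 : ∀ t, MeasurableSet t → S ⁻¹' t = t → ∫ x in t, D x ∂μ = 0) :
    ∀ᵐ x ∂μ, D x ≤ 0 := by
  set P : Set Ω := {x | 0 < D x} with hP
  have hPm : MeasurableSet P := measurableSet_lt measurable_const hD.measurable
  have hPS : S ⁻¹' P =ᵐ[μ] P := by
    filter_upwards [hDS] with x hx
    have h1 : D (S x) = D x := hx
    change (S x ∈ P) = (x ∈ P)
    simp only [hP, Set.mem_ofPred_eq, h1]
  obtain ⟨t, ht, htP, htS⟩ :=
    hS.quasiMeasurePreserving.exists_preimage_eq_of_preimage_ae hPm.nullMeasurableSet hPS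
  have h1 : ∫ x in P, D x ∂μ = 0 := by
    rw [← setIntegral_congr_set htP]
    exact h0 t ht htS
  rw [← integral_indicator hPm] at h1
  rw [integral_eq_zero_iff_of_nonneg_ae ?_ (hDi.indicator hPm)] at h1
  · filter_upwards [h1] with x hx
    by_contra hcon
    push Not at hcon
    have h2 : x ∈ P := hcon
    rw [Set.indicator_of_mem h2] at hx
    exact hcon.ne' hx
  · refine ae_of_all _ fun x => ?_
    by_cases hx : x ∈ P
    · rw [Set.indicator_of_mem hx]
      exact le_of_lt hx
    · rw [Set.indicator_of_notMem hx]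
      exact le_rfl

theorem koop_inv {S : Ω → Ω} (hS : MeasurePreserving S μ μ) {t : Set Ω} (ht : MeasurableSet t)
    (htS : S ⁻¹' t = t) : koop S hS (ind μ ht) = ind μ ht := by
  apply Lp.ext
  filter_upwards [koop_congr_ae (hT := hS) (coeFn_ind (ν := μ) ht),
    coeFn_ind (ν := μ) ht] with y h1 h2
  rw [h1, h2]
  have h3 : S y ∈ t ↔ y ∈ t := by
    have : y ∈ S ⁻¹' t ↔ y ∈ t := by rw [htS]
    exact this
  simp only [Function.comp]
  by_cases hy : y ∈ t
  · rw [Set.indicator_of_mem hy, Set.indicator_of_mem (h3.2 hy)]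
  · rw [Set.indicator_of_notMem hy, Set.indicator_of_notMem fun h => hy (h3.1 h)]

/-- The projection vanishes if all integrals over invariant sets vanish. -/
theorem proj_zero {S : Ω → Ω} (hS : MeasurePreserving S μ μ) (h : Lp ℝ 2 μ)
    (h0 : ∀ t, MeasurableSet t → S ⁻¹' t = t → ∫ x in t, h x ∂μ = 0) :
    proj (koop S hS) h = 0 := by
  set D := proj (koop S hS) h with hD
  have hfix : koop S hS D = D := proj_fixed _ _
  have hDS : (⇑D) ∘ S =ᵐ[μ] D := by
    have := coeFn_koop S hS D
    rw [hfix] at this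
    exact this.symm
  have hDi : Integrable D μ := (Lp.memLp D).integrable (by norm_num)
  have h1 : ∀ t, MeasurableSet t → S ⁻¹' t = t → ∫ x in t, D x ∂μ = 0 := by
    intro t ht htS
    rw [← inner_ind_right D ht, hD, inner_proj_of_fixed _ _ _ (koop_inv hS ht htS),
      inner_ind_right h ht]
    exact h0 t ht htS
  have a1 := nonpos hS D (Lp.stronglyMeasurable D) hDi hDS h1
  have a2 := nonpos hS (fun x => -D x) (Lp.stronglyMeasurable D).neg hDi.neg
    (by
      filter_upwards [hDS] with x hx
      have h2 : D (S x) = D x := hx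
      change -D (S x) = -D x
      rw [h2])
    (fun t ht htS => by rw [integral_neg, h1 t ht htS, neg_zero])
  apply Lp.ext
  filter_upwards [a1, a2, Lp.coeFn_zero ℝ 2 μ] with x h2 h3 h4
  rw [h4]
  simp only [Pi.zero_apply]
  linarith

end ERG_

open ERG_ Pool.Agent.MRec in
theorem p_ERG : T_ERG.{u} := by
  intro Ω _ μ _ S hS F C hF hC ε hε
  have hIm := MeasurableSpace.invariants_le S
  set e : Ω → ℝ := μ[F | MeasurableSpace.invariants S] with he
  have hFm : MemLp F 2 μ := MemLp.of_bound hF.aestronglyMeasurable C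
    (ae_of_all _ fun x => by rw [Real.norm_eq_abs]; exact hC x)
  have hFi : Integrable F μ := hFm.integrable (by norm_num)
  have hem : MemLp e 2 μ := hFm.condExp (by norm_num)
  have hei : Integrable e μ := integrable_condExp
  have heS : e ∘ S = e :=
    MeasurableSpace.comp_eq_of_measurable_invariants stronglyMeasurable_condExp.measurable
  have hej : ∀ j x, e (S^[j] x) = e x := by
    intro j
    induction j with
    | zero => intro x; rfl
    | succ j ih =>
      intro x
      rw [Function.iterate_succ_apply, ih (S x)]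
      exact congrFun heS x
  have hHm : MemLp (fun x => F x - e x) 2 μ := hFm.sub hem
  set hL : Lp ℝ 2 μ := hHm.toLp (fun x => F x - e x) with hhL
  have hLae : hL =ᵐ[μ] fun x => F x - e x := hHm.coeFn_toLp
  have hproj : proj (koop S hS) hL = 0 := by
    refine proj_zero hS hL fun t ht htS => ?_
    have h1 : ∫ x in t, hL x ∂μ = ∫ x in t, (F x - e x) ∂μ :=
      setIntegral_congr_ae ht (by filter_upwards [hLae] with x hx _ using hx)
    rw [h1, integral_sub hFi.integrableOn hei.integrableOn]
    have ht' : MeasurableSet[MeasurableSpace.invariants S] t :=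
      MeasurableSpace.measurableSet_invariants.2 ⟨ht, htS⟩
    rw [he, setIntegral_condExp hIm hFi ht', sub_self]
  have ht := tendsto_avg (koop S hS) hL
  rw [hproj, Metric.tendsto_atTop] at ht
  obtain ⟨N₀, hN₀⟩ := ht ε hε
  refine ⟨max N₀ 1, fun N hN => ?_⟩
  have hN1 : 1 ≤ N := (le_max_right _ _).trans hN
  have h1 := (hN₀ N ((le_max_left _ _).trans hN)).le
  rw [dist_eq_norm, sub_zero] at h1
  refine le_trans ?_ h1
  apply integral_abs_le_norm
  have h2 : ∀ N : ℕ, (∑ n ∈ Finset.range N, (koop S hS)^[n] hL : Lp ℝ 2 μ) =ᵐ[μ] fun x =>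
      ∑ j ∈ Finset.range N, (F (S^[j] x) - e x) := by
    intro N
    induction N with
    | zero =>
      simp only [Finset.range_zero, Finset.sum_empty]
      exact Lp.coeFn_zero ℝ 2 μ
    | succ N ih =>
      rw [Finset.sum_range_succ]
      refine (Lp.coeFn_add _ _).trans ?_
      filter_upwards [ih, coeFn_koop_iterate S hS hL N hLae] with p hp hp'
      rw [Pi.add_apply, hp, hp', Finset.sum_range_succ]
      simp only [Function.comp, hej]
  filter_upwards [h2 N,
    Lp.coeFn_smul ((N : ℝ)⁻¹) (∑ n ∈ Finset.range N, (koop S hS)^[n] hL : Lp ℝ 2 μ)] with x e2 e3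
  unfold avg
  rw [e3, Pi.smul_apply, e2, Finset.sum_sub_distrib, Finset.sum_const, Finset.card_range,
    nsmul_eq_mul, smul_eq_mul, mul_sub, ← mul_assoc, inv_mul_cancel₀, one_mul]
  have : (0 : ℝ) < N := by exact_mod_cast hN1
  exact this.ne'

end Pool.Agent.FSP
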