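import Pool.Agent.FSP.Targets

set_option autoImplicit false

/-!
# FSP: the target T_PSD
-/

open MeasureTheory Filter Topology Finset

namespace Pool.Agent.FSP

universe u

section

variable {Ω : Type u} [MeasurableSpace Ω]

lemma PSD_iter_ae {β : Type*} (μ : Measure Ω) (S : Ω → Ω) (hS : MeasurePreserving S μ μ)
    (f : Ω → β) (h : ∀ᵐ x ∂μ, f (S x) = f x) : ∀ᵐ x ∂μ, ∀ n : ℕ, f (S^[n] x) = f x := by
  have h1 : ∀ n : ℕ, ∀ᵐ x ∂μ, f (S (S^[n] x)) = f (S^[n] x) := fun n =>
    (hS.iterate n).quasiMeasurePreserving.ae h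
  filter_upwards [ae_all_iff.mpr h1] with x hx n
  induction n with
  | zero => rfl
  | succ n ih => rw [Function.iterate_succ_apply', hx n, ih]

/-- The average of the indicator function. -/
noncomputable def PSD_A (S : Ω → Ω) (Y : Set Ω) (N : ℕ) (x : Ω) : ℝ :=
  (N : ℝ)⁻¹ * ∑ n ∈ range N, one Y (S^[n] x)

omit [MeasurableSpace Ω] in
lemma PSD_one_nonneg (Y : Set Ω) (x : Ω) : 0 ≤ one Y x := by
  unfold one
  exact Set.indicator_nonneg (fun _ _ => zero_le_one) x

omit [MeasurableSpace Ω] in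
lemma PSD_one_le (Y : Set Ω) (x : Ω) : one Y x ≤ 1 := by
  unfold one
  exact Set.indicator_le_self' (fun _ _ => zero_le_one) x

lemma PSD_one_meas (Y : Set Ω) (hY : MeasurableSet Y) : Measurable (one Y) := by
  unfold one
  exact measurable_const.indicator hY

lemma PSD_A_meas (S : Ω → Ω) (hS : Measurable S) (Y : Set Ω) (hY : MeasurableSet Y) (N : ℕ) :
    Measurable (PSD_A S Y N) := by
  unfold PSD_A
  exact (Finset.measurable_sum _ fun n _ =>
    (PSD_one_meas Y hY).comp (hS.iterate n)).const_mul _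

omit [MeasurableSpace Ω] in
lemma PSD_A_nonneg (S : Ω → Ω) (Y : Set Ω) (N : ℕ) (x : Ω) : 0 ≤ PSD_A S Y N x := by
  unfold PSD_A
  exact mul_nonneg (by positivity) (Finset.sum_nonneg fun n _ => PSD_one_nonneg Y _)

omit [MeasurableSpace Ω] in
lemma PSD_A_le (S : Ω → Ω) (Y : Set Ω) (N : ℕ) (hN : 0 < N) (x : Ω) : PSD_A S Y N x ≤ 1 := by
  unfold PSD_A
  have h1 : ∑ n ∈ range N, one Y (S^[n] x) ≤ ∑ _n ∈ range N, (1 : ℝ) :=
    Finset.sum_le_sum fun n _ => PSD_one_le Y _
  rw [Finset.sum_const, card_range, nsmul_eq_mul, mul_one] at h1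
  have hN' : (0 : ℝ) < N := by exact_mod_cast hN
  rw [inv_mul_le_iff₀ hN', mul_one]
  exact h1

lemma PSD_A_int (μ : Measure Ω) [IsProbabilityMeasure μ] (S : Ω → Ω)
    (hS : MeasurePreserving S μ μ) (Y : Set Ω) (hY : MeasurableSet Y) (N : ℕ) (hN : 0 < N) :
    ∫ x, PSD_A S Y N x ∂μ = μ.real Y := by
  unfold PSD_A
  rw [integral_const_mul, integral_finsetSum]
  · have h1 : ∀ n ∈ range N, ∫ x, one Y (S^[n] x) ∂μ = μ.real Y := by
      intro n _
      have h2 : (fun x => one Y (S^[n] x)) = (S^[n] ⁻¹' Y).indicator (1 : Ω → ℝ) := by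
        funext x
        unfold one
        by_cases hx : S^[n] x ∈ Y
        · rw [Set.indicator_of_mem hx, Set.indicator_of_mem (show x ∈ S^[n] ⁻¹' Y from hx)]
          rfl
        · rw [Set.indicator_of_notMem hx, Set.indicator_of_notMem (show x ∉ S^[n] ⁻¹' Y from hx)]
      rw [h2, integral_indicator_one ((hS.iterate n).measurable hY)]
      unfold Measure.real
      rw [(hS.iterate n).measure_preimage hY.nullMeasurableSet]
    rw [Finset.sum_congr rfl h1, Finset.sum_const, card_range, nsmul_eq_mul]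
    have hN' : (N : ℝ) ≠ 0 := by exact_mod_cast hN.ne'
    field_simp
  · intro n _
    exact Integrable.of_bound
      (((PSD_one_meas Y hY).comp (hS.measurable.iterate n)).aestronglyMeasurable) 1
      (Filter.Eventually.of_forall fun x => by
        rw [Real.norm_of_nonneg (PSD_one_nonneg Y _)]
        exact PSD_one_le Y _)

lemma PSD_jensen (μ : Measure Ω) [IsProbabilityMeasure μ] (f : Ω → ℝ) (hf : Integrable f μ)
    (hf2 : Integrable (fun x => f x ^ 2) μ) : (∫ x, f x ∂μ) ^ 2 ≤ ∫ x, f x ^ 2 ∂μ := by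
  set c := ∫ x, f x ∂μ with hc
  have h1 : 0 ≤ ∫ x, (f x - c) ^ 2 ∂μ := integral_nonneg fun x => sq_nonneg _
  have h2 : ∫ x, (f x - c) ^ 2 ∂μ = ∫ x, f x ^ 2 ∂μ - c ^ 2 := by
    have h3 : (fun x => (f x - c) ^ 2) = fun x => (f x ^ 2 - (2 * c) * f x) + c ^ 2 := by
      funext x
      ring
    rw [h3, integral_add, integral_sub, integral_const_mul, integral_const, ← hc]
    · simp only [probReal_univ, smul_eq_mul, one_mul]
      ring
    · exact hf2
    · exact hf.const_mul _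
    · exact hf2.sub (hf.const_mul _)
    · exact integrable_const _
  linarith

omit [MeasurableSpace Ω] in
lemma PSD_cav_one (S : Ω → Ω) (b : Ω → Circle) (r : Ω → ℝ) (Y : Set Ω) (N : ℕ) (x : Ω)
    (hb : b x = 1) (hr : ∀ n, r (S^[n] x) = r x) :
    cav S b (fun y => r y * one Y y) N 0 x = ((r x * PSD_A S Y N x : ℝ) : ℂ) := by
  have h1 : ∑ n ∈ range N, ((b x : Circle) : ℂ) ^ (0 + n) *
      (((r (S^[0 + n] x) * one Y (S^[0 + n] x) : ℝ)) : ℂ) =
      (r x : ℂ) * ∑ n ∈ range N, ((one Y (S^[n] x) : ℝ) : ℂ) := by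
    rw [Finset.mul_sum]
    apply Finset.sum_congr rfl
    intro n _
    rw [hb, Circle.coe_one, one_pow, one_mul, zero_add, hr n, Complex.ofReal_mul]
  unfold cav PSD_A
  rw [h1]
  push_cast
  ring

omit [MeasurableSpace Ω] in
lemma PSD_point {ι : Type} [Fintype ι] (S : Ω → Ω) (a : ι → ℝ) (b : ι → Ω → Circle) (r : Ω → ℝ)
    (Y : Set Ω) (N : ℕ) (ha : ∀ i, 0 ≤ a i) (x : Ω) (hb : ∀ i, ∀ n, b i (S^[n] x) = b i x)
    (hr : ∀ n, r (S^[n] x) = r x)
    (hY : ∀ n, S^[n] x ∈ Y → 1 ≤ tu a b (S^[n] x) * r (S^[n] x) ^ 2) :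
    (PSD_A S Y N x) ^ 2 ≤ ∑ i, a i * ‖cav S (b i) (fun y => r y * one Y y) N 0 x‖ ^ 2 := by
  have h0 : ∀ i, 0 ≤ a i * ‖cav S (b i) (fun y => r y * one Y y) N 0 x‖ ^ 2 := fun i =>
    mul_nonneg (ha i) (sq_nonneg _)
  by_cases hA : ∃ n ∈ range N, S^[n] x ∈ Y
  · obtain ⟨n, -, hn⟩ := hA
    have h1 := hY n hn
    have h2 : tu a b (S^[n] x) = tu a b x := by
      unfold tu one
      apply Finset.sum_congr rfl
      intro i _
      congr 1
      by_cases hi : b i x = 1
      · rw [Set.indicator_of_mem (show x ∈ {y | b i y = 1} from hi),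
          Set.indicator_of_mem (show S^[n] x ∈ {y | b i y = 1} from by
            rw [Set.mem_ofPred_eq, hb i n]; exact hi)]
      · rw [Set.indicator_of_notMem (show x ∉ {y | b i y = 1} from hi),
          Set.indicator_of_notMem (show S^[n] x ∉ {y | b i y = 1} from by
            rw [Set.mem_ofPred_eq, hb i n]; exact hi)]
    rw [h2, hr n] at h1
    have h3 : tu a b x * r x ^ 2 * (PSD_A S Y N x) ^ 2 ≤
        ∑ i, a i * ‖cav S (b i) (fun y => r y * one Y y) N 0 x‖ ^ 2 := by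
      unfold tu
      rw [Finset.sum_mul, Finset.sum_mul]
      apply Finset.sum_le_sum
      intro i _
      by_cases hi : b i x = 1
      · rw [PSD_cav_one S (b i) r Y N x hi hr, Complex.norm_real, Real.norm_eq_abs, sq_abs]
        unfold one
        rw [Set.indicator_of_mem (show x ∈ {y | b i y = 1} from hi)]
        apply le_of_eq
        ring
      · unfold one at h0 ⊢
        rw [Set.indicator_of_notMem (show x ∉ {y | b i y = 1} from hi), mul_zero, zero_mul,
          zero_mul]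
        exact h0 i
    refine le_trans ?_ h3
    nlinarith [sq_nonneg (PSD_A S Y N x)]
  · have h1 : PSD_A S Y N x = 0 := by
      unfold PSD_A
      rw [Finset.sum_eq_zero, mul_zero]
      intro n hn
      unfold one
      exact Set.indicator_of_notMem (fun h => hA ⟨n, hn, h⟩) _
    rw [h1]
    have := Finset.sum_nonneg fun i (_ : i ∈ Finset.univ) => h0 i
    simpa using this

lemma PSD_cav_meas (S : Ω → Ω) (hS : Measurable S) (b : Ω → Circle) (hb : Measurable b)
    (f : Ω → ℝ) (hf : Measurable f) (N s : ℕ) : Measurable (cav S b f N s) := by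
  unfold cav
  have hc : Continuous (fun z : Circle => (z : ℂ)) := continuous_subtype_val
  have h1 : Measurable fun x => ((b x : Circle) : ℂ) :=
    hc.measurable.comp hb
  refine (Finset.measurable_sum _ fun n _ => ?_).const_mul _
  exact (h1.pow_const _).mul (Complex.measurable_ofReal.comp (hf.comp (hS.iterate _)))

omit [MeasurableSpace Ω] in
lemma PSD_cav_le (S : Ω → Ω) (b : Ω → Circle) (f : Ω → ℝ) (hf : ∀ x, |f x| ≤ 1) (N s : ℕ)
    (hN : 0 < N) (x : Ω) : ‖cav S b f N s x‖ ≤ 1 := by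
  unfold cav
  have hN' : (0 : ℝ) < N := by exact_mod_cast hN
  rw [norm_mul, norm_inv, Complex.norm_natCast, inv_mul_le_iff₀ hN', mul_one]
  refine le_trans (norm_sum_le _ _) ?_
  have h1 : ∀ n ∈ range N, ‖((b x : Circle) : ℂ) ^ (s + n) * ((f (S^[s + n] x) : ℝ) : ℂ)‖ ≤ 1 := by
    intro n _
    rw [norm_mul, norm_pow, Circle.norm_coe, one_pow, one_mul, Complex.norm_real,
      Real.norm_eq_abs]
    exact hf _
  refine le_trans (Finset.sum_le_sum h1) ?_
  rw [Finset.sum_const, card_range, nsmul_eq_mul, mul_one]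

end

theorem p_PSD : T_PSD.{u} := by
  intro Ω _ μ _ S hS ι _ a b r Y ha hb hbi hr hr0 hr1 hri hY hYt N hN
  have hg : Measurable fun y => r y * one Y y := hr.mul (PSD_one_meas Y hY)
  have hgb : ∀ y, |r y * one Y y| ≤ 1 := by
    intro y
    rw [abs_of_nonneg (mul_nonneg (hr0 y) (PSD_one_nonneg Y y))]
    exact mul_le_one₀ (hr1 y) (PSD_one_nonneg Y y) (PSD_one_le Y y)
  have hI : ∀ i, Integrable (fun x => a i *
      ‖cav S (b i) (fun y => r y * one Y y) N 0 x‖ ^ 2) μ := by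
    intro i
    apply Integrable.const_mul
    refine Integrable.of_bound
      (((PSD_cav_meas S hS.measurable (b i) (hb i) _ hg N 0).norm.pow_const 2).aestronglyMeasurable)
      1 (Filter.Eventually.of_forall fun x => ?_)
    rw [Real.norm_of_nonneg (sq_nonneg _)]
    exact pow_le_one₀ (norm_nonneg _) (PSD_cav_le S (b i) _ hgb N 0 hN x)
  have hA : Integrable (PSD_A S Y N) μ :=
    Integrable.of_bound (PSD_A_meas S hS.measurable Y hY N).aestronglyMeasurable 1
      (Filter.Eventually.of_forall fun x => by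
        rw [Real.norm_of_nonneg (PSD_A_nonneg S Y N x)]
        exact PSD_A_le S Y N hN x)
  have hA2 : Integrable (fun x => PSD_A S Y N x ^ 2) μ :=
    Integrable.of_bound ((PSD_A_meas S hS.measurable Y hY N).pow_const 2).aestronglyMeasurable 1
      (Filter.Eventually.of_forall fun x => by
        rw [Real.norm_of_nonneg (sq_nonneg _)]
        exact pow_le_one₀ (PSD_A_nonneg S Y N x) (PSD_A_le S Y N hN x))
  have h1 : ∑ i, a i * ∫ x, ‖cav S (b i) (fun y => r y * one Y y) N 0 x‖ ^ 2 ∂μ =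
      ∫ x, ∑ i, a i * ‖cav S (b i) (fun y => r y * one Y y) N 0 x‖ ^ 2 ∂μ := by
    rw [integral_finsetSum _ fun i _ => hI i]
    exact Finset.sum_congr rfl fun i _ => (integral_const_mul _ _).symm
  rw [h1, ← PSD_A_int μ S hS Y hY N hN]
  refine le_trans (PSD_jensen μ _ hA hA2) ?_
  apply integral_mono_ae hA2 (integrable_finsetSum _ fun i _ => hI i)
  have e1 : ∀ᵐ x ∂μ, ∀ i, ∀ n : ℕ, b i (S^[n] x) = b i x :=
    ae_all_iff.mpr fun i => PSD_iter_ae μ S hS (b i) (hbi i)
  have e2 := PSD_iter_ae μ S hS r hri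
  have e3 : ∀ᵐ x ∂μ, ∀ n : ℕ, S^[n] x ∈ Y → 1 ≤ tu a b (S^[n] x) * r (S^[n] x) ^ 2 :=
    ae_all_iff.mpr fun n => (hS.iterate n).quasiMeasurePreserving.ae hYt
  filter_upwards [e1, e2, e3] with x x1 x2 x3
  exact PSD_point S a b r Y N ha x x1 x2 x3

end Pool.Agent.FSP
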