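import Pool.Agent.FSP.Defs

set_option autoImplicit false

/-!
# FSP targets (MP_cfac66_an, ideas row 2102). Every target has its proof in the docstring.
`MRec` is the landed library `Pool/Agent/MRec` (real Hilbert space facts `avg`, `proj`,
`tendsto_avg`, `proj_fixed`, `norm_window_sub`, `inner_proj_self`; Koopman operator `koop`).
Everything is about one probability space ` (Ω, μ)`; `I = MeasurableSpace.invariants S`.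
-/

open MeasureTheory Filter Topology Finset

namespace Pool.Agent.FSP

universe u

/-! ## A. The S-side -/

/-- ERG. Mean ergodic theorem in `L¹` with the conditional expectation on the invariant sets.
PROOF. Let `e = μ[F | I]`, bounded by `C` a.e., `e ∘ S = e` exactly (`e` is `I`-measurable:
`MeasurableSpace.comp_eq_of_measurable_invariants`). Let `D = proj (koop S) (F - e)` in
`Lp ℝ 2 μ`; `avg N (F - e) → D` (MRec.tendsto_avg), `D ∘ S = D` a.e. For `t ∈ I` the indicator is a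
fixed vector, so `∫_t D = ⟪F - e, 1_t⟫ = 0` (MRec.inner_proj_of_fixed, `setIntegral_condExp`). The
set `{D > 0}` is a.e. invariant, hence a.e. equal to some `t ∈ I`
(`QuasiMeasurePreserving.exists_preimage_eq_of_preimage_ae`), so `D ≤ 0` a.e.; in the same way
`D ≥ 0`. So `avg N (F - e) → 0` in `L²`, hence in `L¹` (MRec.integral_abs_le_norm), and
` (1/N) ∑ e (S^j x) = e x` for `N > 0`. Compare MRec.erg_L1. -/
def T_ERG : Prop := ∀ (Ω : Type u) [MeasurableSpace Ω] (μ : Measure Ω) [IsProbabilityMeasure μ]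
  (S : Ω → Ω), MeasurePreserving S μ μ → ∀ (F : Ω → ℝ) (C : ℝ), Measurable F → (∀ x, |F x| ≤ C) →
  ∀ ε : ℝ, 0 < ε → ∃ N₀ : ℕ, ∀ N ≥ N₀,
    ∫ x, |(N : ℝ)⁻¹ * ∑ j ∈ range N, F (S^[j] x) - (μ[F | MeasurableSpace.invariants S]) x| ∂μ ≤ ε

/-- BFN. A function constant along orbits in `X` agrees on `X` with an invariant function.
PROOF. `b y = χ (S^h y)` for the least `h ≥ 0` with `S^h y ∈ X`, `b y = 1` if there is none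
(`Measurable.find` or a countable union). If the least `h` for `y` is `≥ 1` then it is `h - 1` for
`S y`. If `y ∈ X`: by Poincare recurrence (`MeasurePreserving.conservative`,
`Conservative.ae_mem_imp_frequently_image_mem`) a.e. `y ∈ X` returns; let `h' ≥ 0` be least with
`S^(h'+1) y ∈ X`; `b (S y) = χ (S^(h'+1) y) = χ y = b y` by `OrbC` (a.e. for all `h` at once). -/
def T_BFN : Prop := ∀ (Ω : Type u) [MeasurableSpace Ω] (μ : Measure Ω) [IsProbabilityMeasure μ]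
  (S : Ω → Ω), MeasurePreserving S μ μ → ∀ (χ : Ω → Circle) (X : Set Ω), Measurable χ →
  MeasurableSet X → OrbC μ S χ X →
  ∃ b : Ω → Circle, Measurable b ∧ (∀ᵐ x ∂μ, b (S x) = b x) ∧ ∀ᵐ x ∂μ, x ∈ X → b x = χ x

/-- DEN. Returns with the same value are rare if `NoC`. PROOF. `Circle` has a countable sequence
of measurable sets `U_i` separating points (second countable, e.g. `exists_seq_separating` or a
countable basis); `cell n z : Fin n → Bool` is the pattern of `z` with respect to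
`U_0, .., U_{n-1}`; `X_{n,c} = {x ∈ X | cell n (χ x) = c}`, `E_{n,c} = μ[1_{X_{n,c}} | I]` (exactly
invariant). A.e., for all `n`, `c`, `n'`, `c'`: `0 ≤ E_{n,c} ≤ 1`, `E_{n',c'} ≤ E_{n,c}` if `c'`
extends `c`, and `E_{n',c'} + E_{n',c''} ≤ E_{n,c}` if `c' ≠ c''` both extend `c` (`condExp_mono`,
`condExp_add`). Put `d_n x = E_{n, cell n (χ x)} x` and `d = inf_n d_n` (decreasing in `n`).
(1) `d = 0` a.e. on `X`: else some `Y = {x ∈ X_{n,c} | d x > E_{n,c} x / 2}` is not null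
(if `d x > 0` then `d_n x < 2 d x` for some `n`); `OrbC μ S χ Y`: let `x, y = S^h x ∈ Y` (a.e. `x`)
and `χ x ≠ χ y`; for some `n' ≥ n` the cells `c' = cell n' (χ x)`, `c'' = cell n' (χ y)` differ,
both extend `c`, and
`E_{n,c} x < d x + d y ≤ E_{n',c'} x + E_{n',c''} x ≤ E_{n,c} x` (all `E` are invariant), a
contradiction; so `NoC` gives `μ Y = 0`, contradiction. (2) For every `n` the number in the claim
is at most ` (1/J) ∑_h ∑_c μ (X_{n,c} ∩ S^{-h} X_{n,c})`, which tends by ERG to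
`∑_c ∫ 1_{X_{n,c}} E_{n,c} = ∫_X d_n`, and `∫_X d_n → ∫_X d = 0` (dominated convergence). -/
def T_DEN : Prop := ∀ (Ω : Type u) [MeasurableSpace Ω] (μ : Measure Ω) [IsProbabilityMeasure μ]
  (S : Ω → Ω), MeasurePreserving S μ μ → ∀ (χ : Ω → Circle) (X : Set Ω), Measurable χ →
  MeasurableSet X → NoC μ S χ X → ∀ ε : ℝ, 0 < ε → ∃ J₀ : ℕ, ∀ J ≥ J₀,
    (J : ℝ)⁻¹ * ∑ h ∈ range J, μ.real {x | x ∈ X ∧ S^[h] x ∈ X ∧ χ (S^[h] x) = χ x} ≤ ε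

/-- DUA. Duality inequality. PROOF. `F_j = (1/N) ∑_n z_j^(s+n) a_n`, `ε_j` unimodular with
`ε_j F_j = |F_j|` (`ε_j = 1` if `F_j = 0`), `y = (1/J) ∑_{j ∈ G} |F_j| = (1/N) ∑_n a_n c_n`,
`c_n = (1/J) ∑_j ε_j z_j^(s+n)`. So `y² ≤ (1/N) ∑_n |c_n|² =
(1/J²) ∑_{j,j'} ε_j conj(ε_j') (1/N) ∑_n (z_j/z_j')^(s+n) ≤ (1/J²) ∑_{j,j'} |(1/N) ∑_n (z_j/z_j')^n|`
(Cauchy-Schwarz, MRec.avg_abs_sq_le), and `y ≤ η/2 + y²/(2η)`. -/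
def T_DUA : Prop := ∀ (J N s : ℕ) (z : ℕ → Circle) (G : Finset ℕ) (a : ℕ → ℝ) (η : ℝ), 0 < J →
  0 < N → 0 < η → (∀ n, |a n| ≤ 1) →
  (J : ℝ)⁻¹ * ∑ j ∈ G, ‖(N : ℂ)⁻¹ * ∑ n ∈ range N, (z j : ℂ) ^ (s + n) * ((a n : ℝ) : ℂ)‖
    ≤ η / 2 + (2 * η)⁻¹ * (((J : ℝ)⁻¹) ^ 2 * ∑ j ∈ G, ∑ j' ∈ G,
      ‖(N : ℂ)⁻¹ * ∑ n ∈ range N, ((z j * (z j')⁻¹ : Circle) : ℂ) ^ n‖)

/-- CLM. PROOF. `|(1/N) ∑_{n<N} z^n| ≤ min (1, 2 / (N |z - 1|))` for `z ≠ 1`; split `Y` into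
`Y ∩ {φ = 1}` (integrand `≤ 1`) and the rest: dominated convergence
(`tendsto_integral_of_dominated_convergence`). -/
def T_CLM : Prop := ∀ (Ω : Type u) [MeasurableSpace Ω] (μ : Measure Ω) [IsProbabilityMeasure μ]
  (φ : Ω → Circle) (Y : Set Ω), Measurable φ → MeasurableSet Y → ∀ ε : ℝ, 0 < ε →
  ∃ N₀ : ℕ, ∀ N ≥ N₀, ∫ x in Y, ‖(N : ℂ)⁻¹ * ∑ n ∈ range N, (φ x : ℂ) ^ n‖ ∂μ
    ≤ μ.real (Y ∩ {x | φ x = 1}) + ε

/-- VAN. Vanishing of the averages on a `NoC` set. PROOF. Fix `η = ε/2` and `J` with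
` (2/J) ∑_{h<J} e h ≤ η²/4`, `e h = μ {x ∈ X, S^h x ∈ X, χ (S^h x) = χ x}` (DEN). For `j < J`,
measure preservation of `S^j` gives
`∫_X |cav| = ∫ 1_X (S^j x) |(1/N) ∑_n χ(S^j x)^(s+n) f(S^(s+n+j) x)|`, and with `z = χ (S^j x)` this
average times `z^j` differs from ` (1/N) ∑_n z^(s+n) f(S^(s+n) x)` by at most `2j/N`. Average over
`j < J` and apply DUA with `z_j = χ (S^j x)`, `G = {j < J | S^j x ∈ X}`, `a_n = f (S^(s+n) x)`: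
`∫_X |cav| ≤ η/2 + (2η)⁻¹ J⁻² ∑_{j,j'} ∫ 1_X(S^j x) 1_X(S^j' x) |K_N (χ(S^j x)/χ(S^j' x))| + 2J/N`.
By CLM (finitely many pairs `j, j'`; `φ x = χ(S^j x)/χ(S^j' x)`) for large `N` the double sum is at
most `J⁻² ∑_{j,j'} (e |j-j'| + small) ≤ (2/J) ∑_{h<J} e h + small` (MRec.sum_hd_le). -/
def T_VAN : Prop := ∀ (Ω : Type u) [MeasurableSpace Ω] (μ : Measure Ω) [IsProbabilityMeasure μ]
  (S : Ω → Ω), MeasurePreserving S μ μ → ∀ (χ : Ω → Circle) (X : Set Ω), Measurable χ →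
  MeasurableSet X → NoC μ S χ X → ∀ f : Ω → ℝ, Measurable f → (∀ x, |f x| ≤ 1) →
  ∀ ε : ℝ, 0 < ε → ∃ N₀ : ℕ, ∀ N ≥ N₀, ∀ s : ℕ, ∫ x in X, ‖cav S χ f N s x‖ ∂μ ≤ ε

/-- VOP. The operator `V h = b · (h ∘ S)` on `Lp ℂ 2 μ` with REAL scalars (`Lp ℂ 2 μ` is a real
inner product space: `MeasureTheory.L2.innerProductSpace` with scalars `ℝ`). PROOF. `V` is the
composition of `Lp.compMeasurePreservingₗᵢ ℝ S` with the multiplication by the unimodular function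
`b` (construct it with `MemLp.toLp`, compare MRec.tens; it preserves the norm). `V^n F =
b^n · F ∘ S^n` a.e. by induction since `b ∘ S = b` a.e. (compare MRec.coeFn_koop_iterate). -/
def T_VOP : Prop := ∀ (Ω : Type u) [MeasurableSpace Ω] (μ : Measure Ω) [IsProbabilityMeasure μ]
  (S : Ω → Ω), MeasurePreserving S μ μ → ∀ (b : Ω → Circle) (f : Ω → ℝ), Measurable b →
  (∀ᵐ x ∂μ, b (S x) = b x) → Measurable f → (∀ x, |f x| ≤ 1) →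
  ∃ (V : Lp ℂ 2 μ →ₗᵢ[ℝ] Lp ℂ 2 μ) (F : Lp ℂ 2 μ), (F =ᵐ[μ] fun x => ((f x : ℝ) : ℂ)) ∧
    (∀ h : Lp ℂ 2 μ, V h =ᵐ[μ] fun x => (b x : ℂ) * h (S x)) ∧
    ∀ N s : ℕ, ((N : ℝ)⁻¹ • ∑ n ∈ range N, V^[s + n] F : Lp ℂ 2 μ) =ᵐ[μ] cav S b f N s

/-- MET. Mean ergodic theorem for an invariant multiplier. PROOF. VOP. MRec.tendsto_avg and
MRec.norm_window_sub (for the real Hilbert space `Lp ℂ 2 μ`) give the first part with `G` a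
representative of `proj V F` (`L¹` norm `≤ L²` norm). Second part: both sides tend to
`‖proj V F‖²` (MRec.inner_proj_self, continuity of the norm and of the inner product;
`⟪h, F⟫_ℝ = ∫ Re h · f`, `L2.inner_def`). -/
def T_MET : Prop := ∀ (Ω : Type u) [MeasurableSpace Ω] (μ : Measure Ω) [IsProbabilityMeasure μ]
  (S : Ω → Ω), MeasurePreserving S μ μ → ∀ (b : Ω → Circle) (f : Ω → ℝ), Measurable b →
  (∀ᵐ x ∂μ, b (S x) = b x) → Measurable f → (∀ x, |f x| ≤ 1) →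
  (∃ G : Ω → ℂ, Measurable G ∧ Integrable G μ ∧ ∀ ε : ℝ, 0 < ε → ∃ N₀ : ℕ, ∀ N ≥ N₀, ∀ s : ℕ,
    ∫ x, ‖cav S b f N s x - G x‖ ∂μ ≤ ε) ∧
  ∀ ε : ℝ, 0 < ε → ∃ N₀ : ℕ, ∀ N ≥ N₀,
    ∫ x, ‖cav S b f N 0 x‖ ^ 2 ∂μ ≤ ∫ x, f x * (cav S b f N 0 x).re ∂μ + ε

/-- PSD. The positivity inequality. PROOF. Let `g x = r x * 1_Y x`, `A x = (1/N) ∑_n 1_Y (S^n x)`.
For a.e. `x`: if `b i x = 1` then `cav S (b i) g N 0 x = r x * A x` (`r (S^n x) = r x`), so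
`∑ a_i |cav|² ≥ ∑ a_i 1{b_i x = 1} r(x)² A(x)²`. If `A x ≠ 0` then `S^n x ∈ Y` for some `n < N`, and
`∑ a_i 1{b_i x = 1} r(x)²` has the same value at `S^n x`, where it is `≥ 1`. So the sum is
`≥ A(x)²` and `∫ A² ≥ (∫ A)² = (μ Y)²`. -/
def T_PSD : Prop := ∀ (Ω : Type u) [MeasurableSpace Ω] (μ : Measure Ω) [IsProbabilityMeasure μ]
  (S : Ω → Ω), MeasurePreserving S μ μ → ∀ (ι : Type) [Fintype ι] (a : ι → ℝ) (b : ι → Ω → Circle)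
  (r : Ω → ℝ) (Y : Set Ω), (∀ i, 0 ≤ a i) → (∀ i, Measurable (b i)) →
  (∀ i, ∀ᵐ x ∂μ, b i (S x) = b i x) → Measurable r → (∀ x, 0 ≤ r x) → (∀ x, r x ≤ 1) →
  (∀ᵐ x ∂μ, r (S x) = r x) → MeasurableSet Y → (∀ᵐ x ∂μ, x ∈ Y → 1 ≤ tu a b x * r x ^ 2) →
  ∀ N : ℕ, 0 < N →
    (μ.real Y) ^ 2 ≤ ∑ i, a i * ∫ x, ‖cav S (b i) (fun y => r y * one Y y) N 0 x‖ ^ 2 ∂μ

/-- SLA. Convergence of the weighted averages on `X`, uniformly in the window. PROOF.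
`wav S (tw a χ) f N s x = ∑ a_i Re (cav S (χ_i) f N s x)`. If `OrbC` for `i`: BFN gives `b_i`
invariant, `= χ_i` a.e. on `X`, and MET a limit `G_i`; if `NoC`: VAN, limit `0`.
`M = ∑_{OrbC} a_i Re G_i`. -/
def T_SLA : Prop := ∀ (Ω : Type u) [MeasurableSpace Ω] (μ : Measure Ω) [IsProbabilityMeasure μ]
  (S : Ω → Ω), MeasurePreserving S μ μ → ∀ (ι : Type) [Fintype ι] (a : ι → ℝ)
  (χ : ι → Ω → Circle) (X : Set Ω), (∀ i, Measurable (χ i)) → MeasurableSet X →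
  (∀ i, OrbC μ S (χ i) X ∨ NoC μ S (χ i) X) → ∀ f : Ω → ℝ, Measurable f → (∀ x, |f x| ≤ 1) →
  ∃ M : Ω → ℝ, Measurable M ∧ Integrable M μ ∧ ∀ ε : ℝ, 0 < ε → ∃ N₀ : ℕ, ∀ N ≥ N₀, ∀ s : ℕ,
    ∫ x in X, |wav S (tw a χ) f N s x - M x| ∂μ ≤ ε

/-- SLB. The lower bound on a part `Y` of `X`. PROOF. Let `I₁` be the set of `i` with `OrbC`
(subtype), `b_i` from BFN, `u' = tu` of the `a_i, b_i`, `i ∈ I₁`; `u'` is invariant a.e. If `i` is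
`NoC` then `{x ∈ X | χ_i x = 1}` is null (it is `OrbC`); so `tu a χ = u'` a.e. on `X`. Let
`r = (u')^(-1/2)` where `u' ≥ 1`, `r = 1` elsewhere: `0 ≤ r ≤ 1`, invariant a.e.,
`u' r² = 1` a.e. on `X`. PSD and the second part of MET (for `f = r 1_Y`, each `i ∈ I₁`) give for
large `N`: ` (μ Y)² ≤ ∑_{I₁} a_i ∫ r 1_Y Re cav (b_i) (r 1_Y) + ε/2`, and
`cav (b_i) (r 1_Y) = r cav (b_i) 1_Y` a.e., so the summand is `∫ 1_Y r² Re cav (χ_i) 1_Y`,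
`r² = (tu a χ)⁻¹` on `Y`. The terms with `NoC` tend to `0` by VAN (` (tu)⁻¹ ≤ 1`). -/
def T_SLB : Prop := ∀ (Ω : Type u) [MeasurableSpace Ω] (μ : Measure Ω) [IsProbabilityMeasure μ]
  (S : Ω → Ω), MeasurePreserving S μ μ → ∀ (ι : Type) [Fintype ι] (a : ι → ℝ)
  (χ : ι → Ω → Circle) (X : Set Ω), (∀ i, 0 ≤ a i) → (∀ i, Measurable (χ i)) → MeasurableSet X →
  (∀ i, OrbC μ S (χ i) X ∨ NoC μ S (χ i) X) → (∀ x, 1 ≤ tu a χ x) →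
  ∀ Y : Set Ω, MeasurableSet Y → Y ⊆ X → ∀ ε : ℝ, 0 < ε → ∃ N₀ : ℕ, ∀ N ≥ N₀,
    (μ.real Y) ^ 2 - ε ≤ ∫ x, one Y x * ((tu a χ x)⁻¹ * wav S (tw a χ) (one Y) N 0 x) ∂μ

/-- ASL. The averages are rarely small on `X`; the constant does not depend on the characters.
PROOF. Let `M` be the limit of SLA for `f = one X`, `Y = {x ∈ X | M x < 2 δ tu a χ x}`. For `N`
large, ` (μ Y)² - ε ≤ ∫_Y (tu)⁻¹ wav (one Y) ≤ ∫_Y (tu)⁻¹ wav (one X) ≤ ∫_Y (tu)⁻¹ M + ε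
≤ 2 δ μ Y + ε` (SLB, weights `≥ 0`, `0 < (tu)⁻¹ ≤ 1`, SLA); so `μ Y ≤ 2 δ`. If
`wav (one X) N s x < δ tu x` and `x ∈ X \ Y` then `|wav - M| ≥ δ tu ≥ δ`; Markov and SLA with
`ε = δ²`. -/
def T_ASL : Prop := ∀ (Ω : Type u) [MeasurableSpace Ω] (μ : Measure Ω) [IsProbabilityMeasure μ]
  (S : Ω → Ω), MeasurePreserving S μ μ → ∀ (ι : Type) [Fintype ι] (a : ι → ℝ)
  (χ : ι → Ω → Circle) (X : Set Ω), (∀ i, 0 ≤ a i) → (∀ i, Measurable (χ i)) → MeasurableSet X →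
  (∀ i, OrbC μ S (χ i) X ∨ NoC μ S (χ i) X) → (∀ x n, 0 ≤ tw a χ x n) → (∀ x, 1 ≤ tu a χ x) →
  ∀ δ : ℝ, 0 < δ → ∃ N₀ : ℕ, ∀ N ≥ N₀, ∀ s : ℕ,
    μ.real {x | x ∈ X ∧ wav S (tw a χ) (one X) N s x < δ * tu a χ x} ≤ 3 * δ

/-! ## B. Weights -/

/-- KKB. Fejer kernel. PROOF. `|∑_{a<m} z^a| ≤ m`; ` (∑_{a<m} z^a)(z - 1) = z^m - 1`. For `m = 0`
all is `0`. Measurable: continuous. -/
def T_KKB : Prop := (∀ (m : ℕ) (z : Circle), 0 ≤ kk m z ∧ kk m z ≤ m) ∧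
  (∀ (m : ℕ) (z : Circle), kk m z * ‖(z : ℂ) - 1‖ ^ 2 ≤ 4 / m) ∧ (∀ m, Measurable (kk m)) ∧
  ∀ m : ℕ, kk m 1 = m

/-- EXP. Expansion of the product of Fejer kernels. PROOF. In `ℂ`,
`kk m z = m⁻¹ ∑_{(a,b)} z^a (z^b)⁻¹` (` (a,b) ∈ Fin m × Fin m`, `conj z = z⁻¹`); the product over
`l` with `Finset.prod_univ_sum` (or `Fintype.piFinset`); take real parts. True for `m = 0`. -/
def T_EXP : Prop := ∀ (Ω : Type u) (m d : ℕ) (τ : Fin d → Ω → Circle) (x : Ω) (n : ℕ),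
  kw m τ x n = tw (kc m d) (chr τ) x n

/-- KUB. Bounds for the mean. PROOF. The `m^d` indices `p` with ` (p l).1 = (p l).2` for all `l`
have `chr = 1`; there are `m^(2d)` indices. Second part (`τ l` replaced by `1`): if
`chr τ' p x = 1`, `τ' = update τ l 1`, then `q = update p l ((p l).1, (p l).1)` has `chr τ q x = 1`,
and `p ↦ (q, (p l).2)` is injective. -/
def T_KUB : Prop := ∀ (Ω : Type u) (m d : ℕ) (τ : Fin d → Ω → Circle) (x : Ω), 1 ≤ m →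
  1 ≤ ku m τ x ∧ ku m τ x ≤ (m : ℝ) ^ d ∧
    ∀ l, ku m (Function.update τ l (fun _ => 1)) x ≤ m * ku m τ x

/-- KAV. Means of trigonometric weights. PROOF. Linear combination of
` (1/N) ∑_n Re (χ x)^(s+n) - 1{χ x = 1}`, of modulus `≤ |(1/N) ∑_{n<N} (χ x)^n|` for `χ x ≠ 1` and
`0` for `χ x = 1`, `N > 0`: CLM with `Y = {χ ≠ 1}`. -/
def T_KAV : Prop := ∀ (Ω : Type u) [MeasurableSpace Ω] (μ : Measure Ω) [IsProbabilityMeasure μ]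
  (ι : Type) [Fintype ι] (a : ι → ℝ) (χ : ι → Ω → Circle), (∀ i, Measurable (χ i)) →
  ∀ ε : ℝ, 0 < ε → ∃ N₀ : ℕ, ∀ N ≥ N₀, ∀ s : ℕ, ∫ x, |wm (tw a χ) N s x - tu a χ x| ∂μ ≤ ε

/-- MUL. Sums over the multiples of `q`. PROOF. Exactly one of the numbers `s + n`,
`q k ≤ n < q (k + 1)`, is a multiple of `q`; induction on `N'`. -/
def T_MUL : Prop := ∀ (q N' s : ℕ) (G : ℕ → ℝ), 1 ≤ q →
  ∑ n ∈ range (q * N'), (if q ∣ s + n then G ((s + n) / q) else 0)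
    = ∑ n ∈ range N', G ((s + q - 1) / q + n)

/-- NWA. Elementary facts on the normalised weights. PROOF. KKB (`0 ≤ kw ≤ m^d`), KUB, EXP;
measurability: `tu` is a finite sum of indicators of measurable sets (`{1}` is closed in
`Circle`, `chr` is measurable). -/
def T_NWA : Prop := ∀ (Ω : Type u) [MeasurableSpace Ω] (q m d : ℕ) (τ : Fin d → Ω → Circle),
  1 ≤ q → 1 ≤ m → (∀ l, Measurable (τ l)) →
  (∀ x n, 0 ≤ nw q m τ x n ∧ nw q m τ x n ≤ q * (m : ℝ) ^ d) ∧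
  (∀ n, Measurable fun x => nw q m τ x n) ∧ (∀ p, Measurable (chr (m := m) τ p)) ∧
  (∀ n, Measurable fun x => kw m τ x n) ∧ Measurable (ku m τ) ∧
  ∀ (T : Ω → Ω) (x : Ω) (n : ℕ), (∀ l, τ l (T x) = τ l x) → nw q m τ (T x) n = nw q m τ x n

/-- NWB. The mean is one. PROOF. MUL: for `q ∣ N`, `N = q N'`,
`wm (nw q m τ) N s x = (ku m τ x)⁻¹ wm (kw m τ) N' s' x`, `s' = (s + q - 1) / q`; EXP, KAV,
`ku ≥ 1`. -/
def T_NWB : Prop := ∀ (Ω : Type u) [MeasurableSpace Ω] (μ : Measure Ω) [IsProbabilityMeasure μ]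
  (q m d : ℕ) (τ : Fin d → Ω → Circle), 1 ≤ q → 1 ≤ m → (∀ l, Measurable (τ l)) →
  ∀ ε : ℝ, 0 < ε → ∃ N₀ : ℕ, ∀ N ≥ N₀, q ∣ N → ∀ s : ℕ, ∫ x, |wm (nw q m τ) N s x - 1| ∂μ ≤ ε

/-- NWC. The weights off the Bohr sets. PROOF. Let `τ' = update τ l 1`. If `|τ_l^n - 1| > ρ` then by
KKB `kw m τ x n ≤ 4/(m ρ²) ∏_{l' ≠ l} kk = 4/(m² ρ²) kw m τ' x n`. So
`kw m τ x n * 1{x ∉ bohr τ ρ n} ≤ ∑_l 4/(m² ρ²) kw m τ' x n`; the means of `kw m τ' / ku m τ`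
converge in `L¹` to `ku m τ' / ku m τ ≤ m` (KAV, KUB), which gives `d * 4/(m ρ²) + ε`. Pass from
the multiples of `q` by MUL. -/
def T_NWC : Prop := ∀ (Ω : Type u) [MeasurableSpace Ω] (μ : Measure Ω) [IsProbabilityMeasure μ]
  (q m d : ℕ) (τ : Fin d → Ω → Circle), 1 ≤ q → 1 ≤ m → (∀ l, Measurable (τ l)) →
  ∀ ρ : ℝ, 0 < ρ → ∀ ε : ℝ, 0 < ε → ∃ N₀ : ℕ, ∀ N ≥ N₀, q ∣ N → ∀ s : ℕ,
    ∫ x, wm (fun x n => nw q m τ x n * one {y | y ∉ bohr τ ρ (n / q)} x) N s x ∂μ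
      ≤ d * (4 / (m * ρ ^ 2)) + ε

/-- NWD. ASL for the normalised weights. PROOF. MUL: for `N = q N'`,
`wav S (nw q m τ) f N s x = (ku m τ x)⁻¹ wav S^[q] (kw m τ) f N' s' x`
(`S^[q k] = (S^[q])^[k]`); EXP, KKB, KUB, and ASL for the map `S^[q]`. -/
def T_NWD : Prop := ∀ (Ω : Type u) [MeasurableSpace Ω] (μ : Measure Ω) [IsProbabilityMeasure μ]
  (S : Ω → Ω), MeasurePreserving S μ μ → ∀ (q m d : ℕ) (τ : Fin d → Ω → Circle) (X : Set Ω),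
  1 ≤ q → 1 ≤ m → (∀ l, Measurable (τ l)) → MeasurableSet X →
  (∀ p : Fin d → Fin m × Fin m, OrbC μ S^[q] (chr τ p) X ∨ NoC μ S^[q] (chr τ p) X) →
  ∀ δ : ℝ, 0 < δ → ∃ N₀ : ℕ, ∀ N ≥ N₀, q ∣ N → ∀ s : ℕ,
    μ.real {x | x ∈ X ∧ wav S (nw q m τ) (one X) N s x < δ} ≤ 3 * δ

/-! ## C. The T-side -/

/-- PRO. Projection on a closed subspace stable under clipping. PROOF. Let `c₀` be the orthogonal
projection of `f` on `K` (`K` is complete). Clipping `t ↦ max 0 (min t 1)` is 1-Lipschitz and maps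
`0` to `0` (`LipschitzWith.compLp`); let `c₁ ∈ K` be the clip of `c₀`. As `0 ≤ f ≤ 1`,
`|f - c₁| ≤ |f - c₀|` a.e., so `‖f - c₁‖ ≤ ‖f - c₀‖`; but
`‖f - c₁‖² = ‖f - c₀‖² + ‖c₀ - c₁‖²`, so `c₁ = c₀`. -/
def T_PRO : Prop := ∀ (Ω : Type u) [MeasurableSpace Ω] (μ : Measure Ω) [IsProbabilityMeasure μ]
  (K : Submodule ℝ (Lp ℝ 2 μ)), IsClosed (K : Set (Lp ℝ 2 μ)) →
  (∀ h ∈ K, ∀ h' : Lp ℝ 2 μ, (h' =ᵐ[μ] fun x => max 0 (min (h x) 1)) → h' ∈ K) →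
  ∀ f : Lp ℝ 2 μ, (∀ᵐ x ∂μ, 0 ≤ f x ∧ f x ≤ 1) →
  ∃ c ∈ K, (∀ᵐ x ∂μ, 0 ≤ c x ∧ c x ≤ 1) ∧ ∀ h ∈ K, inner ℝ (f - c) h = 0

/-- SPC. The class `InE` is a closed subspace stable under clipping. PROOF. Sums: `ε/2` each;
`q = q₁ q₂`, `ρ = min (ρ₁/q₂) (ρ₂/q₁)`, the two lists together (`Fin.append`, or `Fin.addCases`),
since `‖z^(q₂ n) - 1‖ ≤ q₂ ‖z^n - 1‖` for `‖z‖ = 1`, and `T^[q n] = T^[q₁ (q₂ n)]`. Multiples:
`ε / (|c| + 1)`. Zero: `p = 0`, `d = 0`. Limits: `ε/2`. Clip: clip `p` (1-Lipschitz, `0 ↦ 0`):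
`‖h' - clip p‖ ≤ ‖h - p‖`. -/
def T_SPC : Prop := ∀ (Ω : Type u) [MeasurableSpace Ω] (μ : Measure Ω) [IsProbabilityMeasure μ]
  (T : Ω → Ω) (F : Set (Ω → Circle)) (Z : Set Ω),
  (∀ h h' : Lp ℝ 2 μ, InE μ T F Z h → InE μ T F Z h' → InE μ T F Z (h + h')) ∧
  (∀ (c : ℝ) (h : Lp ℝ 2 μ), InE μ T F Z h → InE μ T F Z (c • h)) ∧ InE μ T F Z 0 ∧
  (∀ h : Lp ℝ 2 μ, (∀ ε : ℝ, 0 < ε → ∃ h', InE μ T F Z h' ∧ ‖h - h'‖ ≤ ε) → InE μ T F Z h) ∧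
  ∀ h h' : Lp ℝ 2 μ, InE μ T F Z h → (h' =ᵐ[μ] fun x => max 0 (min (h x) 1)) → InE μ T F Z h'

/-- DEC. The decomposition `1_{A ∩ Z} = c + g`. PROOF. `K = {h | InE μ T F Z h}` (SPC, closed
submodule), PRO for `f = 1_{A ∩ Z}` gives `c₀`. `c₀ = 0` a.e. off `Z` (limit of functions vanishing
off `Z`). Take a measurable representative `c` with values in `[0,1]`, `= 0` off `Z`, and
`g = 1_{A ∩ Z} - c`. (i) `p` from `InE`, clipped to `[0,1]`; `L¹` norm `≤ L²` norm. (ii) `v ∈ K`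
(`p = v`). (iii) `1_Z ∈ K` (`p = 1_Z`, exactly invariant, `d = 0`) and `⟪f, 1_Z⟫ = μ (A ∩ Z) > 0`, so
`c₀ ≠ 0` and `∫ f c = ⟪f, c₀⟫ = ‖c₀‖² > 0`; then `{x ∈ A ∩ Z | γ ≤ c x}` is not null for
`γ = ‖c₀‖²/2` (`c ≤ 1`). -/
def T_DEC : Prop := ∀ (Ω : Type u) [MeasurableSpace Ω] (μ : Measure Ω) [IsProbabilityMeasure μ]
  (T : Ω → Ω), MeasurePreserving T μ μ → ∀ (Z : Set Ω) (F : Set (Ω → Circle)), MeasurableSet Z →
  (∀ x, T x ∈ Z ↔ x ∈ Z) → (∀ φ ∈ F, Measurable φ ∧ ∀ x, φ (T x) = φ x) →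
  ∀ A : Set Ω, MeasurableSet A → μ (A ∩ Z) ≠ 0 →
  ∃ c g : Ω → ℝ, Measurable c ∧ Measurable g ∧ (∀ x, 0 ≤ c x) ∧ (∀ x, c x ≤ 1) ∧
    (∀ x, |g x| ≤ 1) ∧ (∀ x, one (A ∩ Z) x = c x + g x) ∧ (∀ x, x ∉ Z → g x = 0) ∧
    (∀ ε : ℝ, 0 < ε → ∃ p : Ω → ℝ, Measurable p ∧ (∀ x, 0 ≤ p x) ∧ (∀ x, p x ≤ 1) ∧
      ∫ x, |c x - p x| ∂μ ≤ ε ∧ AP μ T F ε p) ∧
    OrtAP μ T F Z g ∧ ∃ γ : ℝ, 0 < γ ∧ μ {x | x ∈ A ∩ Z ∧ γ ≤ c x} ≠ 0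

/-- ORT. `g` is orthogonal to the generalised eigenfunctions. PROOF. Countably many types
`t = (n, ζ, a)`, `n ≥ 1`, `ζ ∈ Λ`, `a : Fin k → ℤ`; `Y_t = {x ∈ Z | lam x ^ n = ζ ∏ θ_j^(a_j)}` is
measurable and `T`-invariant; make the `Y_t` disjoint (`disjointed`, after an enumeration).
`∫ g v = ∑_t ∫_{Y'_t} g v` (`g v = 0` a.e. off the union) and
`∫_{Y'_t} g v = lim_K ∫ g v 1_{Y'_t} 1_{|v| ≤ K}`. Let `v' = Re` or `Im` of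
`v 1_{Y'_t} 1_{|v| ≤ K}` (use `|v ∘ T| = |v|` a.e.): for `x ∈ bohr (θ_1,..,θ_k, ζ) ρ i`,
`|v' (T^(n i) x) - v' x| ≤ K |(ζ θ^a (x))^i - 1| ≤ K (1 + ∑ |a_j|) ρ`, so `AP` for every `ε` and
`OrtAP` gives `0`. -/
def T_ORT : Prop := ∀ (Ω : Type u) [MeasurableSpace Ω] (μ : Measure Ω) [IsProbabilityMeasure μ]
  (T : Ω → Ω), MeasurePreserving T μ μ → ∀ (Z : Set Ω) (k : ℕ) (θ : Fin k → Ω → Circle)
  (Λ : Set Circle), MeasurableSet Z → (∀ x, T x ∈ Z ↔ x ∈ Z) → Λ.Countable →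
  (∀ j, Measurable (θ j)) → (∀ j x, θ j (T x) = θ j x) →
  ∀ g : Ω → ℝ, Measurable g → (∀ x, |g x| ≤ 1) → (∀ x, x ∉ Z → g x = 0) →
  OrtAP μ T (freq θ Λ) Z g → ∀ (v : Ω → ℂ) (lam : Ω → Circle), Measurable v → Measurable lam →
  (∀ x, lam (T x) = lam x) → (∀ᵐ x ∂μ, v (T x) = (lam x : ℂ) * v x) →
  (∀ᵐ x ∂μ, x ∈ Z → v x ≠ 0 → Rel θ Λ lam x) → Integrable (fun x => ‖v x‖ ^ 2) μ →
  ∫ x, (g x : ℂ) * v x ∂μ = 0

/-! ## D. Relative weak mixing -/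

/-- CEX. Conditional expectations of shifted functions. PROOF. (1) for an invariant set `s`,
`∫_s F ∘ T = ∫_s F` (`T⁻¹ s = s`, measure preserving); `ae_eq_condExp_of_forall_setIntegral_eq`.
(2) `g(T^n x) g(T^n' x) = (g ∘ T^|n-n'| · g) (T^min(n,n') x)` and (1). (3) `|g g| ≤ 1`,
`condExp_mono`. (4) exact invariance: `stronglyMeasurable_condExp`,
`MeasurableSpace.comp_eq_of_measurable_invariants`. -/
def T_CEX : Prop := ∀ (Ω : Type u) [MeasurableSpace Ω] (μ : Measure Ω) [IsProbabilityMeasure μ]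
  (T : Ω → Ω), MeasurePreserving T μ μ →
  (∀ F : Ω → ℝ, Integrable F μ → μ[fun x => F (T x) | MeasurableSpace.invariants T]
    =ᵐ[μ] μ[F | MeasurableSpace.invariants T]) ∧
  ∀ g : Ω → ℝ, Measurable g → (∀ x, |g x| ≤ 1) →
    (∀ n n' : ℕ, μ[fun x => g (T^[n] x) * g (T^[n'] x) | MeasurableSpace.invariants T]
      =ᵐ[μ] gam μ T g (MRec.hd n n')) ∧
    (∀ h, ∀ᵐ x ∂μ, |gam μ T g h x| ≤ 1) ∧
    ∀ h, Measurable[MeasurableSpace.invariants T] (gam μ T g h) ∧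
      ∀ x, gam μ T g h (T x) = gam μ T g h x

/-- POS. Good versions of the conditional correlations. PROOF. For fixed `M`, `β`: with
`A_M x = (1/M) ∑_{n<M} β^n g (T^n x)`, `SS (gam · x) M β = μ[|A_M|² | I] x` a.e. (CEX (2),
linearity), so `≥ 0`; and `A_{2M} = (A_M + β^M A_M ∘ T^M)/2` gives
`|A_{2M}|² ≤ (|A_M|² + |A_M ∘ T^M|²)/2`, so with CEX (1) `SS (2M) ≤ SS M`. So for a countable dense
set `D ⊆ Circle`, the set `G₀` of the `x` with `|gam h x| ≤ 1` for all `h` and both inequalities for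
all `M` and all `β ∈ D` has measure one and is `I`-measurable (the `gam h` are); `SS γ M` is
continuous in `β`, so both inequalities hold for all `β` on `G₀`. `γ' h = gam h` on `G₀`, `0` off
`G₀`. -/
def T_POS : Prop := ∀ (Ω : Type u) [MeasurableSpace Ω] (μ : Measure Ω) [IsProbabilityMeasure μ]
  (T : Ω → Ω), MeasurePreserving T μ μ → ∀ g : Ω → ℝ, Measurable g → (∀ x, |g x| ≤ 1) →
  ∃ γ' : ℕ → Ω → ℝ, (∀ h, Measurable[MeasurableSpace.invariants T] (γ' h)) ∧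
    (∀ h, γ' h =ᵐ[μ] gam μ T g h) ∧ (∀ h x, |γ' h x| ≤ 1) ∧
    ∀ (x : Ω) (M : ℕ) (β : Circle), 0 ≤ SS (fun h => γ' h x) M β ∧
      SS (fun h => γ' h x) (2 * M) β ≤ SS (fun h => γ' h x) M β

/-- PAR. Parseval. PROOF. Let `Q = 2 M` (or larger) and `β` run through the `Q`-th roots of unity.
`SS γ M β = ∑_{|h|<M} c_h γ_|h| β^h`, `c_h = (M - |h|)/M²` (number of pairs `n - n' = h`). The
average of `SS` over `β` is `c_0 γ_0 ≤ 1/M` and the average of `SS²` is `∑_{|h|<M} c_h² γ_|h|²`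
(orthogonality: `∑_β β^t = 0` unless `Q ∣ t`, `|t| < Q`). If `SS ≤ t` for all these `β` then
`∑ c_h² γ_|h|² ≤ t/M` (`SS ≥ 0`); so for the maximal `β`
`SS ≥ M ∑_{0≤h≤M/2} c_h² γ_h² ≥ (4M)⁻¹ ∑_{h ≤ M/2} γ_h²`. -/
def T_PAR : Prop := ∀ (γ : ℕ → ℝ) (M : ℕ), 1 ≤ M → (∀ β : Circle, 0 ≤ SS γ M β) → γ 0 ≤ 1 →
  ∃ β : Circle, (4 * (M : ℝ))⁻¹ * ∑ h ∈ range (M / 2 + 1), γ h ^ 2 ≤ SS γ M β

/-- SEL. Measurable selection. PROOF. `σ' n x = sup_{t ∈ ℚ ∩ [0,1]} G n x t` (the sup of a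
continuous function on `[0,1]` is finite, attained, and may be taken over the rationals),
`σ x = inf_n σ' n x` (`σ' n x` is decreasing in `n` and `≥ 0`),
`m_n x = inf over q ∈ ℚ ∩ [0,1] of (if σ x / 2 < G n x q then q else 1)`, `ψ = sup_n m_n`; all
measurable (`Measurable.iSup`, `Measurable.iInf`, countable index). If `σ x = 0` then
`σ x / 2 ≤ G n x (ψ x)` is clear. If `σ x > 0` then there are rational `q ∈ [0,1]` with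
`G n x q > σ x / 2`, `m_n x` is the infimum of these, so `G n x (m_n x) ≥ σ x / 2` by continuity;
the sets decrease, so `m_n x` increases and `G n x (m_j x) ≥ G j x (m_j x) ≥ σ x / 2` for
`j ≥ n`; let `j → ∞`. -/
def T_SEL : Prop := ∀ (Ω : Type u) [MeasurableSpace Ω] (G : ℕ → Ω → ℝ → ℝ),
  (∀ n t, Measurable fun x => G n x t) → (∀ n x, Continuous (G n x)) →
  (∀ n x t, 0 ≤ G n x t) → (∀ n x t, G (n + 1) x t ≤ G n x t) →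
  ∃ (σ' : ℕ → Ω → ℝ) (σ ψ : Ω → ℝ), (∀ n, Measurable (σ' n)) ∧ Measurable σ ∧ Measurable ψ ∧
    (∀ n x, ∀ t ∈ Set.Icc (0 : ℝ) 1, G n x t ≤ σ' n x) ∧
    (∀ n x, ∃ t ∈ Set.Icc (0 : ℝ) 1, σ' n x = G n x t) ∧ (∀ n x, σ x ≤ σ' n x) ∧
    (∀ x, Tendsto (fun n => σ' n x) atTop (𝓝 (σ x))) ∧ ∀ n x, σ x / 2 ≤ G n x (ψ x)

/-- EIA. PROOF. `|cav T lam g M 0 x|² = M⁻² ∑_{n,n'} Re (lam x)^(n-n') g(T^n x) g(T^n' x)`, and
`∫ Re (lam^n conj(lam^n')) g(T^n ·) g(T^n' ·) = ∫ Re (..) gam (hd n n')` since `lam` is `I`-measurable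
and bounded (`condExp_mul_of_stronglyMeasurable_left` or similar, `integral_condExp`, CEX (2)). -/
def T_EIA : Prop := ∀ (Ω : Type u) [MeasurableSpace Ω] (μ : Measure Ω) [IsProbabilityMeasure μ]
  (T : Ω → Ω), MeasurePreserving T μ μ → ∀ (g : Ω → ℝ) (lam : Ω → Circle), Measurable g →
  (∀ x, |g x| ≤ 1) → Measurable lam → (∀ x, lam (T x) = lam x) → ∀ M : ℕ,
  ∫ x, ‖cav T lam g M 0 x‖ ^ 2 ∂μ = ∫ x, SS (fun h => gam μ T g h x) M (lam x) ∂μ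

/-- EIB. A generalised eigenfunction correlated with `g`. PROOF. VOP for `b = lam`, `f = g`:
`v₀ = MRec.proj V F`; `cav T lam g N 0 → v₀` in `L²` (MRec.tendsto_avg), so `‖v₀‖² ≥ c > 0`;
`V v₀ = v₀` (MRec.proj_fixed) means `lam x v₀(T x) = v₀ x` a.e.; `⟪v₀, F⟫ = ‖v₀‖²`
(MRec.inner_proj_self), i.e. `∫ g Re v₀ > 0`. `v` = a measurable representative. -/
def T_EIB : Prop := ∀ (Ω : Type u) [MeasurableSpace Ω] (μ : Measure Ω) [IsProbabilityMeasure μ]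
  (T : Ω → Ω), MeasurePreserving T μ μ → ∀ (g : Ω → ℝ) (lam : Ω → Circle), Measurable g →
  (∀ x, |g x| ≤ 1) → Measurable lam → (∀ x, lam (T x) = lam x) → ∀ c : ℝ, 0 < c →
  (∀ n : ℕ, c ≤ ∫ x, ‖cav T lam g (2 ^ n) 0 x‖ ^ 2 ∂μ) →
  ∃ v : Ω → ℂ, Measurable v ∧ Integrable (fun x => ‖v x‖ ^ 2) μ ∧
    (∀ᵐ x ∂μ, v (T x) = (((lam x)⁻¹ : Circle) : ℂ) * v x) ∧ ∫ x, (g x : ℂ) * v x ∂μ ≠ 0

/-- RWA. If `RWM` fails there is an invariant `lam` with large conditional square functions. PROOF.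
`γ'` from POS. `¬ RWM`: there are `τ > 0` and infinitely many `H` with
` (1/H) ∑_{h<H} ∫ |γ'_h| ≥ τ`, so ` (1/H) ∑_{h<H} ∫ γ'_h² ≥ τ²` (Cauchy-Schwarz twice). For such
`H ≥ 1` take `M = 2^n`, `2H ≤ M < 4H`: PAR gives for every `x` some `β` with
`SS (γ' x) M β ≥ (4M)⁻¹ ∑_{h ≤ M/2} γ'_h(x)² ≥ (1/(16H)) ∑_{h<H} γ'_h(x)²`. Apply SEL for the
measurable space `invariants T` (with `@`) and `G n x t = SS (γ' x) (2^n) (Circle.exp (2 π t))`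
(every `β` is `Circle.exp (2 π t)` with `t ∈ [0,1]`): `∫ σ' n ≥ τ²/16` for infinitely many `n`, hence
for all `n` (`σ' n` decreases in `n`), and `∫ σ ≥ τ²/16` (dominated convergence, `0 ≤ σ' n ≤ 1`:
`|SS| ≤ 1` as `|γ'| ≤ 1`). `lam = Circle.exp (2 π ψ)`: measurable for `invariants T`, so measurable
and exactly invariant (`MeasurableSpace.comp_eq_of_measurable_invariants` for `ψ`); `c = τ²/32`. -/
def T_RWA : Prop := ∀ (Ω : Type u) [MeasurableSpace Ω] (μ : Measure Ω) [IsProbabilityMeasure μ]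
  (T : Ω → Ω), MeasurePreserving T μ μ → ∀ g : Ω → ℝ, Measurable g → (∀ x, |g x| ≤ 1) →
  ¬ RWM μ T g → ∃ (c : ℝ) (lam : Ω → Circle), 0 < c ∧ Measurable lam ∧
    (∀ x, lam (T x) = lam x) ∧
    ∀ n : ℕ, c ≤ ∫ x, SS (fun h => gam μ T g h x) (2 ^ n) (lam x) ∂μ

/-- RWM. A function orthogonal to all generalised eigenfunctions is relatively weakly mixing.
PROOF. By contradiction: RWA, EIA, EIB; the `v` of EIB has the invariant eigenvalue function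
`lam⁻¹`. -/
def T_RWM : Prop := ∀ (Ω : Type u) [MeasurableSpace Ω] (μ : Measure Ω) [IsProbabilityMeasure μ]
  (T : Ω → Ω), MeasurePreserving T μ μ → ∀ g : Ω → ℝ, Measurable g → (∀ x, |g x| ≤ 1) →
  (∀ (v : Ω → ℂ) (lam : Ω → Circle), Measurable v → Measurable lam → (∀ x, lam (T x) = lam x) →
    (∀ᵐ x ∂μ, v (T x) = (lam x : ℂ) * v x) → Integrable (fun x => ‖v x‖ ^ 2) μ →
    ∫ x, (g x : ℂ) * v x ∂μ = 0) → RWM μ T g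

/-! ## E. The main estimate -/

/-- COR. The correlations along `P`. PROOF. `B = P = Q`: `κ h = gam μ Q g h`, ERG with
`F x = g (Q^h x) g x`. `B = Q ∘ Q`, `P = Q'`: `κ h = gam μ Q g (2 h)`, ERG for the map `Q'`
(`invariants Q' = invariants Q` since `Q'` is the inverse bijection; ` (Q ∘ Q)^[h] = Q^[2 h]`,
MRec.iterate_two), and ` (1/H) ∑_{h<H} a_{2h} ≤ 2 (1/(2H)) ∑_{n<2H} a_n` (MRec.sum_even_le). -/
def T_COR : Prop := ∀ (Ω : Type u) [MeasurableSpace Ω] (μ : Measure Ω) [IsProbabilityMeasure μ]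
  (Q Q' B P : Ω → Ω), MeasurePreserving Q μ μ → MeasurePreserving Q' μ μ → (∀ x, Q' (Q x) = x) →
  (∀ x, Q (Q' x) = x) → ((B = Q ∧ P = Q) ∨ (B = Q ∘ Q ∧ P = Q')) →
  ∀ g : Ω → ℝ, Measurable g → (∀ x, |g x| ≤ 1) → RWM μ Q g →
  ∃ κ : ℕ → Ω → ℝ, (∀ h, Integrable (κ h) μ) ∧
    Tendsto (fun H : ℕ => (H : ℝ)⁻¹ * ∑ h ∈ range H, ∫ x, |κ h x| ∂μ) atTop (𝓝 0) ∧
    ∀ (h : ℕ) (ε : ℝ), 0 < ε → ∃ N₀ : ℕ, ∀ N ≥ N₀,
      ∫ x, |MRec.corr B P g N h x - κ h x| ∂μ ≤ ε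

/-- GTH. The contribution of `g` (copy of MRec.term3; the weights may depend on `x`, as
MRec.block_ineq is applied pointwise; `∫ y, g (B^[h] y) * g y` is replaced by `κ h x`). -/
def T_GTH : Prop := ∀ (Ω : Type u) [MeasurableSpace Ω] (μ : Measure Ω) [IsProbabilityMeasure μ]
  (B P S₁ S₂ : Ω → Ω), MeasurePreserving B μ μ → MeasurePreserving P μ μ →
  (∀ x, B (P x) = P (B x)) → Measurable S₁ → Measurable S₂ → ∀ f g : Ω → ℝ, Measurable f →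
  (∀ x, |f x| ≤ 1) → Measurable g → (∀ x, |g x| ≤ 1) → ∀ (w : Ω → ℕ → ℝ) (W : ℝ),
  (∀ n, Measurable fun x => w x n) → (∀ x n, |w x n| ≤ W) → ∀ κ : ℕ → Ω → ℝ,
  (∀ h, Integrable (κ h) μ) →
  Tendsto (fun H : ℕ => (H : ℝ)⁻¹ * ∑ h ∈ range H, ∫ x, |κ h x| ∂μ) atTop (𝓝 0) →
  (∀ (h : ℕ) (ε : ℝ), 0 < ε → ∃ N₀ : ℕ, ∀ N ≥ N₀,
    ∫ x, |MRec.corr B P g N h x - κ h x| ∂μ ≤ ε) →
  ∀ ε : ℝ, 0 < ε → ∃ H : ℕ, 0 < H ∧ ∃ L₀ : ℕ, ∀ L ≥ L₀, ∀ s s' : ℕ,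
    ∫ x, |((H * L : ℕ) : ℝ)⁻¹ * ∑ j ∈ range (H * L), ((H * L : ℕ) : ℝ)⁻¹ *
      ∑ i ∈ range (H * L), (w x (s + i) * w x (s' + j)) * (f x * g (B^[s + i] (P^[s' + j] x))
        * f (S₁^[s + i] x) * f (S₂^[s' + j] x))| ∂μ ≤ ε

/-- CTH. The contribution of `c (B^i P^j x) - c x`. PROOF. `|c(y) - c(x)| ≤ |c(y) - p(y)| +
|c(x) - p(x)| + |p(y) - p(x)|`, `y = B^i P^j x`. The integral of `w_x(i) w_x(j) |c - p|(y)` is that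
of `w_x(i) w_x(j) |c - p|(x)` (invariance of the weights, `B^i P^j` measure preserving). For a.e.
`x ∈ E i ∩ E j`: `P^j x ∈ E i`, so `|p(y) - p(x)| ≤ 4 ε`; else it is `≤ 1`. With
`a = wm w N s`, `a' = wm w N s'` (`|a|, |a'| ≤ W`, close to `1` in `L¹`) and `r`, `r'` the means of
`w 1{∉ E}`: the average of the integrals is at most
`2 ∫ |c-p| a a' + 4 ε ∫ a a' + ∫ (r a' + a r') ≤ 2 ε + 4 ε + 4 ε + o(1)`, where
`|a a' - 1| ≤ W |a - 1| + |a' - 1|`, `∫ r a' ≤ ∫ r + W ∫ |a' - 1|`. -/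
def T_CTH : Prop := ∀ (Ω : Type u) [MeasurableSpace Ω] (μ : Measure Ω) [IsProbabilityMeasure μ]
  (B P : Ω → Ω), MeasurePreserving B μ μ → MeasurePreserving P μ μ → (∀ x, B (P x) = P (B x)) →
  ∀ c p : Ω → ℝ, Measurable c → (∀ x, 0 ≤ c x) → (∀ x, c x ≤ 1) → Measurable p →
  (∀ x, 0 ≤ p x) → (∀ x, p x ≤ 1) → ∀ (w : Ω → ℕ → ℝ) (W : ℝ), (∀ n, Measurable fun x => w x n) →
  (∀ x n, 0 ≤ w x n) → (∀ x n, w x n ≤ W) → (∀ x n, w (B x) n = w x n) →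
  (∀ x n, w (P x) n = w x n) → ∀ (E : ℕ → Set Ω), (∀ n, MeasurableSet (E n)) →
  (∀ n x, P x ∈ E n ↔ x ∈ E n) → ∀ (q : ℕ) (ε : ℝ), 1 ≤ q → 0 < ε → ∫ x, |c x - p x| ∂μ ≤ ε →
  (∀ n, ∀ᵐ x ∂μ, x ∈ E n → |p (B^[n] x) - p x| ≤ 2 * ε ∧ |p (P^[n] x) - p x| ≤ 2 * ε) →
  (∀ ε' : ℝ, 0 < ε' → ∃ N₀ : ℕ, ∀ N ≥ N₀, q ∣ N → ∀ s : ℕ, ∫ x, |wm w N s x - 1| ∂μ ≤ ε') →
  (∃ N₀ : ℕ, ∀ N ≥ N₀, q ∣ N → ∀ s : ℕ,
    ∫ x, wm (fun x n => w x n * one (E n)ᶜ x) N s x ∂μ ≤ 2 * ε) →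
  ∃ N₀ : ℕ, ∀ N ≥ N₀, q ∣ N → ∀ s s' : ℕ,
    ∫ x, (N : ℝ)⁻¹ * ∑ j ∈ range N, (N : ℝ)⁻¹ * ∑ i ∈ range N, (w x (s + i) * w x (s' + j)) *
      |c (B^[s + i] (P^[s' + j] x)) - c x| ∂μ ≤ 11 * ε

/-- AME. The main estimate (compare MRec.main_est). PROOF. Suppose that for some `s, s'` all the
measures vanish. With `D₁ = wav S₁ w (one X) N s`, `D₂ = wav S₂ w (one X) N s'` and `f = c + g`:
`0 = (1/N²) ∑ ∫ w_x(i) w_x(j) 1_X(x) f(B^i P^j x) 1_X(S₁^i x) 1_X(S₂^j x)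
= ∫ 1_X c D₁ D₂ + (term with c(B^i P^j x) - c(x)) + (term with g)`; (`f x ≠ 0 → x ∈ A`). The
second is `≥ - 11 ε` (CTH), the third `≥ - ε` (GTH with `f = one X`, `N = H L`, `q ∣ L`). On `X`
off two sets of measure `≤ μ X / 4` each, `D₁, D₂ ≥ δ`, so the first is
`≥ γ δ² μ X / 2`. -/
def T_AME : Prop := ∀ (Ω : Type u) [MeasurableSpace Ω] (μ : Measure Ω) [IsProbabilityMeasure μ]
  (B P S₁ S₂ : Ω → Ω), MeasurePreserving B μ μ → MeasurePreserving P μ μ →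
  (∀ x, B (P x) = P (B x)) → Measurable S₁ → Measurable S₂ → ∀ X A : Set Ω, MeasurableSet X →
  MeasurableSet A → ∀ f c p g : Ω → ℝ, Measurable f → (∀ x, 0 ≤ f x) → (∀ x, f x ≤ 1) →
  (∀ x, f x ≠ 0 → x ∈ A) → Measurable c → (∀ x, 0 ≤ c x) → (∀ x, c x ≤ 1) → Measurable p →
  (∀ x, 0 ≤ p x) → (∀ x, p x ≤ 1) → Measurable g → (∀ x, |g x| ≤ 1) → (∀ x, f x = c x + g x) →
  ∀ (w : Ω → ℕ → ℝ) (W : ℝ), (∀ n, Measurable fun x => w x n) →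
  (∀ x n, 0 ≤ w x n) → (∀ x n, w x n ≤ W) → (∀ x n, w (B x) n = w x n) →
  (∀ x n, w (P x) n = w x n) → ∀ (E : ℕ → Set Ω), (∀ n, MeasurableSet (E n)) →
  (∀ n x, P x ∈ E n ↔ x ∈ E n) → ∀ (q : ℕ) (ε : ℝ), 1 ≤ q → 0 < ε → ∫ x, |c x - p x| ∂μ ≤ ε →
  (∀ n, ∀ᵐ x ∂μ, x ∈ E n → |p (B^[n] x) - p x| ≤ 2 * ε ∧ |p (P^[n] x) - p x| ≤ 2 * ε) →
  (∀ ε' : ℝ, 0 < ε' → ∃ N₀ : ℕ, ∀ N ≥ N₀, q ∣ N → ∀ s : ℕ, ∫ x, |wm w N s x - 1| ∂μ ≤ ε') →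
  (∃ N₀ : ℕ, ∀ N ≥ N₀, q ∣ N → ∀ s : ℕ,
    ∫ x, wm (fun x n => w x n * one (E n)ᶜ x) N s x ∂μ ≤ 2 * ε) →
  ∀ κ : ℕ → Ω → ℝ, (∀ h, Integrable (κ h) μ) →
  Tendsto (fun H : ℕ => (H : ℝ)⁻¹ * ∑ h ∈ range H, ∫ x, |κ h x| ∂μ) atTop (𝓝 0) →
  (∀ (h : ℕ) (ε' : ℝ), 0 < ε' → ∃ N₀ : ℕ, ∀ N ≥ N₀,
    ∫ x, |MRec.corr B P g N h x - κ h x| ∂μ ≤ ε') →
  ∀ γ δ : ℝ, 0 < γ → 0 < δ → (∀ x ∈ X, γ ≤ c x) →
  (∃ N₀ : ℕ, ∀ N ≥ N₀, q ∣ N → ∀ s : ℕ,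
    μ.real {x | x ∈ X ∧ wav S₁ w (one X) N s x < δ} ≤ μ.real X / 4) →
  (∃ N₀ : ℕ, ∀ N ≥ N₀, q ∣ N → ∀ s : ℕ,
    μ.real {x | x ∈ X ∧ wav S₂ w (one X) N s x < δ} ≤ μ.real X / 4) →
  26 * ε < γ * δ ^ 2 * μ.real X →
  ∀ N₁ : ℕ, ∃ N ≥ N₁, 0 < N ∧ ∀ s s' : ℕ, ∃ i < N, ∃ j < N,
    μ (X ∩ {x | B^[s + i] (P^[s' + j] x) ∈ A} ∩ (S₁^[s + i]) ⁻¹' X ∩ (S₂^[s' + j]) ⁻¹' X) ≠ 0

/-- DIC. The Noetherian choice. PROOF. For measurable `X` let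
`Γ_S X = {α | ∃ n ≥ 1, OrbC μ S^[n] θ^α X}`, a subgroup of `Fin k → ℤ` (`OrbC` passes from `S^[n]`
to `S^[n m]` since ` (S^[n m])^[h] = (S^[n])^[m h]`; products and inverses), increasing when `X`
shrinks. The `ℤ`-module ` (Fin k → ℤ) × (Fin k → ℤ)` is Noetherian, so there is a non-null measurable
`X ⊆ A₀` with `Γ_{S₁} X × Γ_{S₂} X` maximal. Both are finitely generated; let `q₀` be the product
of the `n` of the generators. For `q₀ ∣ q`: `α ∈ Γ_S X` gives `OrbC μ S^[q] θ^α X`; `α ∉ Γ_S X`: if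
`Y ⊆ X` is measurable with `OrbC μ S^[q] θ^α Y` and `μ Y ≠ 0` then `α ∈ Γ_S Y = Γ_S X`,
contradiction. -/
def T_DIC : Prop := ∀ (Ω : Type u) [MeasurableSpace Ω] (μ : Measure Ω) (S₁ S₂ : Ω → Ω) (k : ℕ)
  (θ : Fin k → Ω → Circle) (A₀ : Set Ω), MeasurableSet A₀ → μ A₀ ≠ 0 →
  ∃ X : Set Ω, X ⊆ A₀ ∧ MeasurableSet X ∧ μ X ≠ 0 ∧ ∃ q₀ : ℕ, 1 ≤ q₀ ∧
    ∀ q : ℕ, 1 ≤ q → q₀ ∣ q → ∀ α : Fin k → ℤ,
      (OrbC μ S₁^[q] (fun x => ∏ j, θ j x ^ α j) X ∨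
        NoC μ S₁^[q] (fun x => ∏ j, θ j x ^ α j) X) ∧
      (OrbC μ S₂^[q] (fun x => ∏ j, θ j x ^ α j) X ∨
        NoC μ S₂^[q] (fun x => ∏ j, θ j x ^ α j) X)

/-- CHR. PROOF. Every `chr τ p` with `τ l ∈ freq θ Λ` is `ζ ∏ θ_j^(α_j)` for a constant `ζ` and some
`α` (the set of such functions is closed under products and inverses); `OrbC` and `NoC` do not
change under multiplication by a constant. -/
def T_CHR : Prop := ∀ (Ω : Type u) [MeasurableSpace Ω] (μ : Measure Ω) (S : Ω → Ω) (k : ℕ)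
  (θ : Fin k → Ω → Circle) (Λ : Set Circle) (X : Set Ω) (m d : ℕ) (τ : Fin d → Ω → Circle),
  (∀ l, τ l ∈ freq θ Λ) →
  (∀ α : Fin k → ℤ, OrbC μ S (fun x => ∏ j, θ j x ^ α j) X ∨
    NoC μ S (fun x => ∏ j, θ j x ^ α j) X) →
  ∀ p : Fin d → Fin m × Fin m, OrbC μ S (chr τ p) X ∨ NoC μ S (chr τ p) X

/-- CTL. Control of `p` at the times `n`. PROOF. Let `n = q₀ q₁ i` and `x ∈ E n`. Since
`|z^(q₀ i) - 1| ≤ q₀ |z^i - 1|`, `x ∈ bohr τ ρ (q₀ i)`, so `|p (Q^n x) - p x| ≤ ε` for a.e.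
`x ∈ E n`. `E n` is `Q`-invariant and `Q`, `Q'` preserve null sets. `B = P = Q`: done.
` (Q ∘ Q)^[n] = Q^[2 n]` (MRec.iterate_two): twice. `P = Q'`: at the point `Q'^n x`. -/
def T_CTL : Prop := ∀ (Ω : Type u) [MeasurableSpace Ω] (μ : Measure Ω) [IsProbabilityMeasure μ]
  (Q Q' B P : Ω → Ω), MeasurePreserving Q μ μ → MeasurePreserving Q' μ μ → (∀ x, Q' (Q x) = x) →
  (∀ x, Q (Q' x) = x) → ((B = Q ∧ P = Q) ∨ (B = Q ∘ Q ∧ P = Q')) →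
  ∀ (d : ℕ) (τ : Fin d → Ω → Circle), (∀ l x, τ l (Q x) = τ l x) → ∀ p : Ω → ℝ, Measurable p →
  ∀ (ε ρ : ℝ) (q₀ q₁ : ℕ), 0 ≤ ε → 0 < ρ → 1 ≤ q₀ → 1 ≤ q₁ →
  (∀ n : ℕ, ∀ᵐ x ∂μ, x ∈ bohr τ ρ n → |p (Q^[q₁ * n] x) - p x| ≤ ε) →
  ∀ n : ℕ, ∀ᵐ x ∂μ, (q₀ * q₁ ∣ n ∧ x ∈ bohr τ (ρ / q₀) (n / (q₀ * q₁))) →
    |p (B^[n] x) - p x| ≤ 2 * ε ∧ |p (P^[n] x) - p x| ≤ 2 * ε

/-- REC. Assembly. PROOF. `F = freq θ Λ` (all members measurable and `Q`-invariant). DEC gives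
`c, g, γ`; ORT and RWM give `RWM μ Q g` (`FinRank`); COR gives `κ`. DIC for
`A₀ = {x ∈ A ∩ Z | γ ≤ c x}`: `X`, `q₀`. Let `δ = μ X / 12` (real), `ε > 0` with
`26 ε < γ δ² μ X`. DEC (i) for `ε`: `p` and (unfold `AP`) `q₁, ρ, d, τ`. `q = q₀ q₁`,
`m ≥ 1` with `d 4/(m (ρ/q₀)²) ≤ ε`, `w = nw q m τ`, `W = q m^d`,
`E n = {x | q ∣ n ∧ x ∈ bohr τ (ρ/q₀) (n/q)}` (for `q ∤ n` the weight is `0`). Hypotheses of AME:
NWA, NWB, NWC, NWD with CHR and DIC for `S₁`, `S₂` (`3 δ = μ X / 4`), CTL. The set in AME is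
contained in the set in the claim (`X ⊆ A`). -/
def T_REC : Prop := ∀ (Ω : Type u) [MeasurableSpace Ω] (μ : Measure Ω) [IsProbabilityMeasure μ]
  (Q Q' B P S₁ S₂ : Ω → Ω), MeasurePreserving Q μ μ → MeasurePreserving Q' μ μ →
  (∀ x, Q' (Q x) = x) → (∀ x, Q (Q' x) = x) → ((B = Q ∧ P = Q) ∨ (B = Q ∘ Q ∧ P = Q')) →
  MeasurePreserving S₁ μ μ → MeasurePreserving S₂ μ μ → ∀ (Z A : Set Ω), MeasurableSet Z →
  (∀ x, Q x ∈ Z ↔ x ∈ Z) → MeasurableSet A → μ (A ∩ Z) ≠ 0 → ∀ (k : ℕ) (θ : Fin k → Ω → Circle)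
  (Λ : Set Circle), FinRank μ Q Z θ Λ →
  ∀ N₁ : ℕ, ∃ N ≥ N₁, 0 < N ∧ ∀ s s' : ℕ, ∃ i < N, ∃ j < N,
    μ (A ∩ {x | B^[s + i] (P^[s' + j] x) ∈ A} ∩ (S₁^[s + i]) ⁻¹' A ∩ (S₂^[s' + j]) ⁻¹' A) ≠ 0

end Pool.Agent.FSP
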